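import Pool.Agent.Helper39.QM.St
import Pool.Agent.Helper64.C3.KChain
import Pool.Agent.Helper64.C3.Growth
import Pool.Agent.Helper64.C3.UpperN

/-!
# QM, module GROW: the Koebe growth theorem (upper bound)
-/

set_option autoImplicit false

open Metric Set Filter Topology
open scoped ComplexConjugate

namespace Pool.Agent.Helper39.QM

open Pool.Agent.Helper64.C3

/-- Pick's growth bound up to a factor larger than one -/
private theorem pick_eps_Grow {α : ℝ} (hα : 0 < α) {h : ℂ → ℂ} (hh : SelfMap h)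
    (hi : InjOn h (ball 0 1)) (hder : deriv h 0 = (α : ℂ)) {Cg : ℝ} (hCg1 : 1 < Cg) :
    ∀ z ∈ ball (0 : ℂ) 1, ‖h z‖ / (1 - ‖h z‖) ^ 2 ≤ Cg * α * (‖z‖ / (1 - ‖z‖) ^ 2) := by
  have hα1 := deriv_le_one hh hα hder
  set ℓ := -Real.log α with hℓ
  have hℓ0 : 0 ≤ ℓ := by
    have := Real.log_nonpos hα.le hα1
    linarith
  obtain ⟨τ, hτ0, hτ1, hτ2⟩ : ∃ τ : ℝ, 0 < τ ∧ τ ≤ 1 / 4 ∧ Real.exp (τ * ℓ) ≤ Cg * (1 - τ) := by
    have hcont : Continuous fun τ : ℝ => Cg * (1 - τ) - Real.exp (τ * ℓ) := by fun_prop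
    have h0 : 0 < Cg * (1 - (0 : ℝ)) - Real.exp (0 * ℓ) := by
      rw [zero_mul, Real.exp_zero]; linarith
    have hev : ∀ᶠ τ in 𝓝[>] (0 : ℝ), 0 < Cg * (1 - τ) - Real.exp (τ * ℓ) :=
      (hcont.continuousAt.eventually (lt_mem_nhds h0)).filter_mono nhdsWithin_le_nhds
    have hev2 : ∀ᶠ τ in 𝓝[>] (0 : ℝ), τ ∈ Ioo (0 : ℝ) (1 / 4) :=
      Ioo_mem_nhdsGT (by norm_num)
    obtain ⟨τ, h1, h2⟩ := (hev.and hev2).exists
    exact ⟨τ, h2.1, h2.2.le, by linarith⟩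
  have hrc0 : 0 < 1 - τ := by linarith
  have hrc1 : 1 - τ < 1 := by linarith
  obtain ⟨m, p₀, H, χ, hc, hp₀, hp₀1, hqm, hHm⟩ := exists_chain hrc0 hrc1 hh hi hα hder
  obtain ⟨hκ1, hκ2⟩ := kappa_bounds hrc0 hrc1
  set q := 2 * Real.sqrt (1 - τ) / (1 + (1 - τ)) with hq
  have hq0 : 0 < q := by linarith
  have h1q : 0 < 1 - q := by linarith
  have h1qτ : 1 - q ≤ τ := by linarith
  have hp₀0 : 0 < p₀ := by linarith
  have hm1 : m * (1 - q) ≤ ℓ := by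
    have h1 : α ≤ q ^ m := by
      rw [← hqm]
      have : q ^ m * p₀ ≤ q ^ m * 1 := mul_le_mul_of_nonneg_left hp₀1 (by positivity)
      linarith
    have h2 : Real.log α ≤ m * Real.log q := by
      rw [← Real.log_pow]
      exact Real.log_le_log hα h1
    have h3 : Real.log q ≤ q - 1 := Real.log_le_sub_one_of_pos hq0
    have h4 : (m : ℝ) * Real.log q ≤ m * (q - 1) := mul_le_mul_of_nonneg_left h3 (by positivity)
    rw [hℓ]
    linarith
  have hm2 : m * (1 - q) ^ 2 ≤ τ * ℓ := by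
    calc m * (1 - q) ^ 2 = (m * (1 - q)) * (1 - q) := by ring
      _ ≤ ℓ * τ := mul_le_mul hm1 h1qτ h1q.le hℓ0
      _ = τ * ℓ := by ring
  have hCg : (1 + (1 - q) ^ 2) ^ m ≤ Cg * p₀ := by
    have h1 : (1 + (1 - q) ^ 2) ^ m ≤ Real.exp (m * (1 - q) ^ 2) := by
      rw [Real.exp_nat_mul]
      apply pow_le_pow_left₀ (by positivity)
      have := Real.add_one_le_exp ((1 - q) ^ 2)
      linarith
    have h2 : Real.exp (m * (1 - q) ^ 2) ≤ Real.exp (τ * ℓ) := Real.exp_le_exp.2 hm2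
    have h3 : Cg * (1 - τ) ≤ Cg * p₀ := mul_le_mul_of_nonneg_left hp₀ (by linarith)
    linarith
  intro z hz
  have h1 := hc.lv (by linarith) hκ2.le hp₀0 (Cg := Cg) hCg m le_rfl
  rw [hqm] at h1
  have := h1.grow z hz
  rwa [hHm z hz] at this

/-- Pick's growth bound -/
private theorem pick_Grow {α : ℝ} (hα : 0 < α) {h : ℂ → ℂ} (hh : SelfMap h)
    (hi : InjOn h (ball 0 1)) (hder : deriv h 0 = (α : ℂ)) {z : ℂ} (hz : z ∈ ball (0 : ℂ) 1) :
    ‖h z‖ / (1 - ‖h z‖) ^ 2 ≤ α * (‖z‖ / (1 - ‖z‖) ^ 2) := by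
  have hcont : Continuous fun c : ℝ => c * α * (‖z‖ / (1 - ‖z‖) ^ 2) := by fun_prop
  have ht : Tendsto (fun c : ℝ => c * α * (‖z‖ / (1 - ‖z‖) ^ 2)) (𝓝[>] 1)
      (𝓝 (1 * α * (‖z‖ / (1 - ‖z‖) ^ 2))) := (hcont.tendsto 1).mono_left nhdsWithin_le_nhds
  rw [one_mul] at ht
  apply ge_of_tendsto ht
  filter_upwards [self_mem_nhdsWithin] with c hc
  exact pick_eps_Grow hα hh hi hder hc z hz

/-- the dilated function -/
private theorem dil_Grow {f : ℂ → ℂ} (hf : ClassS f) {R : ℝ} (hR0 : 0 < R) (hR1 : R < 1) {z : ℂ}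
    (hz : ‖z‖ < 1) : ‖f (R * z)‖ * (1 - ‖z‖) ^ 2 ≤ R * ‖z‖ := by
  obtain ⟨hd, hi, h0, h1⟩ := hf
  obtain ⟨C, hC0, hC⟩ := bound_ball hd hR0 hR1
  have hRC : (R : ℂ) ≠ 0 := by exact_mod_cast hR0.ne'
  have hmem : ∀ w ∈ ball (0 : ℂ) 1, ‖(R : ℂ) * w‖ ≤ R ∧ (R : ℂ) * w ∈ ball (0 : ℂ) 1 := by
    intro w hw
    rw [mem_ball_zero_iff] at hw ⊢
    rw [norm_mul, Complex.norm_real, Real.norm_of_nonneg hR0.le]
    constructor <;> nlinarith [norm_nonneg w]
  set N := C + 1 with hN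
  have hN0 : 0 < N := by linarith
  have hNC : (N : ℂ) ≠ 0 := by exact_mod_cast hN0.ne'
  have hlt : ∀ w ∈ ball (0 : ℂ) 1, ‖f (R * w) / N‖ < 1 := by
    intro w hw
    rw [norm_div, Complex.norm_real, Real.norm_of_nonneg hN0.le, div_lt_one hN0]
    have := hC _ (hmem w hw).1
    linarith
  have hself : SelfMap (fun w => f (R * w) / N) := by
    refine ⟨?_, fun w hw => ?_, ?_⟩
    · apply DifferentiableOn.div_const
      exact hd.comp (by fun_prop) (fun w hw => (hmem w hw).2)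
    · rw [mem_ball_zero_iff]
      exact hlt w hw
    · simp [h0]
  have hinj : InjOn (fun w => f (R * w) / N) (ball 0 1) := by
    intro x hx w hw hxw
    have h3 : f (R * x) = f (R * w) := (div_left_inj' hNC).1 hxw
    exact mul_left_cancel₀ hRC (hi (hmem x hx).2 (hmem w hw).2 h3)
  have hder : deriv (fun w => f (R * w) / N) 0 = ((R / N : ℝ) : ℂ) := by
    have h0b : (0 : ℂ) ∈ ball (0 : ℂ) 1 := by simp
    have a1 : HasDerivAt f 1 ((R : ℂ) * 0) := by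
      rw [mul_zero, ← h1]
      exact (hd.differentiableAt (isOpen_ball.mem_nhds h0b)).hasDerivAt
    have a2 : HasDerivAt (fun z : ℂ => (R : ℂ) * z) R 0 := by
      simpa using (hasDerivAt_id (0 : ℂ)).const_mul (R : ℂ)
    have a3 := (a1.comp 0 a2).div_const (N : ℂ)
    have a4 := a3.deriv
    rw [one_mul] at a4
    push_cast
    exact a4
  have hzb : z ∈ ball (0 : ℂ) 1 := by simpa using hz
  have hp := pick_Grow (by positivity : 0 < R / N) hself hinj hder hzb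
  have hx1 := hlt z hzb
  set x := ‖f (R * z) / N‖ with hx
  have hx0 : 0 ≤ x := norm_nonneg _
  have hfx : ‖f (R * z)‖ = N * x := by
    rw [hx, norm_div, Complex.norm_real, Real.norm_of_nonneg hN0.le]
    field_simp
  have h1x : 0 < 1 - x := by linarith
  have hz1 : 0 < 1 - ‖z‖ := by linarith
  have h2 : x ≤ x / (1 - x) ^ 2 := by
    rw [le_div_iff₀ (by positivity)]
    have h5 : (1 - x) ^ 2 ≤ 1 := by nlinarith
    nlinarith
  have h3 : x ≤ R / N * (‖z‖ / (1 - ‖z‖) ^ 2) := h2.trans hp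
  have h4 : R / N * (‖z‖ / (1 - ‖z‖) ^ 2) = R * ‖z‖ / (N * (1 - ‖z‖) ^ 2) := by
    field_simp
  rw [h4, le_div_iff₀ (by positivity)] at h3
  rw [hfx]
  linarith

theorem grow : StGrow := by
  intro f hf z hz
  have hfd := hf.1
  have hzb : z ∈ ball (0 : ℂ) 1 := by simpa using hz
  have hcz : ContinuousAt f z := (hfd.differentiableAt (isOpen_ball.mem_nhds hzb)).continuousAt
  have hc1 : ContinuousAt (fun R : ℝ => f ((R : ℂ) * z)) 1 := by
    have h1 : ContinuousAt (fun R : ℝ => (R : ℂ) * z) 1 := by fun_prop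
    have h2 : ContinuousAt f (((1 : ℝ) : ℂ) * z) := by simpa using hcz
    exact ContinuousAt.comp (f := fun R : ℝ => (R : ℂ) * z) (g := f) h2 h1
  have ht1 : Tendsto (fun R : ℝ => ‖f ((R : ℂ) * z)‖ * (1 - ‖z‖) ^ 2) (𝓝[<] 1)
      (𝓝 (‖f z‖ * (1 - ‖z‖) ^ 2)) := by
    have h3 := (hc1.norm.mul_const ((1 - ‖z‖) ^ 2)).tendsto
    simp only [Complex.ofReal_one, one_mul] at h3
    exact h3.mono_left nhdsWithin_le_nhds
  have ht2 : Tendsto (fun R : ℝ => R * ‖z‖) (𝓝[<] 1) (𝓝 ‖z‖) := by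
    have h3 : Tendsto (fun R : ℝ => R * ‖z‖) (𝓝 1) (𝓝 (1 * ‖z‖)) :=
      (continuous_id.mul continuous_const).tendsto 1
    rw [one_mul] at h3
    exact h3.mono_left nhdsWithin_le_nhds
  refine le_of_tendsto_of_tendsto ht1 ht2 ?_
  have hev : ∀ᶠ R in 𝓝[<] (1 : ℝ), R ∈ Ioo (0 : ℝ) 1 := Ioo_mem_nhdsLT (by norm_num)
  filter_upwards [hev] with R hR
  exact dil_Grow hf hR.1 hR.2 hz

end Pool.Agent.Helper39.QM
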