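import Pool.Agent.Helper39.QM.St
import Pool.Agent.Helper80.Bieb.Main
import Pool.Agent.Helper33.C3M6

/-!
# QM, module SLIT: omitted values and slit maps
-/

set_option autoImplicit false

open Metric Set Filter Topology Asymptotics

namespace Pool.Agent.Helper39.QM

open Pool.Agent.Helper64.C3

private theorem classS_Slit {g : ℂ → ℂ} {b c : ℂ} (hd : DifferentiableOn ℂ g (ball 0 1))
    (hi : InjOn g (ball 0 1)) (h0 : g 0 = 0) (hJ : Jet g 1 b c) : ClassS g ∧ coeff 2 g = b := by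
  obtain ⟨e1, e2, -⟩ := jet_unique (jet_of_diff hd h0) hJ
  exact ⟨⟨hd, hi, h0, e1⟩, e2⟩

private theorem bieb_Slit {g : ℂ → ℂ} (hg : ClassS g) : ‖coeff 2 g‖ ≤ 2 := by
  have h := Pool.Agent.Helper80.Bieb.bieberbach hg.1 hg.2.1 hg.2.2.1 hg.2.2.2
  have e : coeff 2 g = deriv (deriv g) 0 / 2 := by
    unfold coeff
    rw [iteratedDeriv_succ, iteratedDeriv_one]
    norm_num [Nat.factorial]
  rw [e, norm_div]
  have h2 : ‖(2 : ℂ)‖ = 2 := by norm_num
  rw [h2]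
  linarith

private theorem jet_mob_Slit {c : ℂ} (hc : c ≠ 0) :
    Jet (fun w : ℂ => c * w / (c - w)) 1 c⁻¹ (c⁻¹ ^ 2) := by
  unfold Jet
  have h1 : (fun z : ℂ => z * (1 / (c ^ 2 * (c - z)))) =o[𝓝 0] (fun _ : ℂ => (1 : ℂ)) := by
    rw [isLittleO_one_iff]
    have hcont : ContinuousAt (fun z : ℂ => z * (1 / (c ^ 2 * (c - z)))) 0 := by
      have : c ^ 2 * (c - 0) ≠ 0 := by
        rw [sub_zero]
        exact mul_ne_zero (pow_ne_zero 2 hc) hc
      fun_prop (disch := simpa using this)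
    have := hcont.tendsto
    simpa using this
  have h2 := (isBigO_refl (fun z : ℂ => z ^ 3) (𝓝 0)).mul_isLittleO h1
  simp only [mul_one] at h2
  refine h2.congr' ?_ (EventuallyEq.refl _ _)
  have hne : ∀ᶠ z : ℂ in 𝓝 0, z ≠ c := isOpen_ne.mem_nhds (Ne.symm hc)
  filter_upwards [hne] with z hz
  have hz' : (c - z) ≠ 0 := sub_ne_zero.2 (Ne.symm hz)
  field_simp
  ring

/-- omitted values -/
theorem omit_value : StOmit := by
  intro f hf c hc hom
  have hne : ∀ z ∈ ball (0 : ℂ) 1, c - f z ≠ 0 := fun z hz => sub_ne_zero.2 (Ne.symm (hom z hz))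
  obtain ⟨hd, hi, h0, h1⟩ := hf
  have hJf := jet_of_diff hd h0
  rw [h1] at hJf
  have hJ := jet_comp (jet_mob_Slit hc) hJf
  have e1 : (1 : ℂ) * 1 = 1 := one_mul 1
  rw [e1] at hJ
  have hgd : DifferentiableOn ℂ ((fun w : ℂ => c * w / (c - w)) ∘ f) (ball 0 1) := by
    have : DifferentiableOn ℂ (fun z => c * f z / (c - f z)) (ball 0 1) :=
      (hd.const_mul c).div (hd.const_sub c) hne
    exact this
  have hgi : InjOn ((fun w : ℂ => c * w / (c - w)) ∘ f) (ball 0 1) := by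
    intro z hz w hw h
    have h2 : c * f z / (c - f z) = c * f w / (c - f w) := h
    rw [div_eq_div_iff (hne z hz) (hne w hw)] at h2
    have h3 : c ^ 2 * f z = c ^ 2 * f w := by linear_combination h2
    exact hi hz hw (mul_left_cancel₀ (pow_ne_zero 2 hc) h3)
  have hg0 : ((fun w : ℂ => c * w / (c - w)) ∘ f) 0 = 0 := by simp [h0]
  obtain ⟨hS, h2⟩ := classS_Slit hgd hgi hg0 hJ
  have h3 := bieb_Slit hS
  rw [h2] at h3
  have e2 : 1 * coeff 2 f + c⁻¹ * 1 ^ 2 = c⁻¹ + coeff 2 f := by ring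
  rwa [e2] at h3

/-- slit maps -/
theorem slit : StSlit := by
  intro f hf z hz0 hz1
  set ρ : ℝ := ‖z‖ with hρ
  have hρ0 : 0 < ρ := norm_pos_iff.2 hz0
  have hρc : (ρ : ℂ) ≠ 0 := by exact_mod_cast hρ0.ne'
  set q : ℝ := 4 * ρ / (1 + ρ) ^ 2 with hq
  have hq0 : 0 < q := by positivity
  have hq1 : q < 1 := by
    rw [hq, div_lt_one (by positivity)]
    nlinarith [sq_pos_of_pos (sub_pos.2 hz1)]
  have hqc : (q : ℂ) ≠ 0 := by exact_mod_cast hq0.ne'
  set χ : ℂ := -z / ρ with hχ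
  have hχ1 : ‖χ‖ = 1 := by
    rw [hχ, norm_div, norm_neg, Complex.norm_real, Real.norm_of_nonneg hρ0.le, ← hρ,
      div_self hρ0.ne']
  have hχ0 : χ ≠ 0 := by
    intro h
    rw [h, norm_zero] at hχ1
    exact zero_ne_one hχ1
  have hzχ : χ * (-(ρ : ℂ)) = z := by
    rw [hχ]
    field_simp
  obtain ⟨hd, hi, h0, h1⟩ := hf
  have hJf := jet_of_diff hd h0
  rw [h1] at hJf
  have hFd := M6.rotf_diff hχ1 hd
  have hFi := M6.rotf_inj hχ1 hi
  have hF0 := M6.rotf_zero χ h0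
  have hFJ := M6.rotf_jet hχ1 hJf
  have hPm : MapsTo (M6.pick q) (ball 0 1) (ball 0 1) := fun w hw => M6.pick_mem hq0 hq1 hw
  have hJ := jet_comp (M6.jet_smul (q : ℂ)⁻¹) (jet_comp hFJ (M6.jet_pick hq0 hq1))
  have e1 : (q : ℂ)⁻¹ * (1 * q) = 1 := by field_simp
  rw [e1] at hJ
  set g : ℂ → ℂ := (fun w : ℂ => (q : ℂ)⁻¹ * w) ∘ (M6.rotf χ f ∘ M6.pick q) with hg
  have hgd : DifferentiableOn ℂ g (ball 0 1) := (hFd.comp (M6.pick_diff hq0 hq1) hPm).const_mul _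
  have hgi : InjOn g (ball 0 1) := by
    intro a ha b hb h
    have h2 := mul_left_cancel₀ (inv_ne_zero hqc) h
    exact M6.pick_inj hq0 hq1 ha hb (hFi (hPm ha) (hPm hb) h2)
  have hg0 : g 0 = 0 := by
    simp [hg, M6.pick_zero q, hF0]
  obtain ⟨hS, h2⟩ := classS_Slit hgd hgi hg0 hJ
  have hρb : -(ρ : ℂ) ∈ ball (0 : ℂ) 1 := by
    rw [mem_ball_zero_iff, norm_neg, Complex.norm_real, Real.norm_of_nonneg hρ0.le]
    exact hz1
  have h0b : (0 : ℂ) ∈ ball (0 : ℂ) 1 := by simp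
  have hFρ : M6.rotf χ f (-(ρ : ℂ)) = χ⁻¹ * f z := by
    unfold M6.rotf
    rw [hzχ]
  have hfz : f z ≠ 0 := by
    intro h
    have hzb : z ∈ ball (0 : ℂ) 1 := by
      rw [mem_ball_zero_iff]
      exact hz1
    exact hz0 (hi hzb h0b (h.trans h0.symm))
  set c : ℂ := (q : ℂ)⁻¹ * (χ⁻¹ * f z) with hc
  have hc0 : c ≠ 0 := mul_ne_zero (inv_ne_zero hqc) (mul_ne_zero (inv_ne_zero hχ0) hfz)
  have hom : ∀ w ∈ ball (0 : ℂ) 1, g w ≠ c := by
    intro w hw h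
    have h3 : (q : ℂ)⁻¹ * M6.rotf χ f (M6.pick q w) = (q : ℂ)⁻¹ * M6.rotf χ f (-(ρ : ℂ)) := by
      rw [hFρ]
      exact h
    have h4 := mul_left_cancel₀ (inv_ne_zero hqc) h3
    have h5 := hFi (hPm hw) hρb h4
    have h6 := M6.pick_koebe hq0 hq1 hw
    rw [h5] at h6
    have h7 : koebe (-(ρ : ℂ)) = -(q : ℂ) / 4 := by
      unfold koebe
      rw [hq]
      push_cast
      have h8 : (1 + (ρ : ℂ)) ≠ 0 := by exact_mod_cast (by positivity : (0 : ℝ) < 1 + ρ).ne'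
      rw [sub_neg_eq_add]
      field_simp
    rw [h7] at h6
    have h9 : 4 * koebe w = -1 := by
      have : (q : ℂ) * (4 * koebe w) = (q : ℂ) * (-1) := by linear_combination (-4 : ℂ) * h6
      exact mul_left_cancel₀ hqc this
    rw [M6.koebe_eq hw] at h9
    have h10 : M6.hp w = 0 := by
      have : M6.hp w ^ 2 = 0 := by linear_combination h9
      exact pow_eq_zero_iff two_ne_zero |>.1 this
    have h11 := M6.hp_re hw
    rw [h10] at h11
    simp at h11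
  have hmain := omit_value g hS c hc0 hom
  rw [h2] at hmain
  have e2 : c⁻¹ + ((q : ℂ)⁻¹ * (1 * (2 * q * (1 - q)) + χ * coeff 2 f * q ^ 2) + 0 * (1 * q) ^ 2) =
      (q * χ) * ((f z)⁻¹ + coeff 2 f) + 2 * (1 - q) := by
    rw [hc]
    field_simp
    ring
  rw [e2] at hmain
  have h12 : q * ‖(f z)⁻¹ + coeff 2 f‖ ≤ 4 - 2 * q := by
    have h13 : ‖((q : ℂ) * χ) * ((f z)⁻¹ + coeff 2 f)‖ = q * ‖(f z)⁻¹ + coeff 2 f‖ := by
      rw [norm_mul, norm_mul, hχ1, mul_one, Complex.norm_real, Real.norm_of_nonneg hq0.le]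
    have h14 : ‖(2 : ℂ) * (1 - q)‖ = 2 * (1 - q) := by
      have : (2 : ℂ) * (1 - q) = ((2 * (1 - q) : ℝ) : ℂ) := by push_cast; ring
      rw [this, Complex.norm_real, Real.norm_of_nonneg (by linarith)]
    have h15 := norm_sub_le (((q : ℂ) * χ) * ((f z)⁻¹ + coeff 2 f) + 2 * (1 - q)) (2 * (1 - q))
    rw [add_sub_cancel_right, h13, h14] at h15
    linarith
  have h16 : 4 - 2 * q = q * (ρ + ρ⁻¹) := by
    rw [hq]
    field_simp
    ring
  rw [h16] at h12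
  exact le_of_mul_le_mul_left h12 hq0

end Pool.Agent.Helper39.QM
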