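import Pool.Agent.Helper39.QM.M_Coef
import Pool.Agent.Helper80.Bieb.Main
import Pool.Agent.Helper64.C3.Q2

/-!
# QM: existence of `s`, the data of the normalised function, rotation to the maximal point
-/

set_option autoImplicit false

open Metric Set Filter Topology
open scoped ComplexConjugate

namespace Pool.Agent.Helper39.QM

open Pool.Agent.Helper64.C3

theorem exists_isS {f : ℂ → ℂ} (hf : ClassS f) : ∃ s, IsS f s := by
  obtain ⟨hd, hi, h0, h1⟩ := hf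
  have hmem0 : (0 : ℂ) ∈ ball (0 : ℂ) 1 := mem_ball_self one_pos
  have hnhds : ball (0 : ℂ) 1 ∈ nhds (0 : ℂ) := isOpen_ball.mem_nhds hmem0
  set ψ : ℂ → ℂ := dslope f 0 with hψdef
  have hψ : DifferentiableOn ℂ ψ (ball 0 1) := (Complex.differentiableOn_dslope hnhds).mpr hd
  have hφψ : ∀ z, f z = z * ψ z := by
    intro z
    have := sub_smul_dslope f 0 z
    rw [h0, sub_zero, sub_zero, smul_eq_mul] at this
    exact this.symm
  have hψ0 : ψ 0 = 1 := by
    rw [hψdef, dslope_same, h1]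
  have hψne : ∀ z ∈ ball (0 : ℂ) 1, ψ z ≠ 0 := by
    intro z hz hcon
    have h2 : f z = f 0 := by rw [hφψ z, hcon, mul_zero, h0]
    have h3 := hi hz hmem0 h2
    rw [h3, hψ0] at hcon
    exact one_ne_zero hcon
  obtain ⟨S, hS, hSψ, hS0, -⟩ := Helper80.Bieb.exists_sqrt_inv hψ hψne hψ0
  refine ⟨S, hS, hS0, ?_⟩
  intro z hz
  rw [hφψ z]
  linear_combination z * hSψ z hz

theorem bieb2 {f : ℂ → ℂ} (hf : ClassS f) : ‖coeff 2 f‖ ≤ 2 := by
  obtain ⟨hd, hi, h0, h1⟩ := hf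
  have h := Helper80.Bieb.bieberbach hd hi h0 h1
  unfold coeff
  rw [iteratedDeriv_succ, iteratedDeriv_one, norm_div]
  simp only [Nat.factorial_two, Nat.cast_ofNat, Complex.norm_two]
  linarith

theorem coeff_one_classS {f : ℂ → ℂ} (hf : ClassS f) : coeff 1 f = 1 := by
  rw [coeff_one, hf.2.2.2]

theorem coeff_one_s {f s : ℂ → ℂ} (hf : ClassS f) (hs : IsS f s) : coeff 1 s = -(coeff 2 f) / 2 := by
  have hss : DifferentiableOn ℂ (fun z => s z * s z) (ball 0 1) := hs.diff.mul hs.diff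
  have h1 : coeff 2 (fun z => f z * (s z * s z)) = coeff 2 (fun z : ℂ => z) := by
    apply coeff_congr
    intro z hz
    have := hs.eq z hz
    show f z * (s z * s z) = z
    linear_combination this
  have h2 : coeff 2 (fun z : ℂ => z) = 0 := by
    unfold coeff
    rw [iteratedDeriv_succ, iteratedDeriv_one]
    have : deriv (fun z : ℂ => z) = fun _ => (1 : ℂ) := by
      funext z; exact deriv_id z
    rw [this]
    simp
  rw [h2, coeff_mul hf.1 hss] at h1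
  rw [Finset.sum_range_succ, Finset.sum_range_succ, Finset.sum_range_succ, Finset.sum_range_zero] at h1
  have h3 : coeff 1 (fun z => s z * s z) = 2 * coeff 1 s := by
    rw [coeff_mul hs.diff hs.diff, Finset.sum_range_succ, Finset.sum_range_succ,
      Finset.sum_range_zero]
    simp only [coeff_zero, hs.zero, Nat.sub_zero, Nat.sub_self]
    ring
  have h4 : coeff 0 (fun z => s z * s z) = 1 := by
    rw [coeff_zero]; simp [hs.zero]
  simp only [Nat.sub_zero, Nat.sub_self, Nat.reduceSub] at h1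
  rw [coeff_zero f, hf.2.2.1, coeff_one_classS hf, h3, h4] at h1
  linear_combination h1 / 2

theorem s_ne {f s : ℂ → ℂ} (hs : IsS f s) {z : ℂ} (hz : ‖z‖ < 1) : s z ≠ 0 := by
  intro h
  have h1 := hs.eq z (by simpa using hz)
  rw [h] at h1
  have h2 : z = 0 := by rw [← h1]; ring
  rw [h2, hs.zero] at h
  exact one_ne_zero h

theorem norm_sq_s {f s : ℂ → ℂ} (hs : IsS f s) {z : ℂ} (hz : ‖z‖ < 1) :
    ‖f z‖ * ‖s z‖ ^ 2 = ‖z‖ := by
  have h1 := hs.eq z (by simpa using hz)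
  rw [← norm_pow, ← norm_mul, h1]

theorem s_grow (HG : StGrow) {f s : ℂ → ℂ} (hf : ClassS f) (hs : IsS f s) {z : ℂ} (hz : ‖z‖ < 1) :
    1 - ‖z‖ ≤ ‖s z‖ := by
  rcases eq_or_ne z 0 with rfl | hz0
  · rw [hs.zero]; simp
  · have h1 := HG f hf z hz
    have h2 := norm_sq_s hs hz
    have hzp : 0 < ‖z‖ := norm_pos_iff.2 hz0
    have hfp : 0 < ‖f z‖ := by
      rcases (norm_nonneg (f z)).eq_or_lt with h | h
      · rw [← h, zero_mul] at h2
        linarith
      · exact h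
    have h3 : ‖f z‖ * (1 - ‖z‖) ^ 2 ≤ ‖f z‖ * ‖s z‖ ^ 2 := by rw [h2]; exact h1
    have h4 := le_of_mul_le_mul_left h3 hfp
    exact le_of_sq_le_sq h4 (norm_nonneg _)
where
  le_of_sq_le_sq {a b : ℝ} (h : a ^ 2 ≤ b ^ 2) (hb : 0 ≤ b) : a ≤ b := (abs_le_of_sq_le_sq' h hb).2

theorem rn_pos {n : ℕ} (hn : 2 ≤ n) : 0 < rn n := by
  have h2 : (2 : ℝ) ≤ n := by exact_mod_cast hn
  unfold rn
  have : 1 / (n : ℝ) ≤ 1 / 2 := one_div_le_one_div_of_le (by norm_num) h2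
  linarith

theorem rn_lt {n : ℕ} (hn : 2 ≤ n) : rn n < 1 := by
  have h2 : (2 : ℝ) ≤ n := by exact_mod_cast hn
  unfold rn
  have : 0 < 1 / (n : ℝ) := by positivity
  linarith

theorem sum_Icc_one {N : ℕ} (hN : 1 ≤ N) (F : ℕ → ℝ) :
    ∑ j ∈ Finset.Icc 1 N, F j = F 1 + ∑ j ∈ Finset.Icc 2 N, F j := by
  rw [← Finset.insert_Icc_add_one_left_eq_Icc hN, Finset.sum_insert (by simp)]
  rfl

theorem norm_sigma {f s : ℂ → ℂ} (hf : ClassS f) (hs : IsS f s) :
    ‖coeff 1 s‖ ^ 2 = ‖coeff 2 f‖ ^ 2 / 4 := by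
  rw [coeff_one_s hf hs, norm_div, norm_neg, Complex.norm_two, div_pow]
  norm_num

/-- the area inequality, tail form -/
theorem area_tail (HA : StArea) {f s : ℂ → ℂ} (hf : ClassS f) (hs : IsS f s) (N : ℕ) :
    ∑ j ∈ Finset.Icc 2 N, (2 * (j : ℝ) - 1) * ‖coeff j s‖ ^ 2 ≤ 2 - ‖coeff 2 f‖ := by
  have h1 := HA f s hf hs (max N 1)
  rw [sum_Icc_one (le_max_right N 1), norm_sigma hf hs] at h1
  have h3 : ∑ j ∈ Finset.Icc 2 N, (2 * (j : ℝ) - 1) * ‖coeff j s‖ ^ 2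
      ≤ ∑ j ∈ Finset.Icc 2 (max N 1), (2 * (j : ℝ) - 1) * ‖coeff j s‖ ^ 2 := by
    apply Finset.sum_le_sum_of_subset_of_nonneg
    · exact Finset.Icc_subset_Icc_right (le_max_left N 1)
    · intro j hj _
      have h2 : (2 : ℝ) ≤ j := by exact_mod_cast (Finset.mem_Icc.1 hj).1
      have : 0 ≤ 2 * (j : ℝ) - 1 := by linarith
      positivity
  have h4 := bieb2 hf
  norm_num at h1
  nlinarith [norm_nonneg (coeff 2 f)]

/-- the area inequality with the first coefficient of `ε` -/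
theorem area_ee (HA : StArea) {f s : ℂ → ℂ} (hf : ClassS f) (hs : IsS f s) {N : ℕ} (hN : 1 ≤ N) :
    ∑ j ∈ Finset.Icc 1 N, (2 * (j : ℝ) - 1) * ‖ee s j‖ ^ 2 ≤ (2 - coeff 2 f).re := by
  have h1 := HA f s hf hs N
  rw [sum_Icc_one hN] at h1 ⊢
  have h2 : ∑ j ∈ Finset.Icc 2 N, (2 * (j : ℝ) - 1) * ‖ee s j‖ ^ 2
      = ∑ j ∈ Finset.Icc 2 N, (2 * (j : ℝ) - 1) * ‖coeff j s‖ ^ 2 := by
    apply Finset.sum_congr rfl
    intro j hj
    have hj2 := (Finset.mem_Icc.1 hj).1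
    rw [ee, if_neg (by omega), if_neg (by omega)]
  have h3 : ee s 1 = 1 + coeff 1 s := by simp [ee]
  rw [h2, h3]
  have h4 : ‖1 + coeff 1 s‖ ^ 2 = 1 + 2 * (coeff 1 s).re + ‖coeff 1 s‖ ^ 2 := by
    rw [← Complex.normSq_eq_norm_sq, ← Complex.normSq_eq_norm_sq, Complex.normSq_apply,
      Complex.normSq_apply]
    simp
    ring
  have h5 : 2 * (coeff 1 s).re = -(coeff 2 f).re := by
    rw [coeff_one_s hf hs]
    simp
    ring
  rw [h4, h5]
  simp only [Complex.sub_re, Complex.re_ofNat]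
  norm_num at h1 ⊢
  linarith

theorem qdata (HA : StArea) (HG : StGrow) (HM : StMax) (HGol : StGol) {f s : ℂ → ℂ}
    (hf : ClassS f) (hs : IsS f s) {n : ℕ} (hn : 2 ≤ n)
    (hmax : ∀ z : ℂ, ‖z‖ ≤ rn n → ‖f z‖ ≤ ‖f (rn n : ℂ)‖) : QData n (2 - ‖coeff 2 f‖) s := by
  obtain ⟨m1, m2⟩ := HM f s (rn n) hf hs (rn_pos hn) (rn_lt hn) hmax
  have hb := bieb2 hf
  refine ⟨hs.diff, hs.zero, by linarith, area_tail HA hf hs, fun z hz => s_grow HG hf hs hz, ?_,
    m2, ?_⟩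
  · refine m1.trans ?_
    have h1 := rn_lt hn
    have h2 : 1 - rn n = 1 / (n : ℝ) := by unfold rn; ring
    rw [h2]
    nlinarith
  · intro w hw
    have h1 := HGol f s hf hs w (conj w) hw (by rwa [RCLike.norm_conj])
    have h2 : GG (conj w) = GG w := by unfold GG; rw [RCLike.norm_conj]
    have hw1 : 0 < 1 - ‖w‖ ^ 2 := by nlinarith [norm_nonneg w]
    rw [h2] at h1
    have h3 : GG w * (1 - ‖w‖ ^ 2) = 1 + ‖w‖ ^ 2 := by
      unfold GG; field_simp
    have h4 : (‖(w * s (conj w ^ 2) - conj w * s (w ^ 2)) * (w + conj w)‖ * (1 - ‖w‖ ^ 2)) ^ 2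
      ≤ (‖(w * s (conj w ^ 2) + conj w * s (w ^ 2)) * (w - conj w)‖ * (1 + ‖w‖ ^ 2)) ^ 2 := by
      rw [← h3, mul_pow, mul_pow]
      have h5 := mul_le_mul_of_nonneg_right h1 (sq_nonneg (1 - ‖w‖ ^ 2))
      refine h5.trans (le_of_eq ?_)
      ring
    exact (abs_le_of_sq_le_sq' h4 (by positivity)).2

/-- the maximal point -/
theorem exists_max {f : ℂ → ℂ} (hf : ClassS f) {r : ℝ} (hr0 : 0 < r) (hr1 : r < 1) :
    ∃ u : ℂ, ‖u‖ = 1 ∧ ∀ z : ℂ, ‖z‖ ≤ r → ‖M6.rotf u f z‖ ≤ ‖M6.rotf u f (r : ℂ)‖ := by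
  have hsub : closedBall (0 : ℂ) r ⊆ ball 0 1 := closedBall_subset_ball hr1
  have hc : ContinuousOn f (closedBall 0 r) := hf.1.continuousOn.mono hsub
  have hcomp : IsCompact (sphere (0 : ℂ) r) := isCompact_sphere 0 r
  have hne : (sphere (0 : ℂ) r).Nonempty := ⟨(r : ℂ), by simp [abs_of_pos hr0]⟩
  obtain ⟨z₀, hz₀, hmax⟩ := hcomp.exists_isMaxOn hne
    ((hc.mono sphere_subset_closedBall).norm)
  have hz₀n : ‖z₀‖ = r := by simpa using hz₀
  have hrC : (r : ℂ) ≠ 0 := by exact_mod_cast hr0.ne'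
  have hball : ∀ z : ℂ, ‖z‖ ≤ r → ‖f z‖ ≤ ‖f z₀‖ := by
    intro z hz
    have hd : DiffContOnCl ℂ f (ball 0 r) := by
      apply DifferentiableOn.diffContOnCl
      exact hf.1.mono (closure_ball_subset_closedBall.trans hsub)
    apply Complex.norm_le_of_forall_mem_frontier_norm_le isBounded_ball hd
    · intro w hw
      rw [frontier_ball (0 : ℂ) hr0.ne'] at hw
      exact hmax hw
    · rw [closure_ball (0 : ℂ) hr0.ne']
      simpa using hz
  refine ⟨z₀ / r, ?_, ?_⟩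
  · rw [norm_div, Complex.norm_real, Real.norm_of_nonneg hr0.le, hz₀n, div_self hr0.ne']
  · intro z hz
    have hu : ‖z₀ / r‖ = 1 := by
      rw [norm_div, Complex.norm_real, Real.norm_of_nonneg hr0.le, hz₀n, div_self hr0.ne']
    simp only [M6.rotf, norm_mul, norm_inv]
    apply mul_le_mul_of_nonneg_left _ (by positivity)
    rw [div_mul_cancel₀ z₀ hrC]
    apply hball
    rw [norm_mul, hu, one_mul]
    exact hz

/-- the transform `s` of a rotated function -/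
theorem isS_rot {f s : ℂ → ℂ} (hs : IsS f s) {u : ℂ} (hu : ‖u‖ = 1) :
    IsS (M6.rotf u f) (fun z => s (u * z)) := by
  have hu0 : u ≠ 0 := by
    intro h; rw [h, norm_zero] at hu; exact zero_ne_one hu
  refine ⟨?_, by simp [hs.zero], ?_⟩
  · exact hs.diff.comp (by fun_prop) (fun z hz => M6.rot_mem hu hz)
  · intro z hz
    have h := hs.eq (u * z) (M6.rot_mem hu hz)
    simp only [M6.rotf]
    rw [mul_assoc, h]
    field_simp

end Pool.Agent.Helper39.QM
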