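import Pool.Agent.Helper39.QM.St

/-!
# QM, module COEF: coefficients of products, the coefficients of `Q`
-/

set_option autoImplicit false

open Metric Set Filter Topology
open scoped ComplexConjugate

namespace Pool.Agent.Helper39.QM

open Pool.Agent.Helper64.C3

theorem cdAt {F : ℂ → ℂ} (hF : DifferentiableOn ℂ F (ball 0 1)) (n : ℕ) : ContDiffAt ℂ n F 0 :=
  (hF.analyticAt (isOpen_ball.mem_nhds (by simp))).contDiffAt

theorem hasSum_coeff {F : ℂ → ℂ} (hF : DifferentiableOn ℂ F (ball 0 1)) {z : ℂ} (hz : ‖z‖ < 1) :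
    HasSum (fun n => coeff n F * z ^ n) (F z) := by
  have h := Complex.hasSum_taylorSeries_on_ball hF (z := z) (by simpa using hz)
  refine h.congr_fun ?_
  intro n
  simp only [smul_eq_mul, sub_zero, coeff]
  ring

theorem coeff_mul {F G : ℂ → ℂ} (hF : DifferentiableOn ℂ F (ball 0 1))
    (hG : DifferentiableOn ℂ G (ball 0 1)) (n : ℕ) :
    coeff n (fun z => F z * G z) = ∑ i ∈ Finset.range (n + 1), coeff i F * coeff (n - i) G := by
  unfold coeff
  rw [iteratedDeriv_fun_mul (cdAt hF n) (cdAt hG n), Finset.sum_div]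
  apply Finset.sum_congr rfl
  intro i hi
  have hi' : i ≤ n := by
    have := Finset.mem_range.1 hi
    omega
  have h1 : (n.choose i : ℂ) * (i.factorial : ℂ) * ((n - i).factorial : ℂ) = (n.factorial : ℂ) := by
    exact_mod_cast Nat.choose_mul_factorial_mul_factorial hi'
  have h2 : (i.factorial : ℂ) ≠ 0 := by exact_mod_cast i.factorial_ne_zero
  have h3 : ((n - i).factorial : ℂ) ≠ 0 := by exact_mod_cast (n - i).factorial_ne_zero
  have h5 : (n.choose i : ℂ) ≠ 0 := by exact_mod_cast (Nat.choose_pos hi').ne'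
  rw [← h1]
  field_simp

theorem coeff_sub {F G : ℂ → ℂ} (hF : DifferentiableOn ℂ F (ball 0 1))
    (hG : DifferentiableOn ℂ G (ball 0 1)) (n : ℕ) :
    coeff n (fun z => F z - G z) = coeff n F - coeff n G := by
  unfold coeff
  rw [iteratedDeriv_fun_sub (cdAt hF n) (cdAt hG n), sub_div]

theorem coeff_add {F G : ℂ → ℂ} (hF : DifferentiableOn ℂ F (ball 0 1))
    (hG : DifferentiableOn ℂ G (ball 0 1)) (n : ℕ) :
    coeff n (fun z => F z + G z) = coeff n F + coeff n G := by
  unfold coeff
  rw [iteratedDeriv_fun_add (cdAt hF n) (cdAt hG n), add_div]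

theorem coeff_const (c : ℂ) (n : ℕ) : coeff n (fun _ => c) = if n = 0 then c else 0 := by
  unfold coeff
  rw [iteratedDeriv_const]
  by_cases h : n = 0
  · simp [h]
  · simp [h]

theorem coeff_zero (F : ℂ → ℂ) : coeff 0 F = F 0 := by
  simp [coeff]

theorem coeff_congr {F G : ℂ → ℂ} (h : EqOn F G (ball 0 1)) (n : ℕ) : coeff n F = coeff n G := by
  unfold coeff
  have h1 : F =ᶠ[𝓝 0] G := by
    filter_upwards [isOpen_ball.mem_nhds (by simp : (0 : ℂ) ∈ ball (0 : ℂ) 1)] with z hz
    exact h hz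
  rw [(h1.iteratedDeriv n).eq_of_nhds]

theorem coeff_one (F : ℂ → ℂ) : coeff 1 F = deriv F 0 := by
  simp [coeff, iteratedDeriv_one]

theorem coeff_one_sub (n : ℕ) :
    coeff n (fun z : ℂ => 1 - z) = if n = 0 then 1 else if n = 1 then -1 else 0 := by
  rcases n with _ | _ | n
  · simp [coeff]
  · rw [if_neg (by omega), if_pos rfl, coeff_one]
    have h : HasDerivAt (fun z : ℂ => 1 - z) (-1) 0 := by
      simpa using (hasDerivAt_id (0 : ℂ)).const_sub 1
    exact h.deriv
  · rw [if_neg (by omega), if_neg (by omega)]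
    unfold coeff
    rw [iteratedDeriv_succ']
    have h : deriv (fun z : ℂ => 1 - z) = fun _ => (-1 : ℂ) := by
      funext z
      have h : HasDerivAt (fun z : ℂ => 1 - z) (-1) z := by
        simpa using (hasDerivAt_id z).const_sub 1
      exact h.deriv
    rw [h, iteratedDeriv_const, if_neg (by omega), zero_div]

/-- multiplication by `1 - z` -/
theorem coeff_one_sub_mul {G : ℂ → ℂ} (hG : DifferentiableOn ℂ G (ball 0 1)) (n : ℕ) :
    coeff (n + 1) (fun z => (1 - z) * G z) = coeff (n + 1) G - coeff n G := by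
  have h1 : DifferentiableOn ℂ (fun z : ℂ => 1 - z) (ball 0 1) := by fun_prop
  rw [coeff_mul h1 hG, Finset.sum_range_succ', Finset.sum_range_succ']
  have h2 : ∑ i ∈ Finset.range n, coeff (i + 1 + 1) (fun z : ℂ => 1 - z) *
      coeff (n + 1 - (i + 1 + 1)) G = 0 := by
    apply Finset.sum_eq_zero
    intro i _
    rw [coeff_one_sub, if_neg (by omega), if_neg (by omega), zero_mul]
  rw [h2, coeff_one_sub, coeff_one_sub]
  simp
  ring

theorem one_sub_ne {z : ℂ} (hz : ‖z‖ < 1) : (1 : ℂ) - z ≠ 0 := by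
  intro h
  have : z = 1 := by linear_combination -h
  rw [this, norm_one] at hz
  exact lt_irrefl _ hz

theorem QQ_diff {s : ℂ → ℂ} (hs : DifferentiableOn ℂ s (ball 0 1)) :
    DifferentiableOn ℂ (QQ s) (ball 0 1) := by
  unfold QQ
  apply DifferentiableOn.sub_const
  apply hs.div (by fun_prop)
  intro z hz
  exact one_sub_ne (by simpa using hz)

theorem QQ_zero {s : ℂ → ℂ} (h0 : s 0 = 1) : QQ s 0 = 0 := by
  simp [QQ, h0]

theorem coeff_QQ {s : ℂ → ℂ} (hs : DifferentiableOn ℂ s (ball 0 1)) (h0 : s 0 = 1) (m : ℕ) :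
    coeff m (QQ s) = qq s m := by
  have hQ := QQ_diff hs
  have hG : DifferentiableOn ℂ (fun z => QQ s z + 1) (ball 0 1) := hQ.add_const 1
  have hsG : ∀ n, coeff n s = coeff n (fun z => (1 - z) * (QQ s z + 1)) := by
    intro n
    apply coeff_congr
    intro z hz
    have := one_sub_ne (show ‖z‖ < 1 by simpa using hz)
    simp only [QQ]
    field_simp
    ring
  have hstep : ∀ n, coeff (n + 1) (fun z => QQ s z + 1)
      = coeff (n + 1) s + coeff n (fun z => QQ s z + 1) := by
    intro n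
    rw [hsG (n + 1), coeff_one_sub_mul hG]
    ring
  have hc : ∀ n, coeff n (fun z => QQ s z + 1) = coeff n (QQ s) + if n = 0 then 1 else 0 := by
    intro n
    rw [coeff_add hQ (by fun_prop), coeff_const]
  induction m with
  | zero =>
    rw [coeff_zero, QQ_zero h0]
    simp [qq, ee]
  | succ m ih =>
    have h1 := hstep m
    rw [hc, hc, ih, if_neg (by omega), add_zero] at h1
    rw [h1]
    have h2 : qq s (m + 1) = qq s m + ee s (m + 1) := by
      unfold qq
      rw [Finset.sum_range_succ]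
    rw [h2]
    rcases m with _ | m
    · simp [ee]
      ring
    · simp [ee]
      ring

/-- the power series of `ε` -/
theorem hasSum_ee {s : ℂ → ℂ} (hs : DifferentiableOn ℂ s (ball 0 1)) (h0 : s 0 = 1) {z : ℂ}
    (hz : ‖z‖ < 1) : HasSum (fun j => ee s j * z ^ j) (s z - 1 + z) := by
  have h1 := hasSum_coeff hs hz
  have h2 : HasSum (fun j : ℕ => (if j = 0 then (-1 : ℂ) else 0)) (-1) := by
    have := hasSum_ite_eq (0 : ℕ) (-1 : ℂ)
    simpa using this
  have h3 : HasSum (fun j : ℕ => (if j = 1 then z else 0)) z := by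
    have := hasSum_ite_eq (1 : ℕ) z
    simpa using this
  have h4 := (h1.add h2).add h3
  have e : s z - 1 + z = s z + -1 + z := by ring
  rw [e]
  refine h4.congr_fun ?_
  intro j
  rcases j with _ | _ | j
  · simp [ee, coeff_zero, h0]
  · simp [ee]
    ring
  · simp [ee]

theorem coef : StCoef := ⟨fun _ _ n hF hG => coeff_mul hF hG n, fun _ hs h0 m => coeff_QQ hs h0 m⟩

end Pool.Agent.Helper39.QM
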