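import Pool.Agent.Helper39.QM.St
import Pool.Agent.Helper80.Bieb.Main
import Pool.Agent.Helper96.C3UB

/-!
# QM, module AREA: the area theorem for the odd square root transform
-/

set_option autoImplicit false

open Complex MeasureTheory Set Metric Real Filter Topology
open scoped ComplexConjugate

namespace Pool.Agent.Helper39.QM

open Pool.Agent.Helper64.C3
open Pool.Agent.Helper80.Bieb (ring isOpen_ring polar_eq_circleMap FF FF_subset Amap det_Amap det_mul)

/-- lower bound of an area integral over a ring -/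
private theorem lower_Area {g : ℂ → ℂ} {L : ℝ → ℝ} {ρ s : ℝ} (hρ : 0 < ρ) (hρs : ρ < s)
    (hgc : ContinuousOn g (ring ρ s)) (hL : ContinuousOn L (Icc ρ s)) (hL0 : ∀ r ∈ Ioo ρ s, 0 ≤ L r)
    (havg : ∀ r ∈ Ioo ρ s, L r ≤ circleAverage (fun z => ‖g z‖ ^ 2) 0 r) :
    ENNReal.ofReal (∫ r in ρ..s, r * (2 * π * L r))
      ≤ ∫⁻ z in ring ρ s, ENNReal.ofReal (‖g z‖ ^ 2) := by
  set G : ℂ → ℝ := fun z => ‖g z‖ ^ 2 with hG
  have hGc : ContinuousOn G (ring ρ s) := (hgc.norm).pow 2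
  have hmeas : MeasurableSet (ring ρ s) := (isOpen_ring ρ s).measurableSet
  set f : ℂ → ENNReal := (ring ρ s).indicator (fun z => ENNReal.ofReal (G z)) with hf
  have hfm : Measurable f := by
    have h1 : Measurable ((ring ρ s).indicator G) := by
      classical
      have := hGc.measurable_piecewise (g := fun _ => (0 : ℝ)) continuousOn_const hmeas
      rw [← Set.piecewise_eq_indicator]
      exact this
    have h2 : f = fun z => ENNReal.ofReal ((ring ρ s).indicator G z) := by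
      funext z
      rw [hf]
      by_cases hz : z ∈ ring ρ s
      · simp [hz]
      · simp [hz]
    rw [h2]
    exact h1.ennreal_ofReal
  rw [← lintegral_indicator hmeas]
  change _ ≤ ∫⁻ z, f z
  rw [← Complex.lintegral_comp_polarCoord_symm f, polarCoord_target]
  have hFm : Measurable (fun p : ℝ × ℝ =>
      ENNReal.ofReal p.1 • f (Complex.polarCoord.symm p)) := by
    refine Measurable.smul (ENNReal.measurable_ofReal.comp measurable_fst) (hfm.comp ?_)
    have : Continuous (fun p : ℝ × ℝ => Complex.polarCoord.symm p) := by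
      simp only [Complex.polarCoord_symm_apply]
      fun_prop
    exact this.measurable
  have hsub : Ioo ρ s ×ˢ Ioo (-π) π ⊆ Ioi (0 : ℝ) ×ˢ Ioo (-π) π := by
    apply Set.prod_mono_left
    intro x hx
    exact hρ.trans hx.1
  refine le_trans ?_ (lintegral_mono_set hsub)
  rw [Measure.volume_eq_prod, ← Measure.prod_restrict, lintegral_prod _ hFm.aemeasurable]
  have hinner : ∀ r ∈ Ioo ρ s, ENNReal.ofReal (r * (2 * π * L r))
      ≤ ∫⁻ t in Ioo (-π) π, ENNReal.ofReal r • f (Complex.polarCoord.symm (r, t)) := by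
    intro r hr
    have hr0 : 0 < r := hρ.trans hr.1
    have hmem : ∀ t, circleMap 0 r t ∈ ring ρ s := by
      intro t
      have : ‖circleMap 0 r t‖ = r := by simp [abs_of_pos hr0]
      exact ⟨by rw [this]; exact hr.1, by rw [this]; exact hr.2⟩
    have h1 : ∀ t, ENNReal.ofReal r • f (Complex.polarCoord.symm (r, t))
        = ENNReal.ofReal r * ENNReal.ofReal (G (circleMap 0 r t)) := by
      intro t
      rw [polar_eq_circleMap, hf, Set.indicator_of_mem (hmem t), smul_eq_mul]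
    simp only [h1]
    have hcont : Continuous (fun t => G (circleMap 0 r t)) := by
      rw [← continuousOn_univ]
      exact hGc.comp (continuous_circleMap 0 r).continuousOn (fun t _ => hmem t)
    rw [lintegral_const_mul _ hcont.measurable.ennreal_ofReal, ENNReal.ofReal_mul hr0.le]
    gcongr
    have hint : IntegrableOn (fun t => G (circleMap 0 r t)) (Ioo (-π) π) :=
      (hcont.integrableOn_Icc (a := -π) (b := π)).mono_set Ioo_subset_Icc_self
    rw [← ofReal_integral_eq_lintegral_ofReal hint]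
    · apply ENNReal.ofReal_le_ofReal
      have h2 : ∫ t in Ioo (-π) π, G (circleMap 0 r t) = 2 * π * circleAverage G 0 r := by
        rw [← integral_Ioc_eq_integral_Ioo,
          ← intervalIntegral.integral_of_le (by linarith [Real.pi_pos])]
        have hper : Function.Periodic (fun t => G (circleMap 0 r t)) (2 * π) := by
          intro t
          simp only
          rw [periodic_circleMap 0 r t]
        have h3 := hper.intervalIntegral_add_eq (-π) 0
        have h4 : -π + 2 * π = π := by ring_nf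
        rw [h4, zero_add] at h3
        rw [h3, circleAverage, smul_eq_mul]
        field_simp
      rw [h2]
      gcongr
      exact havg r hr
    · refine Filter.Eventually.of_forall (fun t => ?_)
      simp only [Pi.zero_apply, hG]
      positivity
  refine le_trans ?_ (setLIntegral_mono' measurableSet_Ioo hinner)
  have hcontI : ContinuousOn (fun r : ℝ => r * (2 * π * L r)) (Icc ρ s) :=
    continuousOn_id.mul (continuousOn_const.mul hL)
  rw [← ofReal_integral_eq_lintegral_ofReal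
    ((hcontI.integrableOn_Icc).mono_set Ioo_subset_Icc_self)]
  · rw [← integral_Ioc_eq_integral_Ioo, ← intervalIntegral.integral_of_le hρs.le]
  · filter_upwards [ae_restrict_mem measurableSet_Ioo] with r hr
    have hr0 : 0 < r := hρ.trans hr.1
    have := hL0 r hr
    simp only [Pi.zero_apply]
    positivity

/-- the lower bound function -/
private noncomputable def LL_Area (σ : ℕ → ℝ) (N : ℕ) (r : ℝ) : ℝ :=
  (r ^ 4)⁻¹ + ∑ j ∈ Finset.range N, (2 * (j : ℝ) + 1) ^ 2 * σ j * r ^ (4 * j)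

private theorem integral_Area (σ : ℕ → ℝ) (N : ℕ) {ρ s : ℝ} (hρ : 0 < ρ) (hρs : ρ < s) :
    ∫ r in ρ..s, r * (2 * π * LL_Area σ N r) =
      π * (((ρ ^ 2)⁻¹ - (s ^ 2)⁻¹) +
        ∑ j ∈ Finset.range N, (2 * (j : ℝ) + 1) * σ j * (s ^ (4 * j + 2) - ρ ^ (4 * j + 2))) := by
  have hpos : ∀ r ∈ Set.uIcc ρ s, 0 < r := by
    intro r hr
    rw [Set.uIcc_of_le hρs.le] at hr
    exact hρ.trans_le hr.1
  have hderiv : ∀ r ∈ Set.uIcc ρ s,
      HasDerivAt (fun r : ℝ => π * (-(r ^ 2)⁻¹ +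
        ∑ j ∈ Finset.range N, (2 * (j : ℝ) + 1) * σ j * r ^ (4 * j + 2)))
        (r * (2 * π * LL_Area σ N r)) r := by
    intro r hr
    have hr0 := hpos r hr
    have h1 : HasDerivAt (fun r : ℝ => r ^ 2) (2 * r) r := by
      simpa using hasDerivAt_pow 2 r
    have h2 : HasDerivAt (fun r : ℝ => (r ^ 2)⁻¹) (-(2 * r) / (r ^ 2) ^ 2) r :=
      h1.inv (pow_ne_zero 2 hr0.ne')
    have h3 : HasDerivAt (fun r : ℝ => ∑ j ∈ Finset.range N, (2 * (j : ℝ) + 1) * σ j * r ^ (4 * j + 2))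
        (∑ j ∈ Finset.range N, (2 * (j : ℝ) + 1) * σ j * (((4 * j + 2 : ℕ) : ℝ) * r ^ (4 * j + 1))) r := by
      refine HasDerivAt.fun_sum fun j _ => ?_
      have h4 : HasDerivAt (fun r : ℝ => r ^ (4 * j + 2)) (((4 * j + 2 : ℕ) : ℝ) * r ^ (4 * j + 1)) r := by
        simpa using hasDerivAt_pow (4 * j + 2) r
      exact h4.const_mul _
    refine ((h2.neg.add h3).const_mul π).congr_deriv ?_
    unfold LL_Area
    have e1 : -(-(2 * r) / (r ^ 2) ^ 2) = 2 * (r * (r ^ 4)⁻¹) := by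
      field_simp
    have e2 : ∑ j ∈ Finset.range N, (2 * (j : ℝ) + 1) * σ j * (((4 * j + 2 : ℕ) : ℝ) * r ^ (4 * j + 1)) =
        2 * (r * ∑ j ∈ Finset.range N, (2 * (j : ℝ) + 1) ^ 2 * σ j * r ^ (4 * j)) := by
      rw [Finset.mul_sum, Finset.mul_sum]
      refine Finset.sum_congr rfl fun j _ => ?_
      push_cast
      rw [pow_succ]
      ring_nf
    rw [e1, e2]
    ring_nf
  rw [intervalIntegral.integral_eq_sub_of_hasDerivAt hderiv]
  · have e3 : ∑ j ∈ Finset.range N, (2 * (j : ℝ) + 1) * σ j * (s ^ (4 * j + 2) - ρ ^ (4 * j + 2)) =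
        (∑ j ∈ Finset.range N, (2 * (j : ℝ) + 1) * σ j * s ^ (4 * j + 2)) -
          ∑ j ∈ Finset.range N, (2 * (j : ℝ) + 1) * σ j * ρ ^ (4 * j + 2) := by
      rw [← Finset.sum_sub_distrib]
      exact Finset.sum_congr rfl fun j _ => by ring_nf
    rw [e3]
    ring_nf
  · apply ContinuousOn.intervalIntegrable
    unfold LL_Area
    refine ContinuousOn.mul continuousOn_id ?_
    refine ContinuousOn.mul continuousOn_const (ContinuousOn.add ?_ ?_)
    · refine ContinuousOn.inv₀ (by fun_prop) ?_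
      intro r hr
      exact pow_ne_zero 4 (hpos r hr).ne'
    · fun_prop

private theorem cont_LL_Area (σ : ℕ → ℝ) (N : ℕ) {ρ s : ℝ} (hρ : 0 < ρ) :
    ContinuousOn (LL_Area σ N) (Icc ρ s) := by
  unfold LL_Area
  refine ContinuousOn.add ?_ ?_
  · refine ContinuousOn.inv₀ (by fun_prop) ?_
    intro r hr
    exact pow_ne_zero 4 (hρ.trans_le hr.1).ne'
  · fun_prop

/-- the circle mean -/
private theorem avg_Area {s : ℂ → ℂ} (hs : DifferentiableOn ℂ s (ball 0 1)) (hs0 : s 0 = 1) (N : ℕ)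
    {r : ℝ} (hr0 : 0 < r) (hr1 : r < 1) :
    LL_Area (fun j => ‖coeff (j + 1) s‖ ^ 2) N r ≤
      circleAverage (fun z => ‖(2 * z ^ 2 * deriv s (z ^ 2) - s (z ^ 2)) / z ^ 2‖ ^ 2) 0 r := by
  have hsq : ∀ z ∈ ball (0 : ℂ) 1, z ^ 2 ∈ ball (0 : ℂ) 1 := by
    intro z hz
    rw [mem_ball_zero_iff] at hz ⊢
    rw [norm_pow]
    nlinarith [norm_nonneg z]
  have hser : ∀ z ∈ ball (0 : ℂ) 1, HasSum (fun k => coeff k s * z ^ k) (s z) := by
    intro z hz
    have := Complex.hasSum_taylorSeries_on_ball hs hz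
    refine this.congr_fun fun k => ?_
    simp only [coeff, sub_zero, smul_eq_mul]
    ring_nf
  have hser' : ∀ z ∈ ball (0 : ℂ) 1, HasSum (fun k : ℕ => (k : ℂ) * coeff k s * z ^ k) (z * deriv s z) := by
    intro z hz
    have h2 := Complex.hasSum_taylorSeries_on_ball (hs.deriv isOpen_ball) hz
    have h3 := h2.mul_left z
    have h4 : HasSum (fun k => ((k + 1 : ℕ) : ℂ) * coeff (k + 1) s * z ^ (k + 1)) (z * deriv s z) := by
      refine h3.congr_fun fun k => ?_
      simp only [coeff, sub_zero, smul_eq_mul]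
      rw [← iteratedDeriv_succ', Nat.factorial_succ]
      push_cast
      have e1 : ((k : ℂ) + 1) ≠ 0 := by exact_mod_cast Nat.succ_ne_zero k
      have e2 : ((k.factorial : ℂ)) ≠ 0 := by exact_mod_cast k.factorial_ne_zero
      field_simp
      ring_nf
    have h5 := (hasSum_nat_add_iff (f := fun k : ℕ => (k : ℂ) * coeff k s * z ^ k) 1).1 h4
    simpa using h5
  set c : ℕ → ℂ := fun k => (2 * (k : ℂ) - 1) * coeff k s with hc
  set H : ℂ → ℂ := fun z => 2 * z ^ 2 * deriv s (z ^ 2) - s (z ^ 2) with hH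
  have hHser : ∀ z ∈ ball (0 : ℂ) 1, HasSum (fun k => c k * z ^ (2 * k)) (H z) := by
    intro z hz
    have h2 := ((hser' _ (hsq z hz)).mul_left 2).sub (hser _ (hsq z hz))
    have h3 : 2 * (z ^ 2 * deriv s (z ^ 2)) - s (z ^ 2) = H z := by
      rw [hH]
      ring_nf
    rw [h3] at h2
    refine h2.congr_fun fun k => ?_
    rw [hc, pow_mul]
    ring_nf
  have hsm : Summable fun k => ‖c k‖ * r ^ (2 * k) := by
    have hz : (r : ℂ) ∈ ball (0 : ℂ) 1 := by
      rw [mem_ball_zero_iff, Complex.norm_real, Real.norm_of_nonneg hr0.le]; exact hr1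
    refine (hHser _ hz).summable.norm.congr fun k => ?_
    rw [norm_mul, norm_pow, Complex.norm_real, Real.norm_of_nonneg hr0.le]
  have hpar := ub_parseval c (fun k => 2 * k) (fun i j hij => by simpa using hij) r hr0.le hsm H
    (fun z hz => hHser z (by
      rw [mem_sphere_zero_iff_norm] at hz
      rw [mem_ball_zero_iff, hz]; exact hr1))
  have hfin := sum_le_hasSum (Finset.range (N + 1)) (fun k _ => by positivity) hpar
  have hval : circleAverage (fun z => ‖(2 * z ^ 2 * deriv s (z ^ 2) - s (z ^ 2)) / z ^ 2‖ ^ 2) 0 r =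
      (r ^ 4)⁻¹ * circleAverage (fun z => ‖H z‖ ^ 2) 0 r := by
    have h1 : circleAverage (fun z => ‖(2 * z ^ 2 * deriv s (z ^ 2) - s (z ^ 2)) / z ^ 2‖ ^ 2) 0 r =
        circleAverage ((r ^ 4)⁻¹ • fun z => ‖H z‖ ^ 2) 0 r := by
      apply circleAverage_congr_sphere
      intro z hz
      have hz' : ‖z‖ = r := by simpa [abs_of_pos hr0] using hz
      simp only [Pi.smul_apply, smul_eq_mul, hH]
      rw [norm_div, div_pow, norm_pow, hz']
      ring_nf
    rw [h1, circleAverage_smul, smul_eq_mul]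
  rw [hval]
  have hr4 : 0 < r ^ 4 := by positivity
  rw [Finset.sum_range_succ'] at hfin
  have h0 : coeff 0 s = 1 := by simp [coeff, hs0]
  have e0 : ‖c 0‖ ^ 2 * r ^ (2 * (2 * 0)) = 1 := by
    rw [hc]
    simp [h0]
  rw [e0] at hfin
  unfold LL_Area
  calc (r ^ 4)⁻¹ + ∑ j ∈ Finset.range N, (2 * (j : ℝ) + 1) ^ 2 * ‖coeff (j + 1) s‖ ^ 2 * r ^ (4 * j)
      = (r ^ 4)⁻¹ * (∑ k ∈ Finset.range N, ‖c (k + 1)‖ ^ 2 * r ^ (2 * (2 * (k + 1))) + 1) := by
        rw [mul_add, mul_one, add_comm, Finset.mul_sum]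
        congr 1
        refine Finset.sum_congr rfl fun j _ => ?_
        have e1 : ‖c (j + 1)‖ = (2 * (j : ℝ) + 1) * ‖coeff (j + 1) s‖ := by
          rw [hc]
          simp only
          rw [norm_mul]
          congr 1
          have e2 : (2 * (((j + 1 : ℕ)) : ℂ) - 1) = ((2 * (j : ℝ) + 1 : ℝ) : ℂ) := by
            push_cast
            ring_nf
          rw [e2, Complex.norm_real, Real.norm_of_nonneg (by positivity)]
        rw [e1, mul_pow]
        have e3 : r ^ (2 * (2 * (j + 1))) = r ^ 4 * r ^ (4 * j) := by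
          rw [← pow_add]
          congr 1
          ring_nf
        rw [e3]
        field_simp
    _ ≤ (r ^ 4)⁻¹ * circleAverage (fun z => ‖H z‖ ^ 2) 0 r :=
        mul_le_mul_of_nonneg_left hfin (by positivity)

/-- the area inequality on a ring -/
private theorem ineq_Area {s : ℂ → ℂ} (hs : DifferentiableOn ℂ s (ball 0 1)) (hs0 : s 0 = 1) {b : ℂ}
    {T : ℂ → ℂ} (hT : DifferentiableOn ℂ T (ball 0 1)) (hFF : ∀ z, z ≠ 0 → FF b T z = s (z ^ 2) / z)
    (hinj : InjOn (FF b T) (ball 0 1 \ {0})) {M : ℝ} (hM : ∀ z, ‖z‖ ≤ 1 / 2 → ‖T z‖ ≤ M) (N : ℕ)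
    {ρ t : ℝ} (hρ : 0 < ρ) (hρ2 : ρ ≤ 1 / 2) (hρt : ρ < t) (ht : t < 1)
    (hbρ : ‖b‖ * ρ ^ 2 ≤ 1 / 2) :
    ((ρ ^ 2)⁻¹ - (t ^ 2)⁻¹) + ∑ j ∈ Finset.range N, (2 * (j : ℝ) + 1) * ‖coeff (j + 1) s‖ ^ 2 *
      (t ^ (4 * j + 2) - ρ ^ (4 * j + 2)) ≤ (ρ⁻¹ + 2 * ρ ^ 2 * M) ^ 2 := by
  have hM0 : 0 ≤ M := (norm_nonneg _).trans (hM 0 (by simp))
  set g : ℂ → ℂ := fun z => (2 * z ^ 2 * deriv s (z ^ 2) - s (z ^ 2)) / z ^ 2 with hg
  have hsubr : ring ρ t ⊆ ball (0 : ℂ) 1 \ {0} := by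
    intro z hz
    refine ⟨by simpa using hz.2.trans ht, ?_⟩
    rintro rfl
    have := hz.1
    simp at this
    linarith
  have hsq : ∀ z ∈ ball (0 : ℂ) 1, z ^ 2 ∈ ball (0 : ℂ) 1 := by
    intro z hz
    rw [mem_ball_zero_iff] at hz ⊢
    rw [norm_pow]
    nlinarith [norm_nonneg z]
  have hder : ∀ z ∈ ball (0 : ℂ) 1 \ {0}, HasDerivAt (FF b T) (g z) z := by
    intro z hz
    have hz0 : z ≠ 0 := hz.2
    have h1 : HasDerivAt s (deriv s (z ^ 2)) (z ^ 2) :=
      (hs.differentiableAt (isOpen_ball.mem_nhds (hsq z hz.1))).hasDerivAt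
    have h2 : HasDerivAt (fun z : ℂ => z ^ 2) (2 * z) z := by simpa using hasDerivAt_pow 2 z
    have h3 : HasDerivAt (fun z : ℂ => s (z ^ 2)) (deriv s (z ^ 2) * (2 * z)) z := h1.comp z h2
    have h4 := h3.div (hasDerivAt_id z) hz0
    have h5 : FF b T =ᶠ[𝓝 z] fun z => s (z ^ 2) / id z := by
      filter_upwards [isOpen_ne.mem_nhds hz0] with w hw
      exact hFF w hw
    refine (h4.congr_of_eventuallyEq h5).congr_deriv ?_
    rw [hg]
    simp only [id]
    ring_nf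
  have hgc : ContinuousOn g (ring ρ t) := by
    rw [hg]
    have hsqc : ContinuousOn (fun z : ℂ => z ^ 2) (ball (0 : ℂ) 1) := by fun_prop
    have c1 : ContinuousOn (fun z : ℂ => deriv s (z ^ 2)) (ball (0 : ℂ) 1) :=
      (hs.deriv isOpen_ball).continuousOn.comp hsqc hsq
    have c2 : ContinuousOn (fun z : ℂ => s (z ^ 2)) (ball (0 : ℂ) 1) :=
      hs.continuousOn.comp hsqc hsq
    have hsub2 : ring ρ t ⊆ ball (0 : ℂ) 1 := hsubr.trans sdiff_subset
    refine ContinuousOn.div ?_ (by fun_prop) ?_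
    · refine ContinuousOn.sub (ContinuousOn.mul (by fun_prop) (c1.mono hsub2)) (c2.mono hsub2)
    · intro z hz
      exact pow_ne_zero 2 (hsubr hz).2
  have hlow := lower_Area (g := g) (L := LL_Area (fun j => ‖coeff (j + 1) s‖ ^ 2) N) hρ hρt hgc
    (cont_LL_Area _ N hρ) (fun r hr => by
      have hr0 : 0 < r := hρ.trans hr.1
      unfold LL_Area
      positivity)
    (fun r hr => avg_Area hs hs0 N (hρ.trans hr.1) (hr.2.trans ht))
  rw [integral_Area _ N hρ hρt] at hlow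
  have hmeas : MeasurableSet (ring ρ t) := (isOpen_ring ρ t).measurableSet
  have harea := lintegral_abs_det_fderiv_eq_addHaar_image (volume : Measure ℂ) hmeas
    (f := FF b T)
    (f' := fun z => ((ContinuousLinearMap.toSpanSingleton ℂ (g z) : ℂ →L[ℂ] ℂ)).restrictScalars ℝ)
    (fun z hz => ((hder z (hsubr hz)).hasFDerivAt.restrictScalars ℝ).hasFDerivWithinAt)
    (hinj.mono hsubr)
  have hint : ∫⁻ z in ring ρ t, ENNReal.ofReal (‖g z‖ ^ 2) = volume (FF b T '' ring ρ t) := by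
    rw [← harea]
    apply lintegral_congr
    intro z
    rw [det_mul, abs_of_nonneg (by positivity)]
  have hup : volume (FF b T '' ring ρ t)
      ≤ ENNReal.ofReal (π * (ρ⁻¹ + 2 * ρ ^ 2 * M) ^ 2) := by
    refine (measure_mono (FF_subset hT hinj hM hρ hρ2 ht hbρ)).trans ?_
    rw [Measure.addHaar_image_continuousLinearMap]
    change ENNReal.ofReal |(Amap (b * (ρ : ℂ) ^ 2)).det| * _ ≤ _
    rw [det_Amap, Complex.volume_closedBall]
    have hcn : ‖b * (ρ : ℂ) ^ 2‖ ≤ 1 / 2 := by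
      rw [norm_mul, norm_pow, Complex.norm_real, Real.norm_eq_abs, abs_of_pos hρ]
      exact hbρ
    have h1 : |1 - ‖b * (ρ : ℂ) ^ 2‖ ^ 2| ≤ 1 := by
      rw [abs_le]
      constructor <;> nlinarith [norm_nonneg (b * (ρ : ℂ) ^ 2)]
    have hR : 0 ≤ ρ⁻¹ + 2 * ρ ^ 2 * M := by positivity
    rw [← ENNReal.ofReal_pow hR]
    have hpi : (NNReal.pi : ENNReal) = ENNReal.ofReal π := by
      rw [← NNReal.coe_real_pi, ENNReal.ofReal_coe_nnreal]
    rw [hpi, mul_comm π, ENNReal.ofReal_mul (by positivity)]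
    calc _ ≤ ENNReal.ofReal 1 * (ENNReal.ofReal ((ρ⁻¹ + 2 * ρ ^ 2 * M) ^ 2)
          * ENNReal.ofReal π) := by gcongr
      _ = _ := by rw [ENNReal.ofReal_one, one_mul]
  rw [hint] at hlow
  have h := hlow.trans hup
  have hpos : 0 ≤ π * (ρ⁻¹ + 2 * ρ ^ 2 * M) ^ 2 := by positivity
  rw [ENNReal.ofReal_le_ofReal_iff hpos] at h
  exact le_of_mul_le_mul_left h Real.pi_pos

/-- area theorem -/
theorem area : StArea := by
  intro f s hf hs N
  obtain ⟨hfd, hi, h0, -⟩ := hf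
  have hmem0 : (0 : ℂ) ∈ ball (0 : ℂ) 1 := mem_ball_self one_pos
  have hnhds : ball (0 : ℂ) 1 ∈ nhds (0 : ℂ) := isOpen_ball.mem_nhds hmem0
  have hS := hs.diff
  have hS0 := hs.zero
  set β : ℂ := deriv s 0 with hβ
  set S₁ : ℂ → ℂ := dslope s 0 with hS₁
  have hS₁d : DifferentiableOn ℂ S₁ (ball 0 1) := (Complex.differentiableOn_dslope hnhds).mpr hS
  set S₂ : ℂ → ℂ := dslope S₁ 0 with hS₂
  have hS₂d : DifferentiableOn ℂ S₂ (ball 0 1) := (Complex.differentiableOn_dslope hnhds).mpr hS₁d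
  have hSexp : ∀ x, s x = 1 + β * x + x ^ 2 * S₂ x := by
    intro x
    have h2 := sub_smul_dslope s 0 x
    have h3 := sub_smul_dslope S₁ 0 x
    have h4 : S₁ 0 = β := by rw [hS₁, dslope_same]
    rw [sub_zero, smul_eq_mul, hS0] at h2
    rw [sub_zero, smul_eq_mul, h4] at h3
    rw [← hS₁] at h2
    rw [← hS₂] at h3
    linear_combination (-1 : ℂ) * h2 - x * h3
  have hsq : ∀ z ∈ ball (0 : ℂ) 1, z ^ 2 ∈ ball (0 : ℂ) 1 := by
    intro z hz
    rw [mem_ball_zero_iff] at hz ⊢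
    rw [norm_pow]
    nlinarith [norm_nonneg z]
  set T : ℂ → ℂ := fun z => z * S₂ (z ^ 2) with hTdef
  have hT : DifferentiableOn ℂ T (ball 0 1) := by
    refine DifferentiableOn.mul differentiableOn_id ?_
    exact hS₂d.comp (by fun_prop) hsq
  have hFF : ∀ z, z ≠ 0 → FF β T z = s (z ^ 2) / z := by
    intro z hz
    rw [FF, hTdef, hSexp]
    field_simp
  have hFsq : ∀ z ∈ ball (0 : ℂ) 1 \ {0}, FF β T z ^ 2 * f (z ^ 2) = 1 := by
    intro z hz
    have hz0 : z ≠ 0 := hz.2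
    rw [hFF z hz0]
    have := hs.eq (z ^ 2) (hsq z hz.1)
    field_simp
    linear_combination this
  have hinj : InjOn (FF β T) (ball 0 1 \ {0}) := by
    intro z hz w hw h
    have hz0 : z ≠ 0 := hz.2
    have hw0 : w ≠ 0 := hw.2
    have h2 := hFsq z hz
    have h3 := hFsq w hw
    have hFne : FF β T w ≠ 0 := by
      intro h4
      rw [h4] at h3
      simp at h3
    rw [h] at h2
    have h5 : f (z ^ 2) = f (w ^ 2) := by
      have : FF β T w ^ 2 * f (z ^ 2) = FF β T w ^ 2 * f (w ^ 2) := by rw [h2, h3]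
      exact mul_left_cancel₀ (pow_ne_zero 2 hFne) this
    have h6 := hi (hsq z hz.1) (hsq w hw.1) h5
    rcases sq_eq_sq_iff_eq_or_eq_neg.mp h6 with h7 | h7
    · exact h7
    · exfalso
      have h8 : FF β T z = -FF β T w := by
        rw [hFF z hz0, hFF w hw0, h6, h7]
        rw [div_neg]
      rw [h] at h8
      have h9 : FF β T w = 0 := by
        have : (2 : ℂ) * FF β T w = 0 := by linear_combination h8
        simpa using this
      exact hFne h9
  obtain ⟨M, hM⟩ : ∃ M : ℝ, ∀ z, ‖z‖ ≤ 1 / 2 → ‖T z‖ ≤ M := by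
    have hc : ContinuousOn T (closedBall 0 (1 / 2)) :=
      hT.continuousOn.mono (closedBall_subset_ball (by norm_num))
    obtain ⟨M, hM⟩ := (isCompact_closedBall (0 : ℂ) (1 / 2)).exists_bound_of_continuousOn hc
    exact ⟨M, fun z hz => hM z (by simpa using hz)⟩
  -- first limit: `ρ → 0`
  have key : ∀ t : ℝ, 0 < t → t < 1 →
      (∑ j ∈ Finset.range N, (2 * (j : ℝ) + 1) * ‖coeff (j + 1) s‖ ^ 2 * t ^ (4 * j + 2)) - (t ^ 2)⁻¹ ≤ 0 := by
    intro t ht0 ht1
    have hev : ∀ᶠ ρ : ℝ in nhdsWithin 0 (Ioi 0),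
        (∑ j ∈ Finset.range N, (2 * (j : ℝ) + 1) * ‖coeff (j + 1) s‖ ^ 2 * t ^ (4 * j + 2)) - (t ^ 2)⁻¹ ≤
          (∑ j ∈ Finset.range N, (2 * (j : ℝ) + 1) * ‖coeff (j + 1) s‖ ^ 2 * ρ ^ (4 * j + 2)) +
            4 * M * ρ + 4 * M ^ 2 * ρ ^ 4 := by
      have h1 : ∀ᶠ ρ : ℝ in nhdsWithin 0 (Ioi 0), ρ < 1 / 2 :=
        mem_nhdsWithin_of_mem_nhds (Iio_mem_nhds (by norm_num))
      have h2 : ∀ᶠ ρ : ℝ in nhdsWithin 0 (Ioi 0), ρ < t :=
        mem_nhdsWithin_of_mem_nhds (Iio_mem_nhds ht0)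
      have h3 : ∀ᶠ ρ : ℝ in nhdsWithin 0 (Ioi 0), ‖β‖ * ρ ^ 2 < 1 / 2 := by
        have hcont : Filter.Tendsto (fun ρ : ℝ => ‖β‖ * ρ ^ 2) (nhds 0) (nhds (‖β‖ * 0 ^ 2)) := by
          apply Continuous.tendsto
          fun_prop
        exact (Filter.Tendsto.eventually_lt_const (by norm_num) hcont).filter_mono
          nhdsWithin_le_nhds
      filter_upwards [h1, h2, h3, self_mem_nhdsWithin] with ρ h1 h2 h3 hρ
      have hρ' : 0 < ρ := hρ
      have h := ineq_Area hS hS0 hT hFF hinj hM N hρ' h1.le h2 ht1 h3.le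
      have h4 : (ρ⁻¹ + 2 * ρ ^ 2 * M) ^ 2 = (ρ ^ 2)⁻¹ + 4 * M * ρ + 4 * M ^ 2 * ρ ^ 4 := by
        field_simp
        ring_nf
      have h5 : ∑ j ∈ Finset.range N, (2 * (j : ℝ) + 1) * ‖coeff (j + 1) s‖ ^ 2 *
          (t ^ (4 * j + 2) - ρ ^ (4 * j + 2)) =
          (∑ j ∈ Finset.range N, (2 * (j : ℝ) + 1) * ‖coeff (j + 1) s‖ ^ 2 * t ^ (4 * j + 2)) -
            ∑ j ∈ Finset.range N, (2 * (j : ℝ) + 1) * ‖coeff (j + 1) s‖ ^ 2 * ρ ^ (4 * j + 2) := by
        rw [← Finset.sum_sub_distrib]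
        exact Finset.sum_congr rfl fun j _ => by ring_nf
      rw [h4, h5] at h
      linarith
    have hlim : Filter.Tendsto (fun ρ : ℝ =>
        (∑ j ∈ Finset.range N, (2 * (j : ℝ) + 1) * ‖coeff (j + 1) s‖ ^ 2 * ρ ^ (4 * j + 2)) +
            4 * M * ρ + 4 * M ^ 2 * ρ ^ 4)
        (nhdsWithin 0 (Ioi 0)) (nhds 0) := by
      have : Filter.Tendsto (fun ρ : ℝ =>
          (∑ j ∈ Finset.range N, (2 * (j : ℝ) + 1) * ‖coeff (j + 1) s‖ ^ 2 * ρ ^ (4 * j + 2)) +
            4 * M * ρ + 4 * M ^ 2 * ρ ^ 4)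
          (nhdsWithin 0 (Ioi 0))
          (nhds ((∑ j ∈ Finset.range N, (2 * (j : ℝ) + 1) * ‖coeff (j + 1) s‖ ^ 2 * 0 ^ (4 * j + 2)) +
            4 * M * 0 + 4 * M ^ 2 * 0 ^ 4)) := by
        refine Filter.Tendsto.mono_left ?_ nhdsWithin_le_nhds
        apply Continuous.tendsto
        fun_prop
      have e : (∑ j ∈ Finset.range N, (2 * (j : ℝ) + 1) * ‖coeff (j + 1) s‖ ^ 2 * 0 ^ (4 * j + 2)) +
            4 * M * 0 + 4 * M ^ 2 * 0 ^ 4 = 0 := by
        have : ∑ j ∈ Finset.range N, (2 * (j : ℝ) + 1) * ‖coeff (j + 1) s‖ ^ 2 * 0 ^ (4 * j + 2) = 0 :=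
          Finset.sum_eq_zero fun j _ => by rw [zero_pow (by omega), mul_zero]
        rw [this]
        norm_num
      rwa [e] at this
    exact ge_of_tendsto hlim hev
  -- second limit: `t → 1`
  have hlim : Filter.Tendsto (fun t : ℝ =>
      (∑ j ∈ Finset.range N, (2 * (j : ℝ) + 1) * ‖coeff (j + 1) s‖ ^ 2 * t ^ (4 * j + 2)) - (t ^ 2)⁻¹)
      (nhdsWithin 1 (Iio 1)) (nhds
        ((∑ j ∈ Finset.range N, (2 * (j : ℝ) + 1) * ‖coeff (j + 1) s‖ ^ 2 * 1 ^ (4 * j + 2)) -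
          (1 ^ 2)⁻¹)) := by
    have : ContinuousAt (fun t : ℝ =>
        (∑ j ∈ Finset.range N, (2 * (j : ℝ) + 1) * ‖coeff (j + 1) s‖ ^ 2 * t ^ (4 * j + 2)) -
          (t ^ 2)⁻¹) 1 := by
      refine ContinuousAt.sub (by fun_prop) (ContinuousAt.inv₀ (by fun_prop) (by norm_num))
    exact this.tendsto.mono_left nhdsWithin_le_nhds
  have hle : (∑ j ∈ Finset.range N, (2 * (j : ℝ) + 1) * ‖coeff (j + 1) s‖ ^ 2 * 1 ^ (4 * j + 2)) -
      (1 ^ 2)⁻¹ ≤ (0 : ℝ) := by
    apply le_of_tendsto hlim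
    have h1 : ∀ᶠ t : ℝ in nhdsWithin 1 (Iio 1), 0 < t :=
      mem_nhdsWithin_of_mem_nhds (Ioi_mem_nhds (by norm_num))
    filter_upwards [h1, self_mem_nhdsWithin] with t ht0 ht1
    exact key t ht0 ht1
  have hsum : ∑ j ∈ Finset.Icc 1 N, (2 * (j : ℝ) - 1) * ‖coeff j s‖ ^ 2 =
      ∑ j ∈ Finset.range N, (2 * (j : ℝ) + 1) * ‖coeff (j + 1) s‖ ^ 2 * 1 ^ (4 * j + 2) := by
    have e1 : Finset.Icc 1 N = Finset.Ico 1 (N + 1) := by
      ext x
      simp only [Finset.mem_Icc, Finset.mem_Ico]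
      omega
    rw [e1, Finset.sum_Ico_eq_sum_range]
    refine Finset.sum_congr (by simp) fun j _ => ?_
    rw [one_pow, mul_one, Nat.add_comm 1 j]
    push_cast
    ring_nf
  rw [hsum]
  norm_num at hle ⊢
  linarith

end Pool.Agent.Helper39.QM
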