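import Pool.Agent.Helper39.QM.St
import Pool.Agent.Helper64.C3.UpperN

/-!
# QM, module CRUDE: the crude coefficient bound
-/

set_option autoImplicit false

open Metric Set Filter Topology

namespace Pool.Agent.Helper39.QM

open Pool.Agent.Helper64.C3

theorem crude (H : StGrow) : StCrude := by
  intro f n hf hn
  have hg := H f hf
  have hf1 := hf.2.2.2
  obtain ⟨hd, hi, h0, -⟩ := hf
  have hn2 : (2 : ℝ) ≤ n := by exact_mod_cast hn
  have hn0 : (0 : ℝ) < n := by linarith
  have hx : 0 < 1 / (n : ℝ) := by positivity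
  have hx2 : 1 / (n : ℝ) ≤ 1 / 2 := one_div_le_one_div_of_le (by norm_num) hn2
  have hr0 : 0 < 1 - 1 / (n : ℝ) := by linarith
  have hr1 : 1 - 1 / (n : ℝ) < 1 := by linarith
  have hmean := mean_bound (g := f) hd hi h0 (by rw [hf1]; exact one_ne_zero) (C := 1)
    (fun z hz => by
      have hz1 : ‖z‖ < 1 := by simpa using hz
      rw [one_mul, le_div_iff₀ (by have : 0 < 1 - ‖z‖ := by linarith
                                   positivity)]
      exact hg z hz1) hr0 hr1
  have cf : ContinuousOn f (sphere 0 (1 - 1 / (n : ℝ))) :=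
    hd.continuousOn.mono (fun _ hz => sphere_mem hr1 hz)
  have h2 := norm_ell_le (n := n) hr0 cf cf.norm (fun z _ => le_rfl)
  rw [ell_eq_coeff hr0 hr1 hd] at h2
  have h3 : 1 * (1 - 1 / (n : ℝ)) / (1 - (1 - 1 / (n : ℝ))) = n - 1 := by
    have : 1 - (1 - 1 / (n : ℝ)) = 1 / n := by ring
    rw [this]
    field_simp
  rw [h3] at hmean
  have hR := inv_pow_le hn
  have hR0 : 0 < ((1 - 1 / (n : ℝ)) ^ n)⁻¹ := by positivity
  refine h2.trans ?_
  have h4 : ((1 - 1 / (n : ℝ)) ^ n)⁻¹ * Real.circleAverage (fun z => ‖f z‖) 0 (1 - 1 / (n : ℝ))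
      ≤ 6 * ((n : ℝ) - 1) :=
    mul_le_mul hR hmean (Real.circleAverage_nonneg_of_nonneg (fun z _ => norm_nonneg _)) (by norm_num)
  linarith

end Pool.Agent.Helper39.QM
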