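import Pool.Agent.Helper39.QM.M_Coef
import Pool.Agent.Helper64.C3.Coef

/-!
# QM, module EXPA: the expansion of `coeff n f` near the Koebe function
-/

set_option autoImplicit false

open Metric Set Filter Topology

namespace Pool.Agent.Helper39.QM

open Pool.Agent.Helper64.C3

private noncomputable def NNx (n : ℕ) (F : ℂ → ℂ) : ℝ := ∑ j ∈ Finset.range n, ‖coeff j F‖

private theorem NNx_nonneg (n : ℕ) (F : ℂ → ℂ) : 0 ≤ NNx n F :=
  Finset.sum_nonneg fun _ _ => norm_nonneg _

private theorem NNx_mul (n : ℕ) {F G : ℂ → ℂ} (hF : DifferentiableOn ℂ F (ball 0 1))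
    (hG : DifferentiableOn ℂ G (ball 0 1)) :
    NNx n (fun z => F z * G z) ≤ NNx n F * NNx n G := by
  unfold NNx
  calc ∑ j ∈ Finset.range n, ‖coeff j (fun z => F z * G z)‖
      ≤ ∑ j ∈ Finset.range n, ∑ i ∈ Finset.range (j + 1), ‖coeff i F‖ * ‖coeff (j - i) G‖ := by
        refine Finset.sum_le_sum fun j _ => ?_
        rw [coeff_mul hF hG]
        refine (norm_sum_le _ _).trans (le_of_eq ?_)
        exact Finset.sum_congr rfl fun i _ => norm_mul _ _
    _ = ∑ i ∈ Finset.range n, ∑ k ∈ Finset.range (n - i), ‖coeff i F‖ * ‖coeff k G‖ :=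
        Finset.sum_range_diag_flip n (fun i k => ‖coeff i F‖ * ‖coeff k G‖)
    _ ≤ ∑ i ∈ Finset.range n, ∑ k ∈ Finset.range n, ‖coeff i F‖ * ‖coeff k G‖ := by
        refine Finset.sum_le_sum fun i _ => ?_
        refine Finset.sum_le_sum_of_subset_of_nonneg ?_ fun _ _ _ => by positivity
        exact Finset.range_subset_range.mpr (Nat.sub_le _ _)
    _ = (∑ j ∈ Finset.range n, ‖coeff j F‖) * ∑ j ∈ Finset.range n, ‖coeff j G‖ := by
        rw [Finset.sum_mul_sum]

private theorem NNx_add (n : ℕ) {F G : ℂ → ℂ} (hF : DifferentiableOn ℂ F (ball 0 1))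
    (hG : DifferentiableOn ℂ G (ball 0 1)) :
    NNx n (fun z => F z + G z) ≤ NNx n F + NNx n G := by
  unfold NNx
  rw [← Finset.sum_add_distrib]
  refine Finset.sum_le_sum fun j _ => ?_
  rw [coeff_add hF hG]
  exact norm_add_le _ _

private theorem NNx_sub (n : ℕ) {F G : ℂ → ℂ} (hF : DifferentiableOn ℂ F (ball 0 1))
    (hG : DifferentiableOn ℂ G (ball 0 1)) :
    NNx n (fun z => F z - G z) ≤ NNx n F + NNx n G := by
  unfold NNx
  rw [← Finset.sum_add_distrib]
  refine Finset.sum_le_sum fun j _ => ?_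
  rw [coeff_sub hF hG]
  exact norm_sub_le _ _

private theorem NNx_const (n : ℕ) (c : ℂ) : NNx n (fun _ => c) ≤ ‖c‖ := by
  unfold NNx
  simp only [coeff_const]
  rcases n with _ | n
  · simp
  · rw [Finset.sum_range_succ']
    simp

private theorem NNx_congr (n : ℕ) {F G : ℂ → ℂ} (h : EqOn F G (ball 0 1)) : NNx n F = NNx n G := by
  unfold NNx
  exact Finset.sum_congr rfl fun j _ => by rw [coeff_congr h]

private theorem koebe_diffx : DifferentiableOn ℂ koebe (ball 0 1) := by
  unfold koebe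
  apply DifferentiableOn.div (by fun_prop) (by fun_prop)
  intro z hz
  exact pow_ne_zero _ (one_sub_ne (by simpa using hz))

private theorem coeff_mul_koebe (n : ℕ) {F : ℂ → ℂ} (hF : DifferentiableOn ℂ F (ball 0 1)) :
    coeff n (fun z => F z * koebe z) = ∑ m ∈ Finset.range n, ((n : ℂ) - m) * coeff m F := by
  rw [coeff_mul hF koebe_diffx, Finset.sum_range_succ, coeff_koebe, Nat.sub_self, Nat.cast_zero,
    mul_zero, add_zero]
  refine Finset.sum_congr rfl fun m hm => ?_
  have : m ≤ n := (Finset.mem_range.mp hm).le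
  rw [coeff_koebe, Nat.cast_sub this, mul_comm]

theorem expa (_H : StCoef) : StExpa := by
  intro f s n hf hs hn hΛ
  have hQd := QQ_diff hs.diff
  have hqq : ∀ m, coeff m (QQ s) = qq s m := coeff_QQ hs.diff hs.zero
  set Λ : ℝ := ∑ m ∈ Finset.range n, ‖qq s m‖ with hΛdef
  have hNQ : NNx n (QQ s) = Λ := by
    unfold NNx
    exact Finset.sum_congr rfl fun j _ => by rw [hqq]
  have hΛ0 : 0 ≤ Λ := Finset.sum_nonneg fun _ _ => norm_nonneg _
  have hs0 : ∀ z ∈ ball (0 : ℂ) 1, s z ≠ 0 := by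
    intro z hz h
    have h1 := hs.eq z hz
    rw [h] at h1
    have h2 : z = 0 := by simpa using h1.symm
    rw [h2, hs.zero] at h
    exact one_ne_zero h
  set V : ℂ → ℂ := fun z => (1 - z) / s z with hV
  have hVd : DifferentiableOn ℂ V (ball 0 1) := DifferentiableOn.div (by fun_prop) hs.diff hs0
  have hne : ∀ z ∈ ball (0 : ℂ) 1, (1 : ℂ) - z ≠ 0 := fun z hz => one_sub_ne (by simpa using hz)
  have hVQ : EqOn V (fun z => 1 - QQ s z * V z) (ball 0 1) := by
    intro z hz
    have h1 := hs0 z hz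
    have h2 := hne z hz
    simp only [hV, QQ]
    field_simp
    ring
  have hNV : NNx n V ≤ 1 / (1 - Λ) := by
    have h1 : NNx n V ≤ 1 + Λ * NNx n V := by
      calc NNx n V = NNx n (fun z => 1 - QQ s z * V z) := NNx_congr n hVQ
        _ ≤ NNx n (fun _ => (1 : ℂ)) + NNx n (fun z => QQ s z * V z) :=
            NNx_sub n (by fun_prop) (hQd.mul hVd)
        _ ≤ ‖(1 : ℂ)‖ + NNx n (QQ s) * NNx n V := add_le_add (NNx_const n 1) (NNx_mul n hQd hVd)
        _ = 1 + Λ * NNx n V := by rw [norm_one, hNQ]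
    rw [le_div_iff₀ (by linarith)]
    linarith
  -- the remainder
  set R : ℂ → ℂ := fun z => (QQ s z * QQ s z) * ((3 + 2 * QQ s z) * (V z * V z)) with hR
  have h3d : DifferentiableOn ℂ (fun z => 3 + 2 * QQ s z) (ball 0 1) := by fun_prop
  have hRd : DifferentiableOn ℂ R (ball 0 1) := (hQd.mul hQd).mul (h3d.mul (hVd.mul hVd))
  have hNR : NNx n R ≤ Λ ^ 2 * (3 + 2 * Λ) / (1 - Λ) ^ 2 := by
    have h1 : NNx n R ≤ (NNx n (QQ s) * NNx n (QQ s)) *
        (NNx n (fun z => 3 + 2 * QQ s z) * (NNx n V * NNx n V)) := by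
      refine (NNx_mul n (hQd.mul hQd) (h3d.mul (hVd.mul hVd))).trans ?_
      refine mul_le_mul (NNx_mul n hQd hQd) ?_ (NNx_nonneg _ _)
        (mul_nonneg (NNx_nonneg _ _) (NNx_nonneg _ _))
      refine (NNx_mul n h3d (hVd.mul hVd)).trans ?_
      exact mul_le_mul_of_nonneg_left (NNx_mul n hVd hVd) (NNx_nonneg _ _)
    have h2 : NNx n (fun z => 3 + 2 * QQ s z) ≤ 3 + 2 * Λ := by
      refine (NNx_add n (F := fun _ => 3) (G := fun z => 2 * QQ s z) (by fun_prop)
        (by fun_prop)).trans ?_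
      have h3 := NNx_const n 3
      have h4 : NNx n (fun z => 2 * QQ s z) ≤ 2 * Λ := by
        refine (NNx_mul n (F := fun _ => 2) (by fun_prop) hQd).trans ?_
        rw [hNQ]
        have h5 := NNx_const n 2
        have h6 : ‖(2 : ℂ)‖ = 2 := by norm_num
        rw [h6] at h5
        exact mul_le_mul_of_nonneg_right h5 hΛ0
      have h6 : ‖(3 : ℂ)‖ = 3 := by norm_num
      rw [h6] at h3
      linarith
    rw [hNQ] at h1
    have hV0 := NNx_nonneg n V
    have h7 : 0 < 1 - Λ := by linarith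
    calc NNx n R ≤ (Λ * Λ) * (NNx n (fun z => 3 + 2 * QQ s z) * (NNx n V * NNx n V)) := h1
      _ ≤ (Λ * Λ) * ((3 + 2 * Λ) * (1 / (1 - Λ) * (1 / (1 - Λ)))) := by
          gcongr
      _ = Λ ^ 2 * (3 + 2 * Λ) / (1 - Λ) ^ 2 := by
          field_simp
  -- the expansion
  have hfV : EqOn f (fun z => ((1 - 2 * QQ s z) + R z) * koebe z) (ball 0 1) := by
    intro z hz
    have h1 := hs0 z hz
    have h2 := hne z hz
    have h3 := hs.eq z hz
    have h4 : f z = z / s z ^ 2 := by
      rw [eq_div_iff (pow_ne_zero _ h1)]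
      exact h3
    have h5 : (1 - 2 * QQ s z) + R z = V z ^ 2 := by
      simp only [hR, hV, QQ]
      field_simp
      ring
    simp only [h4, h5, hV, koebe]
    field_simp
  have h12 : DifferentiableOn ℂ (fun z => 1 - 2 * QQ s z) (ball 0 1) := by fun_prop
  have hcf : coeff n f = ∑ m ∈ Finset.range n, ((n : ℂ) - m) *
      ((if m = 0 then 1 else 0) - 2 * qq s m + coeff m R) := by
    have h13 : DifferentiableOn ℂ (fun z => (1 - 2 * QQ s z) + R z) (ball 0 1) := h12.add hRd
    rw [coeff_congr hfV, coeff_mul_koebe n h13]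
    refine Finset.sum_congr rfl fun m _ => ?_
    congr 1
    rw [coeff_add h12 hRd, coeff_sub (F := fun _ => (1 : ℂ)) (G := fun z => 2 * QQ s z)
      (by fun_prop) (by fun_prop), coeff_const]
    have h8 : coeff m (fun z => 2 * QQ s z) = 2 * qq s m := by
      rw [← hqq]
      unfold coeff
      rw [iteratedDeriv_const_mul_field, mul_div_assoc]
    rw [h8]
  have hsum : coeff n f - (n - 2 * ∑ m ∈ Finset.range n, ((n : ℂ) - m) * qq s m) =
      ∑ m ∈ Finset.range n, ((n : ℂ) - m) * coeff m R := by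
    rw [hcf]
    have h9 : ∑ m ∈ Finset.range n, ((n : ℂ) - m) * (if m = 0 then 1 else 0) = n := by
      simp only [mul_ite, mul_one, mul_zero]
      rw [Finset.sum_ite_eq' (Finset.range n) 0 (fun m => (n : ℂ) - m),
        if_pos (Finset.mem_range.mpr (by omega))]
      simp
    calc ∑ m ∈ Finset.range n, ((n : ℂ) - m) * ((if m = 0 then 1 else 0) - 2 * qq s m + coeff m R)
          - (n - 2 * ∑ m ∈ Finset.range n, ((n : ℂ) - m) * qq s m)
        = (∑ m ∈ Finset.range n, ((n : ℂ) - m) * (if m = 0 then 1 else 0)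
            - 2 * ∑ m ∈ Finset.range n, ((n : ℂ) - m) * qq s m
            + ∑ m ∈ Finset.range n, ((n : ℂ) - m) * coeff m R)
          - (n - 2 * ∑ m ∈ Finset.range n, ((n : ℂ) - m) * qq s m) := by
          congr 1
          rw [Finset.mul_sum, ← Finset.sum_sub_distrib, ← Finset.sum_add_distrib]
          refine Finset.sum_congr rfl fun m _ => ?_
          ring
      _ = ∑ m ∈ Finset.range n, ((n : ℂ) - m) * coeff m R := by
          rw [h9]
          ring
  rw [hsum]
  calc ‖∑ m ∈ Finset.range n, ((n : ℂ) - m) * coeff m R‖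
      ≤ ∑ m ∈ Finset.range n, ‖((n : ℂ) - m) * coeff m R‖ := norm_sum_le _ _
    _ ≤ ∑ m ∈ Finset.range n, (n : ℝ) * ‖coeff m R‖ := by
        refine Finset.sum_le_sum fun m hm => ?_
        rw [norm_mul]
        refine mul_le_mul_of_nonneg_right ?_ (norm_nonneg _)
        have hmn : m ≤ n := (Finset.mem_range.mp hm).le
        rw [← Nat.cast_sub hmn, Complex.norm_natCast]
        exact_mod_cast Nat.sub_le n m
    _ = n * NNx n R := by
        unfold NNx
        rw [Finset.mul_sum]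
    _ ≤ n * (Λ ^ 2 * (3 + 2 * Λ) / (1 - Λ) ^ 2) :=
        mul_le_mul_of_nonneg_left hNR (Nat.cast_nonneg _)

end Pool.Agent.Helper39.QM
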