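import Pool.Agent.Helper39.QM.St
import Pool.Agent.Helper96.C3UB

set_option autoImplicit false

open Metric Set Filter Topology MeasureTheory
open scoped ComplexConjugate

namespace Pool.Agent.Helper39.QM

open Pool.Agent.Helper64.C3

private theorem int_cos_Four (c : ℝ) (hc : c ≠ 0) (hs : Real.sin (c * Real.pi) = 0) :
    ∫ τ in (0 : ℝ)..Real.pi, Real.cos (c * τ) = 0 := by
  rw [intervalIntegral.integral_comp_mul_left (fun x => Real.cos x) hc, integral_cos]
  simp [hs]

private theorem sin_sin_Four (k m : ℕ) (hkm : k ≠ m) :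
    ∫ τ in (0 : ℝ)..Real.pi, Real.sin (k * τ) * Real.sin (m * τ) = 0 := by
  have h1 : ∀ τ : ℝ, Real.sin (k * τ) * Real.sin (m * τ)
      = (1 / 2 : ℝ) * Real.cos (((k : ℝ) - m) * τ) - (1 / 2 : ℝ) * Real.cos (((k : ℝ) + m) * τ) := by
    intro τ
    rw [show ((k : ℝ) - m) * τ = k * τ - m * τ by ring,
      show ((k : ℝ) + m) * τ = k * τ + m * τ by ring, Real.cos_sub, Real.cos_add]
    ring
  have hc1 : ((k : ℝ) - m) ≠ 0 := by
    intro h
    apply hkm
    have : (k : ℝ) = m := by linarith
    exact_mod_cast this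
  have hc2 : ((k : ℝ) + m) ≠ 0 := by
    intro h
    have hk : (0 : ℝ) ≤ k := Nat.cast_nonneg k
    have hm : (0 : ℝ) ≤ m := Nat.cast_nonneg m
    apply hc1
    linarith
  have hs1 : Real.sin (((k : ℝ) - m) * Real.pi) = 0 := by
    have := Real.sin_int_mul_pi ((k : ℤ) - m)
    push_cast at this
    exact this
  have hs2 : Real.sin (((k : ℝ) + m) * Real.pi) = 0 := by
    have := Real.sin_int_mul_pi ((k : ℤ) + m)
    push_cast at this
    exact this
  simp_rw [h1]
  rw [intervalIntegral.integral_sub (by apply Continuous.intervalIntegrable; fun_prop)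
    (by apply Continuous.intervalIntegrable; fun_prop),
    intervalIntegral.integral_const_mul, intervalIntegral.integral_const_mul,
    int_cos_Four _ hc1 hs1, int_cos_Four _ hc2 hs2]
  ring

private theorem sin_sq_Four (m : ℕ) (hm : 1 ≤ m) :
    ∫ τ in (0 : ℝ)..Real.pi, Real.sin (m * τ) * Real.sin (m * τ) = Real.pi / 2 := by
  have h1 : ∀ τ : ℝ, Real.sin (m * τ) * Real.sin (m * τ)
      = (1 / 2 : ℝ) - (1 / 2 : ℝ) * Real.cos ((2 * (m : ℝ)) * τ) := by
    intro τ
    rw [show (2 * (m : ℝ)) * τ = 2 * (m * τ) by ring, Real.cos_two_mul, Real.cos_sq']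
    ring
  have hmr : (1 : ℝ) ≤ m := by exact_mod_cast hm
  have hc2 : (2 * (m : ℝ)) ≠ 0 := by
    intro h
    linarith
  have hs2 : Real.sin ((2 * (m : ℝ)) * Real.pi) = 0 := by
    have := Real.sin_int_mul_pi (2 * (m : ℤ))
    push_cast at this
    exact this
  simp_rw [h1]
  rw [intervalIntegral.integral_sub (by apply Continuous.intervalIntegrable; fun_prop)
    (by apply Continuous.intervalIntegrable; fun_prop),
    intervalIntegral.integral_const_mul, int_cos_Four _ hc2 hs2]
  simp
  ring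

private theorem swap_Four (c : ℕ → ℝ) (hc : Summable fun k => |c k|) (F g : ℝ → ℝ)
    (hg : Continuous g) (hF : ∀ τ : ℝ, HasSum (fun k : ℕ => c k * Real.sin (k * τ)) (F τ)) :
    HasSum (fun k : ℕ => c k * ∫ τ in (0 : ℝ)..Real.pi, Real.sin (k * τ) * g τ)
      (∫ τ in (0 : ℝ)..Real.pi, F τ * g τ) := by
  have h := intervalIntegral.hasSum_integral_of_dominated_convergence (μ := volume)
    (a := (0 : ℝ)) (b := Real.pi)
    (F := fun (k : ℕ) (τ : ℝ) => c k * (Real.sin (k * τ) * g τ)) (f := fun τ => F τ * g τ)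
    (fun (k : ℕ) (τ : ℝ) => |c k| * |g τ|) ?_ ?_ ?_ ?_ ?_
  · simpa only [intervalIntegral.integral_const_mul] using h
  · intro n
    apply Continuous.aestronglyMeasurable
    fun_prop
  · intro n
    refine Filter.Eventually.of_forall fun τ _ => ?_
    rw [Real.norm_eq_abs, abs_mul, abs_mul]
    have h1 : |Real.sin (n * τ)| ≤ 1 := Real.abs_sin_le_one _
    have h2 : 0 ≤ |g τ| := abs_nonneg _
    have h3 : 0 ≤ |c n| := abs_nonneg _
    calc |c n| * (|Real.sin (n * τ)| * |g τ|) ≤ |c n| * (1 * |g τ|) := by gcongr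
      _ = |c n| * |g τ| := by ring
  · exact Filter.Eventually.of_forall fun τ _ => hc.mul_right _
  · simp_rw [tsum_mul_right]
    apply Continuous.intervalIntegrable
    fun_prop
  · refine Filter.Eventually.of_forall fun τ _ => ?_
    have := (hF τ).mul_right (g τ)
    simpa only [mul_assoc] using this

private theorem taylor_Four (Q : ℂ → ℂ) (hQ : DifferentiableOn ℂ Q (ball 0 1)) (z : ℂ)
    (hz : ‖z‖ < 1) : HasSum (fun m : ℕ => coeff m Q * z ^ m) (Q z) := by
  have h := Complex.hasSum_taylorSeries_on_ball (f := Q) (c := 0) (r := (1 : NNReal))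
    (by simpa using hQ) (z := z) (by simpa using hz)
  refine h.congr_fun ?_ |> fun h => h
  intro m
  simp only [smul_eq_mul, sub_zero, coeff]
  ring

private theorem circ_pow_Four (ρ τ : ℝ) (m : ℕ) :
    circleMap 0 ρ τ ^ m = (ρ : ℂ) ^ m * (Real.cos (m * τ) + Real.sin (m * τ) * Complex.I) := by
  simp only [circleMap, zero_add]
  rw [mul_pow, ← Complex.exp_nat_mul]
  congr 1
  rw [Complex.ofReal_cos, Complex.ofReal_sin, ← Complex.exp_mul_I]
  congr 1
  push_cast
  ring

private theorem poisson_Four (x τ : ℝ) (hx : 0 < x) (hx1 : x < 1) :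
    HasSum (fun m : ℕ => x ^ m * Real.sin (m * τ))
      (x * Real.sin τ / (1 - 2 * x * Real.cos τ + x ^ 2)) := by
  have hn : ‖circleMap 0 x τ‖ < 1 := by
    rw [ub_norm_circleMap x τ hx.le]; exact hx1
  have h := hasSum_geometric_of_norm_lt_one hn
  have h2 := Complex.hasSum_im h
  have e1 : (1 - circleMap 0 x τ)⁻¹.im = x * Real.sin τ / (1 - 2 * x * Real.cos τ + x ^ 2) := by
    have hc : circleMap 0 x τ = (x * Real.cos τ : ℝ) + (x * Real.sin τ : ℝ) * Complex.I := by
      have := circ_pow_Four x τ 1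
      simp only [pow_one, Nat.cast_one, one_mul] at this
      rw [this]; push_cast; ring
    have hre : (1 - circleMap 0 x τ).re = 1 - x * Real.cos τ := by
      rw [hc]
      simp only [Complex.sub_re, Complex.one_re, Complex.add_re, Complex.ofReal_re,
        Complex.mul_re, Complex.I_re, mul_zero, Complex.ofReal_im, Complex.I_im, mul_one, sub_zero,
        add_zero]
    have him : (1 - circleMap 0 x τ).im = -(x * Real.sin τ) := by
      rw [hc]
      simp only [Complex.sub_im, Complex.one_im, Complex.add_im, Complex.ofReal_re,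
        Complex.mul_im, Complex.I_re, mul_zero, Complex.ofReal_im, Complex.I_im, mul_one,
        add_zero, zero_add, zero_sub]
    rw [Complex.inv_im, Complex.normSq_apply, hre, him, neg_neg]
    have hcs := Real.cos_sq_add_sin_sq τ
    congr 1
    have : x ^ 2 * (Real.cos τ ^ 2 + Real.sin τ ^ 2) = x ^ 2 := by rw [hcs, mul_one]
    linarith [this]
  rw [e1] at h2
  refine h2.congr_fun ?_ |> fun h => h
  intro m
  rw [circ_pow_Four, ← Complex.ofReal_pow, Complex.im_ofReal_mul]
  simp only [Complex.add_im, Complex.ofReal_re,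
        Complex.mul_im, Complex.I_re, mul_zero, Complex.ofReal_im, Complex.I_im, mul_one,
        add_zero, zero_add]

theorem four : StFour := by
  intro Q ρ hQ hρ hρ1
  have hmem : ∀ τ : ℝ, circleMap 0 ρ τ ∈ ball (0 : ℂ) 1 := by
    intro τ
    rw [mem_ball_zero_iff, ub_norm_circleMap ρ τ hρ.le]; exact hρ1
  have hcont : Continuous fun τ : ℝ => Q (circleMap 0 ρ τ) := by
    exact hQ.continuousOn.comp_continuous (continuous_circleMap 0 ρ) hmem
  have hcont' : Continuous fun τ : ℝ => Q (circleMap 0 ρ (-τ)) := hcont.comp continuous_neg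
  have hPc : Continuous fun τ => Pm Q ρ τ := by
    unfold Pm
    exact (hcont.add hcont').div_const _
  have hZc : Continuous fun τ => Zm Q ρ τ := by
    unfold Zm
    exact (hcont.sub hcont').div_const _
  -- the coefficients
  have hT : ∀ z : ℂ, ‖z‖ < 1 → HasSum (fun m : ℕ => coeff m Q * z ^ m) (Q z) := taylor_Four Q hQ
  have hsum : ∀ t : ℝ, 0 ≤ t → t < 1 → Summable fun m : ℕ => ‖coeff m Q‖ * t ^ m := by
    intro t ht ht1
    have := (hT (t : ℂ) (by simpa [abs_of_nonneg ht] using ht1)).summable.norm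
    simpa [abs_of_nonneg ht] using this
  have hcs : Summable fun m : ℕ => |(coeff m Q).re * ρ ^ m| := by
    refine Summable.of_nonneg_of_le (fun _ => abs_nonneg _) ?_ (hsum ρ hρ.le hρ1)
    intro m
    rw [abs_mul, abs_of_nonneg (pow_nonneg hρ.le m)]
    gcongr
    exact Complex.abs_re_le_norm _
  have hZ : ∀ τ : ℝ, HasSum (fun k : ℕ => ((coeff k Q).re * ρ ^ k) * Real.sin (k * τ))
      (Zm Q ρ τ).re := by
    intro τ
    have h1 := hT _ (mem_ball_zero_iff.mp (hmem τ))
    have h2 := hT _ (mem_ball_zero_iff.mp (hmem (-τ)))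
    have h3 := ((h1.sub h2).div_const (2 * Complex.I))
    have h4 := Complex.hasSum_re h3
    refine h4.congr_fun ?_ |> fun h => h
    intro m
    rw [circ_pow_Four, circ_pow_Four]
    have : (coeff m Q * ((ρ : ℂ) ^ m * (Real.cos (m * τ) + Real.sin (m * τ) * Complex.I))
        - coeff m Q * ((ρ : ℂ) ^ m * (Real.cos (m * -τ) + Real.sin (m * -τ) * Complex.I)))
          / (2 * Complex.I) = coeff m Q * ((ρ ^ m * Real.sin (m * τ) : ℝ) : ℂ) := by
      rw [mul_neg, Real.cos_neg, Real.sin_neg]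
      push_cast
      field_simp
      ring
    rw [this, Complex.re_mul_ofReal]
    ring
  refine ⟨hPc, hZc, ?_, ?_, ?_⟩
  · intro m hm
    have h := swap_Four _ hcs (fun τ => (Zm Q ρ τ).re) (fun τ => Real.sin (m * τ)) (by fun_prop) hZ
    have h2 : HasSum (fun k : ℕ => ((coeff k Q).re * ρ ^ k) *
        ∫ τ in (0 : ℝ)..Real.pi, Real.sin (k * τ) * Real.sin (m * τ))
        (((coeff m Q).re * ρ ^ m) *
        ∫ τ in (0 : ℝ)..Real.pi, Real.sin (m * τ) * Real.sin (m * τ)) := by
      apply hasSum_single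
      intro k hk
      rw [sin_sin_Four k m hk, mul_zero]
    rw [h.unique h2, sin_sq_Four m hm]
    ring
  · intro x hx hx1
    have hxs : Summable fun m : ℕ => |x ^ m| := by
      simp_rw [abs_of_nonneg (pow_nonneg hx.le _)]
      exact summable_geometric_of_lt_one hx.le hx1
    have hgc : Continuous fun τ : ℝ => x * Real.sin τ / (1 - 2 * x * Real.cos τ + x ^ 2) := by
      apply Continuous.div (by fun_prop) (by fun_prop)
      intro τ
      have h1 := Real.cos_le_one τ
      have : 0 < (1 - x) ^ 2 := by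
        have : 0 < 1 - x := by linarith
        positivity
      have h3 : 2 * x * Real.cos τ ≤ 2 * x := by nlinarith
      have : 0 < 1 - 2 * x * Real.cos τ + x ^ 2 := by nlinarith
      exact this.ne'
    have hk : ∀ k : ℕ, ∫ τ in (0 : ℝ)..Real.pi, Real.sin (k * τ) *
        (x * Real.sin τ / (1 - 2 * x * Real.cos τ + x ^ 2))
        = if k = 0 then 0 else Real.pi / 2 * x ^ k := by
      intro k
      split_ifs with hk0
      · subst hk0; simp
      have h := swap_Four (fun m => x ^ m) hxs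
        (fun τ => x * Real.sin τ / (1 - 2 * x * Real.cos τ + x ^ 2))
        (fun τ => Real.sin (k * τ)) (by fun_prop) (fun τ => poisson_Four x τ hx hx1)
      have h2 : HasSum (fun m : ℕ => x ^ m *
          ∫ τ in (0 : ℝ)..Real.pi, Real.sin (m * τ) * Real.sin (k * τ))
          (x ^ k * ∫ τ in (0 : ℝ)..Real.pi, Real.sin (k * τ) * Real.sin (k * τ)) := by
        apply hasSum_single
        intro m hm
        rw [sin_sin_Four m k hm, mul_zero]
      have h3 := h.unique h2
      rw [sin_sq_Four k (Nat.one_le_iff_ne_zero.mpr hk0)] at h3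
      simp_rw [mul_comm (Real.sin ((k : ℝ) * _))]
      rw [h3]; ring
    have h := swap_Four _ hcs (fun τ => (Zm Q ρ τ).re)
      (fun τ => x * Real.sin τ / (1 - 2 * x * Real.cos τ + x ^ 2)) hgc hZ
    simp_rw [hk] at h
    have hxρ : ‖((x * ρ : ℝ) : ℂ)‖ < 1 := by
      rw [Complex.norm_real, Real.norm_eq_abs, abs_of_pos (mul_pos hx hρ)]
      nlinarith
    have h1 := Complex.hasSum_re (hT _ hxρ)
    have h0 : HasSum (fun m : ℕ => if m = 0 then (Q 0).re else 0) (Q 0).re := by
      have := hasSum_ite_eq (0 : ℕ) ((Q 0).re)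
      exact this
    have h2 := (h1.sub h0).mul_left (Real.pi / 2)
    have h3 : (fun k : ℕ => ((coeff k Q).re * ρ ^ k) * (if k = 0 then 0 else Real.pi / 2 * x ^ k))
        = fun k : ℕ => Real.pi / 2 * ((coeff k Q * ((x * ρ : ℝ) : ℂ) ^ k).re
          - (if k = 0 then (Q 0).re else 0)) := by
      funext k
      split_ifs with hk0
      · subst hk0
        simp [coeff]
      · rw [← Complex.ofReal_pow, Complex.re_mul_ofReal]
        rw [mul_pow]
        ring
    rw [h3] at h
    rw [h.unique h2, Complex.sub_re]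
  · intro B hB
    have hpar := ub_parseval (fun m => coeff m Q) id Function.injective_id ρ hρ.le
      (hsum ρ hρ.le hρ1) Q (by
        intro z hz
        have : ‖z‖ = ρ := by simpa using hz
        exact hT z (by rw [this]; exact hρ1))
    have hle : Real.circleAverage (fun z => ‖Q z‖ ^ 2) 0 ρ ≤ B :=
      le_of_tendsto' hpar.tendsto_sum_nat hB
    have hpt : ∀ τ : ℝ, ‖Pm Q ρ τ‖ ^ 2 + ‖Zm Q ρ τ‖ ^ 2
        = (1 / 2 : ℝ) * ‖Q (circleMap 0 ρ τ)‖ ^ 2 + (1 / 2 : ℝ) * ‖Q (circleMap 0 ρ (-τ))‖ ^ 2 := by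
      intro τ
      unfold Pm Zm
      rw [norm_div, norm_div, norm_mul, Complex.norm_I]
      have := parallelogram_law_with_norm ℝ (Q (circleMap 0 ρ τ)) (Q (circleMap 0 ρ (-τ)))
      simp only [Complex.norm_ofNat]
      nlinarith [this]
    have hc2 : Continuous fun τ : ℝ => ‖Q (circleMap 0 ρ τ)‖ ^ 2 := hcont.norm.pow 2
    have hc3 : Continuous fun τ : ℝ => ‖Q (circleMap 0 ρ (-τ))‖ ^ 2 := hcont'.norm.pow 2
    have hint : ∫ τ in (0 : ℝ)..Real.pi, (‖Pm Q ρ τ‖ ^ 2 + ‖Zm Q ρ τ‖ ^ 2)
        = (1 / 2 : ℝ) * ∫ τ in (-Real.pi)..Real.pi, ‖Q (circleMap 0 ρ τ)‖ ^ 2 := by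
      simp_rw [hpt]
      rw [intervalIntegral.integral_add ((hc2.const_mul _).intervalIntegrable _ _)
        ((hc3.const_mul _).intervalIntegrable _ _), intervalIntegral.integral_const_mul,
        intervalIntegral.integral_const_mul,
        intervalIntegral.integral_comp_neg (fun τ => ‖Q (circleMap 0 ρ τ)‖ ^ 2), neg_zero,
        ← intervalIntegral.integral_add_adjacent_intervals (a := -Real.pi) (b := 0)
          (c := Real.pi) (hc2.intervalIntegrable _ _) (hc2.intervalIntegrable _ _)]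
      ring
    have hper : Function.Periodic (fun τ : ℝ => ‖Q (circleMap 0 ρ τ)‖ ^ 2) (2 * Real.pi) := by
      intro τ
      simp only [(periodic_circleMap 0 ρ) τ]
    have h5 : ∫ τ in (-Real.pi)..Real.pi, ‖Q (circleMap 0 ρ τ)‖ ^ 2
        = ∫ τ in (0 : ℝ)..(2 * Real.pi), ‖Q (circleMap 0 ρ τ)‖ ^ 2 := by
      have := hper.intervalIntegral_add_eq (-Real.pi) 0
      rw [show -Real.pi + 2 * Real.pi = Real.pi by ring, zero_add] at this
      exact this
    rw [Real.circleAverage] at hle
    rw [hint, h5]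
    rw [smul_eq_mul] at hle
    have hpi := Real.pi_pos
    have h6 : ∫ τ in (0 : ℝ)..(2 * Real.pi), ‖Q (circleMap 0 ρ τ)‖ ^ 2 ≤ 2 * Real.pi * B := by
      rw [inv_mul_le_iff₀ (by positivity)] at hle
      exact hle
    linarith

end Pool.Agent.Helper39.QM
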