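import Pool.Agent.Helper39.QM.St
import Pool.Agent.Helper64.C3.KChain
import Pool.Agent.Helper64.C3.Base

/-!
# Project QM, module GOL: Goluzin type inequality for the odd square root transform
-/

set_option autoImplicit false

open Metric Set Filter Topology
open scoped ComplexConjugate

namespace Pool.Agent.Helper39.QM

open Pool.Agent.Helper64.C3

/-- the slope of a self-map with derivative near one is near one (from the proof of `near_id`) -/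
private theorem dslope_near_Gol {h : ℂ → ℂ} (hh : SelfMap h) {p : ℝ} (hp0 : 0 < p) (hp1 : p ≤ 1)
    (hder : deriv h 0 = (p : ℂ)) {z : ℂ} (hz : ‖z‖ < 1) :
    ‖dslope h 0 z - 1‖ ≤ 3 * (1 - p) / (1 - ‖z‖) := by
  have h0 : (0 : ℂ) ∈ ball (0 : ℂ) 1 := by simp
  have hzb : z ∈ ball (0 : ℂ) 1 := by simpa using hz
  set u := dslope h 0 with hu
  have hud : DifferentiableOn ℂ u (ball 0 1) :=
    (Complex.differentiableOn_dslope (isOpen_ball.mem_nhds h0)).2 hh.1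
  have hub : ∀ z ∈ ball (0 : ℂ) 1, ‖u z‖ ≤ 1 := by
    intro z hz
    have h1 : MapsTo h (ball 0 1) (closedBall (h 0) 1) := by
      rw [hh.2.2]; exact hh.2.1.mono_right ball_subset_closedBall
    have := Complex.norm_dslope_le_div_of_mapsTo_ball hh.1 h1 hz
    simpa using this
  have hu0 : u 0 = p := by rw [hu, dslope_same, hder]
  have hxz : 0 < 1 - ‖z‖ := by linarith
  have key : ‖(p : ℂ) - u z‖ ≤ 2 * (1 - p) / (1 - ‖z‖) := by
    rcases hp1.eq_or_lt with h1 | h1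
    · have hmax : IsMaxOn (norm ∘ u) (ball 0 1) 0 := by
        intro z hz
        show ‖u z‖ ≤ ‖u 0‖
        rw [hu0, h1]
        simpa using hub z hz
      have heq := Complex.eqOn_of_isPreconnected_of_isMaxOn_norm
        (convex_ball (0 : ℂ) 1).isPreconnected isOpen_ball hud h0 hmax
      have h2 : u z = u 0 := heq hzb
      rw [h2, hu0, sub_self, norm_zero, h1]
      simp
    · have hpn : ‖(p : ℂ)‖ < 1 := by
        rw [Complex.norm_real, Real.norm_of_nonneg hp0.le]; exact h1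
      have hc : DifferentiableOn ℂ (fun z => B (p : ℂ) (u z)) (ball 0 1) := by
        intro z hz
        have h2 := (B_hasDeriv' hpn (hub z hz)).differentiableAt
        exact (h2.comp z (hud.differentiableAt (isOpen_ball.mem_nhds hz))).differentiableWithinAt
      have hcm : MapsTo (fun z => B (p : ℂ) (u z)) (ball 0 1) (closedBall 0 1) := by
        intro z hz
        rw [mem_closedBall_zero_iff]
        exact B_maps' hpn (hub z hz)
      have hc0 : B (p : ℂ) (u 0) = 0 := by rw [hu0, B_self]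
      have h3 : ‖B (p : ℂ) (u z)‖ ≤ ‖z‖ :=
        Complex.norm_le_norm_of_mapsTo_ball hc hcm hc0 hz
      have hcp : (starRingEnd ℂ) (p : ℂ) = p := Complex.conj_ofReal p
      have hden : 1 - (p : ℂ) * u z ≠ 0 := by
        have := B_den' hpn (hub z hzb)
        rwa [hcp] at this
      have h4 : ‖(p : ℂ) - u z‖ ≤ ‖z‖ * ‖1 - (p : ℂ) * u z‖ := by
        rw [B, hcp, norm_div, div_le_iff₀ (norm_pos_iff.2 hden)] at h3
        exact h3
      have h5 : ‖1 - (p : ℂ) * u z‖ ≤ (1 - p ^ 2) + ‖(p : ℂ) - u z‖ := by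
        have e : 1 - (p : ℂ) * u z = ((1 - p ^ 2 : ℝ) : ℂ) + p * (p - u z) := by push_cast; ring
        rw [e]
        refine (norm_add_le _ _).trans ?_
        rw [Complex.norm_real, norm_mul, Complex.norm_real, Real.norm_of_nonneg hp0.le,
          Real.norm_of_nonneg (by nlinarith)]
        have : p * ‖(p : ℂ) - u z‖ ≤ 1 * ‖(p : ℂ) - u z‖ :=
          mul_le_mul_of_nonneg_right hp1 (norm_nonneg _)
        linarith
      rw [le_div_iff₀ hxz]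
      have h6 : ‖z‖ * ‖1 - (p : ℂ) * u z‖ ≤ ‖z‖ * ((1 - p ^ 2) + ‖(p : ℂ) - u z‖) :=
        mul_le_mul_of_nonneg_left h5 (norm_nonneg _)
      have h7 : ‖z‖ * (1 - p ^ 2) ≤ 1 * (1 - p ^ 2) :=
        mul_le_mul_of_nonneg_right hz.le (by nlinarith)
      nlinarith
  have e1 : u z - 1 = (u z - p) + ((p - 1 : ℝ) : ℂ) := by push_cast; ring
  rw [e1]
  refine (norm_add_le _ _).trans ?_
  rw [norm_sub_rev, Complex.norm_real, Real.norm_eq_abs, abs_sub_comm,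
    abs_of_nonneg (by linarith : 0 ≤ 1 - p)]
  have e3 : 1 - p ≤ (1 - p) / (1 - ‖z‖) := by
    rw [le_div_iff₀ hxz]
    nlinarith [norm_nonneg z]
  calc ‖(p : ℂ) - u z‖ + (1 - p) ≤ 2 * (1 - p) / (1 - ‖z‖) + (1 - p) / (1 - ‖z‖) := by linarith
    _ = 3 * (1 - p) / (1 - ‖z‖) := by ring

private theorem GG_ge_one_Gol {t : ℂ} (ht : ‖t‖ < 1) : 1 ≤ GG t := by
  have h0 := norm_nonneg t
  have h1 : 0 < 1 - ‖t‖ ^ 2 := by nlinarith
  rw [GG, le_div_iff₀ h1]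
  nlinarith [sq_nonneg ‖t‖]

/-- the square roots along the chain -/
private noncomputable def eta_Gol (q : ℝ) (H : ℕ → ℂ → ℂ) (χ : ℕ → ℂ) : ℕ → ℂ → ℂ
  | 0 => fun z => (dslope (H 0) 0 z) ^ ((2 : ℂ)⁻¹)
  | i + 1 => fun z => eta_Gol q H χ i z * ((q - χ i * H i z) / (1 - q * χ i * H i z)) ^ ((2 : ℂ)⁻¹)

private theorem sq_root_Gol (x : ℂ) : (x ^ ((2 : ℂ)⁻¹)) ^ 2 = x := Complex.cpow_nat_inv_pow _ two_ne_zero

private theorem den_ne_Gol {q : ℝ} (hq0 : 0 < q) (hq1 : q < 1) {χ x : ℂ} (hχ : ‖χ‖ = 1) (hx : ‖x‖ < 1) :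
    1 - q * χ * x ≠ 0 := by
  intro h
  have h1 : (q : ℂ) * χ * x = 1 := by linear_combination -h
  have h2 := congrArg norm h1
  rw [norm_mul, norm_mul, hχ, Complex.norm_real, Real.norm_of_nonneg hq0.le, norm_one, mul_one] at h2
  nlinarith [norm_nonneg x]

private theorem slit_Gol {q ρ : ℝ} (hq0 : 0 < q) (hq1 : q < 1) (hρ1 : ρ < 1) (hρq : 1 - q ≤ (1 - ρ) / 4)
    {χ x : ℂ} (hχ : ‖χ‖ = 1) (hx : ‖x‖ ≤ ρ) :
    (q - χ * x) / (1 - q * χ * x) ∈ Complex.slitPlane := by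
  have hx1 : ‖x‖ < 1 := by linarith
  have hd := den_ne_Gol hq0 hq1 hχ hx1
  have e : (q - χ * x) / (1 - q * χ * x) = 1 + (-((1 - q : ℝ) : ℂ) * (1 + χ * x) / (1 - q * χ * x)) := by
    field_simp
    push_cast
    ring
  rw [e]
  apply Complex.mem_slitPlane_of_norm_lt_one
  have h1 : ‖1 + χ * x‖ ≤ 2 := by
    refine (norm_add_le _ _).trans ?_
    rw [norm_one, norm_mul, hχ, one_mul]
    linarith
  have h2 : 1 - ρ ≤ ‖1 - q * χ * x‖ := by
    have := norm_sub_norm_le (1 : ℂ) (q * χ * x)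
    rw [norm_one, norm_mul, norm_mul, hχ, Complex.norm_real, Real.norm_of_nonneg hq0.le, mul_one] at this
    nlinarith [norm_nonneg x]
  have h3 : 0 < 1 - ρ := by linarith
  rw [norm_div, norm_mul, norm_neg, Complex.norm_real, Real.norm_of_nonneg (by linarith)]
  rw [div_lt_one (by linarith)]
  nlinarith [norm_nonneg (1 + χ * x)]

/-- the chain estimate -/
private theorem chain_Gol (HS : StStep) {h σ : ℂ → ℂ} {p : ℝ} (hh : SelfMap h) (hi : InjOn h (ball 0 1))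
    (hp : 0 < p) (hder : deriv h 0 = (p : ℂ)) (hσ : ContinuousOn σ (ball 0 1)) (hσ0 : σ 0 = 1)
    (hσh : ∀ z ∈ ball (0 : ℂ) 1, h z * σ z ^ 2 = p * z) {ρ : ℝ} (hρ0 : 0 < ρ) (hρ1 : ρ < 1)
    {w v : ℂ} (hw : ‖w‖ ^ 2 ≤ ρ) (hv : ‖v‖ ^ 2 ≤ ρ) (hwv : w ^ 2 ≠ v ^ 2) :
    ∃ C ℓ τ₀ K : ℝ, 0 < τ₀ ∧ ∀ τ : ℝ, 0 < τ → τ ≤ τ₀ → ∃ x y : ℂ, ‖x - 1‖ ≤ K * τ ∧ ‖y - 1‖ ≤ K * τ ∧
      ‖w * σ (v ^ 2) - v * σ (w ^ 2)‖ ^ 2 * ‖w * x ^ ((2 : ℂ)⁻¹) + v * y ^ ((2 : ℂ)⁻¹)‖ ^ 2 ≤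
      Real.exp (C * (τ * ℓ)) * (‖w * σ (v ^ 2) + v * σ (w ^ 2)‖ ^ 2 *
        ‖w * x ^ ((2 : ℂ)⁻¹) - v * y ^ ((2 : ℂ)⁻¹)‖ ^ 2 *
        (GG (w * x ^ ((2 : ℂ)⁻¹)) * GG (v * y ^ ((2 : ℂ)⁻¹)))) := by
  obtain ⟨C, δ₀, hC, hδ₀, hδ₀1, hst⟩ := HS ρ hρ0 hρ1
  have h1ρ : 0 < 1 - ρ := by linarith
  have hp1 := deriv_le_one hh hp hder
  set ℓ := -Real.log p with hℓ
  have hℓ0 : 0 ≤ ℓ := by
    have := Real.log_nonpos hp.le hp1
    linarith
  refine ⟨C, ℓ, min δ₀ ((1 - ρ) / 4), 3 / (1 - ρ), by positivity, ?_⟩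
  intro τ hτ0 hτ1
  have hτδ : τ ≤ δ₀ := hτ1.trans (min_le_left _ _)
  have hτρ : τ ≤ (1 - ρ) / 4 := hτ1.trans (min_le_right _ _)
  have hrc0 : 0 < 1 - τ := by linarith
  have hrc1 : 1 - τ < 1 := by linarith
  obtain ⟨m, p₀, H, χ, hc, hp₀, hp₀1, hqm, hHm⟩ := exists_chain hrc0 hrc1 hh hi hp hder
  obtain ⟨hκ1, hκ2⟩ := kappa_bounds hrc0 hrc1
  set q := 2 * Real.sqrt (1 - τ) / (1 + (1 - τ)) with hq
  have hq0 : 0 < q := by linarith
  have h1q : 0 < 1 - q := by linarith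
  have h1qτ : 1 - q ≤ τ := by linarith
  have hp₀0 : 0 < p₀ := by linarith
  -- the number of steps
  have hm1 : m * (1 - q) ≤ ℓ := by
    have h1 : p ≤ q ^ m := by
      rw [← hqm]
      have : q ^ m * p₀ ≤ q ^ m * 1 := mul_le_mul_of_nonneg_left hp₀1 (by positivity)
      linarith
    have h2 : Real.log p ≤ m * Real.log q := by
      rw [← Real.log_pow]
      exact Real.log_le_log hp h1
    have h3 : Real.log q ≤ q - 1 := Real.log_le_sub_one_of_pos hq0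
    have h4 : (m : ℝ) * Real.log q ≤ m * (q - 1) := mul_le_mul_of_nonneg_left h3 (by positivity)
    rw [hℓ]
    linarith
  have hm2 : m * (1 - q) ^ 2 ≤ τ * ℓ := by
    calc m * (1 - q) ^ 2 = (m * (1 - q)) * (1 - q) := by ring
      _ ≤ ℓ * τ := mul_le_mul hm1 h1qτ h1q.le hℓ0
      _ = τ * ℓ := by ring
  set lam := 1 + C * (1 - q) ^ 2 with hlam
  have hlam0 : 0 < lam := by positivity
  have hlamm : lam ^ m ≤ Real.exp (C * (τ * ℓ)) := by
    have h1 : lam ≤ Real.exp (C * (1 - q) ^ 2) := by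
      rw [hlam, add_comm]
      exact Real.add_one_le_exp _
    calc lam ^ m ≤ (Real.exp (C * (1 - q) ^ 2)) ^ m := pow_le_pow_left₀ hlam0.le h1 m
      _ = Real.exp (C * (m * (1 - q) ^ 2)) := by
        rw [← Real.exp_nat_mul]
        congr 1
        ring
      _ ≤ Real.exp (C * (τ * ℓ)) := by
        apply Real.exp_le_exp.2
        exact mul_le_mul_of_nonneg_left hm2 hC.le
  -- the compact set
  set K := closedBall (0 : ℂ) ρ with hK
  have hKb : K ⊆ ball (0 : ℂ) 1 := closedBall_subset_ball hρ1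
  have h0K : (0 : ℂ) ∈ K := by rw [hK, mem_closedBall_zero_iff, norm_zero]; exact hρ0.le
  have hwK : w ^ 2 ∈ K := by rw [hK, mem_closedBall_zero_iff, norm_pow]; exact hw
  have hvK : v ^ 2 ∈ K := by rw [hK, mem_closedBall_zero_iff, norm_pow]; exact hv
  have hHρ : ∀ i ≤ m, ∀ z ∈ K, ‖H i z‖ ≤ ρ := by
    intro i him z hz
    have h1 := schwarz_norm (hc.self i him) (hKb hz)
    rw [hK, mem_closedBall_zero_iff] at hz
    linarith
  have h0b : (0 : ℂ) ∈ ball (0 : ℂ) 1 := by simp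
  have hQslit : ∀ i ≤ m, ∀ z ∈ K, (q - χ i * H i z) / (1 - q * χ i * H i z) ∈ Complex.slitPlane := by
    intro i him z hz
    exact slit_Gol hq0 hκ2 hρ1 (by linarith) (hc.chi i) (hHρ i him z hz)
  have hden : ∀ i ≤ m, ∀ z ∈ K, 1 - q * χ i * H i z ≠ 0 := by
    intro i him z hz
    exact den_ne_Gol hq0 hκ2 (hc.chi i) (lt_of_le_of_lt (hHρ i him z hz) hρ1)
  have hu0near : ∀ z ∈ K, ‖dslope (H 0) 0 z - 1‖ ≤ 3 / (1 - ρ) * τ := by
    intro z hz
    have hd0 : deriv (H 0) 0 = (p₀ : ℂ) := by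
      have := hc.der 0 (Nat.zero_le _)
      simpa using this
    have hz1 : ‖z‖ ≤ ρ := by rwa [hK, mem_closedBall_zero_iff] at hz
    have h1 := dslope_near_Gol (hc.self 0 (Nat.zero_le _)) hp₀0 hp₀1 hd0 (z := z) (by linarith)
    refine h1.trans ?_
    have h2 : 1 - ρ ≤ 1 - ‖z‖ := by linarith
    rw [div_mul_eq_mul_div]
    apply div_le_div₀ (by positivity) (by linarith) h1ρ h2
  have hu0slit : ∀ z ∈ K, dslope (H 0) 0 z ∈ Complex.slitPlane := by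
    intro z hz
    have h1 := hu0near z hz
    have e : dslope (H 0) 0 z = 1 + (dslope (H 0) 0 z - 1) := by ring
    rw [e]
    apply Complex.mem_slitPlane_of_norm_lt_one
    refine lt_of_le_of_lt h1 ?_
    rw [div_mul_eq_mul_div, div_lt_one h1ρ]
    linarith
  have hdsl : ∀ i ≤ m, ContinuousOn (dslope (H i) 0) K := by
    intro i him
    exact ((Complex.differentiableOn_dslope (isOpen_ball.mem_nhds h0b)).2
      (hc.self i him).1).continuousOn.mono hKb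
  -- the square roots
  set η := eta_Gol q H χ with hη
  have hη0 : ∀ z, η 0 z = (dslope (H 0) 0 z) ^ ((2 : ℂ)⁻¹) := fun z => rfl
  have hηs : ∀ i z, η (i + 1) z = η i z * ((q - χ i * H i z) / (1 - q * χ i * H i z)) ^ ((2 : ℂ)⁻¹) :=
    fun i z => rfl
  have hds_step : ∀ i < m, ∀ z ∈ K, dslope (H (i + 1)) 0 z =
      dslope (H i) 0 z * ((q - χ i * H i z) / (1 - q * χ i * H i z)) := by
    intro i him z hz
    rcases eq_or_ne z 0 with rfl | hz0
    · rw [dslope_same, dslope_same, hc.der (i + 1) him, hc.der i him.le, (hc.self i him.le).2.2]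
      push_cast
      rw [pow_succ]
      simp
      ring
    · rw [dslope_of_ne _ hz0, dslope_of_ne _ hz0, slope_def_field, slope_def_field,
        (hc.self (i + 1) him).2.2, (hc.self i him.le).2.2, hc.step i him z (hKb hz), kst]
      simp only [sub_zero]
      ring
  have hηsq : ∀ i ≤ m, ∀ z ∈ K, η i z ^ 2 = dslope (H i) 0 z := by
    intro i
    induction i with
    | zero => intro _ z _; rw [hη0, sq_root_Gol]
    | succ i ih =>
      intro him z hz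
      rw [hηs, mul_pow, sq_root_Gol, ih (by omega) z hz, hds_step i (by omega) z hz]
  have hηc : ∀ i ≤ m, ContinuousOn (η i) K := by
    intro i
    induction i with
    | zero =>
      intro _
      have : ContinuousOn (fun z => (dslope (H 0) 0 z) ^ ((2 : ℂ)⁻¹)) K :=
        (hdsl 0 (Nat.zero_le _)).cpow_const hu0slit
      exact this
    | succ i ih =>
      intro him
      have hHc : ContinuousOn (H i) K := (hc.self i (by omega)).1.continuousOn.mono hKb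
      have hQ : ContinuousOn (fun z => (q - χ i * H i z) / (1 - q * χ i * H i z)) K := by
        apply ContinuousOn.div
        · exact continuousOn_const.sub (continuousOn_const.mul hHc)
        · exact continuousOn_const.sub (continuousOn_const.mul hHc)
        · exact hden i (by omega)
      exact (ih (by omega)).mul (hQ.cpow_const (hQslit i (by omega)))
  -- the constant
  have hpC : (p : ℂ) ≠ 0 := by exact_mod_cast hp.ne'
  obtain ⟨κ, hκ0, hκ⟩ : ∃ κ : ℂ, κ ≠ 0 ∧ ∀ z ∈ K, η m z * σ z = κ := by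
    have hsq : ∀ z ∈ K, (η m z * σ z) ^ 2 = (p : ℂ) := by
      intro z hz
      rw [mul_pow, hηsq m le_rfl z hz]
      rcases eq_or_ne z 0 with rfl | hz0
      · rw [dslope_same, hc.der m le_rfl, hqm, hσ0]
        ring
      · rw [dslope_of_ne _ hz0, slope_def_field, (hc.self m le_rfl).2.2, hHm z (hKb hz)]
        have := hσh z (hKb hz)
        rw [sub_zero, sub_zero, div_mul_eq_mul_div, this]
        field_simp
    obtain ⟨k0, hk0⟩ := IsAlgClosed.exists_pow_nat_eq (p : ℂ) (n := 2) (by norm_num)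
    have hk0ne : k0 ≠ 0 := by
      rintro rfl
      rw [zero_pow two_ne_zero] at hk0
      exact hpC hk0.symm
    have hpre : IsPreconnected K := (convex_closedBall (0 : ℂ) ρ).isPreconnected
    have hcont : ContinuousOn (fun z => η m z * σ z) K := (hηc m le_rfl).mul (hσ.mono hKb)
    have hcont2 : ContinuousOn (fun _ : ℂ => k0) K := continuousOn_const
    rcases hpre.eq_or_eq_neg_of_sq_eq hcont hcont2 (fun z hz => by
        show (η m z * σ z) ^ 2 = k0 ^ 2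
        rw [hsq z hz, hk0]) (fun _ => hk0ne) with h1 | h1
    · exact ⟨k0, hk0ne, fun z hz => h1 hz⟩
    · exact ⟨-k0, neg_ne_zero.2 hk0ne, fun z hz => h1 hz⟩
  -- the two sequences
  set a : ℕ → ℂ := fun i => w * η i (w ^ 2) with ha
  set b : ℕ → ℂ := fun i => v * η i (v ^ 2) with hb
  have hasq : ∀ i ≤ m, a i ^ 2 = H i (w ^ 2) := by
    intro i him
    rw [ha]
    simp only
    rw [mul_pow, hηsq i him _ hwK, ← dslope_eq (hc.self i him).2.2]
  have hbsq : ∀ i ≤ m, b i ^ 2 = H i (v ^ 2) := by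
    intro i him
    rw [hb]
    simp only
    rw [mul_pow, hηsq i him _ hvK, ← dslope_eq (hc.self i him).2.2]
  have haρ : ∀ i ≤ m, ‖a i‖ ^ 2 ≤ ρ := by
    intro i him
    rw [← norm_pow, hasq i him]
    exact hHρ i him _ hwK
  have hbρ : ∀ i ≤ m, ‖b i‖ ^ 2 ≤ ρ := by
    intro i him
    rw [← norm_pow, hbsq i him]
    exact hHρ i him _ hvK
  have hab : ∀ i ≤ m, a i ^ 2 ≠ b i ^ 2 := by
    intro i him
    rw [hasq i him, hbsq i him]
    intro h
    exact hwv (hc.inj i him (hKb hwK) (hKb hvK) h)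
  have hS : ∀ i ≤ m, 0 < ‖a i + b i‖ ^ 2 := by
    intro i him
    have : a i + b i ≠ 0 := by
      intro h
      apply hab i him
      linear_combination (a i - b i) * h
    positivity
  have ha1 : ∀ i ≤ m, ‖a i‖ < 1 := by
    intro i him
    have := haρ i him
    by_contra hcon
    push Not at hcon
    nlinarith
  have hb1 : ∀ i ≤ m, ‖b i‖ < 1 := by
    intro i him
    have := hbρ i him
    by_contra hcon
    push Not at hcon
    nlinarith
  have hstep : ∀ i < m, ‖a (i + 1) - b (i + 1)‖ ^ 2 * ‖a i + b i‖ ^ 2 * (GG (a (i + 1)) * GG (b (i + 1))) ≤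
      lam * (‖a (i + 1) + b (i + 1)‖ ^ 2 * ‖a i - b i‖ ^ 2 * (GG (a i) * GG (b i))) := by
    intro i him
    set α := ((q - χ i * H i (w ^ 2)) / (1 - q * χ i * H i (w ^ 2))) ^ ((2 : ℂ)⁻¹) with hα
    set β := ((q - χ i * H i (v ^ 2)) / (1 - q * χ i * H i (v ^ 2))) ^ ((2 : ℂ)⁻¹) with hβ
    have h1 := hst q (χ i) (a i) (b i) α β (by linarith) hκ2 (hc.chi i) (haρ i him.le) (hbρ i him.le)
      (by rw [hasq i him.le, hα, sq_root_Gol]) (sqrt_re_pos (hQslit i him.le _ hwK))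
      (by rw [hbsq i him.le, hβ, sq_root_Gol]) (sqrt_re_pos (hQslit i him.le _ hvK))
    have ea : a (i + 1) = a i * α := by
      rw [ha]
      simp only
      rw [hηs]
      ring
    have eb : b (i + 1) = b i * β := by
      rw [hb]
      simp only
      rw [hηs]
      ring
    rw [← ea, ← eb, norm_mul, mul_pow, norm_mul, mul_pow] at h1
    exact h1
  have hGa : ∀ i ≤ m, 1 ≤ GG (a i) := fun i him => GG_ge_one_Gol (ha1 i him)
  have hGb : ∀ i ≤ m, 1 ≤ GG (b i) := fun i him => GG_ge_one_Gol (hb1 i him)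
  have hind : ∀ i ≤ m, ‖a i - b i‖ ^ 2 * ‖a 0 + b 0‖ ^ 2 * (GG (a i) * GG (b i)) ≤
      lam ^ i * (‖a i + b i‖ ^ 2 * ‖a 0 - b 0‖ ^ 2 * (GG (a 0) * GG (b 0))) := by
    intro i
    induction i with
    | zero =>
      intro _
      rw [pow_zero, one_mul]
      apply le_of_eq
      ring
    | succ i ih =>
      intro him
      have h1 := ih (by omega)
      have h2 := hstep i (by omega)
      have h3 := hS i (by omega)
      have h4 : 0 ≤ ‖a 0 + b 0‖ ^ 2 := by positivity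
      have h5 : 0 ≤ lam * ‖a (i + 1) + b (i + 1)‖ ^ 2 := by positivity
      have e1 := mul_le_mul_of_nonneg_right h2 h4
      have e2 := mul_le_mul_of_nonneg_left h1 h5
      have e3 : ‖a i + b i‖ ^ 2 * (‖a (i + 1) - b (i + 1)‖ ^ 2 * ‖a 0 + b 0‖ ^ 2 *
          (GG (a (i + 1)) * GG (b (i + 1)))) ≤ ‖a i + b i‖ ^ 2 * (lam ^ (i + 1) *
          (‖a (i + 1) + b (i + 1)‖ ^ 2 * ‖a 0 - b 0‖ ^ 2 * (GG (a 0) * GG (b 0)))) := by
        calc _ = ‖a (i + 1) - b (i + 1)‖ ^ 2 * ‖a i + b i‖ ^ 2 * (GG (a (i + 1)) * GG (b (i + 1)))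
              * ‖a 0 + b 0‖ ^ 2 := by ring
          _ ≤ _ := e1
          _ = lam * ‖a (i + 1) + b (i + 1)‖ ^ 2 * (‖a i - b i‖ ^ 2 * ‖a 0 + b 0‖ ^ 2 *
              (GG (a i) * GG (b i))) := by ring
          _ ≤ _ := e2
          _ = _ := by rw [pow_succ]; ring
      exact le_of_mul_le_mul_left e3 h3
  -- conclusion
  refine ⟨dslope (H 0) 0 (w ^ 2), dslope (H 0) 0 (v ^ 2), hu0near _ hwK, hu0near _ hvK, ?_⟩
  have ha0 : w * (dslope (H 0) 0 (w ^ 2)) ^ ((2 : ℂ)⁻¹) = a 0 := rfl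
  have hb0 : v * (dslope (H 0) 0 (v ^ 2)) ^ ((2 : ℂ)⁻¹) = b 0 := rfl
  rw [ha0, hb0]
  have hend := hind m le_rfl
  have hσw : a m * σ (w ^ 2) = κ * w := by
    rw [← hκ _ hwK, ha]
    ring
  have hσv : b m * σ (v ^ 2) = κ * v := by
    rw [← hκ _ hvK, hb]
    ring
  have hσ1 : σ (w ^ 2) ≠ 0 := by
    intro h
    apply hκ0
    rw [← hκ _ hwK, h, mul_zero]
  have hσ2 : σ (v ^ 2) ≠ 0 := by
    intro h
    apply hκ0
    rw [← hκ _ hvK, h, mul_zero]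
  have em : (a m - b m) * (σ (w ^ 2) * σ (v ^ 2)) = κ * (w * σ (v ^ 2) - v * σ (w ^ 2)) := by
    linear_combination σ (v ^ 2) * hσw - σ (w ^ 2) * hσv
  have ep : (a m + b m) * (σ (w ^ 2) * σ (v ^ 2)) = κ * (w * σ (v ^ 2) + v * σ (w ^ 2)) := by
    linear_combination σ (v ^ 2) * hσw + σ (w ^ 2) * hσv
  have em' := congrArg (fun t => ‖t‖ ^ 2) em
  have ep' := congrArg (fun t => ‖t‖ ^ 2) ep
  simp only [norm_mul, mul_pow] at em' ep'
  have hT : 0 ≤ ‖σ (w ^ 2)‖ ^ 2 * ‖σ (v ^ 2)‖ ^ 2 := by positivity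
  have hκpos : 0 < ‖κ‖ ^ 2 := by positivity
  have hg1 : 1 ≤ GG (a m) * GG (b m) := by
    have := hGa m le_rfl
    have := hGb m le_rfl
    nlinarith
  have hg0 : 0 ≤ GG (a 0) * GG (b 0) := by
    have := hGa 0 (Nat.zero_le _)
    have := hGb 0 (Nat.zero_le _)
    nlinarith
  set A := ‖w * σ (v ^ 2) - v * σ (w ^ 2)‖ ^ 2 with hA
  set Bq := ‖w * σ (v ^ 2) + v * σ (w ^ 2)‖ ^ 2 with hBq
  set S0 := ‖a 0 + b 0‖ ^ 2 with hS0
  set D0 := ‖a 0 - b 0‖ ^ 2 with hD0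
  have hA0 : 0 ≤ A := by positivity
  have hB0 : 0 ≤ Bq := by positivity
  have hS00 : 0 ≤ S0 := by positivity
  have hD00 : 0 ≤ D0 := by positivity
  have hend2 := mul_le_mul_of_nonneg_right hend hT
  have e1 : ‖a m - b m‖ ^ 2 * S0 * (GG (a m) * GG (b m)) * (‖σ (w ^ 2)‖ ^ 2 * ‖σ (v ^ 2)‖ ^ 2) =
      ‖κ‖ ^ 2 * (A * S0 * (GG (a m) * GG (b m))) := by
    rw [show ‖a m - b m‖ ^ 2 * S0 * (GG (a m) * GG (b m)) * (‖σ (w ^ 2)‖ ^ 2 * ‖σ (v ^ 2)‖ ^ 2) =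
      (‖a m - b m‖ ^ 2 * (‖σ (w ^ 2)‖ ^ 2 * ‖σ (v ^ 2)‖ ^ 2)) * (S0 * (GG (a m) * GG (b m))) by ring, em']
    ring
  have e2 : lam ^ m * (‖a m + b m‖ ^ 2 * D0 * (GG (a 0) * GG (b 0))) * (‖σ (w ^ 2)‖ ^ 2 * ‖σ (v ^ 2)‖ ^ 2) =
      ‖κ‖ ^ 2 * (lam ^ m * (Bq * D0 * (GG (a 0) * GG (b 0)))) := by
    rw [show lam ^ m * (‖a m + b m‖ ^ 2 * D0 * (GG (a 0) * GG (b 0))) * (‖σ (w ^ 2)‖ ^ 2 * ‖σ (v ^ 2)‖ ^ 2) =
      (‖a m + b m‖ ^ 2 * (‖σ (w ^ 2)‖ ^ 2 * ‖σ (v ^ 2)‖ ^ 2)) * (lam ^ m * (D0 * (GG (a 0) * GG (b 0)))) by ring,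
      ep']
    ring
  rw [e1, e2] at hend2
  have hend3 := le_of_mul_le_mul_left hend2 hκpos
  have hAS : 0 ≤ A * S0 := by positivity
  calc A * S0 ≤ A * S0 * (GG (a m) * GG (b m)) := le_mul_of_one_le_right hAS hg1
    _ ≤ lam ^ m * (Bq * D0 * (GG (a 0) * GG (b 0))) := hend3
    _ ≤ Real.exp (C * (τ * ℓ)) * (Bq * D0 * (GG (a 0) * GG (b 0))) :=
      mul_le_mul_of_nonneg_right hlamm (by positivity)

private theorem GG_cont_Gol {t : ℂ} (ht : ‖t‖ < 1) : ContinuousAt GG t := by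
  have h0 := norm_nonneg t
  have h1 : 1 - ‖t‖ ^ 2 ≠ 0 := by nlinarith
  unfold GG
  exact ContinuousAt.div (by fun_prop) (by fun_prop) h1

/-- the inequality for a bounded function -/
private theorem bdd_Gol (HS : StStep) {h σ : ℂ → ℂ} {p : ℝ} (hh : SelfMap h) (hi : InjOn h (ball 0 1))
    (hp : 0 < p) (hder : deriv h 0 = (p : ℂ)) (hσ : ContinuousOn σ (ball 0 1)) (hσ0 : σ 0 = 1)
    (hσh : ∀ z ∈ ball (0 : ℂ) 1, h z * σ z ^ 2 = p * z)
    {w v : ℂ} (hw : ‖w‖ < 1) (hv : ‖v‖ < 1) (hwv : w ^ 2 ≠ v ^ 2) :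
    ‖w * σ (v ^ 2) - v * σ (w ^ 2)‖ ^ 2 * ‖w + v‖ ^ 2 ≤
      ‖w * σ (v ^ 2) + v * σ (w ^ 2)‖ ^ 2 * ‖w - v‖ ^ 2 * (GG w * GG v) := by
  obtain ⟨ρ, hρ0, hρ1, hwρ, hvρ⟩ : ∃ ρ : ℝ, 0 < ρ ∧ ρ < 1 ∧ ‖w‖ ^ 2 ≤ ρ ∧ ‖v‖ ^ 2 ≤ ρ := by
    have hw2 : ‖w‖ ^ 2 < 1 := by nlinarith [norm_nonneg w]
    have hv2 : ‖v‖ ^ 2 < 1 := by nlinarith [norm_nonneg v]
    refine ⟨max (1 / 2) (max (‖w‖ ^ 2) (‖v‖ ^ 2)), by positivity, ?_, ?_, ?_⟩
    · exact max_lt (by norm_num) (max_lt hw2 hv2)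
    · exact (le_max_left _ _).trans (le_max_right _ _)
    · exact (le_max_right _ _).trans (le_max_right _ _)
  obtain ⟨C, ℓ, τ₀, K, hτ₀, hτ⟩ := chain_Gol HS hh hi hp hder hσ hσ0 hσh hρ0 hρ1 hwρ hvρ hwv
  -- choose
  have hex : ∀ τ : ℝ, ∃ x y : ℂ, 0 < τ → τ ≤ τ₀ → ‖x - 1‖ ≤ K * τ ∧ ‖y - 1‖ ≤ K * τ ∧
      ‖w * σ (v ^ 2) - v * σ (w ^ 2)‖ ^ 2 * ‖w * x ^ ((2 : ℂ)⁻¹) + v * y ^ ((2 : ℂ)⁻¹)‖ ^ 2 ≤
      Real.exp (C * (τ * ℓ)) * (‖w * σ (v ^ 2) + v * σ (w ^ 2)‖ ^ 2 *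
        ‖w * x ^ ((2 : ℂ)⁻¹) - v * y ^ ((2 : ℂ)⁻¹)‖ ^ 2 *
        (GG (w * x ^ ((2 : ℂ)⁻¹)) * GG (v * y ^ ((2 : ℂ)⁻¹)))) := by
    intro τ
    by_cases h : 0 < τ ∧ τ ≤ τ₀
    · obtain ⟨x, y, h1⟩ := hτ τ h.1 h.2
      exact ⟨x, y, fun _ _ => h1⟩
    · exact ⟨1, 1, fun h1 h2 => absurd ⟨h1, h2⟩ h⟩
  choose x y hxy using hex
  have hev : ∀ᶠ τ in 𝓝[>] (0 : ℝ), 0 < τ ∧ τ ≤ τ₀ := by
    filter_upwards [Ioc_mem_nhdsGT hτ₀] with τ hτ
    exact hτ
  have hK0 : Tendsto (fun τ : ℝ => K * τ) (𝓝[>] 0) (𝓝 0) := by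
    have : Tendsto (fun τ : ℝ => K * τ) (𝓝 0) (𝓝 (K * 0)) := (continuous_const.mul continuous_id).tendsto 0
    rw [mul_zero] at this
    exact this.mono_left nhdsWithin_le_nhds
  have hx1 : Tendsto x (𝓝[>] 0) (𝓝 1) := by
    rw [tendsto_iff_norm_sub_tendsto_zero]
    refine squeeze_zero' (Eventually.of_forall fun _ => norm_nonneg _) ?_ hK0
    filter_upwards [hev] with τ hτ'
    exact (hxy τ hτ'.1 hτ'.2).1
  have hy1 : Tendsto y (𝓝[>] 0) (𝓝 1) := by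
    rw [tendsto_iff_norm_sub_tendsto_zero]
    refine squeeze_zero' (Eventually.of_forall fun _ => norm_nonneg _) ?_ hK0
    filter_upwards [hev] with τ hτ'
    exact (hxy τ hτ'.1 hτ'.2).2.1
  have hroot : ContinuousAt (fun u : ℂ => u ^ ((2 : ℂ)⁻¹)) 1 := by
    apply continuousAt_cpow_const
    exact Complex.one_mem_slitPlane
  have hroot1 : (1 : ℂ) ^ ((2 : ℂ)⁻¹) = 1 := Complex.one_cpow _
  have hX : Tendsto (fun τ => w * x τ ^ ((2 : ℂ)⁻¹)) (𝓝[>] 0) (𝓝 w) := by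
    have := (hroot.tendsto.comp hx1).const_mul w
    rw [hroot1, mul_one] at this
    exact this
  have hY : Tendsto (fun τ => v * y τ ^ ((2 : ℂ)⁻¹)) (𝓝[>] 0) (𝓝 v) := by
    have := (hroot.tendsto.comp hy1).const_mul v
    rw [hroot1, mul_one] at this
    exact this
  have hE : Tendsto (fun τ : ℝ => Real.exp (C * (τ * ℓ))) (𝓝[>] 0) (𝓝 1) := by
    have : Tendsto (fun τ : ℝ => Real.exp (C * (τ * ℓ))) (𝓝 0) (𝓝 (Real.exp (C * (0 * ℓ)))) := by
      apply Continuous.tendsto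
      fun_prop
    rw [zero_mul, mul_zero, Real.exp_zero] at this
    exact this.mono_left nhdsWithin_le_nhds
  have hGX : Tendsto (fun τ => GG (w * x τ ^ ((2 : ℂ)⁻¹))) (𝓝[>] 0) (𝓝 (GG w)) :=
    (GG_cont_Gol hw).tendsto.comp hX
  have hGY : Tendsto (fun τ => GG (v * y τ ^ ((2 : ℂ)⁻¹))) (𝓝[>] 0) (𝓝 (GG v)) :=
    (GG_cont_Gol hv).tendsto.comp hY
  have hL : Tendsto (fun τ => ‖w * σ (v ^ 2) - v * σ (w ^ 2)‖ ^ 2 *
      ‖w * x τ ^ ((2 : ℂ)⁻¹) + v * y τ ^ ((2 : ℂ)⁻¹)‖ ^ 2) (𝓝[>] 0)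
      (𝓝 (‖w * σ (v ^ 2) - v * σ (w ^ 2)‖ ^ 2 * ‖w + v‖ ^ 2)) :=
    ((hX.add hY).norm.pow 2).const_mul _
  have hR : Tendsto (fun τ => Real.exp (C * (τ * ℓ)) * (‖w * σ (v ^ 2) + v * σ (w ^ 2)‖ ^ 2 *
        ‖w * x τ ^ ((2 : ℂ)⁻¹) - v * y τ ^ ((2 : ℂ)⁻¹)‖ ^ 2 *
        (GG (w * x τ ^ ((2 : ℂ)⁻¹)) * GG (v * y τ ^ ((2 : ℂ)⁻¹))))) (𝓝[>] 0)
      (𝓝 (1 * (‖w * σ (v ^ 2) + v * σ (w ^ 2)‖ ^ 2 * ‖w - v‖ ^ 2 * (GG w * GG v)))) :=
    hE.mul ((((hX.sub hY).norm.pow 2).const_mul _).mul (hGX.mul hGY))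
  rw [one_mul] at hR
  refine le_of_tendsto_of_tendsto hL hR ?_
  filter_upwards [hev] with τ hτ'
  exact (hxy τ hτ'.1 hτ'.2).2.2

/-- Module GOL. -/
theorem gol (H : StStep) : StGol := by
  intro f s hf hs w v hw hv
  have hGw := GG_ge_one_Gol hw
  have hGv := GG_ge_one_Gol hv
  have hGG : 0 ≤ GG w * GG v := by nlinarith
  by_cases hwv : w ^ 2 = v ^ 2
  · have h0 : (w * s (v ^ 2) - v * s (w ^ 2)) * (w + v) = 0 := by
      rw [hwv]
      linear_combination s (v ^ 2) * hwv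
    rw [h0, norm_zero, zero_pow two_ne_zero]
    positivity
  -- dilations
  have hR : ∀ R : ℝ, 0 < R → R < 1 →
      ‖w * s (R * v ^ 2) - v * s (R * w ^ 2)‖ ^ 2 * ‖w + v‖ ^ 2 ≤
      ‖w * s (R * v ^ 2) + v * s (R * w ^ 2)‖ ^ 2 * ‖w - v‖ ^ 2 * (GG w * GG v) := by
    intro R hR0 hR1
    have hmap : ∀ z ∈ ball (0 : ℂ) 1, (R : ℂ) * z ∈ closedBall (0 : ℂ) R := by
      intro z hz
      rw [mem_ball_zero_iff] at hz
      rw [mem_closedBall_zero_iff, norm_mul, Complex.norm_real, Real.norm_of_nonneg hR0.le]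
      nlinarith
    have hsub : closedBall (0 : ℂ) R ⊆ ball 0 1 := closedBall_subset_ball hR1
    have hfc : ContinuousOn f (closedBall (0 : ℂ) R) := hf.1.continuousOn.mono hsub
    obtain ⟨M0, hM0⟩ := (isCompact_closedBall (0 : ℂ) R).exists_bound_of_continuousOn hfc
    set M := |M0| + 1 with hM
    have hMpos : 0 < M := by positivity
    have hM0' : ∀ z ∈ closedBall (0 : ℂ) R, ‖f z‖ < M := by
      intro z hz
      have := hM0 z hz
      have := le_abs_self M0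
      rw [hM]
      linarith
    have hMC : (M : ℂ) ≠ 0 := by exact_mod_cast hMpos.ne'
    have hRC : (R : ℂ) ≠ 0 := by exact_mod_cast hR0.ne'
    set h : ℂ → ℂ := fun z => f (R * z) / M with hh
    have hlin : DifferentiableOn ℂ (fun z : ℂ => (R : ℂ) * z) (ball 0 1) := by fun_prop
    have hmap1 : MapsTo (fun z : ℂ => (R : ℂ) * z) (ball 0 1) (ball 0 1) := fun z hz => hsub (hmap z hz)
    have hself : SelfMap h := by
      refine ⟨?_, ?_, ?_⟩
      · exact (hf.1.comp hlin hmap1).div_const _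
      · intro z hz
        rw [mem_ball_zero_iff, hh]
        simp only
        rw [norm_div, Complex.norm_real, Real.norm_of_nonneg hMpos.le, div_lt_one hMpos]
        exact hM0' _ (hmap z hz)
      · rw [hh]
        simp only
        rw [mul_zero, hf.2.2.1, zero_div]
    have hinj : InjOn h (ball 0 1) := by
      intro z hz z' hz' he
      rw [hh] at he
      simp only at he
      have h1 : f (R * z) = f (R * z') := by
        field_simp at he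
        exact he
      have h2 := hf.2.1 (hmap1 hz) (hmap1 hz') h1
      exact mul_left_cancel₀ hRC h2
    have hp : 0 < R / M := by positivity
    have hder : deriv h 0 = ((R / M : ℝ) : ℂ) := by
      have h0b : (0 : ℂ) ∈ ball (0 : ℂ) 1 := by simp
      have h1 : HasDerivAt f (deriv f 0) ((R : ℂ) * 0) := by
        rw [mul_zero]
        exact (hf.1.differentiableAt (isOpen_ball.mem_nhds h0b)).hasDerivAt
      have h2 : HasDerivAt (fun z : ℂ => (R : ℂ) * z) ((R : ℂ) * 1) 0 := (hasDerivAt_id 0).const_mul _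
      have h3 := (h1.comp 0 h2).div_const (M : ℂ)
      have h4 : deriv h 0 = deriv f 0 * (R * 1) / M := h3.deriv
      rw [h4, hf.2.2.2]
      push_cast
      ring
    have hσc : ContinuousOn (fun z => s (R * z)) (ball 0 1) :=
      hs.diff.continuousOn.comp hlin.continuousOn hmap1
    have hσ0 : s ((R : ℂ) * 0) = 1 := by rw [mul_zero, hs.zero]
    have hσh : ∀ z ∈ ball (0 : ℂ) 1, h z * s (R * z) ^ 2 = ((R / M : ℝ) : ℂ) * z := by
      intro z hz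
      rw [hh]
      simp only
      rw [div_mul_eq_mul_div, hs.eq _ (hmap1 hz)]
      push_cast
      ring
    exact bdd_Gol H (h := h) (σ := fun z => s (R * z)) hself hinj hp hder hσc hσ0 hσh hw hv hwv
  -- the limit
  have hcont : ∀ z : ℂ, ‖z‖ < 1 → Tendsto (fun R : ℝ => s (R * z)) (𝓝[<] 1) (𝓝 (s z)) := by
    intro z hz
    have h1 : ContinuousAt s z := (hs.diff.differentiableAt
      (isOpen_ball.mem_nhds (by simpa using hz))).continuousAt
    have h2 : Tendsto (fun R : ℝ => (R : ℂ) * z) (𝓝 1) (𝓝 z) := by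
      have : Tendsto (fun R : ℝ => (R : ℂ) * z) (𝓝 1) (𝓝 (((1 : ℝ) : ℂ) * z)) := by
        apply Continuous.tendsto
        fun_prop
      simpa using this
    exact h1.tendsto.comp (h2.mono_left nhdsWithin_le_nhds)
  have hv2 : ‖v ^ 2‖ < 1 := by
    rw [norm_pow]
    exact pow_lt_one₀ (norm_nonneg _) hv two_ne_zero
  have hw2 : ‖w ^ 2‖ < 1 := by
    rw [norm_pow]
    exact pow_lt_one₀ (norm_nonneg _) hw two_ne_zero
  have hcv := hcont _ hv2
  have hcw := hcont _ hw2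
  have hL : Tendsto (fun R : ℝ => ‖w * s (R * v ^ 2) - v * s (R * w ^ 2)‖ ^ 2 * ‖w + v‖ ^ 2) (𝓝[<] 1)
      (𝓝 (‖w * s (v ^ 2) - v * s (w ^ 2)‖ ^ 2 * ‖w + v‖ ^ 2)) :=
    ((((hcv.const_mul w).sub (hcw.const_mul v)).norm.pow 2).mul_const _)
  have hRt : Tendsto (fun R : ℝ => ‖w * s (R * v ^ 2) + v * s (R * w ^ 2)‖ ^ 2 * ‖w - v‖ ^ 2 *
      (GG w * GG v)) (𝓝[<] 1)
      (𝓝 (‖w * s (v ^ 2) + v * s (w ^ 2)‖ ^ 2 * ‖w - v‖ ^ 2 * (GG w * GG v))) :=
    ((((hcv.const_mul w).add (hcw.const_mul v)).norm.pow 2).mul_const _).mul_const _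
  have hfin := le_of_tendsto_of_tendsto hL hRt (by
    filter_upwards [Ioo_mem_nhdsLT (show (0 : ℝ) < 1 by norm_num)] with R hR'
    exact hR R hR'.1 hR'.2)
  rw [norm_mul, mul_pow, norm_mul, mul_pow]
  exact hfin

end Pool.Agent.Helper39.QM
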