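import Pool.Agent.Helper39.QM.St

/-!
# QM, module KERN: the kernel bound
-/

set_option autoImplicit false

open Finset

namespace Pool.Agent.Helper39.QM

private noncomputable def kk (a : ℕ → ℝ) (N : ℕ) : ℝ := ∑ m ∈ range N, ((N : ℝ) - m) * a m
private noncomputable def AA (a : ℕ → ℝ) (N : ℕ) : ℝ := ∑ m ∈ range N, a m

private theorem kk_succ (a : ℕ → ℝ) (N : ℕ) : kk a (N + 1) = kk a N + AA a (N + 1) := by
  unfold kk AA
  have h : ∑ m ∈ range N, ((N : ℝ) - m) * a m = ∑ m ∈ range (N + 1), ((N : ℝ) - m) * a m := by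
    rw [sum_range_succ]
    simp
  rw [h, ← sum_add_distrib]
  refine sum_congr rfl fun m _ => ?_
  push_cast
  ring

private theorem AA_succ (a : ℕ → ℝ) (N : ℕ) : AA a (N + 1) = AA a N + a N := by
  unfold AA
  rw [sum_range_succ]

private theorem abel2 (a b : ℕ → ℝ) (n : ℕ) :
    ∑ m ∈ range (n + 1), b m * a m =
      ∑ i ∈ range n, (b i - 2 * b (i + 1) + b (i + 2)) * kk a (i + 1)
        + (b n - b (n + 1)) * kk a (n + 1) + b (n + 1) * AA a (n + 1) := by
  induction n with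
  | zero =>
    simp [kk, AA]
    ring
  | succ n ih =>
    rw [sum_range_succ, ih, sum_range_succ, kk_succ a (n + 1), AA_succ a (n + 1)]
    ring

private theorem sin_nat (τ : ℝ) (N : ℕ) : |Real.sin (N * τ)| ≤ N * |Real.sin τ| := by
  induction N with
  | zero => simp
  | succ N ih =>
    have h : Real.sin (((N + 1 : ℕ) : ℝ) * τ) =
        Real.sin (N * τ) * Real.cos τ + Real.cos (N * τ) * Real.sin τ := by
      rw [← Real.sin_add]
      push_cast
      ring_nf
    rw [h]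
    refine (abs_add_le _ _).trans ?_
    rw [abs_mul, abs_mul]
    have h1 := Real.abs_cos_le_one τ
    have h2 := Real.abs_cos_le_one (N * τ)
    have h3 := abs_nonneg (Real.sin (N * τ))
    have h4 := abs_nonneg (Real.sin τ)
    push_cast
    nlinarith

private theorem three_term (τ : ℝ) (N : ℕ) :
    2 * Real.cos τ * Real.sin (N * τ) =
      Real.sin ((N + 1) * τ) + Real.sin (((N : ℝ) - 1) * τ) := by
  have h1 : ((N : ℝ) + 1) * τ = N * τ + τ := by ring
  have h2 : ((N : ℝ) - 1) * τ = N * τ - τ := by ring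
  rw [h1, h2, Real.sin_add, Real.sin_sub]
  ring

private theorem AA_form (τ : ℝ) (N : ℕ) :
    2 * (1 - Real.cos τ) * AA (fun m => Real.sin (m * τ)) N =
      Real.sin τ + Real.sin (((N : ℝ) - 1) * τ) - Real.sin (N * τ) := by
  induction N with
  | zero =>
    have h : (((0 : ℕ) : ℝ) - 1) * τ = -τ := by push_cast; ring
    rw [h, Real.sin_neg]
    simp [AA]
  | succ N ih =>
    rw [AA_succ, mul_add, ih]
    have h := three_term τ N
    have h2 : (((N + 1 : ℕ) : ℝ) - 1) * τ = N * τ := by push_cast; ring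
    have h3 : ((N + 1 : ℕ) : ℝ) * τ = ((N : ℝ) + 1) * τ := by push_cast; ring
    rw [h2, h3]
    linarith

private theorem kk_form (τ : ℝ) (N : ℕ) :
    2 * (1 - Real.cos τ) * kk (fun m => Real.sin (m * τ)) N =
      N * Real.sin τ - Real.sin (N * τ) := by
  induction N with
  | zero => simp [kk]
  | succ N ih =>
    rw [kk_succ, mul_add, ih, AA_form]
    have h2 : (((N + 1 : ℕ) : ℝ) - 1) * τ = N * τ := by push_cast; ring
    rw [h2]
    push_cast
    ring

private theorem sum_mm (N : ℕ) :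
    ∑ m ∈ range N, ((N : ℝ) - m) * m = ((N : ℝ) ^ 3 - N) / 6 := by
  have h := kk_succ (fun m => (m : ℝ))
  have hA : ∀ M : ℕ, AA (fun m => (m : ℝ)) M = (M : ℝ) * (M - 1) / 2 := by
    intro M
    induction M with
    | zero => simp [AA]
    | succ M ih =>
      rw [AA_succ, ih]
      push_cast
      ring
  have hk : kk (fun m => (m : ℝ)) N = ((N : ℝ) ^ 3 - N) / 6 := by
    induction N with
    | zero => simp [kk]
    | succ N ih =>
      rw [h, ih, hA]
      push_cast
      ring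
  exact hk

theorem kern : StKern := by
  intro n τ hn h0 hπ
  have hnR : (2 : ℝ) ≤ n := by exact_mod_cast hn
  have hn0 : (0 : ℝ) < n := by linarith
  have hsin : 0 < Real.sin τ := Real.sin_pos_of_pos_of_lt_pi h0 hπ
  set a : ℕ → ℝ := fun m => Real.sin (m * τ) with ha
  set x := xn n with hx
  have hx1 : 1 - x = 1 / (2 * n - 1) := by
    rw [hx, xn]
    have : (2 * (n : ℝ) - 1) ≠ 0 := by linarith
    field_simp
    ring
  have hx2 : 1 - x ≤ 1 / n := by
    rw [hx1]
    apply one_div_le_one_div_of_le hn0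
    linarith
  have hx3 : 0 < 1 - x := by
    rw [hx1]
    apply one_div_pos.mpr
    linarith
  have hx4 : 2 / 3 ≤ x := by
    rw [hx, xn, div_le_div_iff₀ (by norm_num) (by linarith)]
    linarith
  have hcos : 0 ≤ 1 - Real.cos τ := by linarith [Real.cos_le_one τ]
  set D := 1 - 2 * x * Real.cos τ + x ^ 2 with hD
  have hDeq : D = (1 - x) ^ 2 + 2 * x * (1 - Real.cos τ) := by rw [hD]; ring
  have hDpos : 0 < D := by
    rw [hDeq]
    have : 0 ≤ 2 * x * (1 - Real.cos τ) := by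
      apply mul_nonneg (by linarith) hcos
    nlinarith
  have hDle : D ≤ 1 / (n : ℝ) ^ 2 + 2 * (1 - Real.cos τ) := by
    rw [hDeq]
    have h1 : (1 - x) ^ 2 ≤ 1 / (n : ℝ) ^ 2 := by
      have : (1 - x) ^ 2 ≤ (1 / (n : ℝ)) ^ 2 := by
        apply pow_le_pow_left₀ hx3.le hx2
      rwa [div_pow, one_pow] at this
    have h2 : 2 * x * (1 - Real.cos τ) ≤ 2 * (1 - Real.cos τ) := by
      nlinarith
    linarith
  set P := x * Real.sin τ / D with hP
  have hP0 : 0 < P := by
    rw [hP]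
    apply div_pos (mul_pos (by linarith) hsin) hDpos
  -- bound of `kk`
  have hkk : ∀ N : ℕ, N ≤ n → |kk a N| ≤ 13 / 4 * N * P := by
    intro N hN
    have hNR : (N : ℝ) ≤ n := by exact_mod_cast hN
    have hN0 : (0 : ℝ) ≤ N := Nat.cast_nonneg _
    have h1 : 2 * (1 - Real.cos τ) * |kk a N| ≤ 2 * N * Real.sin τ := by
      have h2 := kk_form τ N
      have h3 := sin_nat τ N
      rw [abs_of_pos hsin] at h3
      have h4 : |2 * (1 - Real.cos τ) * kk a N| ≤ 2 * N * Real.sin τ := by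
        rw [h2, abs_le]
        have h5 := abs_le.mp h3
        constructor <;> nlinarith [h5.1, h5.2, mul_nonneg hN0 hsin.le]
      rwa [abs_mul, abs_of_nonneg (by linarith : (0 : ℝ) ≤ 2 * (1 - Real.cos τ))] at h4
    have h2 : |kk a N| ≤ N * (n : ℝ) ^ 2 / 6 * Real.sin τ := by
      calc |kk a N| ≤ ∑ m ∈ range N, |((N : ℝ) - m) * a m| := abs_sum_le_sum_abs _ _
        _ ≤ ∑ m ∈ range N, ((N : ℝ) - m) * m * Real.sin τ := by
            refine sum_le_sum fun m hm => ?_
            have hm' : (m : ℝ) ≤ N := by exact_mod_cast (mem_range.mp hm).le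
            rw [abs_mul, abs_of_nonneg (by linarith : (0 : ℝ) ≤ (N : ℝ) - m), mul_assoc]
            refine mul_le_mul_of_nonneg_left ?_ (by linarith)
            have := sin_nat τ m
            rwa [abs_of_pos hsin] at this
        _ = ((N : ℝ) ^ 3 - N) / 6 * Real.sin τ := by rw [← sum_mul, sum_mm]
        _ ≤ N * (n : ℝ) ^ 2 / 6 * Real.sin τ := by
            refine mul_le_mul_of_nonneg_right ?_ hsin.le
            have : (N : ℝ) ^ 2 ≤ (n : ℝ) ^ 2 := pow_le_pow_left₀ hN0 hNR 2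
            nlinarith
    have h3 : |kk a N| * D ≤ 13 / 6 * N * Real.sin τ := by
      have h4 : |kk a N| * (1 / (n : ℝ) ^ 2) ≤ N / 6 * Real.sin τ := by
        rw [mul_one_div, div_le_iff₀ (by positivity)]
        calc |kk a N| ≤ N * (n : ℝ) ^ 2 / 6 * Real.sin τ := h2
          _ = N / 6 * Real.sin τ * (n : ℝ) ^ 2 := by ring
      calc |kk a N| * D ≤ |kk a N| * (1 / (n : ℝ) ^ 2 + 2 * (1 - Real.cos τ)) :=
            mul_le_mul_of_nonneg_left hDle (abs_nonneg _)
        _ = |kk a N| * (1 / (n : ℝ) ^ 2) + 2 * (1 - Real.cos τ) * |kk a N| := by ring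
        _ ≤ N / 6 * Real.sin τ + 2 * N * Real.sin τ := add_le_add h4 h1
        _ = 13 / 6 * N * Real.sin τ := by ring
    have h4 : P * D = x * Real.sin τ := by
      rw [hP, div_mul_cancel₀ _ hDpos.ne']
    have h5 : |kk a N| * D ≤ (13 / 4 * N * P) * D := by
      rw [show (13 / 4 * (N : ℝ) * P) * D = 13 / 4 * N * (P * D) by ring, h4]
      refine h3.trans ?_
      have : 0 ≤ (N : ℝ) * Real.sin τ := mul_nonneg hN0 hsin.le
      nlinarith
    exact le_of_mul_le_mul_right h5 hDpos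
  -- the coefficients
  set ρ := rh n with hρ
  have hρ1 : 1 - ρ = 1 / (2 * n) := by
    rw [hρ, rh]
    ring
  have hρ0 : 0 < ρ := by
    have : 1 / (2 * (n : ℝ)) < 1 := by
      rw [div_lt_one (by linarith)]
      linarith
    linarith
  have hρle : ρ ≤ 1 := by
    have : 0 < 1 / (2 * (n : ℝ)) := by positivity
    linarith
  have hρn : 1 / 2 ≤ ρ ^ n := by
    have h1 := one_add_mul_le_pow (a := ρ - 1) (by linarith) n
    have h2 : (n : ℝ) * (ρ - 1) = -(1 / 2) := by
      have : ρ - 1 = -(1 / (2 * n)) := by linarith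
      rw [this]
      field_simp
    rw [h2] at h1
    have h3 : 1 + (ρ - 1) = ρ := by ring
    rw [h3] at h1
    linarith
  have hinv : ∀ m, m ≤ n → (ρ ^ m)⁻¹ ≤ 2 := by
    intro m hm
    rw [inv_le_comm₀ (by positivity) (by norm_num)]
    have h1 : ρ ^ n ≤ ρ ^ m := pow_le_pow_of_le_one hρ0.le hρle hm
    linarith
  set b : ℕ → ℝ := fun m => ((n : ℝ) - m) * (ρ ^ m)⁻¹ with hb
  have hc : ∀ i, i + 2 ≤ n → |b i - 2 * b (i + 1) + b (i + 2)| ≤ 2 / n := by
    intro i hi
    have hi' : ((i : ℝ) + 2) ≤ n := by exact_mod_cast hi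
    have hi0 : (0 : ℝ) ≤ i := Nat.cast_nonneg _
    have h1 : b i - 2 * b (i + 1) + b (i + 2) =
        (ρ ^ (i + 2))⁻¹ * ((1 - ρ) * (((n : ℝ) - (i + 1)) * (1 - ρ) - (1 + ρ))) := by
      simp only [hb]
      have hρne : ρ ≠ 0 := hρ0.ne'
      field_simp
      push_cast
      ring
    rw [h1, abs_mul, abs_of_nonneg (by positivity : (0 : ℝ) ≤ (ρ ^ (i + 2))⁻¹)]
    have h2 := hinv (i + 2) hi
    have h3 : 0 ≤ ((n : ℝ) - (i + 1)) * (1 - ρ) := by
      apply mul_nonneg (by linarith)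
      linarith
    have h4 : ((n : ℝ) - (i + 1)) * (1 - ρ) ≤ 1 / 2 := by
      rw [hρ1, mul_one_div, div_le_div_iff₀ (by positivity) (by norm_num)]
      linarith
    have h5 : |(1 - ρ) * (((n : ℝ) - (i + 1)) * (1 - ρ) - (1 + ρ))| ≤ 1 / n := by
      rw [abs_mul, abs_of_nonneg (by linarith : (0 : ℝ) ≤ 1 - ρ)]
      have h6 : |((n : ℝ) - (i + 1)) * (1 - ρ) - (1 + ρ)| ≤ 2 := by
        rw [abs_le]
        constructor <;> linarith
      calc (1 - ρ) * |((n : ℝ) - (i + 1)) * (1 - ρ) - (1 + ρ)| ≤ (1 - ρ) * 2 :=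
            mul_le_mul_of_nonneg_left h6 (by linarith)
        _ = 1 / n := by
            rw [hρ1]
            field_simp
    calc (ρ ^ (i + 2))⁻¹ * |(1 - ρ) * (((n : ℝ) - (i + 1)) * (1 - ρ) - (1 + ρ))|
        ≤ 2 * (1 / n) := mul_le_mul h2 h5 (abs_nonneg _) (by norm_num)
      _ = 2 / n := by ring
  obtain ⟨k, rfl⟩ : ∃ k, n = k + 1 := ⟨n - 1, by omega⟩
  have hbn : b (k + 1) = 0 := by simp [hb]
  have hbk : b k = (ρ ^ k)⁻¹ := by
    simp only [hb]
    push_cast
    ring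
  have hmain : ∑ m ∈ range (k + 1), (((k + 1 : ℕ) : ℝ) - m) * (ρ ^ m)⁻¹ * Real.sin (m * τ) =
      ∑ i ∈ range k, (b i - 2 * b (i + 1) + b (i + 2)) * kk a (i + 1)
        + (ρ ^ k)⁻¹ * kk a (k + 1) := by
    have h := abel2 a b k
    rw [hbn, hbk] at h
    simp only [sub_zero, zero_mul, add_zero] at h
    exact h
  rw [hmain]
  have hk0 : (0 : ℝ) ≤ k := Nat.cast_nonneg _
  have hs1 : |∑ i ∈ range k, (b i - 2 * b (i + 1) + b (i + 2)) * kk a (i + 1)| ≤
      ∑ i ∈ range k, 2 / ((k + 1 : ℕ) : ℝ) * (13 / 4 * ((i : ℝ) + 1) * P) := by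
    refine (abs_sum_le_sum_abs _ _).trans (sum_le_sum fun i hi => ?_)
    have hi' : i < k := mem_range.mp hi
    rw [abs_mul]
    have h1 := hc i (by omega)
    have h2 := hkk (i + 1) (by omega)
    push_cast at h2
    exact mul_le_mul h1 h2 (abs_nonneg _) (by positivity)
  have hsumi : ∑ i ∈ range k, 2 / ((k + 1 : ℕ) : ℝ) * (13 / 4 * ((i : ℝ) + 1) * P) =
      13 / 4 * P * k := by
    have h1 : ∀ K : ℕ, ∑ i ∈ range K, ((i : ℝ) + 1) = K * (K + 1) / 2 := by
      intro K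
      induction K with
      | zero => simp
      | succ K ih =>
        rw [sum_range_succ, ih]
        push_cast
        ring
    have h2 : ∀ i ∈ range k, 2 / ((k + 1 : ℕ) : ℝ) * (13 / 4 * ((i : ℝ) + 1) * P) =
        (2 / ((k + 1 : ℕ) : ℝ) * (13 / 4) * P) * ((i : ℝ) + 1) := by
      intro i _
      ring
    rw [sum_congr rfl h2, ← mul_sum, h1]
    push_cast
    have : ((k : ℝ) + 1) ≠ 0 := by positivity
    field_simp
  have hs2 : |(ρ ^ k)⁻¹ * kk a (k + 1)| ≤ 2 * (13 / 4 * ((k : ℝ) + 1) * P) := by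
    rw [abs_mul, abs_of_nonneg (by positivity : (0 : ℝ) ≤ (ρ ^ k)⁻¹)]
    have h2 := hkk (k + 1) le_rfl
    push_cast at h2
    exact mul_le_mul (hinv k (by omega)) h2 (abs_nonneg _) (by norm_num)
  calc |∑ i ∈ range k, (b i - 2 * b (i + 1) + b (i + 2)) * kk a (i + 1)
        + (ρ ^ k)⁻¹ * kk a (k + 1)| ≤ _ := abs_add_le _ _
    _ ≤ 13 / 4 * P * k + 2 * (13 / 4 * ((k : ℝ) + 1) * P) := by
        rw [← hsumi]
        exact add_le_add hs1 hs2
    _ ≤ 10 * ((k + 1 : ℕ) : ℝ) * P := by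
        push_cast
        nlinarith [mul_nonneg hk0 hP0.le]

end Pool.Agent.Helper39.QM
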