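import Pool.Agent.Helper39.QM.St
import Pool.Agent.Helper64.C3.Lam
import Pool.Agent.Helper64.C3.Circ
import Pool.Agent.Helper64.C3.Growth

/-!
# QM, module LOWEX: the lower bound for the modulus problem
-/

set_option autoImplicit false

open Metric Set Filter Topology
open scoped ComplexConjugate

namespace Pool.Agent.Helper39.QM

open Pool.Agent.Helper64.C3

private noncomputable def fs_Lowex (s : ℝ) (z : ℂ) : ℂ := z / Nn s z

private theorem ball_norm_Lowex {z : ℂ} (hz : z ∈ ball (0 : ℂ) 1) : ‖z‖ < 1 := by simpa using hz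

private theorem diffN_Lowex (s : ℝ) : Differentiable ℂ (fun z => Nn s z) := by
  unfold Nn
  fun_prop

private theorem diff_fs_Lowex {s : ℝ} (h0 : 0 ≤ s) (h1 : s ≤ 1) :
    DifferentiableOn ℂ (fs_Lowex s) (ball 0 1) := by
  unfold fs_Lowex
  apply DifferentiableOn.div differentiableOn_id (diffN_Lowex s).differentiableOn
  intro z hz
  exact Nn_ne h0 h1 (ball_norm_Lowex hz)

private theorem diff_koebe_Lowex : DifferentiableOn ℂ koebe (ball 0 1) := by
  have h : koebe = fun z : ℂ => z / (1 - z) ^ 2 := by funext z; rfl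
  rw [h]
  apply DifferentiableOn.div differentiableOn_id (by fun_prop)
  intro z hz
  apply pow_ne_zero
  intro h
  have hz1 := ball_norm_Lowex hz
  have h2 : z = 1 := (sub_eq_zero.mp h).symm
  rw [h2, norm_one] at hz1
  exact lt_irrefl _ hz1

private theorem classS_Lowex {s : ℝ} (h0 : 0 ≤ s) (h1 : s ≤ 1) : ClassS (fs_Lowex s) := by
  refine ⟨diff_fs_Lowex h0 h1, ?_, ?_, ?_⟩
  · intro z hz w hw h
    have hz1 := ball_norm_Lowex hz
    have hw1 := ball_norm_Lowex hw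
    unfold fs_Lowex at h
    rw [div_eq_div_iff (Nn_ne h0 h1 hz1) (Nn_ne h0 h1 hw1)] at h
    unfold Nn at h
    have h2 : (z - w) * (1 - z * w) = 0 := by linear_combination h
    rcases mul_eq_zero.mp h2 with h3 | h3
    · exact sub_eq_zero.mp h3
    · exfalso
      have h4 : z * w = 1 := (sub_eq_zero.mp h3).symm
      have h5 : ‖z‖ * ‖w‖ = 1 := by rw [← norm_mul, h4, norm_one]
      nlinarith [norm_nonneg z, norm_nonneg w]
  · unfold fs_Lowex
    rw [zero_div]
  · have hN0 : Nn s 0 = 1 := by unfold Nn; simp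
    have hN : HasDerivAt (fun z => Nn s z) (deriv (fun z => Nn s z) 0) 0 :=
      (diffN_Lowex s 0).hasDerivAt
    have h2 := (hasDerivAt_id (0 : ℂ)).div hN (by rw [hN0]; exact one_ne_zero)
    have h3 : deriv (fs_Lowex s) 0 = _ := h2.deriv
    rw [h3]
    simp [hN0]

private theorem koebe_half_Lowex {z : ℂ} (hz : z ∈ sphere (0 : ℂ) (1 / 2)) : ‖koebe z‖ ≤ 2 := by
  have hz1 : ‖z‖ = 1 / 2 := mem_sphere_zero_iff_norm.1 hz
  unfold koebe
  rw [norm_div, norm_pow, hz1]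
  have h1 : (1 : ℝ) / 2 ≤ ‖1 - z‖ := by
    have := norm_sub_norm_le (1 : ℂ) z
    rw [norm_one, hz1] at this
    linarith
  rw [div_le_iff₀ (by positivity)]
  nlinarith

private theorem fs_half_Lowex {s : ℝ} (h0 : 0 ≤ s) (h1 : s ≤ 1) {z : ℂ}
    (hz : z ∈ sphere (0 : ℂ) (1 / 2)) : ‖fs_Lowex s z‖ ≤ 2 := by
  have hz1 : ‖z‖ = 1 / 2 := mem_sphere_zero_iff_norm.1 hz
  have h2 := Nn_lower h0 h1 z
  rw [hz1] at h2
  unfold fs_Lowex
  rw [norm_div, hz1, div_le_iff₀ (by linarith)]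
  linarith

private theorem coeff_fs_Lowex {s : ℝ} (h0 : 0 ≤ s) (h1 : s ≤ 1) (n : ℕ) :
    ∃ R : ℂ, ‖R‖ ≤ 2 ^ n * 8 ∧ coeff n (fs_Lowex s) =
      (((n : ℝ) - 4 * s * (((n : ℝ) - 1) * n * (n + 1) / 6) : ℝ) : ℂ) + 16 * (s : ℂ) ^ 2 * R := by
  have hsph : sphere (0 : ℂ) (1 / 2) ⊆ ball 0 1 := by
    intro z hz
    rw [mem_ball_zero_iff, mem_sphere_zero_iff_norm.1 hz]
    norm_num
  have hK := diff_koebe_Lowex
  have hK2 : DifferentiableOn ℂ (fun z => koebe z * koebe z) (ball 0 1) := hK.mul hK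
  have hf := diff_fs_Lowex h0 h1
  have hR : DifferentiableOn ℂ (fun z => koebe z * koebe z * fs_Lowex s z) (ball 0 1) := hK2.mul hf
  have hr : (0 : ℝ) < 1 / 2 := by norm_num
  have hr1 : (1 : ℝ) / 2 < 1 := by norm_num
  refine ⟨ell n (1 / 2) (fun z => koebe z * koebe z * fs_Lowex s z), ?_, ?_⟩
  · refine (norm_ell_le_const hr (hR.continuousOn.mono hsph) (B := 8) ?_).trans ?_
    · intro z hz
      rw [norm_mul, norm_mul]
      have hk := koebe_half_Lowex hz
      have hf := fs_half_Lowex h0 h1 hz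
      calc ‖koebe z‖ * ‖koebe z‖ * ‖fs_Lowex s z‖ ≤ 2 * 2 * 2 := by gcongr
        _ = 8 := by norm_num
    · apply le_of_eq
      rw [one_div, inv_pow, inv_inv]
  · have hid : ∀ z ∈ sphere (0 : ℂ) (1 / 2), fs_Lowex s z =
        (koebe z - (4 * s : ℂ) * (koebe z * koebe z)) +
          (16 * (s : ℂ) ^ 2) * (koebe z * koebe z * fs_Lowex s z) := by
      intro z hz
      have hz1 := ball_norm_Lowex (hsph hz)
      have hN := Nn_ne h0 h1 hz1
      have h1z : (1 - z : ℂ) ≠ 0 := by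
        intro h
        have h2 : z = 1 := (sub_eq_zero.mp h).symm
        rw [h2, norm_one] at hz1
        exact lt_irrefl _ hz1
      unfold fs_Lowex koebe
      have hNe : Nn s z = (1 - z) ^ 2 + 4 * s * z := rfl
      field_simp
      rw [hNe]
      ring
    have cK := hK.continuousOn.mono hsph
    have cK2 := hK2.continuousOn.mono hsph
    have cR := hR.continuousOn.mono hsph
    have cA : ContinuousOn (fun z => (4 * s : ℂ) * (koebe z * koebe z)) (sphere (0 : ℂ) (1 / 2)) :=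
      continuousOn_const.mul cK2
    have cB : ContinuousOn (fun z => koebe z - (4 * s : ℂ) * (koebe z * koebe z))
        (sphere (0 : ℂ) (1 / 2)) := cK.sub cA
    have cC : ContinuousOn (fun z => (16 * (s : ℂ) ^ 2) * (koebe z * koebe z * fs_Lowex s z))
        (sphere (0 : ℂ) (1 / 2)) := continuousOn_const.mul cR
    rw [← ell_eq_coeff hr hr1 hf, ell_congr hr hid]
    rw [ell_add hr cB cC, ell_sub hr cK cA, ell_const_mul,
      ell_const_mul, ell_eq_coeff hr hr1 hK, ell_eq_coeff hr hr1 hK2, coeff_koebe,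
      (PS_koebe.mul PS_koebe).coeff n, conv_koebe]
    push_cast
    ring

theorem lowex : StLowex := by
  intro n K hn hK
  set a : ℝ := (n : ℝ) * ((n : ℝ) ^ 2 - 1) / 6 with ha
  have hn2 : (2 : ℝ) ≤ n := by exact_mod_cast hn
  have ha1 : (1 : ℝ) ≤ a := by
    rw [ha, le_div_iff₀ (by norm_num)]
    nlinarith
  have ha' : ((n : ℝ) - 1) * n * (n + 1) / 6 = a := by rw [ha]; ring
  set C : ℝ := 16 * (2 ^ n * 8) with hC
  have hC0 : 0 < C := by positivity
  have hb1 : ∀ s : ℝ, 0 < s → s ≤ 1 / 4 → 4 * s * a ≤ n →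
      4 * s * a - s ^ 2 * C ≤ (n : ℝ) - ‖coeff n (fs_Lowex s)‖ := by
    intro s hs hs4 hsa
    obtain ⟨R, hR, hc⟩ := coeff_fs_Lowex hs.le (by linarith) n
    rw [ha'] at hc
    have h1 : ‖coeff n (fs_Lowex s)‖ ≤ ((n : ℝ) - 4 * s * a) + 16 * s ^ 2 * (2 ^ n * 8) := by
      rw [hc]
      refine (norm_add_le _ _).trans ?_
      rw [Complex.norm_real, Real.norm_of_nonneg (by linarith)]
      gcongr
      rw [norm_mul, norm_mul, norm_pow, Complex.norm_real, Real.norm_of_nonneg hs.le]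
      have h16 : ‖(16 : ℂ)‖ = 16 := by simp
      rw [h16]
      gcongr
    have h2 : 16 * s ^ 2 * (2 ^ n * 8) = s ^ 2 * C := by rw [hC]; ring
    rw [h2] at h1
    linarith
  have hb2 : ∀ s : ℝ, 0 < s → s ≤ 1 / 4 →
      |‖coeff 2 (fs_Lowex s)‖ - (2 - 4 * s)| ≤ s ^ 2 * 512 := by
    intro s hs hs4
    obtain ⟨R, hR, hc⟩ := coeff_fs_Lowex hs.le (by linarith) 2
    have h3 : ‖(((2 : ℝ) - 4 * s : ℝ) : ℂ)‖ = 2 - 4 * s := by
      rw [Complex.norm_real, Real.norm_of_nonneg (by linarith)]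
    rw [← h3]
    refine (abs_norm_sub_norm_le _ _).trans ?_
    rw [hc]
    have h4 : (((((2 : ℕ) : ℝ) - 4 * s * ((((2 : ℕ) : ℝ) - 1) * ((2 : ℕ) : ℝ) *
        (((2 : ℕ) : ℝ) + 1) / 6) : ℝ) : ℂ) + 16 * (s : ℂ) ^ 2 * R) - (((2 : ℝ) - 4 * s : ℝ) : ℂ) =
        16 * (s : ℂ) ^ 2 * R := by
      push_cast
      ring
    rw [h4, norm_mul, norm_mul, norm_pow, Complex.norm_real, Real.norm_of_nonneg hs.le]
    have h16 : ‖(16 : ℂ)‖ = 16 := by simp
    rw [h16]
    calc 16 * s ^ 2 * ‖R‖ ≤ 16 * s ^ 2 * (2 ^ 2 * 8) := by gcongr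
      _ = s ^ 2 * 512 := by ring
  have hKf : ∀ s : ℝ, 0 < s → s ≤ 1 / 4 →
      |(n : ℝ) - ‖coeff n (fs_Lowex s)‖| ≤ K * (2 - ‖coeff 2 (fs_Lowex s)‖) := by
    intro s hs hs4
    exact hK _ (classS_Lowex hs.le (by linarith))
  have hK0 : 0 ≤ K := by
    by_contra hneg
    push Not at hneg
    have hs : (0 : ℝ) < 1 / 1000 := by norm_num
    have h1 := hb2 (1 / 1000) hs (by norm_num)
    have h2 := hKf (1 / 1000) hs (by norm_num)
    have h3 := (abs_le.mp h1).2
    have h4 : 0 < 2 - ‖coeff 2 (fs_Lowex (1 / 1000))‖ := by linarith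
    have h5 := abs_nonneg ((n : ℝ) - ‖coeff n (fs_Lowex (1 / 1000))‖)
    nlinarith
  by_contra hcon
  push Not at hcon
  set M : ℝ := C + K * 512 + 1 with hM
  have hM0 : 0 < M := by positivity
  set s : ℝ := min (1 / 4) (min (1 / (4 * a)) ((a - K) / M)) with hs
  have hs0 : 0 < s := by
    rw [hs]
    refine lt_min (by norm_num) (lt_min (by positivity) (div_pos (sub_pos.mpr hcon) hM0))
  have hs1 : s ≤ 1 / 4 := min_le_left _ _
  have hs2 : s ≤ 1 / (4 * a) := (min_le_right _ _).trans (min_le_left _ _)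
  have hs3 : s ≤ (a - K) / M := (min_le_right _ _).trans (min_le_right _ _)
  have h1 : 4 * s * a ≤ n := by
    rw [le_div_iff₀ (by positivity)] at hs2
    linarith
  have h2 := hb1 s hs0 hs1 h1
  have h3 := (abs_le.mp (hb2 s hs0 hs1)).1
  have h4 := hKf s hs0 hs1
  have h5 : 4 * s * a - s ^ 2 * C ≤ K * (4 * s + s ^ 2 * 512) := by
    calc 4 * s * a - s ^ 2 * C ≤ (n : ℝ) - ‖coeff n (fs_Lowex s)‖ := h2
      _ ≤ |(n : ℝ) - ‖coeff n (fs_Lowex s)‖| := le_abs_self _
      _ ≤ K * (2 - ‖coeff 2 (fs_Lowex s)‖) := h4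
      _ ≤ K * (4 * s + s ^ 2 * 512) := by
          apply mul_le_mul_of_nonneg_left _ hK0
          linarith
  have h6 : 4 * a - s * C ≤ K * (4 + s * 512) := by
    have : (4 * a - s * C) * s ≤ K * (4 + s * 512) * s := by nlinarith
    exact le_of_mul_le_mul_right this hs0
  have h7 : s * M ≤ a - K := by
    rwa [le_div_iff₀ hM0] at hs3
  rw [hM] at h7
  nlinarith

end Pool.Agent.Helper39.QM
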