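import Pool.Agent.Helper39.QM.M_Coef

/-!
# QM, module LTWO
-/

set_option autoImplicit false

open Metric Set Filter Topology
open scoped ComplexConjugate

namespace Pool.Agent.Helper39.QM

open Pool.Agent.Helper64.C3

private theorem geo_Ltwo {x : ℝ} (hx0 : 0 ≤ x) (hx1 : x < 1) (M : ℕ) :
    ∑ m ∈ Finset.range M, x ^ m ≤ (1 - x)⁻¹ := by
  have h1 := (summable_geometric_of_lt_one hx0 hx1).sum_le_tsum (Finset.range M)
    (fun i _ => pow_nonneg hx0 i)
  rwa [tsum_geometric_of_lt_one hx0 hx1] at h1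

private theorem geo1_Ltwo {x : ℝ} (hx0 : 0 ≤ x) (hx1 : x < 1) (M : ℕ) :
    ∑ m ∈ Finset.range M, (m : ℝ) * x ^ m ≤ ((1 - x) ^ 2)⁻¹ := by
  have hn : ‖x‖ < 1 := by rwa [Real.norm_of_nonneg hx0]
  have h0 := hasSum_coe_mul_geometric_of_norm_lt_one hn
  have h1 := h0.summable.sum_le_tsum (Finset.range M)
    (fun i _ => mul_nonneg (Nat.cast_nonneg i) (pow_nonneg hx0 i))
  rw [h0.tsum_eq] at h1
  refine h1.trans ?_
  rw [div_eq_mul_inv]
  have : 0 ≤ ((1 - x) ^ 2)⁻¹ := by positivity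
  nlinarith

private theorem four_Ltwo (a b c d : ℝ) : (a + b + c + d) ^ 2 ≤ 4 * (a ^ 2 + b ^ 2 + c ^ 2 + d ^ 2) := by
  nlinarith [sq_nonneg (a - b), sq_nonneg (a - c), sq_nonneg (a - d), sq_nonneg (b - c),
    sq_nonneg (b - d), sq_nonneg (c - d)]

/-- the algebraic identity -/
private theorem ident_Ltwo (e : ℕ → ℂ) (he : e 0 = 0) (r : ℂ) (m J : ℕ) (h1 : 1 ≤ m) (hJ : m ≤ J) :
    ∑ j ∈ Finset.range (m + 1), e j = ∑ j ∈ Finset.range (J + 1), e j * r ^ j + e 1 * (1 - r)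
      + ∑ j ∈ Finset.Icc 2 m, e j * (1 - r ^ j) - ∑ j ∈ Finset.Ioc m J, e j * r ^ j := by
  have hA : ∑ j ∈ Finset.range (J + 1), e j * r ^ j
      = ∑ j ∈ Finset.range (m + 1), e j * r ^ j + ∑ j ∈ Finset.Ioc m J, e j * r ^ j := by
    have h2 : Finset.range (J + 1) = Finset.range (m + 1) ∪ Finset.Ioc m J := by
      ext j; simp only [Finset.mem_range, Finset.mem_union, Finset.mem_Ioc]; omega
    rw [h2, Finset.sum_union]
    rw [Finset.disjoint_left]
    intro j; simp only [Finset.mem_range, Finset.mem_Ioc]; omega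
  have hB : ∀ g : ℕ → ℂ, ∑ j ∈ Finset.range (m + 1), g j = g 0 + g 1 + ∑ j ∈ Finset.Icc 2 m, g j := by
    intro g
    have h2 : Finset.range (m + 1) = {0, 1} ∪ Finset.Icc 2 m := by
      ext j; simp only [Finset.mem_range, Finset.mem_union, Finset.mem_insert, Finset.mem_singleton,
        Finset.mem_Icc]; omega
    rw [h2, Finset.sum_union, Finset.sum_pair (by norm_num)]
    rw [Finset.disjoint_left]
    intro j; simp only [Finset.mem_insert, Finset.mem_singleton, Finset.mem_Icc]; omega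
  rw [hA, hB e, hB (fun j => e j * r ^ j), he]
  have hC : ∑ j ∈ Finset.Icc 2 m, e j * (1 - r ^ j)
      = ∑ j ∈ Finset.Icc 2 m, e j - ∑ j ∈ Finset.Icc 2 m, e j * r ^ j := by
    rw [← Finset.sum_sub_distrib]
    exact Finset.sum_congr rfl fun j _ => by ring
  rw [hC]
  ring

theorem ltwo : StLtwo := by
  intro n D s hn hD hs h0 harea hc he1 M
  have hnR : (2 : ℝ) ≤ n := by exact_mod_cast hn
  have hn0 : (0 : ℝ) < n := by linarith
  set r : ℝ := rn n with hr
  set ρ : ℝ := rh n with hρ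
  have hr1 : 1 - r = 1 / n := by rw [hr, rn]; ring
  have hρ1 : 1 - ρ = 1 / (2 * n) := by rw [hρ, rh]; ring
  have h1n : (0 : ℝ) < 1 / n := by positivity
  have h1n2 : 1 / (n : ℝ) ≤ 1 / 2 := by
    apply one_div_le_one_div_of_le <;> linarith
  have hr0 : 0 ≤ r := by linarith
  have hrlt : r < 1 := by linarith
  have h12n : (0 : ℝ) < 1 / (2 * n) := by positivity
  have h12n2 : 1 / (2 * (n : ℝ)) ≤ 1 / 2 := by
    apply one_div_le_one_div_of_le <;> linarith
  have hρ0 : 0 ≤ ρ := by linarith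
  have hρlt : ρ < 1 := by linarith
  set e : ℕ → ℂ := fun j => ee s j with hedef
  have he0 : e 0 = 0 := by simp [hedef, ee]
  have he2 : ∀ j, 2 ≤ j → e j = coeff j s := by
    intro j hj
    simp only [hedef, ee]
    rw [if_neg (by omega), if_neg (by omega)]
  have hareaE : ∀ S : Finset ℕ, (∀ j ∈ S, 2 ≤ j) → ∑ j ∈ S, (2 * (j : ℝ) - 1) * ‖e j‖ ^ 2 ≤ D := by
    intro S hS
    refine le_trans ?_ (harea (S.sup id))
    have h3 : ∑ j ∈ S, (2 * (j : ℝ) - 1) * ‖e j‖ ^ 2 = ∑ j ∈ S, (2 * (j : ℝ) - 1) * ‖coeff j s‖ ^ 2 :=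
      Finset.sum_congr rfl fun j hj => by rw [he2 j (hS j hj)]
    rw [h3]
    apply Finset.sum_le_sum_of_subset_of_nonneg
    · intro j hj
      rw [Finset.mem_Icc]
      exact ⟨hS j hj, Finset.le_sup (f := id) hj⟩
    · intro j hj _
      have h2 : (2 : ℝ) ≤ j := by exact_mod_cast (Finset.mem_Icc.1 hj).1
      exact mul_nonneg (by linarith) (sq_nonneg _)
  have hden : ∀ j : ℕ, 2 ≤ j → (0 : ℝ) < 2 * (j : ℝ) - 1 ∧ (j : ℝ) ≤ 2 * (j : ℝ) - 1 := by
    intro j hj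
    have h2 : (2 : ℝ) ≤ j := by exact_mod_cast hj
    constructor <;> linarith
  -- Cauchy-Schwarz
  have hCS : ∀ (S : Finset ℕ) (g : ℕ → ℝ), (∀ j ∈ S, 2 ≤ j) →
      (∑ j ∈ S, ‖e j‖ * g j) ^ 2 ≤ D * ∑ j ∈ S, g j ^ 2 / (2 * (j : ℝ) - 1) := by
    intro S g hS
    refine le_trans (Finset.sum_sq_le_sum_mul_sum_of_sq_eq_mul S
      (f := fun j => (2 * (j : ℝ) - 1) * ‖e j‖ ^ 2) (g := fun j => g j ^ 2 / (2 * (j : ℝ) - 1))
      ?_ ?_ ?_) ?_
    · intro j hj
      exact mul_nonneg (hden j (hS j hj)).1.le (sq_nonneg _)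
    · intro j hj
      exact div_nonneg (sq_nonneg _) (hden j (hS j hj)).1.le
    · intro j hj
      have := (hden j (hS j hj)).1.ne'
      field_simp
    · apply mul_le_mul_of_nonneg_right (hareaE S hS)
      exact Finset.sum_nonneg fun j hj => div_nonneg (sq_nonneg _) (hden j (hS j hj)).1.le
  set c : ℕ → ℂ := fun J => ∑ j ∈ Finset.range (J + 1), e j * (r : ℂ) ^ j with hcdef
  set A : ℕ → ℝ := fun m => ∑ j ∈ Finset.Icc 2 m, ‖e j‖ * (1 - r ^ j) with hA
  set B : ℕ → ℕ → ℝ := fun J m => ∑ j ∈ (Finset.Icc 2 J).filter (m < ·), ‖e j‖ * r ^ j with hB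
  have hrj : ∀ j : ℕ, r ^ j ≤ 1 := fun j => pow_le_one₀ hr0 hrlt.le
  have hbern : ∀ j : ℕ, 1 - r ^ j ≤ j / n := by
    intro j
    have h3 := one_add_mul_le_pow (a := -(1 / (n : ℝ))) (by linarith) j
    have h4 : 1 + -(1 / (n : ℝ)) = r := by linarith
    rw [h4] at h3
    have : (j : ℝ) / n = j * (1 / n) := by ring
    rw [this]
    linarith
  have hAnn : ∀ m, 0 ≤ A m := fun m =>
    Finset.sum_nonneg fun j _ => mul_nonneg (norm_nonneg _) (by linarith [hrj j])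
  have hBnn : ∀ J m, 0 ≤ B J m := fun J m =>
    Finset.sum_nonneg fun j _ => mul_nonneg (norm_nonneg _) (pow_nonneg hr0 j)
  have hAsq : ∀ m, A m ^ 2 ≤ D * (m / n) := by
    intro m
    refine (hCS (Finset.Icc 2 m) (fun j => 1 - r ^ j) (fun j hj => (Finset.mem_Icc.1 hj).1)).trans ?_
    apply mul_le_mul_of_nonneg_left _ hD
    calc ∑ j ∈ Finset.Icc 2 m, (1 - r ^ j) ^ 2 / (2 * (j : ℝ) - 1)
        ≤ ∑ j ∈ Finset.Icc 2 m, (1 : ℝ) / n := by
          apply Finset.sum_le_sum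
          intro j hj
          obtain ⟨h3, h4⟩ := hden j (Finset.mem_Icc.1 hj).1
          have h5 : 0 ≤ 1 - r ^ j := by linarith [hrj j]
          have h6 : 1 - r ^ j ≤ 1 := by linarith [pow_nonneg hr0 j]
          rw [div_le_iff₀ h3]
          calc (1 - r ^ j) ^ 2 ≤ 1 - r ^ j := by nlinarith
            _ ≤ j / n := hbern j
            _ = 1 / n * j := by ring
            _ ≤ 1 / n * (2 * (j : ℝ) - 1) := by gcongr
      _ = ((Finset.Icc 2 m).card : ℝ) * (1 / n) := by rw [Finset.sum_const, nsmul_eq_mul]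
      _ ≤ (m : ℝ) * (1 / n) := by
          apply mul_le_mul_of_nonneg_right _ h1n.le
          have : (Finset.Icc 2 m).card ≤ m := by rw [Nat.card_Icc]; omega
          exact_mod_cast this
      _ = m / n := by ring
  have hBsq : ∀ J m, B J m ^ 2 ≤ D * ∑ j ∈ (Finset.Icc 2 J).filter (m < ·), r ^ (2 * j) / (2 * (j : ℝ) - 1) := by
    intro J m
    refine (hCS ((Finset.Icc 2 J).filter (m < ·)) (fun j => r ^ j)
      (fun j hj => (Finset.mem_Icc.1 (Finset.mem_filter.1 hj).1).1)).trans (le_of_eq ?_)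
    congr 1
    apply Finset.sum_congr rfl
    intro j _
    rw [← pow_mul, mul_comm j 2]
  -- bound of q
  have hq : ∀ J, M ≤ J → ∀ m < M, ‖qq s m‖ ^ 2 ≤
      4 * (‖c J‖ ^ 2 + (‖e 1‖ * (1 / n)) ^ 2 + A m ^ 2 + B J m ^ 2) := by
    intro J hJ m hm
    rcases Nat.eq_zero_or_pos m with rfl | hm0
    · have : qq s 0 = 0 := by simp [qq, ee]
      rw [this, norm_zero, zero_pow two_ne_zero]
      positivity
    · have h3 : qq s m = ∑ j ∈ Finset.range (m + 1), e j := rfl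
      have h4 : ‖qq s m‖ ≤ ‖c J‖ + ‖e 1‖ * (1 / n) + A m + B J m := by
        rw [h3, ident_Ltwo e he0 (r : ℂ) m J hm0 (by omega)]
        refine (norm_sub_le _ _).trans ?_
        refine add_le_add ((norm_add_le _ _).trans (add_le_add ((norm_add_le _ _).trans
          (add_le_add le_rfl ?_)) ?_)) ?_
        · rw [norm_mul]
          apply mul_le_mul_of_nonneg_left _ (norm_nonneg _)
          have : (1 : ℂ) - (r : ℂ) = ((1 / n : ℝ) : ℂ) := by rw [← hr1]; push_cast; ring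
          rw [this, Complex.norm_real, Real.norm_of_nonneg h1n.le]
        · refine (norm_sum_le _ _).trans (Finset.sum_le_sum fun j _ => ?_)
          rw [norm_mul]
          apply mul_le_mul_of_nonneg_left _ (norm_nonneg _)
          have : (1 : ℂ) - (r : ℂ) ^ j = ((1 - r ^ j : ℝ) : ℂ) := by push_cast; ring
          rw [this, Complex.norm_real, Real.norm_of_nonneg (by linarith [hrj j])]
        · refine (norm_sum_le _ _).trans ?_
          have h5 : Finset.Ioc m J = (Finset.Icc 2 J).filter (m < ·) := by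
            ext j
            simp only [Finset.mem_Ioc, Finset.mem_filter, Finset.mem_Icc]
            omega
          rw [h5]
          refine Finset.sum_le_sum fun j _ => ?_
          rw [norm_mul, norm_pow, Complex.norm_real, Real.norm_of_nonneg hr0]
      exact (pow_le_pow_left₀ (norm_nonneg _) h4 2).trans (four_Ltwo _ _ _ _)
  -- geometric sums
  have hx0 : 0 ≤ ρ ^ 2 := sq_nonneg _
  have hxρ : ρ ^ 2 ≤ ρ := by nlinarith
  have hx1 : ρ ^ 2 < 1 := by linarith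
  have hG0 : ∑ m ∈ Finset.range M, ρ ^ (2 * m) ≤ 2 * (n : ℝ) := by
    have h3 := geo_Ltwo hx0 hx1 M
    have h4 : (1 - ρ ^ 2)⁻¹ ≤ 2 * (n : ℝ) := by
      have h5 : 1 / (2 * (n : ℝ)) ≤ 1 - ρ ^ 2 := by linarith
      calc (1 - ρ ^ 2)⁻¹ ≤ (1 / (2 * (n : ℝ)))⁻¹ := inv_anti₀ h12n h5
        _ = 2 * n := by rw [one_div, inv_inv]
    have h5 : ∑ m ∈ Finset.range M, ρ ^ (2 * m) = ∑ m ∈ Finset.range M, (ρ ^ 2) ^ m :=
      Finset.sum_congr rfl fun m _ => by rw [pow_mul]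
    rw [h5]
    exact h3.trans h4
  have hG1 : ∑ m ∈ Finset.range M, (m : ℝ) * ρ ^ (2 * m) ≤ 4 * (n : ℝ) ^ 2 := by
    have h3 := geo1_Ltwo hx0 hx1 M
    have h4 : ((1 - ρ ^ 2) ^ 2)⁻¹ ≤ 4 * (n : ℝ) ^ 2 := by
      have h5 : 1 / (2 * (n : ℝ)) ≤ 1 - ρ ^ 2 := by linarith
      calc ((1 - ρ ^ 2) ^ 2)⁻¹ ≤ ((1 / (2 * (n : ℝ))) ^ 2)⁻¹ :=
            inv_anti₀ (by positivity) (pow_le_pow_left₀ h12n.le h5 2)
        _ = 4 * n ^ 2 := by rw [one_div, inv_pow, inv_inv]; ring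
    have h5 : ∑ m ∈ Finset.range M, (m : ℝ) * ρ ^ (2 * m) = ∑ m ∈ Finset.range M, (m : ℝ) * (ρ ^ 2) ^ m :=
      Finset.sum_congr rfl fun m _ => by rw [pow_mul]
    rw [h5]
    exact h3.trans h4
  have hGr : ∀ J : ℕ, ∑ j ∈ Finset.Icc 2 J, r ^ (2 * j) ≤ (n : ℝ) := by
    intro J
    have hy0 : 0 ≤ r ^ 2 := sq_nonneg _
    have hyr : r ^ 2 ≤ r := by nlinarith
    have hy1 : r ^ 2 < 1 := by linarith
    have h3 := geo_Ltwo hy0 hy1 (J + 1)
    have h4 : (1 - r ^ 2)⁻¹ ≤ (n : ℝ) := by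
      have h5 : 1 / (n : ℝ) ≤ 1 - r ^ 2 := by linarith
      calc (1 - r ^ 2)⁻¹ ≤ (1 / (n : ℝ))⁻¹ := inv_anti₀ h1n h5
        _ = n := by rw [one_div, inv_inv]
    calc ∑ j ∈ Finset.Icc 2 J, r ^ (2 * j) ≤ ∑ j ∈ Finset.range (J + 1), r ^ (2 * j) := by
          apply Finset.sum_le_sum_of_subset_of_nonneg
          · intro j hj
            rw [Finset.mem_range]
            have := (Finset.mem_Icc.1 hj).2
            omega
          · intro j _ _
            exact pow_nonneg hr0 _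
      _ = ∑ j ∈ Finset.range (J + 1), (r ^ 2) ^ j := Finset.sum_congr rfl fun m _ => by rw [pow_mul]
      _ ≤ n := h3.trans h4
  have hρ2 : ∀ m : ℕ, ρ ^ (2 * m) ≤ 1 := fun m => pow_le_one₀ hρ0 hρlt.le
  have hρ2' : ∀ m : ℕ, 0 ≤ ρ ^ (2 * m) := fun m => pow_nonneg hρ0 _
  have hBsum : ∀ J, ∑ m ∈ Finset.range M, B J m ^ 2 * ρ ^ (2 * m) ≤ D * n := by
    intro J
    calc ∑ m ∈ Finset.range M, B J m ^ 2 * ρ ^ (2 * m)
        ≤ ∑ m ∈ Finset.range M, D * ∑ j ∈ (Finset.Icc 2 J).filter (m < ·), r ^ (2 * j) / (2 * (j : ℝ) - 1) := by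
          apply Finset.sum_le_sum
          intro m _
          calc B J m ^ 2 * ρ ^ (2 * m) ≤ B J m ^ 2 * 1 :=
                mul_le_mul_of_nonneg_left (hρ2 m) (sq_nonneg _)
            _ = B J m ^ 2 := mul_one _
            _ ≤ _ := hBsq J m
      _ = D * ∑ m ∈ Finset.range M, ∑ j ∈ Finset.Icc 2 J,
            if m < j then r ^ (2 * j) / (2 * (j : ℝ) - 1) else 0 := by
          rw [Finset.mul_sum]
          apply Finset.sum_congr rfl
          intro m _
          rw [Finset.sum_filter]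
      _ = D * ∑ j ∈ Finset.Icc 2 J, ∑ m ∈ Finset.range M,
            if m < j then r ^ (2 * j) / (2 * (j : ℝ) - 1) else 0 := by rw [Finset.sum_comm]
      _ ≤ D * ∑ j ∈ Finset.Icc 2 J, r ^ (2 * j) := by
          apply mul_le_mul_of_nonneg_left _ hD
          apply Finset.sum_le_sum
          intro j hj
          obtain ⟨h3, h4⟩ := hden j (Finset.mem_Icc.1 hj).1
          rw [← Finset.sum_filter, Finset.sum_const, nsmul_eq_mul]
          have h5 : (((Finset.range M).filter (· < j)).card : ℝ) ≤ j := by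
            have : ((Finset.range M).filter (· < j)).card ≤ (Finset.range j).card := by
              apply Finset.card_le_card
              intro m hm
              exact Finset.mem_range.2 (Finset.mem_filter.1 hm).2
            rw [Finset.card_range] at this
            exact_mod_cast this
          have h6 : 0 ≤ r ^ (2 * j) := pow_nonneg hr0 _
          calc (((Finset.range M).filter (· < j)).card : ℝ) * (r ^ (2 * j) / (2 * (j : ℝ) - 1))
              ≤ (2 * (j : ℝ) - 1) * (r ^ (2 * j) / (2 * (j : ℝ) - 1)) := by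
                apply mul_le_mul_of_nonneg_right (h5.trans h4)
                positivity
            _ = r ^ (2 * j) := by field_simp
      _ ≤ D * n := mul_le_mul_of_nonneg_left (hGr J) hD
  have hAsum : ∑ m ∈ Finset.range M, A m ^ 2 * ρ ^ (2 * m) ≤ 4 * n * D := by
    calc ∑ m ∈ Finset.range M, A m ^ 2 * ρ ^ (2 * m)
        ≤ ∑ m ∈ Finset.range M, D / n * ((m : ℝ) * ρ ^ (2 * m)) := by
          apply Finset.sum_le_sum
          intro m _
          calc A m ^ 2 * ρ ^ (2 * m) ≤ D * (m / n) * ρ ^ (2 * m) :=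
                mul_le_mul_of_nonneg_right (hAsq m) (hρ2' m)
            _ = _ := by ring
      _ = D / n * ∑ m ∈ Finset.range M, (m : ℝ) * ρ ^ (2 * m) := by rw [Finset.mul_sum]
      _ ≤ D / n * (4 * n ^ 2) := mul_le_mul_of_nonneg_left hG1 (by positivity)
      _ = 4 * n * D := by field_simp
  have he1' : (‖e 1‖ * (1 / n)) ^ 2 ≤ D / 2 := by
    have h3 : ‖e 1‖ ^ 2 ≤ n * D := by
      have h4 := pow_le_pow_left₀ (norm_nonneg _) he1 2
      rwa [Real.sq_sqrt (by positivity)] at h4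
    calc (‖e 1‖ * (1 / n)) ^ 2 = ‖e 1‖ ^ 2 * (1 / n) ^ 2 := by ring
      _ ≤ n * D * (1 / n) ^ 2 := mul_le_mul_of_nonneg_right h3 (sq_nonneg _)
      _ = D * (1 / n) := by field_simp
      _ ≤ D * (1 / 2) := mul_le_mul_of_nonneg_left h1n2 hD
      _ = D / 2 := by ring
  have hmain : ∀ J, M ≤ J → ∑ m ∈ Finset.range M, ‖qq s m‖ ^ 2 * ρ ^ (2 * m)
      ≤ 4 * (‖c J‖ ^ 2 * (2 * n) + D / 2 * (2 * n) + 4 * n * D + D * n) := by
    intro J hJ
    calc ∑ m ∈ Finset.range M, ‖qq s m‖ ^ 2 * ρ ^ (2 * m)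
        ≤ ∑ m ∈ Finset.range M, 4 * (‖c J‖ ^ 2 * ρ ^ (2 * m) + (‖e 1‖ * (1 / n)) ^ 2 * ρ ^ (2 * m)
            + A m ^ 2 * ρ ^ (2 * m) + B J m ^ 2 * ρ ^ (2 * m)) := by
          apply Finset.sum_le_sum
          intro m hm
          have h3 := mul_le_mul_of_nonneg_right (hq J hJ m (Finset.mem_range.1 hm)) (hρ2' m)
          refine h3.trans (le_of_eq ?_)
          ring
      _ = 4 * (‖c J‖ ^ 2 * ∑ m ∈ Finset.range M, ρ ^ (2 * m)
            + (‖e 1‖ * (1 / n)) ^ 2 * ∑ m ∈ Finset.range M, ρ ^ (2 * m)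
            + ∑ m ∈ Finset.range M, A m ^ 2 * ρ ^ (2 * m)
            + ∑ m ∈ Finset.range M, B J m ^ 2 * ρ ^ (2 * m)) := by
          rw [← Finset.mul_sum, Finset.sum_add_distrib, Finset.sum_add_distrib,
            Finset.sum_add_distrib, Finset.mul_sum, Finset.mul_sum]
      _ ≤ _ := by
          have h3 := mul_le_mul_of_nonneg_left hG0 (sq_nonneg ‖c J‖)
          have h4 : (‖e 1‖ * (1 / n)) ^ 2 * ∑ m ∈ Finset.range M, ρ ^ (2 * m) ≤ D / 2 * (2 * n) :=
            mul_le_mul he1' hG0 (Finset.sum_nonneg fun m _ => hρ2' m) (by positivity)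
          have h5 := hBsum J
          linarith
  -- limit
  have hlim : Tendsto (fun J => 4 * (‖c J‖ ^ 2 * (2 * n) + D / 2 * (2 * n) + 4 * n * D + D * n)) atTop
      (𝓝 (4 * (‖s (rn n : ℂ) - ((1 / (n : ℝ) : ℝ) : ℂ)‖ ^ 2 * (2 * n) + D / 2 * (2 * n) + 4 * n * D
        + D * n))) := by
    have h3 : ‖(r : ℂ)‖ < 1 := by rw [Complex.norm_real, Real.norm_of_nonneg hr0]; exact hrlt
    have h4 := (hasSum_ee hs h0 h3).tendsto_sum_nat
    have h5 : s (r : ℂ) - 1 + (r : ℂ) = s (rn n : ℂ) - ((1 / (n : ℝ) : ℝ) : ℂ) := by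
      rw [← hr1, ← hr]; push_cast; ring
    rw [h5] at h4
    have h6 : Tendsto c atTop (𝓝 (s (rn n : ℂ) - ((1 / (n : ℝ) : ℝ) : ℂ))) :=
      h4.comp (tendsto_add_atTop_nat 1)
    exact (((((h6.norm.pow 2).mul_const _).add_const _).add_const _).add_const _).const_mul _
  refine (ge_of_tendsto hlim (eventually_atTop.2 ⟨M, fun J hJ => hmain J hJ⟩)).trans ?_
  have h3 : ‖s (rn n : ℂ) - ((1 / (n : ℝ) : ℝ) : ℂ)‖ ^ 2 ≤ 4 * D := by
    have h4 := pow_le_pow_left₀ (norm_nonneg _) hc 2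
    rw [mul_pow, Real.sq_sqrt hD] at h4
    linarith
  have h4 := mul_le_mul_of_nonneg_right h3 (show (0:ℝ) ≤ 2 * n by positivity)
  have h5 : 0 ≤ n * D := by positivity
  nlinarith

end Pool.Agent.Helper39.QM
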