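import Pool.Agent.Helper39.QM.St
import Pool.Agent.Helper80.Bieb.Main

/-!
# QM, module MAX: the maximum of `|f|` on a circle
-/

set_option autoImplicit false

open Metric Set Filter Topology
open scoped ComplexConjugate

namespace Pool.Agent.Helper39.QM

open Pool.Agent.Helper64.C3

private theorem bieb_Max {g : ℂ → ℂ} (hg : ClassS g) : ‖coeff 2 g‖ ≤ 2 := by
  have h := Pool.Agent.Helper80.Bieb.bieberbach hg.1 hg.2.1 hg.2.2.1 hg.2.2.2
  have e : coeff 2 g = deriv (deriv g) 0 / 2 := by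
    unfold coeff
    rw [iteratedDeriv_succ, iteratedDeriv_one]
    norm_num [Nat.factorial]
  rw [e, norm_div]
  have h2 : ‖(2 : ℂ)‖ = 2 := by norm_num
  rw [h2]
  linarith

private theorem unit_Max (a : ℂ) : ∃ v : ℂ, ‖v‖ = 1 ∧ (‖a‖ : ℂ) * v = a := by
  by_cases h : a = 0
  · exact ⟨1, by simp, by simp [h]⟩
  · have hn : (‖a‖ : ℂ) ≠ 0 := by exact_mod_cast norm_ne_zero_iff.2 h
    refine ⟨a / ‖a‖, ?_, ?_⟩
    · rw [norm_div, Complex.norm_real, norm_norm, div_self (norm_ne_zero_iff.2 h)]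
    · field_simp

private theorem fst_Max (H1 : StOmit) (H2 : StSlit) (f s : ℂ → ℂ) (r : ℝ) (hf : ClassS f) (hs : IsS f s)
    (hr0 : 0 < r) (hr1 : r < 1) (hmax : ∀ z : ℂ, ‖z‖ ≤ r → ‖f z‖ ≤ ‖f (r : ℂ)‖) :
    ‖s (r : ℂ)‖ ^ 2 ≤ (1 - r) ^ 2 + r * (2 - ‖coeff 2 f‖) := by
  obtain ⟨v, hv, hva⟩ := unit_Max (coeff 2 f)
  have ha2 := bieb_Max hf
  have hgt : 2 < r + r⁻¹ := by
    have h1 : 0 < (1 - r) ^ 2 := by
      have : 0 < 1 - r := by linarith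
      positivity
    have h2 : r * (r + r⁻¹) = r ^ 2 + 1 := by field_simp
    have h3 : r * 2 < r * (r + r⁻¹) := by
      rw [h2]
      nlinarith
    exact lt_of_mul_lt_mul_left h3 hr0.le
  set m : ℝ := r + r⁻¹ - ‖coeff 2 f‖ with hm
  have hm0 : 0 < m := by rw [hm]; linarith
  set W : ℂ := (m : ℂ) * v with hW
  have hWn : ‖W‖ = m := by
    rw [hW, norm_mul, hv, mul_one, Complex.norm_real, Real.norm_of_nonneg hm0.le]
  have hW0 : W ≠ 0 := by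
    intro h
    rw [h, norm_zero] at hWn
    exact hm0.ne hWn
  have hsum : ‖W + coeff 2 f‖ = r + r⁻¹ := by
    have e : W + coeff 2 f = ((r + r⁻¹ : ℝ) : ℂ) * v := by
      have h5 : (((r + r⁻¹ : ℝ)) : ℂ) = (m : ℂ) + (‖coeff 2 f‖ : ℂ) := by
        rw [hm]
        push_cast
        ring
      rw [h5, add_mul, hva]
    rw [e, norm_mul, hv, mul_one, Complex.norm_real, Real.norm_of_nonneg (by positivity)]
  obtain ⟨z₁, hz₁, hfz₁⟩ : ∃ z₁ ∈ ball (0 : ℂ) 1, f z₁ = W⁻¹ := by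
    by_contra hcon
    push Not at hcon
    have h := H1 f hf W⁻¹ (inv_ne_zero hW0) hcon
    rw [inv_inv, hsum] at h
    linarith
  have hz₁0 : z₁ ≠ 0 := by
    rintro rfl
    rw [hf.2.2.1] at hfz₁
    exact inv_ne_zero hW0 hfz₁.symm
  have hz₁n : ‖z₁‖ < 1 := by simpa using hz₁
  have hle : ‖z₁‖ ≤ r := by
    have h := H2 f hf z₁ hz₁0 hz₁n
    rw [hfz₁, inv_inv, hsum] at h
    by_contra hcon
    push Not at hcon
    set t : ℝ := ‖z₁‖ with ht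
    have ht0 : 0 < t := hr0.trans hcon
    have h1 : (t * r) * (r + r⁻¹) ≤ (t * r) * (t + t⁻¹) :=
      mul_le_mul_of_nonneg_left h (by positivity)
    have h2 : (t * r) * (r + r⁻¹) = t * (r ^ 2 + 1) := by field_simp
    have h3 : (t * r) * (t + t⁻¹) = r * (t ^ 2 + 1) := by field_simp
    rw [h2, h3] at h1
    have h4 : 0 < (t - r) * (1 - t * r) := by
      apply mul_pos (by linarith)
      nlinarith
    nlinarith
  have hfr : ‖W‖⁻¹ ≤ ‖f (r : ℂ)‖ := by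
    rw [← norm_inv, ← hfz₁]
    exact hmax z₁ hle
  have hrb : (r : ℂ) ∈ ball (0 : ℂ) 1 := by
    rw [mem_ball_zero_iff, Complex.norm_real, Real.norm_of_nonneg hr0.le]
    exact hr1
  have heq : ‖f (r : ℂ)‖ * ‖s (r : ℂ)‖ ^ 2 = r := by
    have h := congrArg norm (hs.eq _ hrb)
    rw [norm_mul, norm_pow, Complex.norm_real, Real.norm_of_nonneg hr0.le] at h
    exact h
  rw [hWn] at hfr
  have h5 : m⁻¹ * ‖s (r : ℂ)‖ ^ 2 ≤ r := by
    calc m⁻¹ * ‖s (r : ℂ)‖ ^ 2 ≤ ‖f (r : ℂ)‖ * ‖s (r : ℂ)‖ ^ 2 :=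
          mul_le_mul_of_nonneg_right hfr (by positivity)
      _ = r := heq
  have h6 : ‖s (r : ℂ)‖ ^ 2 ≤ r * m := by
    rw [inv_mul_le_iff₀ hm0] at h5
    linarith
  have h7 : r * m = (1 - r) ^ 2 + r * (2 - ‖coeff 2 f‖) := by
    rw [hm]
    field_simp
    ring
  rw [← h7]
  exact h6

private theorem snd_Max (f s : ℂ → ℂ) (r : ℝ) (hs : IsS f s)
    (hr0 : 0 < r) (hr1 : r < 1) (hmax : ∀ z : ℂ, ‖z‖ ≤ r → ‖f z‖ ≤ ‖f (r : ℂ)‖) :
    (deriv s (r : ℂ) * conj (s (r : ℂ))).im = 0 := by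
  set γ : ℝ → ℂ := fun θ => (r : ℂ) * Complex.exp (θ * Complex.I) with hγ
  have hγn : ∀ θ, ‖γ θ‖ = r := by
    intro θ
    rw [hγ]
    simp only
    rw [norm_mul, Complex.norm_exp_ofReal_mul_I, mul_one, Complex.norm_real, Real.norm_of_nonneg hr0.le]
  have hγb : ∀ θ, γ θ ∈ ball (0 : ℂ) 1 := by
    intro θ
    rw [mem_ball_zero_iff, hγn]
    exact hr1
  have hγ0 : γ 0 = (r : ℂ) := by simp [hγ]
  have hne : ∀ θ, 0 < ‖f (γ θ)‖ ∧ ‖f (γ θ)‖ * ‖s (γ θ)‖ ^ 2 = r := by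
    intro θ
    have h := congrArg norm (hs.eq _ (hγb θ))
    rw [norm_mul, norm_pow, hγn] at h
    refine ⟨?_, h⟩
    by_contra hcon
    have h0 : ‖f (γ θ)‖ = 0 := le_antisymm (not_lt.1 hcon) (norm_nonneg _)
    rw [h0, zero_mul] at h
    exact hr0.ne h
  have hmin : ∀ θ, ‖s (γ 0)‖ ^ 2 ≤ ‖s (γ θ)‖ ^ 2 := by
    intro θ
    obtain ⟨p1, e1⟩ := hne 0
    obtain ⟨p2, e2⟩ := hne θ
    have h1 : ‖f (γ θ)‖ ≤ ‖f (γ 0)‖ := by
      rw [hγ0]
      exact hmax _ (hγn θ).le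
    have h2 : ‖f (γ 0)‖ * ‖s (γ 0)‖ ^ 2 ≤ ‖f (γ 0)‖ * ‖s (γ θ)‖ ^ 2 := by
      rw [e1, ← e2]
      exact mul_le_mul_of_nonneg_right h1 (by positivity)
    exact le_of_mul_le_mul_left h2 p1
  have hγd : HasDerivAt γ ((r : ℂ) * Complex.I) 0 := by
    have h1 : HasDerivAt (fun θ : ℝ => (θ : ℂ) * Complex.I) (1 * Complex.I) 0 :=
      (Complex.ofRealCLM.hasDerivAt (x := (0 : ℝ))).mul_const Complex.I
    have h2 := (h1.cexp).const_mul (r : ℂ)
    refine h2.congr_deriv ?_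
    simp
  have hsd : HasDerivAt s (deriv s (γ 0)) (γ 0) :=
    (hs.diff.differentiableAt (isOpen_ball.mem_nhds (hγb 0))).hasDerivAt
  have hcomp : HasDerivAt (fun θ => s (γ θ)) (deriv s (γ 0) * ((r : ℂ) * Complex.I)) 0 :=
    hsd.comp (0 : ℝ) hγd
  have hsq := hcomp.norm_sq
  have hloc : IsLocalMin (fun θ => ‖s (γ θ)‖ ^ 2) 0 := Filter.Eventually.of_forall hmin
  have hz := hloc.hasDerivAt_eq_zero hsq
  rw [Complex.inner, hγ0] at hz
  have e : ((deriv s (r : ℂ) * ((r : ℂ) * Complex.I)) * conj (s (r : ℂ))).re =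
      -(r * (deriv s (r : ℂ) * conj (s (r : ℂ))).im) := by
    have e1 : (deriv s (r : ℂ) * ((r : ℂ) * Complex.I)) * conj (s (r : ℂ)) =
        (r : ℂ) * ((deriv s (r : ℂ) * conj (s (r : ℂ))) * Complex.I) := by ring
    rw [e1, Complex.re_ofReal_mul, Complex.mul_I_re]
    ring
  have e3 : r * (deriv s (r : ℂ) * conj (s (r : ℂ))).im = 0 := by
    rw [e] at hz
    linarith
  exact (mul_eq_zero.1 e3).resolve_left hr0.ne'

/-- the maximum of `|f|` on a circle -/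
theorem max (H1 : StOmit) (H2 : StSlit) : StMax := by
  intro f s r hf hs hr0 hr1 hmax
  exact ⟨fst_Max H1 H2 f s r hf hs hr0 hr1 hmax, snd_Max f s r hs hr0 hr1 hmax⟩

end Pool.Agent.Helper39.QM
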