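import Pool.Agent.Helper39.QM.St

/-!
# QM: module REAL
-/

set_option autoImplicit false

open Metric Set Filter Topology
open scoped ComplexConjugate

namespace Pool.Agent.Helper39.QM

open Pool.Agent.Helper64.C3

private theorem alg_Real {A Z : ℂ} {α β : ℝ} (hα : 0 < α) (hβ : 0 < β)
    (h : ‖(α : ℂ) * Z - β * A‖ * α ≤ ‖(α : ℂ) * A + β * Z‖ * β) :
    (α ^ 2 - β ^ 2) * ‖Z‖ ^ 2 ≤ 2 * α * β * (A.re * Z.re + A.im * Z.im) := by
  have h1 : (‖(α : ℂ) * Z - β * A‖ * α) ^ 2 ≤ (‖(α : ℂ) * A + β * Z‖ * β) ^ 2 := by gcongr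
  rw [mul_pow, mul_pow, Complex.sq_norm, Complex.sq_norm, Complex.normSq_apply,
    Complex.normSq_apply] at h1
  simp only [Complex.sub_re, Complex.sub_im, Complex.add_re, Complex.add_im, Complex.mul_re,
    Complex.mul_im, Complex.ofReal_re, Complex.ofReal_im, zero_mul, sub_zero, add_zero] at h1
  rw [Complex.sq_norm, Complex.normSq_apply]
  have h3 : 0 < α ^ 2 + β ^ 2 := by positivity
  by_contra hcon
  push Not at hcon
  have h4 : 0 < (α ^ 2 + β ^ 2) * ((α ^ 2 - β ^ 2) * (Z.re * Z.re + Z.im * Z.im) -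
      2 * α * β * (A.re * Z.re + A.im * Z.im)) := mul_pos h3 (by linarith)
  nlinarith [h4, h1]

private theorem cs_Real (P Z : ℂ) : P.re * Z.re + P.im * Z.im ≤ ‖P‖ * ‖Z‖ := by
  have h1 : P.re * Z.re + P.im * Z.im = (conj P * Z).re := by
    simp [Complex.mul_re]
  rw [h1]
  refine (Complex.re_le_norm _).trans ?_
  rw [norm_mul, Complex.norm_conj]

private theorem pt_Real {P Z : ℂ} {α β K n : ℝ} (hα : 0 < α) (hβ : 0 < β) (hn : 0 ≤ n)
    (h : ‖(α : ℂ) * Z - β * (1 + P)‖ * α ≤ ‖(α : ℂ) * (1 + P) + β * Z‖ * β)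
    (hK0 : 0 ≤ K) (hK1 : K ≤ n) (hK2 : K * β ≤ 2 * α * n) :
    |Z.re| * K ≤ Z.re * K + 3 * n * (‖P‖ ^ 2 + ‖Z‖ ^ 2) := by
  have h1 := alg_Real hα hβ h
  have hcs := cs_Real P Z
  have e1 : (1 + P).re * Z.re + (1 + P).im * Z.im = Z.re + (P.re * Z.re + P.im * Z.im) := by
    simp only [Complex.add_re, Complex.add_im, Complex.one_re, Complex.one_im]
    ring
  rw [e1] at h1
  have h2 : -(β * ‖Z‖ ^ 2) ≤ 2 * α * (Z.re + ‖P‖ * ‖Z‖) := by
    have h3 : 2 * α * β * (Z.re + (P.re * Z.re + P.im * Z.im)) ≤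
        2 * α * β * (Z.re + ‖P‖ * ‖Z‖) := by gcongr
    have h4 : 0 ≤ α ^ 2 * ‖Z‖ ^ 2 := by positivity
    have h5 : β * (-(β * ‖Z‖ ^ 2)) ≤ β * (2 * α * (Z.re + ‖P‖ * ‖Z‖)) := by nlinarith
    exact le_of_mul_le_mul_left h5 hβ
  have hs : 0 ≤ n * (‖P‖ ^ 2 + ‖Z‖ ^ 2) := by positivity
  rcases le_or_gt 0 Z.re with hz | hz
  · rw [abs_of_nonneg hz]
    linarith
  · rw [abs_of_neg hz]
    set u : ℝ := β / (2 * α) with hu
    have hu1 : K * u ≤ n := by
      rw [hu, ← mul_div_assoc, div_le_iff₀ (by positivity)]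
      linarith
    have hu0 : 0 ≤ u := by positivity
    have h6 : -Z.re ≤ ‖P‖ * ‖Z‖ + u * ‖Z‖ ^ 2 := by
      have h7 : u * ‖Z‖ ^ 2 = β * ‖Z‖ ^ 2 / (2 * α) := by rw [hu]; ring
      have h8 : -(β * ‖Z‖ ^ 2) / (2 * α) ≤ Z.re + ‖P‖ * ‖Z‖ := by
        rw [div_le_iff₀ (by positivity)]
        linarith
      rw [h7]
      have h9 : -(β * ‖Z‖ ^ 2) / (2 * α) = -(β * ‖Z‖ ^ 2 / (2 * α)) := by ring
      linarith
    have h10 : -Z.re * K ≤ (‖P‖ * ‖Z‖ + u * ‖Z‖ ^ 2) * K := by gcongr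
    have h11 : (‖P‖ * ‖Z‖ + u * ‖Z‖ ^ 2) * K ≤ n * (‖P‖ * ‖Z‖) + n * ‖Z‖ ^ 2 := by
      have h12 : ‖P‖ * ‖Z‖ * K ≤ ‖P‖ * ‖Z‖ * n := by gcongr
      have h13 : K * u * ‖Z‖ ^ 2 ≤ n * ‖Z‖ ^ 2 := by gcongr
      nlinarith
    have h14 : n * (2 * (‖P‖ * ‖Z‖)) ≤ n * (‖P‖ ^ 2 + ‖Z‖ ^ 2) := by
      gcongr
      nlinarith [sq_nonneg (‖P‖ - ‖Z‖)]
    have h15 : 0 ≤ n * ‖P‖ ^ 2 := by positivity
    nlinarith

/-- the Poisson type kernel -/
private theorem ker_Real {n : ℕ} {τ : ℝ} (hn : 2 ≤ n) (h0 : 0 < τ) (h1 : τ < Real.pi) :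
    0 ≤ xn n * Real.sin τ / (1 - 2 * xn n * Real.cos τ + xn n ^ 2) ∧
    xn n * Real.sin τ / (1 - 2 * xn n * Real.cos τ + xn n ^ 2) ≤ n ∧
    xn n * Real.sin τ / (1 - 2 * xn n * Real.cos τ + xn n ^ 2) *
      ((1 + rh n) * Real.sin (τ / 2)) ≤ 2 * ((1 - rh n) * Real.cos (τ / 2)) * n := by
  have hn' : (2 : ℝ) ≤ n := by exact_mod_cast hn
  have hC : 0 < Real.cos (τ / 2) := Real.cos_pos_of_mem_Ioo ⟨by linarith, by linarith⟩
  have hS : 0 < Real.sin (τ / 2) := Real.sin_pos_of_pos_of_lt_pi (by linarith) (by linarith)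
  have hC1 : Real.cos (τ / 2) ≤ 1 := Real.cos_le_one _
  have hs : Real.sin τ = 2 * Real.sin (τ / 2) * Real.cos (τ / 2) := by
    rw [← Real.sin_two_mul]; congr 1; ring
  have hc : Real.cos τ = 1 - 2 * Real.sin (τ / 2) ^ 2 := by
    have h := Real.cos_two_mul (τ / 2)
    have h' := Real.sin_sq_add_cos_sq (τ / 2)
    rw [show 2 * (τ / 2) = τ by ring] at h
    linarith
  set S := Real.sin (τ / 2)
  set C := Real.cos (τ / 2)
  set x := xn n with hx
  have hd : 0 < 2 * (n : ℝ) - 1 := by linarith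
  have hxe : 1 - x = 1 / (2 * n - 1) := by
    rw [hx]; unfold xn; field_simp; ring
  set δ : ℝ := 1 / (2 * n - 1) with hδ
  have hδ0 : 0 < δ := by rw [hδ]; positivity
  have hnδ : 1 / 2 ≤ n * δ := by
    rw [hδ, mul_one_div, div_le_div_iff₀ (by norm_num) hd]
    linarith
  have hδ1 : δ < 1 := by
    rw [hδ, div_lt_one hd]; linarith
  have hx0 : 0 < x := by linarith
  have hx1 : x ≤ 1 := by linarith
  have hD : 1 - 2 * x * Real.cos τ + x ^ 2 = δ ^ 2 + 4 * x * S ^ 2 := by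
    rw [hc, ← hxe]; ring
  have hDpos : 0 < δ ^ 2 + 4 * x * S ^ 2 := by positivity
  have hρ : 1 - rh n = 1 / (2 * n) := by unfold rh; ring
  have hρ1 : rh n ≤ 1 := by
    have : 0 ≤ 1 / (2 * (n : ℝ)) := by positivity
    linarith
  have hρ0 : 0 ≤ rh n := by
    have : 1 / (2 * (n : ℝ)) ≤ 1 := by
      rw [div_le_one (by positivity)]; linarith
    linarith
  rw [hD, hs]
  refine ⟨by positivity, ?_, ?_⟩
  · rw [div_le_iff₀ hDpos]
    have e1 : 4 * δ * (x * S) ≤ δ ^ 2 + 4 * x * S ^ 2 := by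
      have e2 : x ^ 2 * S ^ 2 ≤ x * S ^ 2 := by
        have : x ^ 2 ≤ x := by nlinarith
        gcongr
      nlinarith [sq_nonneg (δ - 2 * (x * S))]
    have e3 : n * (4 * δ * (x * S)) ≤ n * (δ ^ 2 + 4 * x * S ^ 2) := by gcongr
    have e4 : 2 * (x * S) ≤ n * (4 * δ * (x * S)) := by
      have : 1 / 2 * (x * S) ≤ n * δ * (x * S) := by gcongr
      nlinarith
    have e5 : x * (2 * S * C) ≤ 2 * (x * S) := by
      have : x * S * C ≤ x * S * 1 := by gcongr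
      nlinarith
    linarith
  · rw [hρ]
    have e1 : 2 * (1 / (2 * (n : ℝ)) * C) * n = C := by field_simp
    rw [e1, div_mul_eq_mul_div, div_le_iff₀ hDpos]
    have e2 : x * (2 * S * C) * ((1 + rh n) * S) ≤ x * (2 * S * C) * (2 * S) := by
      gcongr
      linarith
    have e3 : 0 ≤ C * δ ^ 2 := by positivity
    nlinarith

/-- the inequality `gol` in terms of `P` and `Z` -/
private theorem gol_Real {n : ℕ} {τ : ℝ} {s : ℂ → ℂ} (hn : 2 ≤ n) (h0 : 0 < τ)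
    (h1 : τ < Real.pi)
    (hgol : ∀ w : ℂ, ‖w‖ < 1 →
      ‖(w * s (conj w ^ 2) - conj w * s (w ^ 2)) * (w + conj w)‖ * (1 - ‖w‖ ^ 2)
        ≤ ‖(w * s (conj w ^ 2) + conj w * s (w ^ 2)) * (w - conj w)‖ * (1 + ‖w‖ ^ 2)) :
    ‖(((1 - rh n) * Real.cos (τ / 2) : ℝ) : ℂ) * Zm (QQ s) (rh n) τ -
        ((1 + rh n) * Real.sin (τ / 2) : ℝ) * (1 + Pm (QQ s) (rh n) τ)‖ *
          ((1 - rh n) * Real.cos (τ / 2)) ≤
      ‖(((1 - rh n) * Real.cos (τ / 2) : ℝ) : ℂ) * (1 + Pm (QQ s) (rh n) τ) +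
        ((1 + rh n) * Real.sin (τ / 2) : ℝ) * Zm (QQ s) (rh n) τ‖ *
          ((1 + rh n) * Real.sin (τ / 2)) := by
  have hn' : (2 : ℝ) ≤ n := by exact_mod_cast hn
  have hC : 0 < Real.cos (τ / 2) := Real.cos_pos_of_mem_Ioo ⟨by linarith, by linarith⟩
  have hS : 0 < Real.sin (τ / 2) := Real.sin_pos_of_pos_of_lt_pi (by linarith) (by linarith)
  have hSC : Real.sin (τ / 2) ^ 2 + Real.cos (τ / 2) ^ 2 = 1 := Real.sin_sq_add_cos_sq _
  have hs : Real.sin τ = 2 * Real.sin (τ / 2) * Real.cos (τ / 2) := by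
    rw [← Real.sin_two_mul]; congr 1; ring
  have hc : Real.cos τ = Real.cos (τ / 2) ^ 2 - Real.sin (τ / 2) ^ 2 := by
    rw [← Real.cos_two_mul']; congr 1; ring
  set S := Real.sin (τ / 2) with hSdef
  set C := Real.cos (τ / 2) with hCdef
  set ρ := rh n with hρ
  have hρ1 : ρ < 1 := by
    have h : 0 < 1 / (2 * (n : ℝ)) := by positivity
    have h' : ρ = 1 - 1 / (2 * (n : ℝ)) := rfl
    linarith
  have hρ0 : 0 < ρ := by
    have h : 1 / (2 * (n : ℝ)) < 1 := by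
      rw [div_lt_one (by positivity)]; linarith
    have h' : ρ = 1 - 1 / (2 * (n : ℝ)) := rfl
    linarith
  obtain ⟨r, hr0, hr⟩ : ∃ r : ℝ, 0 < r ∧ r ^ 2 = ρ :=
    ⟨√ρ, Real.sqrt_pos.2 hρ0, Real.sq_sqrt hρ0.le⟩
  obtain ⟨w, hw⟩ : ∃ w : ℂ, w = r * (C + S * Complex.I) := ⟨_, rfl⟩
  have hwc : conj w = r * (C - S * Complex.I) := by
    rw [hw]
    simp only [map_mul, map_add, Complex.conj_ofReal, Complex.conj_I]
    ring
  have hnw : ‖w‖ ^ 2 = ρ := by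
    rw [Complex.sq_norm, Complex.normSq_apply, hw]
    simp only [Complex.mul_re, Complex.mul_im, Complex.add_re, Complex.add_im, Complex.ofReal_re,
      Complex.ofReal_im, Complex.I_re, Complex.I_im]
    rw [← hr]
    nlinarith [hSC]
  have hnw1 : ‖w‖ < 1 := by
    have h := norm_nonneg w
    by_contra hcon
    push Not at hcon
    nlinarith
  have hI : Complex.I ^ 2 = -1 := Complex.I_sq
  have hSCc : (S : ℂ) ^ 2 + (C : ℂ) ^ 2 = 1 := by exact_mod_cast hSC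
  have hrc : (r : ℂ) ^ 2 = (ρ : ℂ) := by exact_mod_cast hr
  have hw2 : w ^ 2 = circleMap 0 ρ τ := by
    rw [circleMap, zero_add, Complex.exp_mul_I, ← Complex.ofReal_cos, ← Complex.ofReal_sin, hc, hs,
      hw]
    push_cast
    rw [← hrc]
    linear_combination (r : ℂ) ^ 2 * (S : ℂ) ^ 2 * hI
  have hwc2 : conj w ^ 2 = circleMap 0 ρ (-τ) := by
    rw [circleMap, zero_add, Complex.exp_mul_I, ← Complex.ofReal_cos, ← Complex.ofReal_sin,
      Real.cos_neg, Real.sin_neg, hc, hs, hwc]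
    push_cast
    rw [← hrc]
    linear_combination (r : ℂ) ^ 2 * (S : ℂ) ^ 2 * hI
  have hne : ∀ z : ℂ, ‖z‖ < 1 → (1 : ℂ) - z ≠ 0 := by
    intro z hz h
    have : z = 1 := (sub_eq_zero.1 h).symm
    rw [this, norm_one] at hz
    exact lt_irrefl _ hz
  have hsQ : ∀ z : ℂ, ‖z‖ < 1 → s z = (1 - z) * (1 + QQ s z) := by
    intro z hz
    unfold QQ
    field_simp [hne z hz]
    ring
  have hz1 : ‖w ^ 2‖ < 1 := by rw [norm_pow, hnw]; exact hρ1
  have hz2 : ‖conj w ^ 2‖ < 1 := by rw [norm_pow, Complex.norm_conj, hnw]; exact hρ1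
  have hg := hgol w hnw1
  rw [hsQ _ hz1, hsQ _ hz2, hnw] at hg
  set P := Pm (QQ s) ρ τ with hP
  set Z := Zm (QQ s) ρ τ with hZ
  have hQp : QQ s (w ^ 2) = P + Complex.I * Z := by
    rw [hw2, hP, hZ]
    unfold Pm Zm
    field_simp
    ring
  have hQm : QQ s (conj w ^ 2) = P - Complex.I * Z := by
    rw [hwc2, hP, hZ]
    unfold Pm Zm
    field_simp
    ring
  rw [hQp, hQm] at hg
  set α : ℝ := (1 - ρ) * C with hα
  set β : ℝ := (1 + ρ) * S with hβ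
  have k1 : conj w * (1 - w ^ 2) = r * ((α : ℂ) - Complex.I * β) := by
    rw [hwc, hw, hα, hβ]
    push_cast
    rw [← hrc]
    linear_combination ((r : ℂ) ^ 3 * (-(C : ℂ) - S * Complex.I)) * hSCc +
      ((r : ℂ) ^ 3 * (S : ℂ) ^ 2 * (C + S * Complex.I)) * hI
  have k2 : w * (1 - conj w ^ 2) = r * ((α : ℂ) + Complex.I * β) := by
    rw [hwc, hw, hα, hβ]
    push_cast
    rw [← hrc]
    linear_combination ((r : ℂ) ^ 3 * (-(C : ℂ) + S * Complex.I)) * hSCc +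
      ((r : ℂ) ^ 3 * (S : ℂ) ^ 2 * (C - S * Complex.I)) * hI
  have k3 : w * ((1 - conj w ^ 2) * (1 + (P - Complex.I * Z))) -
      conj w * ((1 - w ^ 2) * (1 + (P + Complex.I * Z))) =
      -(2 * r * Complex.I) * ((α : ℂ) * Z - β * (1 + P)) := by
    rw [← mul_assoc, ← mul_assoc, k1, k2]
    ring
  have k4 : w * ((1 - conj w ^ 2) * (1 + (P - Complex.I * Z))) +
      conj w * ((1 - w ^ 2) * (1 + (P + Complex.I * Z))) =
      (2 * r) * ((α : ℂ) * (1 + P) + β * Z) := by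
    rw [← mul_assoc, ← mul_assoc, k1, k2]
    linear_combination (-(2 * (r : ℂ) * β * Z)) * hI
  have k5 : w + conj w = ((2 * r * C : ℝ) : ℂ) := by
    rw [hwc, hw]; push_cast; ring
  have k6 : w - conj w = ((2 * r * S : ℝ) : ℂ) * Complex.I := by
    rw [hwc, hw]; push_cast; ring
  rw [k3, k4, k5, k6] at hg
  have n1 : ‖-(2 * (r : ℂ) * Complex.I) * ((α : ℂ) * Z - β * (1 + P)) *
      ((2 * r * C : ℝ) : ℂ)‖ = 4 * r ^ 2 * C * ‖(α : ℂ) * Z - β * (1 + P)‖ := by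
    rw [norm_mul, norm_mul, norm_neg, norm_mul, norm_mul, Complex.norm_I, Complex.norm_real,
      Complex.norm_real, Real.norm_of_nonneg hr0.le, Real.norm_of_nonneg (by positivity),
      Complex.norm_ofNat]
    ring
  have n2 : ‖(2 * (r : ℂ)) * ((α : ℂ) * (1 + P) + β * Z) *
      (((2 * r * S : ℝ) : ℂ) * Complex.I)‖ = 4 * r ^ 2 * S * ‖(α : ℂ) * (1 + P) + β * Z‖ := by
    rw [norm_mul, norm_mul, norm_mul, norm_mul, Complex.norm_I, Complex.norm_real,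
      Complex.norm_real, Real.norm_of_nonneg hr0.le, Real.norm_of_nonneg (by positivity),
      Complex.norm_ofNat]
    ring
  rw [n1, n2] at hg
  have hfin : 4 * r ^ 2 * (‖(α : ℂ) * Z - β * (1 + P)‖ * α) ≤
      4 * r ^ 2 * (‖(α : ℂ) * (1 + P) + β * Z‖ * β) := by
    calc 4 * r ^ 2 * (‖(α : ℂ) * Z - β * (1 + P)‖ * α) =
        4 * r ^ 2 * C * ‖(α : ℂ) * Z - β * (1 + P)‖ * (1 - ρ) := by rw [hα]; ring
      _ ≤ 4 * r ^ 2 * S * ‖(α : ℂ) * (1 + P) + β * Z‖ * (1 + ρ) := hg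
      _ = _ := by rw [hβ]; ring
  exact le_of_mul_le_mul_left hfin (by positivity)

theorem real (H1 : StKern) (H2 : StFour) (H3 : StCoef) : StReal := by
  intro n s B' hn hd h0 hgol hB
  have hn' : (2 : ℝ) ≤ n := by exact_mod_cast hn
  have hρ1 : rh n < 1 := by
    have h : 0 < 1 / (2 * (n : ℝ)) := by positivity
    unfold rh
    linarith
  have hρ0 : 0 < rh n := by
    have h : 1 / (2 * (n : ℝ)) < 1 := by
      rw [div_lt_one (by positivity)]; linarith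
    unfold rh
    linarith
  have hdd : 0 < 2 * (n : ℝ) - 1 := by linarith
  have hx0 : 0 < xn n := by
    unfold xn
    apply div_pos _ hdd
    linarith
  have hx1 : xn n < 1 := by
    unfold xn
    rw [div_lt_one hdd]
    linarith
  have hxρ : xn n * rh n = rn n := by
    unfold xn rh rn
    field_simp
  have hQd : DifferentiableOn ℂ (QQ s) (ball 0 1) := by
    unfold QQ
    refine (hd.div (by fun_prop) fun z hz h => ?_).sub_const 1
    have h1 : z = 1 := (sub_eq_zero.1 h).symm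
    rw [mem_ball_zero_iff, h1, norm_one] at hz
    exact lt_irrefl _ hz
  have hQ0 : QQ s 0 = 0 := by unfold QQ; rw [h0]; simp
  have hc0 : coeff 0 (QQ s) = 0 := by
    rw [H3.2 s hd h0 0]
    unfold qq ee
    simp
  obtain ⟨hPc, hZc, hsin, hpoi, hpar⟩ := H2 (QQ s) (rh n) hQd hρ0 hρ1
  have hpoi := hpoi (xn n) hx0 hx1
  have hpar := hpar B' hB
  rw [hxρ, hQ0, sub_zero] at hpoi
  set B : ℝ → ℝ := fun τ => (Zm (QQ s) (rh n) τ).re with hBdef
  set K : ℝ → ℝ := fun τ => xn n * Real.sin τ / (1 - 2 * xn n * Real.cos τ + xn n ^ 2) with hK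
  set k : ℝ → ℝ := fun τ => ∑ m ∈ Finset.range n,
    ((n : ℝ) - m) * (rh n ^ m)⁻¹ * Real.sin (m * τ) with hk
  have hBc : Continuous B := Complex.continuous_re.comp hZc
  have hDpos : ∀ τ : ℝ, 0 < 1 - 2 * xn n * Real.cos τ + xn n ^ 2 := by
    intro τ
    have h1 := Real.cos_le_one τ
    have h2 : xn n * Real.cos τ ≤ xn n * 1 := by gcongr
    have h3 : 0 < (1 - xn n) ^ 2 := by
      have : 0 < 1 - xn n := by linarith
      positivity
    nlinarith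
  have hKc : Continuous K := by
    refine Continuous.div (by fun_prop) (by fun_prop) fun τ => (hDpos τ).ne'
  have hkc : Continuous k := by
    rw [hk]
    fun_prop
  -- the left side as an integral
  have hL : ∫ τ in (0 : ℝ)..Real.pi, B τ * k τ =
      Real.pi / 2 * ∑ m ∈ Finset.range n, ((n : ℝ) - m) * (coeff m (QQ s)).re := by
    have e1 : ∀ τ, B τ * k τ = ∑ m ∈ Finset.range n,
        ((n : ℝ) - m) * (rh n ^ m)⁻¹ * (B τ * Real.sin (m * τ)) := by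
      intro τ
      simp only [hk]
      rw [Finset.mul_sum]
      exact Finset.sum_congr rfl fun m _ => by ring
    simp only [e1]
    rw [intervalIntegral.integral_finset_sum fun m _ => ?_]
    · rw [Finset.mul_sum]
      refine Finset.sum_congr rfl fun m _ => ?_
      rw [intervalIntegral.integral_const_mul]
      rcases Nat.eq_zero_or_pos m with rfl | hm
      · simp [hc0]
      · rw [hsin m hm]
        have : rh n ^ m ≠ 0 := (pow_pos hρ0 m).ne'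
        field_simp
    · apply Continuous.intervalIntegrable
      fun_prop
  -- the bound
  have hE : Continuous fun τ => ‖Pm (QQ s) (rh n) τ‖ ^ 2 + ‖Zm (QQ s) (rh n) τ‖ ^ 2 := by
    fun_prop
  have hmain : ∫ τ in (0 : ℝ)..Real.pi, |B τ * k τ| ≤
      ∫ τ in (0 : ℝ)..Real.pi, 10 * n * (B τ * K τ +
        3 * n * (‖Pm (QQ s) (rh n) τ‖ ^ 2 + ‖Zm (QQ s) (rh n) τ‖ ^ 2)) := by
    refine intervalIntegral.integral_mono_on_of_le_Ioo Real.pi_pos.le ?_ ?_ ?_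
    · exact (hBc.mul hkc).abs.intervalIntegrable _ _
    · exact (continuous_const.mul ((hBc.mul hKc).add
        (continuous_const.mul hE))).intervalIntegrable _ _
    · intro τ hτ
      have h1 := H1 n τ hn hτ.1 hτ.2
      obtain ⟨hK0, hK1, hK2⟩ := ker_Real hn hτ.1 hτ.2
      have hα : 0 < (1 - rh n) * Real.cos (τ / 2) :=
        mul_pos (by linarith) (Real.cos_pos_of_mem_Ioo ⟨by linarith [hτ.1, Real.pi_pos],
          by linarith [hτ.2, Real.pi_pos]⟩)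
      have hβ : 0 < (1 + rh n) * Real.sin (τ / 2) :=
        mul_pos (by linarith) (Real.sin_pos_of_pos_of_lt_pi (by linarith [hτ.1])
          (by linarith [hτ.2, Real.pi_pos]))
      have h2 := pt_Real (P := Pm (QQ s) (rh n) τ) (Z := Zm (QQ s) (rh n) τ) hα hβ
        (Nat.cast_nonneg n) (gol_Real hn hτ.1 hτ.2 hgol) hK0 hK1 hK2
      rw [abs_mul]
      calc |B τ| * |k τ| ≤ |B τ| * (10 * n * K τ) := by
            gcongr
        _ = 10 * n * (|B τ| * K τ) := by ring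
        _ ≤ 10 * n * (B τ * K τ +
            3 * n * (‖Pm (QQ s) (rh n) τ‖ ^ 2 + ‖Zm (QQ s) (rh n) τ‖ ^ 2)) := by
            gcongr
  have hR : ∫ τ in (0 : ℝ)..Real.pi, 10 * n * (B τ * K τ +
        3 * n * (‖Pm (QQ s) (rh n) τ‖ ^ 2 + ‖Zm (QQ s) (rh n) τ‖ ^ 2)) =
      10 * n * (Real.pi / 2 * (QQ s ((rn n : ℝ) : ℂ)).re + 3 * n *
        ∫ τ in (0 : ℝ)..Real.pi, (‖Pm (QQ s) (rh n) τ‖ ^ 2 + ‖Zm (QQ s) (rh n) τ‖ ^ 2)) := by
    rw [intervalIntegral.integral_const_mul, intervalIntegral.integral_add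
      (f := fun τ => B τ * K τ)
      (g := fun τ => 3 * n * (‖Pm (QQ s) (rh n) τ‖ ^ 2 + ‖Zm (QQ s) (rh n) τ‖ ^ 2))
      ((hBc.mul hKc).intervalIntegrable _ _)
      ((continuous_const.mul hE).intervalIntegrable _ _), intervalIntegral.integral_const_mul,
      ← hpoi]
  have habs := intervalIntegral.abs_integral_le_integral_abs (μ := MeasureTheory.volume)
    (f := fun τ => B τ * k τ) Real.pi_pos.le
  rw [hL] at habs
  have h1 := habs.trans (hmain.trans_eq hR)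
  have h2 : 3 * (n : ℝ) * ∫ τ in (0 : ℝ)..Real.pi,
      (‖Pm (QQ s) (rh n) τ‖ ^ 2 + ‖Zm (QQ s) (rh n) τ‖ ^ 2) ≤ 3 * n * (Real.pi * B') := by
    gcongr
  rw [abs_mul, abs_of_pos (by positivity : 0 < Real.pi / 2)] at h1
  have h3 : Real.pi / 2 * |∑ m ∈ Finset.range n, ((n : ℝ) - m) * (coeff m (QQ s)).re| ≤
      Real.pi / 2 * (10 * n * ((QQ s ((rn n : ℝ) : ℂ)).re + 6 * n * B')) := by
    refine h1.trans ?_
    have h4 : 10 * (n : ℝ) * (Real.pi / 2 * (QQ s ((rn n : ℝ) : ℂ)).re + 3 * n *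
        ∫ τ in (0 : ℝ)..Real.pi, (‖Pm (QQ s) (rh n) τ‖ ^ 2 + ‖Zm (QQ s) (rh n) τ‖ ^ 2)) ≤
        10 * n * (Real.pi / 2 * (QQ s ((rn n : ℝ) : ℂ)).re + 3 * n * (Real.pi * B')) := by
      gcongr
    refine h4.trans (le_of_eq ?_)
    ring
  exact le_of_mul_le_mul_left h3 (by positivity)

end Pool.Agent.Helper39.QM
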