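import Pool.Agent.Helper39.QM.St

/-!
# QM module STEP

One step inequality of the Koebe chain (pure inequality).
-/

set_option autoImplicit false

namespace Pool.Agent.Helper39.QM
namespace Step

open Complex

lemma den_lower {A ρ q : ℝ} {x : ℂ} (hA0 : 0 < A) (hA : A * (1 - ρ) = 1)
    (hx : ‖x‖ ≤ ρ) (hq0 : 0 ≤ q) (hq1 : q ≤ 1) :
    1 ≤ A * ‖1 - (q : ℂ) * x‖ := by
  have h1 : 1 - ρ ≤ ‖1 - (q : ℂ) * x‖ := by
    have h2 : ‖(1 : ℂ)‖ - ‖(q : ℂ) * x‖ ≤ ‖1 - (q : ℂ) * x‖ := norm_sub_norm_le _ _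
    rw [norm_mul, norm_one, Complex.norm_real, Real.norm_of_nonneg hq0] at h2
    have h3 : q * ‖x‖ ≤ 1 * ρ := mul_le_mul hq1 hx (norm_nonneg _) zero_le_one
    linarith
  calc 1 = A * (1 - ρ) := hA.symm
    _ ≤ _ := mul_le_mul_of_nonneg_left h1 hA0.le

lemma den_pos {A : ℝ} {P : ℂ} (h : 1 ≤ A * ‖P‖) : 0 < ‖P‖ := by
  by_contra h0
  have : ‖P‖ = 0 := le_antisymm (not_lt.mp h0) (norm_nonneg _)
  rw [this] at h
  linarith

lemma pick_id (q : ℝ) (x : ℂ) :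
    ‖1 - (q : ℂ) * x‖ ^ 2 - ‖(q : ℂ) - x‖ ^ 2 = (1 - q ^ 2) * (1 - ‖x‖ ^ 2) := by
  rw [Complex.sq_norm, Complex.sq_norm, Complex.sq_norm]
  simp only [Complex.normSq_apply, sub_re, sub_im, mul_re, mul_im, ofReal_re, ofReal_im, one_re,
    one_im]
  ring

lemma root_near {A q : ℝ} {x α : ℂ} (hP : 1 ≤ A * ‖1 - (q : ℂ) * x‖) (hx : ‖x‖ ≤ 1)
    (hq1 : q ≤ 1) (hα : α ^ 2 = (q - x) / (1 - q * x)) (hre : 0 < α.re) :
    ‖α - 1‖ ≤ 2 * A * (1 - q) := by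
  have hP0 := den_pos hP
  have hPne : (1 - (q : ℂ) * x) ≠ 0 := norm_pos_iff.mp hP0
  have h1 : (α - 1) * (α + 1) = -(((1 - q : ℝ) : ℂ) * (1 + x)) / (1 - (q : ℂ) * x) := by
    have h : (α - 1) * (α + 1) = α ^ 2 - 1 := by ring
    rw [h, hα]
    field_simp
    push_cast
    ring
  have h2 : 1 ≤ ‖α + 1‖ := by
    calc (1 : ℝ) ≤ (α + 1).re := by
          simp only [add_re, one_re]
          linarith
      _ ≤ |(α + 1).re| := le_abs_self _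
      _ ≤ ‖α + 1‖ := Complex.abs_re_le_norm _
  have h3 : ‖α - 1‖ * ‖α + 1‖ * ‖1 - (q : ℂ) * x‖ = (1 - q) * ‖1 + x‖ := by
    rw [← norm_mul, h1, norm_div, norm_neg, norm_mul, Complex.norm_real,
      Real.norm_of_nonneg (by linarith : (0 : ℝ) ≤ 1 - q), div_mul_cancel₀ _ hP0.ne']
  have h4 : ‖1 + x‖ ≤ 2 := by
    calc ‖1 + x‖ ≤ ‖(1 : ℂ)‖ + ‖x‖ := norm_add_le _ _
      _ ≤ 2 := by rw [norm_one]; linarith
  have h5 : ‖α - 1‖ ≤ ‖α - 1‖ * ‖α + 1‖ := le_mul_of_one_le_right (norm_nonneg _) h2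
  have hA0 : 0 < A := by
    by_contra h
    push Not at h
    nlinarith
  have h6 : ‖α - 1‖ * ‖1 - (q : ℂ) * x‖ ≤ 2 * (1 - q) := by
    calc ‖α - 1‖ * ‖1 - (q : ℂ) * x‖ ≤ ‖α - 1‖ * ‖α + 1‖ * ‖1 - (q : ℂ) * x‖ :=
          mul_le_mul_of_nonneg_right h5 (norm_nonneg _)
      _ = (1 - q) * ‖1 + x‖ := h3
      _ ≤ (1 - q) * 2 := mul_le_mul_of_nonneg_left h4 (by linarith)
      _ = 2 * (1 - q) := by ring
  calc ‖α - 1‖ = ‖α - 1‖ * 1 := (mul_one _).symm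
    _ ≤ ‖α - 1‖ * (A * ‖1 - (q : ℂ) * x‖) := mul_le_mul_of_nonneg_left hP (norm_nonneg _)
    _ = A * (‖α - 1‖ * ‖1 - (q : ℂ) * x‖) := by ring
    _ ≤ A * (2 * (1 - q)) := mul_le_mul_of_nonneg_left h6 hA0.le
    _ = 2 * A * (1 - q) := by ring

/-- scalar part of the gain -/
lemma gain_real {A δ t m p : ℝ} (hA1 : 1 ≤ A) (hδ0 : 0 < δ) (hδ : 16 * A ^ 3 * δ ≤ 1)
    (ht0 : 0 ≤ t) (ht : 1 ≤ A * (1 - t)) (hm0 : 0 ≤ m) (hp0 : 0 < p) (hp : 1 ≤ A ^ 2 * p)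
    (hm : (1 - m ^ 2) * p = δ * (2 - δ) * (1 - t ^ 2)) :
    (1 + t * m) / (1 - t * m)
      ≤ (1 + t) / (1 - t) * (1 - 2 * δ * (t / p) * (1 - 3 * A ^ 3 * δ)) := by
  have hA0 : 0 < A := by linarith
  have ht1 : t < 1 := by
    by_contra h
    push Not at h
    nlinarith
  have hA3 : 1 ≤ A ^ 3 := one_le_pow₀ hA1
  have hδ1 : 16 * δ ≤ 1 := by nlinarith
  have hm1 : m ≤ 1 := by
    by_contra h
    push Not at h
    have h1 : (1 - m ^ 2) * p < 0 := by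
      apply mul_neg_of_neg_of_pos _ hp0
      nlinarith
    have h2 : 0 ≤ δ * (2 - δ) * (1 - t ^ 2) := by
      apply mul_nonneg
      · apply mul_nonneg hδ0.le
        linarith
      · nlinarith
    linarith
  have ht2 : 0 ≤ 1 - t ^ 2 := by nlinarith
  have htm : t * m < 1 := by nlinarith
  -- lower bound of 1 - m
  have hs1 : δ * (1 - δ / 2) * (1 - t ^ 2) ≤ (1 - m) * p := by
    have h1 : (1 - m ^ 2) * p ≤ 2 * (1 - m) * p := by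
      apply mul_le_mul_of_nonneg_right _ hp0.le
      nlinarith
    nlinarith
  have hs2 : (1 - m) * p ≤ 2 * δ := by
    have h1 : (1 - m) * p ≤ (1 - m ^ 2) * p := by
      apply mul_le_mul_of_nonneg_right _ hp0.le
      nlinarith
    have h2 : δ * (2 - δ) * (1 - t ^ 2) ≤ δ * (2 - δ) * 1 := by
      apply mul_le_mul_of_nonneg_left
      · nlinarith
      · apply mul_nonneg hδ0.le
        linarith
    nlinarith
  have hs3 : 1 - m ≤ 2 * δ * A ^ 2 := by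
    calc 1 - m = (1 - m) * 1 := (mul_one _).symm
      _ ≤ (1 - m) * (A ^ 2 * p) := mul_le_mul_of_nonneg_left hp (by linarith)
      _ = A ^ 2 * ((1 - m) * p) := by ring
      _ ≤ A ^ 2 * (2 * δ) := mul_le_mul_of_nonneg_left hs2 (by positivity)
      _ = 2 * δ * A ^ 2 := by ring
  have hs4 : 1 - m ≤ 2 * δ * A ^ 3 * (1 - t) := by
    calc 1 - m ≤ 2 * δ * A ^ 2 := hs3
      _ = 2 * δ * A ^ 2 * 1 := (mul_one _).symm
      _ ≤ 2 * δ * A ^ 2 * (A * (1 - t)) := mul_le_mul_of_nonneg_left ht (by positivity)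
      _ = 2 * δ * A ^ 3 * (1 - t) := by ring
  have h7 : 1 - t * m ≤ (1 - t) * (1 + 2 * A ^ 3 * δ) := by
    have : t * (1 - m) ≤ 1 * (1 - m) := mul_le_mul_of_nonneg_right ht1.le (by linarith)
    nlinarith
  have h8 : 0 ≤ 1 - 3 * A ^ 3 * δ := by nlinarith
  have h9 : (1 + t) * (1 - t * m) * (δ * (1 - 3 * A ^ 3 * δ)) ≤ (1 - m) * p := by
    have e1 : (1 + t) * (1 - t * m) ≤ (1 - t ^ 2) * (1 + 2 * A ^ 3 * δ) := by
      calc (1 + t) * (1 - t * m) ≤ (1 + t) * ((1 - t) * (1 + 2 * A ^ 3 * δ)) :=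
            mul_le_mul_of_nonneg_left h7 (by linarith)
        _ = _ := by ring
    have e2 : (1 + 2 * A ^ 3 * δ) * (1 - 3 * A ^ 3 * δ) ≤ 1 - δ / 2 := by
      have : 0 ≤ A ^ 3 * δ := by positivity
      nlinarith [mul_nonneg this this, mul_le_mul_of_nonneg_right hA3 hδ0.le]
    calc (1 + t) * (1 - t * m) * (δ * (1 - 3 * A ^ 3 * δ))
        ≤ (1 - t ^ 2) * (1 + 2 * A ^ 3 * δ) * (δ * (1 - 3 * A ^ 3 * δ)) :=
          mul_le_mul_of_nonneg_right e1 (mul_nonneg hδ0.le h8)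
      _ = (1 - t ^ 2) * δ * ((1 + 2 * A ^ 3 * δ) * (1 - 3 * A ^ 3 * δ)) := by ring
      _ ≤ (1 - t ^ 2) * δ * (1 - δ / 2) :=
          mul_le_mul_of_nonneg_left e2 (mul_nonneg ht2 hδ0.le)
      _ = δ * (1 - δ / 2) * (1 - t ^ 2) := by ring
      _ ≤ _ := hs1
  have h10 : (1 + t * m) * (1 - t)
      ≤ (1 + t) * (1 - t * m) * (1 - 2 * δ * (t / p) * (1 - 3 * A ^ 3 * δ)) := by
    have e3 : (1 + t) * (1 - t * m) * (2 * δ * (t / p) * (1 - 3 * A ^ 3 * δ))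
        ≤ 2 * t * (1 - m) := by
      have e4 : (1 + t) * (1 - t * m) * (2 * δ * (t / p) * (1 - 3 * A ^ 3 * δ))
          = 2 * t / p * ((1 + t) * (1 - t * m) * (δ * (1 - 3 * A ^ 3 * δ))) := by
        field_simp
      rw [e4]
      calc 2 * t / p * ((1 + t) * (1 - t * m) * (δ * (1 - 3 * A ^ 3 * δ)))
          ≤ 2 * t / p * ((1 - m) * p) := mul_le_mul_of_nonneg_left h9 (by positivity)
        _ = 2 * t * (1 - m) := by field_simp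
    nlinarith
  have h11 : 0 < 1 - t * m := by linarith
  have h12 : 0 < 1 - t := by linarith
  rw [div_le_iff₀ h11, div_mul_eq_mul_div, div_mul_eq_mul_div, le_div_iff₀ h12]
  calc (1 + t * m) * (1 - t) ≤ _ := h10
    _ = _ := by ring

lemma gain {A q : ℝ} {a x α : ℂ} (hA1 : 1 ≤ A) (hq1 : q < 1)
    (hδ : 16 * A ^ 3 * (1 - q) ≤ 1) (hxa : ‖x‖ = ‖a‖ ^ 2) (ht : 1 ≤ A * (1 - ‖a‖ ^ 2))
    (hP : 1 ≤ A * ‖1 - (q : ℂ) * x‖) (hα : α ^ 2 = (q - x) / (1 - q * x)) :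
    GG (a * α) ≤ GG a * Real.exp (-(2 * (1 - q) * (‖a‖ / ‖1 - (q : ℂ) * x‖) ^ 2
      * (1 - 3 * A ^ 3 * (1 - q)))) := by
  have hP0 := den_pos hP
  have hA0 : 0 < A := by linarith
  set t := ‖a‖ ^ 2 with htdef
  set p := ‖1 - (q : ℂ) * x‖ ^ 2 with hpdef
  have hp0 : 0 < p := by positivity
  have ht0 : 0 ≤ t := by positivity
  have ht1 : t < 1 := by
    by_contra h
    push Not at h
    nlinarith
  have hp : 1 ≤ A ^ 2 * p := by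
    have : (1 : ℝ) ≤ (A * ‖1 - (q : ℂ) * x‖) ^ 2 := one_le_pow₀ hP
    rw [mul_pow] at this
    exact this
  have hm1 : ‖α‖ ^ 2 = ‖(q : ℂ) - x‖ / ‖1 - (q : ℂ) * x‖ := by
    rw [← norm_pow, hα, norm_div]
  have hm2 : (‖α‖ ^ 2) ^ 2 * p = ‖(q : ℂ) - x‖ ^ 2 := by
    rw [hm1, hpdef]
    field_simp
  have hm : (1 - (‖α‖ ^ 2) ^ 2) * p = (1 - q) * (2 - (1 - q)) * (1 - t ^ 2) := by
    have h := pick_id q x
    rw [hxa] at h
    rw [sub_mul, one_mul, hm2]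
    linarith
  have key := gain_real (δ := 1 - q) hA1 (by linarith) hδ ht0 ht (sq_nonneg ‖α‖) hp0 hp hm
  have e1 : GG (a * α) = (1 + t * ‖α‖ ^ 2) / (1 - t * ‖α‖ ^ 2) := by
    unfold GG
    rw [norm_mul, mul_pow]
  have e2 : GG a = (1 + t) / (1 - t) := rfl
  have e3 : (‖a‖ / ‖1 - (q : ℂ) * x‖) ^ 2 = t / p := by
    rw [div_pow]
  rw [e1, e2, e3]
  refine key.trans ?_
  have hG : 0 ≤ (1 + t) / (1 - t) := div_nonneg (by linarith) (by linarith)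
  apply mul_le_mul_of_nonneg_left _ hG
  have := Real.add_one_le_exp (-(2 * (1 - q) * (t / p) * (1 - 3 * A ^ 3 * (1 - q))))
  linarith

lemma GG_nonneg {a : ℂ} (h : ‖a‖ ^ 2 ≤ 1) : 0 ≤ GG a :=
  div_nonneg (by positivity) (by linarith)

/-- scalar bound for the quotient of the kappa and gamma terms -/
lemma quot_real {A δ k g W : ℝ} (hA1 : 1 ≤ A) (hδ0 : 0 < δ) (hδ : 16 * A ^ 3 * δ ≤ 1)
    (hW : 0 ≤ W) (hk : k * (1 - 2 * A * δ) ≤ 2 * δ * W) (hk0 : 0 ≤ k)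
    (hg : 1 - 6 * A ^ 2 * δ ≤ g) :
    k ≤ g * (2 * δ * W * (1 + 16 * A ^ 2 * δ)) := by
  have hA2 : A ≤ A ^ 2 := by nlinarith
  have hA3 : A ^ 2 ≤ A ^ 3 := by nlinarith
  have h1 : 16 * A ^ 2 * δ ≤ 1 := by nlinarith
  set u := A ^ 2 * δ with hu
  have hu0 : 0 < u := by positivity
  have hu1 : 16 * u ≤ 1 := by rw [hu]; linarith
  have h2 : A * δ ≤ u := by rw [hu]; nlinarith
  have h3 : 1 - 2 * u ≤ 1 - 2 * A * δ := by nlinarith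
  have h4 : k * (1 - 2 * u) ≤ 2 * δ * W := by
    calc k * (1 - 2 * u) ≤ k * (1 - 2 * A * δ) := mul_le_mul_of_nonneg_left h3 hk0
      _ ≤ _ := hk
  have h5 : 1 ≤ (1 - 6 * u) * (1 + 16 * u) * (1 - 2 * u) := by nlinarith [mul_pos hu0 hu0]
  have h6 : (1 - 6 * u) ≤ g := by rw [hu]; linarith
  have h7 : 0 ≤ 2 * δ * W := by positivity
  have h8 : 0 ≤ 1 - 6 * u := by linarith
  calc k = k * 1 := (mul_one _).symm
    _ ≤ k * ((1 - 6 * u) * (1 + 16 * u) * (1 - 2 * u)) := mul_le_mul_of_nonneg_left h5 hk0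
    _ = (1 - 6 * u) * (1 + 16 * u) * (k * (1 - 2 * u)) := by ring
    _ ≤ (1 - 6 * u) * (1 + 16 * u) * (2 * δ * W) := by
        apply mul_le_mul_of_nonneg_left h4
        apply mul_nonneg h8
        linarith
    _ = (1 - 6 * u) * (2 * δ * W * (1 + 16 * u)) := by ring
    _ ≤ g * (2 * δ * W * (1 + 16 * u)) := by
        apply mul_le_mul_of_nonneg_right h6
        apply mul_nonneg h7
        linarith
    _ = g * (2 * δ * W * (1 + 16 * A ^ 2 * δ)) := by rw [hu]; ring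

lemma exp_small {u : ℝ} (h0 : 0 ≤ u) (h1 : u ≤ 1 / 2) : Real.exp u ≤ 1 + 2 * u := by
  have h2 := Real.exp_bound_div_one_sub_of_interval h0 (by linarith : u < 1)
  refine h2.trans ?_
  rw [div_le_iff₀ (by linarith)]
  nlinarith

lemma root_le {A ρ q : ℝ} {c z η : ℂ} (hρ1 : ρ ≤ 1) (hq0 : 0 ≤ q) (hq1 : q ≤ 1)
    (hz : ‖z‖ = ‖c‖ ^ 2) (hc : ‖c‖ ^ 2 ≤ ρ) (hden : 1 ≤ A * ‖1 - (q : ℂ) * z‖)
    (hη : η ^ 2 = (q - z) / (1 - q * z)) : ‖c * η‖ ^ 2 ≤ 1 := by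
  have hd0 := den_pos hden
  have hm1 : ‖η‖ ^ 2 = ‖(q : ℂ) - z‖ / ‖1 - (q : ℂ) * z‖ := by
    rw [← norm_pow, hη, norm_div]
  have hc1 : ‖c‖ ^ 2 ≤ 1 := hc.trans hρ1
  have hm2 : ‖(q : ℂ) - z‖ ≤ ‖1 - (q : ℂ) * z‖ := by
    have h := pick_id q z
    have h1 : 0 ≤ (1 - q ^ 2) * (1 - ‖z‖ ^ 2) := by
      apply mul_nonneg
      · have := pow_le_one₀ (n := 2) hq0 hq1
        linarith
      · rw [hz]
        have := pow_le_one₀ (n := 2) (sq_nonneg ‖c‖) hc1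
        linarith
    exact (abs_le_of_sq_le_sq' (by linarith) (norm_nonneg _)).2
  have hm3 : ‖η‖ ^ 2 ≤ 1 := by
    rw [hm1]
    exact (div_le_one hd0).mpr hm2
  rw [norm_mul, mul_pow]
  exact mul_le_one₀ hc1 (sq_nonneg _) hm3

lemma expo {A δ X Y : ℝ} (hA1 : 1 ≤ A) (hδ0 : 0 < δ) (hδ : 16 * A ^ 3 * δ ≤ 1)
    (hX0 : 0 ≤ X) (hXA : X ≤ A) (hY0 : 0 ≤ Y) (hYA : Y ≤ A) :
    Real.exp (2 * (2 * δ * (X * Y) * (1 + 16 * A ^ 2 * δ))
      + -(2 * δ * X ^ 2 * (1 - 3 * A ^ 3 * δ)) + -(2 * δ * Y ^ 2 * (1 - 3 * A ^ 3 * δ)))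
      ≤ 1 + 152 * A ^ 5 * δ ^ 2 := by
  have hA0 : 0 < A := by linarith
  have e1 : X * Y ≤ A * A := mul_le_mul hXA hYA hY0 hA0.le
  have e2 : X ^ 2 ≤ A ^ 2 := pow_le_pow_left₀ hX0 hXA 2
  have e3 : Y ^ 2 ≤ A ^ 2 := pow_le_pow_left₀ hY0 hYA 2
  have e4 : 2 * (2 * δ * (X * Y) * (1 + 16 * A ^ 2 * δ))
      + -(2 * δ * X ^ 2 * (1 - 3 * A ^ 3 * δ)) + -(2 * δ * Y ^ 2 * (1 - 3 * A ^ 3 * δ))
      = -(2 * δ * (X - Y) ^ 2)
      + δ ^ 2 * (64 * A ^ 2 * (X * Y) + 6 * A ^ 3 * (X ^ 2 + Y ^ 2)) := by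
    ring
  have e5 : 64 * A ^ 2 * (X * Y) + 6 * A ^ 3 * (X ^ 2 + Y ^ 2) ≤ 76 * A ^ 5 := by
    have f1 : 64 * A ^ 2 * (X * Y) ≤ 64 * A ^ 2 * (A * A) :=
      mul_le_mul_of_nonneg_left e1 (by positivity)
    have f2 : 6 * A ^ 3 * (X ^ 2 + Y ^ 2) ≤ 6 * A ^ 3 * (A ^ 2 + A ^ 2) :=
      mul_le_mul_of_nonneg_left (add_le_add e2 e3) (by positivity)
    have f3 : A ^ 4 ≤ A ^ 5 := pow_le_pow_right₀ hA1 (by norm_num)
    have f4 : 64 * A ^ 2 * (A * A) = 64 * A ^ 4 := by ring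
    have f5 : 6 * A ^ 3 * (A ^ 2 + A ^ 2) = 12 * A ^ 5 := by ring
    linarith
  have e6 : 0 ≤ 2 * δ * (X - Y) ^ 2 := by positivity
  have e7 : δ ^ 2 * (64 * A ^ 2 * (X * Y) + 6 * A ^ 3 * (X ^ 2 + Y ^ 2))
      ≤ δ ^ 2 * (76 * A ^ 5) := mul_le_mul_of_nonneg_left e5 (sq_nonneg _)
  have h6 : 76 * A ^ 5 * δ ^ 2 ≤ 1 / 2 := by
    have g1 : (16 * A ^ 3 * δ) ^ 2 ≤ 1 := by
      have : 0 ≤ 16 * A ^ 3 * δ := by positivity
      exact pow_le_one₀ this hδ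
    have g2 : 256 * (A ^ 5 * δ ^ 2) ≤ (16 * A ^ 3 * δ) ^ 2 := by
      have : A ^ 5 ≤ A ^ 6 := pow_le_pow_right₀ hA1 (by norm_num)
      have g3 : A ^ 5 * δ ^ 2 ≤ A ^ 6 * δ ^ 2 := mul_le_mul_of_nonneg_right this (sq_nonneg _)
      calc 256 * (A ^ 5 * δ ^ 2) ≤ 256 * (A ^ 6 * δ ^ 2) := by linarith
        _ = (16 * A ^ 3 * δ) ^ 2 := by ring
    linarith
  rw [e4]
  calc Real.exp (-(2 * δ * (X - Y) ^ 2)
      + δ ^ 2 * (64 * A ^ 2 * (X * Y) + 6 * A ^ 3 * (X ^ 2 + Y ^ 2)))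
      ≤ Real.exp (76 * A ^ 5 * δ ^ 2) := Real.exp_le_exp.mpr (by linarith)
    _ ≤ 1 + 2 * (76 * A ^ 5 * δ ^ 2) := exp_small (by positivity) h6
    _ = _ := by ring

end Step

open Step Complex in
theorem step : StStep := by
  intro ρ hρ0 hρ1
  set A : ℝ := 1 / (1 - ρ) with hAdef
  have h1ρ : 0 < 1 - ρ := by linarith
  have hA : A * (1 - ρ) = 1 := by rw [hAdef]; field_simp
  have hA0 : 0 < A := by positivity
  have hA1 : 1 ≤ A := by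
    rw [hAdef, le_div_iff₀ h1ρ]
    linarith
  have hA3 : 1 ≤ A ^ 3 := one_le_pow₀ hA1
  refine ⟨152 * A ^ 5, 1 / (16 * A ^ 3), by positivity, by positivity, ?_, ?_⟩
  · rw [div_lt_one (by positivity)]
    linarith
  intro q χ a b α β hq hq1 hχ ha hb hα hαre hβ hβre
  set δ : ℝ := 1 - q with hδdef
  have hδ0 : 0 < δ := by rw [hδdef]; linarith
  have hδ : 16 * A ^ 3 * δ ≤ 1 := by
    have h : δ ≤ 1 / (16 * A ^ 3) := by rw [hδdef]; linarith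
    rw [le_div_iff₀ (by positivity)] at h
    linarith
  have hδ16 : 16 * δ ≤ 1 := by
    have h2 : 1 * δ ≤ A ^ 3 * δ := mul_le_mul_of_nonneg_right hA3 hδ0.le
    linarith
  have hq0 : 0 ≤ q := by linarith
  set x : ℂ := χ * a ^ 2 with hx
  set y : ℂ := χ * b ^ 2 with hy
  have hxn : ‖x‖ = ‖a‖ ^ 2 := by rw [hx, norm_mul, hχ, one_mul, norm_pow]
  have hyn : ‖y‖ = ‖b‖ ^ 2 := by rw [hy, norm_mul, hχ, one_mul, norm_pow]
  have hα' : α ^ 2 = (q - x) / (1 - q * x) := by rw [hα, hx]; ring_nf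
  have hβ' : β ^ 2 = (q - y) / (1 - q * y) := by rw [hβ, hy]; ring_nf
  set P : ℂ := 1 - (q : ℂ) * x with hPdef
  set R : ℂ := 1 - (q : ℂ) * y with hRdef
  have hP : 1 ≤ A * ‖P‖ := den_lower hA0 hA (by rw [hxn]; exact ha) hq0 hq1.le
  have hR : 1 ≤ A * ‖R‖ := den_lower hA0 hA (by rw [hyn]; exact hb) hq0 hq1.le
  have hP0 := den_pos hP
  have hR0 := den_pos hR
  have hPne : P ≠ 0 := norm_pos_iff.mp hP0
  have hRne : R ≠ 0 := norm_pos_iff.mp hR0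
  have ha1 : ‖a‖ ≤ 1 := by
    have h : ‖a‖ ^ 2 ≤ 1 ^ 2 := by linarith
    exact (pow_le_pow_iff_left₀ (norm_nonneg _) zero_le_one two_ne_zero).mp h
  have hb1 : ‖b‖ ≤ 1 := by
    have h : ‖b‖ ^ 2 ≤ 1 ^ 2 := by linarith
    exact (pow_le_pow_iff_left₀ (norm_nonneg _) zero_le_one two_ne_zero).mp h
  have hα1 : ‖α - 1‖ ≤ 2 * A * δ := root_near hP (by rw [hxn]; linarith) hq1.le hα' hαre
  have hβ1 : ‖β - 1‖ ≤ 2 * A * δ := root_near hR (by rw [hyn]; linarith) hq1.le hβ' hβre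
  have hAδ : 16 * (A * δ) ≤ 1 := by
    have h1 : A ≤ A ^ 3 := le_self_pow₀ hA1 (by norm_num)
    have h2 : A * δ ≤ A ^ 3 * δ := mul_le_mul_of_nonneg_right h1 hδ0.le
    linarith
  -- the sum of the roots
  have hS : 2 * (1 - 2 * A * δ) ≤ ‖α + β‖ := by
    have h : (2 : ℂ) = (α + β) - ((α - 1) + (β - 1)) := by ring
    have h1 : ‖(2 : ℂ)‖ ≤ ‖α + β‖ + ‖(α - 1) + (β - 1)‖ := by
      calc ‖(2 : ℂ)‖ = ‖(α + β) - ((α - 1) + (β - 1))‖ := by rw [← h]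
        _ ≤ _ := norm_sub_le _ _
    have h2 : ‖(α - 1) + (β - 1)‖ ≤ 2 * A * δ + 2 * A * δ :=
      (norm_add_le _ _).trans (add_le_add hα1 hβ1)
    rw [Complex.norm_ofNat] at h1
    linarith
  have hS1 : 1 ≤ ‖α + β‖ := by linarith
  have hS0 : 0 < ‖α + β‖ := by linarith
  have hSne : α + β ≠ 0 := norm_pos_iff.mp hS0
  -- the algebra
  set T : ℂ := ((δ : ℝ) : ℂ) * χ * (1 + (q : ℂ)) / ((α + β) * P * R) with hT
  have hsub : α - β = -(T * ((a - b) * (a + b))) := by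
    have h1 : (α - β) * (α + β) = -(((δ : ℝ) : ℂ) * (1 + (q : ℂ)) * (x - y)) / (P * R) := by
      have h : (α - β) * (α + β) = α ^ 2 - β ^ 2 := by ring
      rw [h, hα', hβ']
      rw [div_sub_div _ _ hPne hRne]
      congr 1
      rw [hPdef, hRdef, hδdef]
      push_cast
      ring
    have h2 : α - β = (-(((δ : ℝ) : ℂ) * (1 + (q : ℂ)) * (x - y)) / (P * R)) / (α + β) := by
      rw [← h1]
      field_simp
    rw [h2, hT, hx, hy]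
    field_simp
    ring
  set κ : ℂ := 2 * a * b * T with hκ
  set γ : ℂ := α + b * (a - b) * T with hγ
  have id1 : a * α + b * β = (a + b) * γ := by
    have : β = α - (α - β) := by ring
    rw [this, hsub, hγ]
    ring
  have id2 : a * α - b * β = (a - b) * (γ - κ) := by
    have : β = α - (α - β) := by ring
    rw [this, hsub, hγ, hκ]
    ring
  -- sizes
  set X : ℝ := ‖a‖ / ‖P‖ with hX
  set Y : ℝ := ‖b‖ / ‖R‖ with hY
  have hX0 : 0 ≤ X := by positivity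
  have hY0 : 0 ≤ Y := by positivity
  have hXA : X ≤ A := by
    rw [hX, div_le_iff₀ hP0]
    linarith
  have hYA : Y ≤ A := by
    rw [hY, div_le_iff₀ hR0]
    linarith
  have hTn : ‖T‖ * (‖α + β‖ * ‖P‖ * ‖R‖) = δ * (1 + q) := by
    rw [hT, norm_div, norm_mul, norm_mul, norm_mul, norm_mul, hχ, Complex.norm_real,
      Real.norm_of_nonneg hδ0.le]
    have h1 : ‖(1 : ℂ) + (q : ℂ)‖ = 1 + q := by
      have : (1 : ℂ) + (q : ℂ) = ((1 + q : ℝ) : ℂ) := by push_cast; ring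
      rw [this, Complex.norm_real, Real.norm_of_nonneg (by linarith)]
    rw [h1]
    field_simp
  have hT1 : ‖T‖ ≤ 2 * A ^ 2 * δ := by
    have h1 : 1 ≤ A ^ 2 * (‖α + β‖ * ‖P‖ * ‖R‖) := by
      calc (1 : ℝ) = 1 * (1 * 1) := by norm_num
        _ ≤ ‖α + β‖ * ((A * ‖P‖) * (A * ‖R‖)) := by
            apply mul_le_mul hS1 _ (by norm_num) hS0.le
            exact mul_le_mul hP hR (by norm_num) (by positivity)
        _ = _ := by ring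
    calc ‖T‖ = ‖T‖ * 1 := (mul_one _).symm
      _ ≤ ‖T‖ * (A ^ 2 * (‖α + β‖ * ‖P‖ * ‖R‖)) :=
          mul_le_mul_of_nonneg_left h1 (norm_nonneg _)
      _ = A ^ 2 * (‖T‖ * (‖α + β‖ * ‖P‖ * ‖R‖)) := by ring
      _ = A ^ 2 * (δ * (1 + q)) := by rw [hTn]
      _ ≤ A ^ 2 * (δ * 2) := by
          apply mul_le_mul_of_nonneg_left _ (by positivity)
          apply mul_le_mul_of_nonneg_left _ hδ0.le
          linarith
      _ = 2 * A ^ 2 * δ := by ring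
  have hγ1 : 1 - 6 * A ^ 2 * δ ≤ ‖γ‖ := by
    have h : (1 : ℂ) = γ - ((α - 1) + b * (a - b) * T) := by rw [hγ]; ring
    have h1 : ‖(1 : ℂ)‖ ≤ ‖γ‖ + ‖(α - 1) + b * (a - b) * T‖ := by
      calc ‖(1 : ℂ)‖ = ‖γ - ((α - 1) + b * (a - b) * T)‖ := by rw [← h]
        _ ≤ _ := norm_sub_le _ _
    have h2 : ‖b * (a - b) * T‖ ≤ 1 * 2 * (2 * A ^ 2 * δ) := by
      rw [norm_mul, norm_mul]
      apply mul_le_mul _ hT1 (norm_nonneg _) (by norm_num)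
      apply mul_le_mul hb1 _ (norm_nonneg _) (by norm_num)
      calc ‖a - b‖ ≤ ‖a‖ + ‖b‖ := norm_sub_le _ _
        _ ≤ 2 := by linarith
    have h3 : ‖(α - 1) + b * (a - b) * T‖ ≤ 2 * A * δ + 1 * 2 * (2 * A ^ 2 * δ) :=
      (norm_add_le _ _).trans (add_le_add hα1 h2)
    rw [norm_one] at h1
    have h4 : A * δ ≤ A ^ 2 * δ :=
      mul_le_mul_of_nonneg_right (le_self_pow₀ hA1 (by norm_num)) hδ0.le
    linarith
  have hκ1 : ‖κ‖ * (1 - 2 * A * δ) ≤ 2 * δ * (X * Y) := by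
    have h1 : ‖κ‖ * ‖α + β‖ = 2 * (X * Y) * (δ * (1 + q)) := by
      rw [hκ, ← hTn, norm_mul, norm_mul, norm_mul, Complex.norm_ofNat, hX, hY]
      field_simp
    have h2 : ‖κ‖ * (2 * (1 - 2 * A * δ)) ≤ ‖κ‖ * ‖α + β‖ :=
      mul_le_mul_of_nonneg_left hS (norm_nonneg _)
    have h3 : 2 * (X * Y) * (δ * (1 + q)) ≤ 2 * (X * Y) * (δ * 2) := by
      apply mul_le_mul_of_nonneg_left _ (by positivity)
      apply mul_le_mul_of_nonneg_left _ hδ0.le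
      linarith
    rw [h1] at h2
    have h4 := h2.trans h3
    linarith
  have hquot : ‖κ‖ ≤ ‖γ‖ * (2 * δ * (X * Y) * (1 + 16 * A ^ 2 * δ)) :=
    quot_real hA1 hδ0 hδ (mul_nonneg hX0 hY0) hκ1 (norm_nonneg _) hγ1
  have hfac : ‖γ - κ‖ ≤ ‖γ‖ * Real.exp (2 * δ * (X * Y) * (1 + 16 * A ^ 2 * δ)) := by
    calc ‖γ - κ‖ ≤ ‖γ‖ + ‖κ‖ := norm_sub_le _ _
      _ ≤ ‖γ‖ + ‖γ‖ * (2 * δ * (X * Y) * (1 + 16 * A ^ 2 * δ)) := by linarith
      _ = ‖γ‖ * (2 * δ * (X * Y) * (1 + 16 * A ^ 2 * δ) + 1) := by ring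
      _ ≤ _ := mul_le_mul_of_nonneg_left (Real.add_one_le_exp _) (norm_nonneg _)
  have hga := gain (a := a) (α := α) (x := x) hA1 hq1 hδ hxn (by
      calc (1 : ℝ) = A * (1 - ρ) := hA.symm
        _ ≤ A * (1 - ‖a‖ ^ 2) := mul_le_mul_of_nonneg_left (by linarith) hA0.le) hP hα'
  have hgb := gain (a := b) (α := β) (x := y) hA1 hq1 hδ hyn (by
      calc (1 : ℝ) = A * (1 - ρ) := hA.symm
        _ ≤ A * (1 - ‖b‖ ^ 2) := mul_le_mul_of_nonneg_left (by linarith) hA0.le) hR hβ'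
  rw [← hδdef, ← hPdef, ← hX] at hga
  rw [← hδdef, ← hRdef, ← hY] at hgb
  have hGa : 0 ≤ GG a := GG_nonneg (by linarith)
  have hGb : 0 ≤ GG b := GG_nonneg (by linarith)
  have hGaα : 0 ≤ GG (a * α) := GG_nonneg (root_le hρ1.le hq0 hq1.le hxn ha hP hα')
  have hGbβ : 0 ≤ GG (b * β) := GG_nonneg (root_le hρ1.le hq0 hq1.le hyn hb hR hβ')
  set Ea : ℝ := -(2 * δ * X ^ 2 * (1 - 3 * A ^ 3 * δ)) with hEa
  set Eb : ℝ := -(2 * δ * Y ^ 2 * (1 - 3 * A ^ 3 * δ)) with hEb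
  set Ek : ℝ := 2 * δ * (X * Y) * (1 + 16 * A ^ 2 * δ) with hEk
  have hmain : ‖γ - κ‖ ^ 2 * (GG (a * α) * GG (b * β))
      ≤ (1 + 152 * A ^ 5 * δ ^ 2) * (‖γ‖ ^ 2 * (GG a * GG b)) := by
    have h1 : ‖γ - κ‖ ^ 2 ≤ (‖γ‖ * Real.exp Ek) ^ 2 :=
      pow_le_pow_left₀ (norm_nonneg _) hfac 2
    have h2 : GG (a * α) * GG (b * β) ≤ (GG a * Real.exp Ea) * (GG b * Real.exp Eb) :=
      mul_le_mul hga hgb hGbβ (mul_nonneg hGa (Real.exp_pos _).le)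
    have h3 : ‖γ - κ‖ ^ 2 * (GG (a * α) * GG (b * β))
        ≤ (‖γ‖ * Real.exp Ek) ^ 2 * ((GG a * Real.exp Ea) * (GG b * Real.exp Eb)) :=
      mul_le_mul h1 h2 (mul_nonneg hGaα hGbβ) (sq_nonneg _)
    have h4 : (‖γ‖ * Real.exp Ek) ^ 2 * ((GG a * Real.exp Ea) * (GG b * Real.exp Eb))
        = Real.exp (2 * Ek + Ea + Eb) * (‖γ‖ ^ 2 * (GG a * GG b)) := by
      rw [Real.exp_add, Real.exp_add, two_mul, Real.exp_add]
      ring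
    have h7 : Real.exp (2 * Ek + Ea + Eb) ≤ 1 + 152 * A ^ 5 * δ ^ 2 :=
      expo hA1 hδ0 hδ hX0 hXA hY0 hYA
    calc ‖γ - κ‖ ^ 2 * (GG (a * α) * GG (b * β)) ≤ _ := h3
      _ = Real.exp (2 * Ek + Ea + Eb) * (‖γ‖ ^ 2 * (GG a * GG b)) := h4
      _ ≤ _ := mul_le_mul_of_nonneg_right h7 (by positivity)
  rw [id1, id2]
  have f1 : ‖(a - b) * (γ - κ) * (a + b)‖ ^ 2 * (GG (a * α) * GG (b * β))
      = (‖a - b‖ ^ 2 * ‖a + b‖ ^ 2) * (‖γ - κ‖ ^ 2 * (GG (a * α) * GG (b * β))) := by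
    rw [norm_mul, norm_mul]
    ring
  have f2 : (1 + 152 * A ^ 5 * δ ^ 2) * (‖(a + b) * γ * (a - b)‖ ^ 2 * (GG a * GG b))
      = (‖a - b‖ ^ 2 * ‖a + b‖ ^ 2)
        * ((1 + 152 * A ^ 5 * δ ^ 2) * (‖γ‖ ^ 2 * (GG a * GG b))) := by
    rw [norm_mul, norm_mul]
    ring
  rw [f1, f2]
  exact mul_le_mul_of_nonneg_left hmain (by positivity)

end Pool.Agent.Helper39.QM
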