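import Pool.Agent.Helper39.QM.St

/-! Module STEPA of project QM. -/

set_option autoImplicit false

open Metric Set Filter Topology
open scoped ComplexConjugate

namespace Pool.Agent.Helper39.QM

open Pool.Agent.Helper64.C3

namespace StepA

theorem hasSum_coeff {F : ℂ → ℂ} (hF : DifferentiableOn ℂ F (ball 0 1)) {z : ℂ} (hz : ‖z‖ < 1) :
    HasSum (fun j => coeff j F * z ^ j) (F z) := by
  have h := Complex.hasSum_taylorSeries_on_ball (f := F) (c := 0) (r := 1) hF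
    (z := z) (by simpa using hz)
  refine h.congr_fun ?_ |> fun h' => h'
  intro j
  simp only [sub_zero, smul_eq_mul, coeff]
  ring

theorem coeff_deriv (F : ℂ → ℂ) (j : ℕ) :
    coeff j (deriv F) = ((j : ℂ) + 1) * coeff (j + 1) F := by
  unfold coeff
  rw [← iteratedDeriv_succ', Nat.factorial_succ]
  have h1 : ((j.factorial : ℕ) : ℂ) ≠ 0 := by exact_mod_cast j.factorial_ne_zero
  have h2 : ((j : ℂ) + 1) ≠ 0 := by exact_mod_cast Nat.succ_ne_zero j
  push_cast
  field_simp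

theorem split (f : ℕ → ℂ) (N : ℕ) (hN : 1 ≤ N) :
    ∑ j ∈ Finset.range (N + 1), f j = f 0 + f 1 + ∑ j ∈ Finset.Icc 2 N, f j := by
  induction N, hN using Nat.le_induction with
  | base => simp [Finset.sum_range_succ]
  | succ N hN ih =>
    rw [Finset.sum_range_succ, ih, Finset.sum_Icc_succ_top (by omega)]
    ring

theorem cs (c w : ℕ → ℂ) (D W : ℝ) (N : ℕ)
    (harea : ∑ j ∈ Finset.Icc 2 N, (2 * (j : ℝ) - 1) * ‖c j‖ ^ 2 ≤ D)
    (hW : ∑ j ∈ Finset.Icc 2 N, ‖w j‖ ^ 2 / (2 * (j : ℝ) - 1) ≤ W) (hD : 0 ≤ D) :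
    ‖∑ j ∈ Finset.Icc 2 N, c j * w j‖ ≤ Real.sqrt (D * W) := by
  have hpos : ∀ j ∈ Finset.Icc 2 N, (0 : ℝ) < 2 * (j : ℝ) - 1 := by
    intro j hj
    have : (2 : ℝ) ≤ j := by exact_mod_cast (Finset.mem_Icc.1 hj).1
    linarith
  have h1 : ‖∑ j ∈ Finset.Icc 2 N, c j * w j‖ ≤ ∑ j ∈ Finset.Icc 2 N, ‖c j‖ * ‖w j‖ := by
    refine (norm_sum_le _ _).trans (le_of_eq ?_)
    simp
  have h2 : (∑ j ∈ Finset.Icc 2 N, ‖c j‖ * ‖w j‖) ^ 2 ≤
      (∑ j ∈ Finset.Icc 2 N, (2 * (j : ℝ) - 1) * ‖c j‖ ^ 2) *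
        ∑ j ∈ Finset.Icc 2 N, ‖w j‖ ^ 2 / (2 * (j : ℝ) - 1) := by
    refine Finset.sum_sq_le_sum_mul_sum_of_sq_le_mul _ ?_ ?_ ?_
    · intro j hj
      have := hpos j hj
      positivity
    · intro j hj
      have := hpos j hj
      positivity
    · intro j hj
      have := hpos j hj
      refine le_of_eq ?_
      field_simp
  have h3 : 0 ≤ ∑ j ∈ Finset.Icc 2 N, ‖w j‖ ^ 2 / (2 * (j : ℝ) - 1) :=
    Finset.sum_nonneg fun j hj => div_nonneg (by positivity) (hpos j hj).le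
  refine h1.trans (Real.le_sqrt_of_sq_le (h2.trans ?_))
  exact mul_le_mul harea hW h3 hD

theorem arith_geom (x : ℝ) (N : ℕ) :
    (1 - x) ^ 2 * ∑ j ∈ Finset.range N, ((j : ℝ) + 1) * x ^ j =
      1 - (N + 1) * x ^ N + N * x ^ (N + 1) := by
  induction N with
  | zero => simp
  | succ N ih =>
    rw [Finset.sum_range_succ, mul_add, ih]
    push_cast
    ring

theorem geom_bd {x : ℝ} (h0 : 0 ≤ x) (h1 : x < 1) (N : ℕ) :
    ∑ j ∈ Finset.Icc 2 N, x ^ j ≤ 1 / (1 - x) := by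
  have h2 : ∑ j ∈ Finset.Icc 2 N, x ^ j ≤ ∑' j : ℕ, x ^ j :=
    (summable_geometric_of_lt_one h0 h1).sum_le_tsum _ (fun j _ => by positivity)
  rwa [tsum_geometric_of_lt_one h0 h1, ← one_div] at h2

theorem arith_bd {x : ℝ} (h0 : 0 ≤ x) (h1 : x < 1) (N : ℕ) :
    ∑ j ∈ Finset.Icc 2 N, (j : ℝ) * x ^ (j - 1) ≤ 1 / (1 - x) ^ 2 := by
  have hx : 0 < 1 - x := by linarith
  have h2 : ∑ j ∈ Finset.Icc 2 N, (j : ℝ) * x ^ (j - 1) ≤
      ∑ j ∈ Finset.range N, ((j : ℝ) + 1) * x ^ j := by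
    have e : ∑ j ∈ Finset.range N, ((j : ℝ) + 1) * x ^ j =
        ∑ j ∈ Finset.Icc 1 N, (j : ℝ) * x ^ (j - 1) := by
      rw [Finset.sum_bij (fun j _ => j + 1)]
      · intro j hj
        simp only [Finset.mem_range] at hj
        simp only [Finset.mem_Icc]
        omega
      · intro a _ b _ h
        simpa using h
      · intro b hb
        simp only [Finset.mem_Icc] at hb
        exact ⟨b - 1, by simp only [Finset.mem_range]; omega, by omega⟩
      · intro j _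
        simp
    rw [e]
    refine Finset.sum_le_sum_of_subset_of_nonneg ?_ ?_
    · intro j hj
      simp only [Finset.mem_Icc] at hj ⊢
      omega
    · intro j _ _
      positivity
  refine h2.trans ?_
  rw [le_div_iff₀ (by positivity), mul_comm, arith_geom]
  have h3 : x ^ (N + 1) ≤ x ^ N := pow_le_pow_of_le_one h0 h1.le (Nat.le_succ N)
  have h4 : 0 ≤ x ^ N := by positivity
  have h5 : (0 : ℝ) ≤ N := by positivity
  nlinarith [mul_le_mul_of_nonneg_left h3 h5]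

variable {n : ℕ} {D : ℝ} {s : ℂ → ℂ}

theorem one_sub_rn : 1 - rn n = 1 / (n : ℝ) := by
  unfold rn
  ring

/-- The tail of the series of `s`. -/
theorem tail (hs : DifferentiableOn ℂ s (ball 0 1)) (h0 : s 0 = 1) (hD : 0 ≤ D)
    (harea : ∀ N : ℕ, ∑ j ∈ Finset.Icc 2 N, (2 * (j : ℝ) - 1) * ‖coeff j s‖ ^ 2 ≤ D)
    (hn : 2 ≤ n) {z : ℂ} (hz : ‖z‖ ≤ rn n) :
    ‖s z - 1 - coeff 1 s * z‖ ≤ Real.sqrt (D * (n / 3)) := by
  have hn0 : (2 : ℝ) ≤ n := by exact_mod_cast hn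
  have hr : rn n < 1 := by
    have : 0 < 1 / (n : ℝ) := by positivity
    have := one_sub_rn (n := n)
    linarith
  have hz1 : ‖z‖ < 1 := lt_of_le_of_lt hz hr
  have hr0 : 0 ≤ rn n := (norm_nonneg z).trans hz
  have hsum := (hasSum_coeff hs hz1).tendsto_sum_nat
  have hsum1 := (tendsto_add_atTop_iff_nat 1).2 hsum
  have hlim : Tendsto (fun N : ℕ => ∑ j ∈ Finset.Icc 2 N, coeff j s * z ^ j) atTop
      (𝓝 (s z - 1 - coeff 1 s * z)) := by
    have h2 : Tendsto (fun N : ℕ => (∑ j ∈ Finset.range (N + 1), coeff j s * z ^ j) - 1 -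
        coeff 1 s * z) atTop (𝓝 (s z - 1 - coeff 1 s * z)) := (hsum1.sub_const _).sub_const _
    refine h2.congr' ?_
    filter_upwards [eventually_ge_atTop 1] with N hN
    rw [split _ N hN]
    have : coeff 0 s = 1 := by simp [coeff, h0]
    rw [this]
    ring
  refine le_of_tendsto' hlim.norm fun N => ?_
  refine cs _ _ D (n / 3) N (harea N) ?_ hD
  calc ∑ j ∈ Finset.Icc 2 N, ‖z ^ j‖ ^ 2 / (2 * (j : ℝ) - 1)
      ≤ ∑ j ∈ Finset.Icc 2 N, (1 / 3) * rn n ^ j := by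
        refine Finset.sum_le_sum fun j hj => ?_
        have hj2 : (2 : ℝ) ≤ j := by exact_mod_cast (Finset.mem_Icc.1 hj).1
        have e1 : ‖z ^ j‖ ^ 2 ≤ rn n ^ j := by
          rw [norm_pow, ← pow_mul]
          calc ‖z‖ ^ (j * 2) ≤ rn n ^ (j * 2) := pow_le_pow_left₀ (norm_nonneg z) hz _
            _ ≤ rn n ^ j := pow_le_pow_of_le_one hr0 hr.le (by omega)
        rw [div_le_iff₀ (by linarith)]
        have e2 : 0 ≤ rn n ^ j := by positivity
        nlinarith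
    _ = (1 / 3) * ∑ j ∈ Finset.Icc 2 N, rn n ^ j := by rw [Finset.mul_sum]
    _ ≤ (1 / 3) * (1 / (1 - rn n)) := by
        have := geom_bd hr0 hr N
        linarith
    _ = n / 3 := by
        rw [one_sub_rn]
        field_simp

theorem diff_deriv (hs : DifferentiableOn ℂ s (ball 0 1)) :
    DifferentiableOn ℂ (deriv s) (ball 0 1) := hs.deriv isOpen_ball

theorem dsplit (f : ℕ → ℂ) (N : ℕ) (hN : 1 ≤ N) :
    ∑ j ∈ Finset.range N, f (j + 1) = f 1 + ∑ j ∈ Finset.Icc 2 N, f j := by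
  induction N, hN using Nat.le_induction with
  | base => simp
  | succ N hN ih =>
    rw [Finset.sum_range_succ, ih, Finset.sum_Icc_succ_top (by omega)]
    ring

/-- The tail of the series of the derivative. -/
theorem dtail (hs : DifferentiableOn ℂ s (ball 0 1)) (hD : 0 ≤ D)
    (harea : ∀ N : ℕ, ∑ j ∈ Finset.Icc 2 N, (2 * (j : ℝ) - 1) * ‖coeff j s‖ ^ 2 ≤ D)
    (hn : 2 ≤ n) {z : ℂ} (hz : ‖z‖ ≤ rn n) :
    ‖deriv s z - coeff 1 s‖ ≤ n * Real.sqrt D := by
  have hn0 : (2 : ℝ) ≤ n := by exact_mod_cast hn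
  have hr : rn n < 1 := by
    have : 0 < 1 / (n : ℝ) := by positivity
    have := one_sub_rn (n := n)
    linarith
  have hz1 : ‖z‖ < 1 := lt_of_le_of_lt hz hr
  have hr0 : 0 ≤ rn n := (norm_nonneg z).trans hz
  have hsum := (hasSum_coeff (diff_deriv hs) hz1).tendsto_sum_nat
  have hlim : Tendsto (fun N : ℕ => ∑ j ∈ Finset.Icc 2 N, coeff j s * (j * z ^ (j - 1))) atTop
      (𝓝 (deriv s z - coeff 1 s)) := by
    have h2 := hsum.sub_const (coeff 1 s)
    refine h2.congr' ?_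
    filter_upwards [eventually_ge_atTop 1] with N hN
    have h3 := dsplit (fun j => coeff j s * (j * z ^ (j - 1))) N hN
    simp only [Nat.add_sub_cancel, Nat.cast_one, Nat.sub_self, pow_zero, mul_one] at h3
    rw [← sub_eq_iff_eq_add'.2 h3]
    congr 1
    refine Finset.sum_congr rfl fun j _ => ?_
    rw [coeff_deriv]
    push_cast
    ring
  refine le_of_tendsto' hlim.norm fun N => ?_
  have key := cs (fun j => coeff j s) (fun j => (j : ℂ) * z ^ (j - 1)) D ((n : ℝ) ^ 2) N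
    (harea N) ?_ hD
  · refine key.trans (le_of_eq ?_)
    rw [mul_comm D, Real.sqrt_mul (by positivity), Real.sqrt_sq (by positivity)]
  calc ∑ j ∈ Finset.Icc 2 N, ‖(j : ℂ) * z ^ (j - 1)‖ ^ 2 / (2 * (j : ℝ) - 1)
      ≤ ∑ j ∈ Finset.Icc 2 N, (j : ℝ) * (rn n) ^ (j - 1) := by
        refine Finset.sum_le_sum fun j hj => ?_
        have hj1 := (Finset.mem_Icc.1 hj).1
        have hj2 : (2 : ℝ) ≤ j := by exact_mod_cast hj1
        have e1 : ‖z ^ (j - 1)‖ ^ 2 ≤ rn n ^ (j - 1) := by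
          rw [norm_pow, ← pow_mul]
          calc ‖z‖ ^ ((j - 1) * 2) ≤ rn n ^ ((j - 1) * 2) :=
                pow_le_pow_left₀ (norm_nonneg z) hz _
            _ ≤ rn n ^ (j - 1) := pow_le_pow_of_le_one hr0 hr.le (by omega)
        rw [div_le_iff₀ (by linarith), norm_mul, mul_pow, Complex.norm_natCast]
        have e2 : 0 ≤ rn n ^ (j - 1) := by positivity
        calc (j : ℝ) ^ 2 * ‖z ^ (j - 1)‖ ^ 2 ≤ (j : ℝ) ^ 2 * rn n ^ (j - 1) :=
              mul_le_mul_of_nonneg_left e1 (by positivity)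
          _ ≤ (j * (2 * (j : ℝ) - 1)) * rn n ^ (j - 1) := by
              refine mul_le_mul_of_nonneg_right ?_ e2
              nlinarith
          _ = (j : ℝ) * rn n ^ (j - 1) * (2 * (j : ℝ) - 1) := by ring
    _ ≤ 1 / (1 - rn n) ^ 2 := arith_bd hr0 hr N
    _ = (n : ℝ) ^ 2 := by
        rw [one_sub_rn]
        field_simp

/-- Increment of the tail between two points of the disc of radius `r`. -/
theorem incr (hs : DifferentiableOn ℂ s (ball 0 1)) (hD : 0 ≤ D)
    (harea : ∀ N : ℕ, ∑ j ∈ Finset.Icc 2 N, (2 * (j : ℝ) - 1) * ‖coeff j s‖ ^ 2 ≤ D)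
    (hn : 2 ≤ n) {z w : ℂ} (hz : ‖z‖ ≤ rn n) (hw : ‖w‖ ≤ rn n) :
    ‖(s w - coeff 1 s * w) - (s z - coeff 1 s * z)‖ ≤ n * Real.sqrt D * ‖w - z‖ := by
  have hn0 : (2 : ℝ) ≤ n := by exact_mod_cast hn
  have hr : rn n < 1 := by
    have : 0 < 1 / (n : ℝ) := by positivity
    have := one_sub_rn (n := n)
    linarith
  have hda : ∀ x ∈ closedBall (0 : ℂ) (rn n), HasDerivAt (fun x => s x - coeff 1 s * x)
      (deriv s x - coeff 1 s) x := by
    intro x hx
    have hx1 : ‖x‖ < 1 := lt_of_le_of_lt (by simpa using hx) hr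
    have h1 : HasDerivAt s (deriv s x) x :=
      ((hs x (by simpa using hx1)).differentiableAt
        (isOpen_ball.mem_nhds (by simpa using hx1))).hasDerivAt
    have h2 : HasDerivAt (fun x : ℂ => coeff 1 s * x) (coeff 1 s) x := by
      simpa using (hasDerivAt_id x).const_mul (coeff 1 s)
    exact h1.sub h2
  refine Convex.norm_image_sub_le_of_norm_hasDerivWithin_le (f := fun x => s x - coeff 1 s * x)
    (f' := fun x => deriv s x - coeff 1 s) (s := closedBall (0 : ℂ) (rn n)) ?_ ?_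
    (convex_closedBall _ _) (by simpa using hz) (by simpa using hw)
  · intro x hx
    exact (hda x hx).hasDerivWithinAt
  · intro x hx
    exact dtail hs hD harea hn (by simpa using hx)

/-- The final arithmetic. -/
theorem arith {N u σ η X C E T a b : ℝ} (hN : 100 ≤ N) (hu : N * u = 1) (hσ : σ ^ 2 = N)
    (hσ0 : 10 ≤ σ) (hη : 0 ≤ η) (hNη : N * η ≤ 1 / 1000) (hX0 : 0 ≤ X) (hX : X ≤ 1.001 * u)
    (hC0 : 0 ≤ C) (hE0 : 0 ≤ E) (hCX : C ≤ X + u) (hT : T ≤ 0.5774 * (η * σ))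
    (hE : (1 - u) * E ≤ C + T) (hb : b ≤ (E + N * η) * X) (hab : C ≤ a + b)
    (ha : a ≤ N * b ^ 2 ∨ a ≤ N * η ^ 2 / 2) (hb0 : 0 ≤ b) :
    C ≤ 2 * η ∧ E ≤ η * σ := by
  have hu0 : 0 < u := by
    by_contra h
    nlinarith
  have hu1 : u ≤ 0.01 := by nlinarith
  have hησ : η * σ * σ ≤ 1 / 1000 := by rw [mul_assoc, ← pow_two, hσ]; linarith
  have hησ0 : 0 ≤ η * σ := by positivity
  have hησ1 : η * σ ≤ 0.0001 := by nlinarith
  have hE1 : 0.99 * E ≤ C + 0.5774 * (η * σ) := by nlinarith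
  have hE2 : E ≤ 0.021 := by nlinarith
  have hNX : N * X ≤ 1.001 := by nlinarith
  -- `u σ ≤ 1/10`
  have huσ : u * σ ≤ 0.1 := by
    have h1 : u * σ * σ = 1 := by rw [mul_assoc, ← pow_two, hσ]; linarith
    have h2 : 0 ≤ u * σ := by positivity
    nlinarith
  have huE : 0.99 * (u * E) ≤ 0.01 * C + 0.05774 * η := by
    have h1 : u * (0.99 * E) ≤ u * (C + 0.5774 * (η * σ)) := mul_le_mul_of_nonneg_left hE1 hu0.le
    have h2 : u * C ≤ 0.01 * C := mul_le_mul_of_nonneg_right hu1 hC0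
    have h3 : η * (u * σ) ≤ η * 0.1 := mul_le_mul_of_nonneg_left huσ hη
    nlinarith
  have hb1 : b ≤ 1.001 * (u * E) + 1.001 * η := by
    have h1 : (E + N * η) * X ≤ (E + N * η) * (1.001 * u) :=
      mul_le_mul_of_nonneg_left hX (by positivity)
    have h2 : (E + N * η) * (1.001 * u) = 1.001 * (u * E) + 1.001 * η * (N * u) := by ring
    rw [hu] at h2
    linarith
  have hb2 : b ≤ 0.0102 * C + 1.06 * η := by linarith
  have hNb : N * b ≤ 0.023 := by
    have h1 : N * b ≤ N * ((E + N * η) * X) := mul_le_mul_of_nonneg_left hb (by linarith)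
    have h2 : N * ((E + N * η) * X) = (E + N * η) * (N * X) := by ring
    have h3 : (E + N * η) * (N * X) ≤ 0.022 * 1.001 := by
      have h4 : 0 ≤ N * X := by positivity
      have h5 : E + N * η ≤ 0.022 := by linarith
      exact mul_le_mul h5 hNX h4 (by norm_num)
    linarith
  have ha1 : a ≤ 0.023 * b + 0.0005 * η := by
    rcases ha with ha | ha
    · have h1 : N * b ^ 2 ≤ 0.023 * b := by
        have := mul_le_mul_of_nonneg_right hNb hb0
        nlinarith
      have : 0 ≤ 0.0005 * η := by positivity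
      linarith
    · have h1 : N * η ^ 2 / 2 ≤ 0.0005 * η := by
        have := mul_le_mul_of_nonneg_right hNη hη
        nlinarith
      have : 0 ≤ 0.023 * b := by positivity
      linarith
  have hC2 : C ≤ 2 * η := by linarith
  refine ⟨hC2, ?_⟩
  have h1 : 0.99 * E ≤ 2 * η + 0.5774 * (η * σ) := by linarith
  have h2 : η * 10 ≤ η * σ := mul_le_mul_of_nonneg_left hσ0 hη
  linarith

end StepA

theorem stepA : StA := by
  intro n D s hq hn hD
  have hs := hq.diff
  have hn0 : (100 : ℝ) ≤ n := by exact_mod_cast hn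
  have hn2 : 2 ≤ n := by omega
  set u : ℝ := 1 / (n : ℝ) with hu
  have hNu : (n : ℝ) * u = 1 := by rw [hu]; field_simp
  have hu0 : 0 < u := by positivity
  have hu1 : u ≤ 0.01 := by nlinarith
  set η := Real.sqrt D with hη
  have hη0 : 0 ≤ η := Real.sqrt_nonneg _
  have hηD : η ^ 2 = D := Real.sq_sqrt hq.D0
  have hNη : (n : ℝ) * η ≤ 1 / 1000 := by
    have h1 : ((n : ℝ) * η) ^ 2 ≤ (1 / 1000) ^ 2 := by
      rw [mul_pow, hηD]
      norm_num at hD ⊢
      linarith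
    exact le_of_sq_le_sq h1 (by norm_num)
  set σ := Real.sqrt n with hσ
  have hσ2 : σ ^ 2 = n := Real.sq_sqrt (by positivity)
  have hσ0 : 10 ≤ σ := Real.le_sqrt_of_sq_le (by norm_num; linarith)
  have hr : rn n = 1 - u := rfl
  have hr0 : 0 ≤ rn n := by rw [hr]; linarith
  have hrnorm : ‖(rn n : ℂ)‖ = rn n := by
    rw [Complex.norm_real, Real.norm_of_nonneg hr0]
  set ξ := s (rn n : ℂ) with hξ
  set c := ξ - ((u : ℝ) : ℂ) with hc
  set e := ee s 1 with he
  have he1 : e = 1 + coeff 1 s := by simp [he, ee]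
  -- the tail
  have htail := StepA.tail hs hq.zero hq.D0 hq.area hn2 (z := (rn n : ℂ)) hrnorm.le
  have hT : Real.sqrt (D * (n / 3)) ≤ 0.5774 * (η * σ) := by
    refine Real.sqrt_le_iff.2 ⟨by positivity, ?_⟩
    rw [mul_pow, mul_pow, hηD, hσ2]
    have h1 : 0 ≤ D * n := mul_nonneg hq.D0 (by positivity)
    linarith
  have hdt := StepA.dtail hs hq.D0 hq.area hn2 (z := (rn n : ℂ)) hrnorm.le
  have hceq : s (rn n : ℂ) - 1 - coeff 1 s * (rn n : ℂ) = c - e * (rn n : ℂ) := by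
    rw [hc, hξ, he1, hr]
    push_cast
    ring
  rw [hceq] at htail
  have hE : (1 - u) * ‖e‖ ≤ ‖c‖ + Real.sqrt (D * (n / 3)) := by
    have h1 : ‖e * (rn n : ℂ)‖ ≤ ‖c‖ + ‖c - e * (rn n : ℂ)‖ := by
      have : e * (rn n : ℂ) = c - (c - e * (rn n : ℂ)) := by ring
      calc ‖e * (rn n : ℂ)‖ = ‖c - (c - e * (rn n : ℂ))‖ := by rw [← this]
        _ ≤ _ := norm_sub_le _ _
    rw [norm_mul, hrnorm] at h1
    have h2 : (1 - u) * ‖e‖ = ‖e‖ * rn n := by rw [hr]; ring
    linarith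
  have hmax : ‖ξ‖ ^ 2 ≤ u ^ 2 + D := hq.max
  have hX : ‖ξ‖ ≤ 1.001 * u := by
    have h1 : ‖ξ‖ ^ 2 ≤ (1.001 * u) ^ 2 := by
      refine hmax.trans ?_
      have h2 : D ≤ u ^ 2 * (1 / 1000000) := by
        have h3 : u ^ 2 * ((n : ℝ) ^ 2 * D) = D := by
          rw [← mul_assoc, ← mul_pow, mul_comm u, hNu]; ring
        have h4 := mul_le_mul_of_nonneg_left hD (sq_nonneg u)
        linarith
      rw [mul_pow]
      linarith [sq_nonneg u]
    exact le_of_sq_le_sq h1 (by positivity)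
  have hCX : ‖c‖ ≤ ‖ξ‖ + u := by
    have := norm_sub_le ξ ((u : ℝ) : ℂ)
    rw [Complex.norm_real, Real.norm_of_nonneg hu0.le] at this
    exact this
  -- the imaginary part
  have hcim : c.im = ξ.im := by simp [hc]
  have hcre : c.re = ξ.re - u := by simp [hc]
  have hb : |c.im| ≤ (‖e‖ + n * η) * ‖ξ‖ := by
    have hst := hq.stat
    have h1 : deriv s (rn n : ℂ) * conj ξ =
        - conj ξ + (e + (deriv s (rn n : ℂ) - coeff 1 s)) * conj ξ := by
      rw [he1]; ring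
    rw [← hξ, h1, Complex.add_im] at hst
    have h2 : (-conj ξ).im = ξ.im := by simp
    rw [h2] at hst
    have h3 : |c.im| = |((e + (deriv s (rn n : ℂ) - coeff 1 s)) * conj ξ).im| := by
      rw [hcim, show ξ.im = - ((e + (deriv s (rn n : ℂ) - coeff 1 s)) * conj ξ).im by linarith,
        abs_neg]
    rw [h3]
    refine (Complex.abs_im_le_norm _).trans ?_
    rw [norm_mul, RCLike.norm_conj]
    refine mul_le_mul_of_nonneg_right ?_ (norm_nonneg _)
    exact (norm_add_le _ _).trans (by linarith)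
  -- auxiliary size of `e`
  have hησ1 : η * σ ≤ 0.0001 := by
    have h1 : η * σ * σ ≤ 1 / 1000 := by rw [mul_assoc, ← pow_two, hσ2]; linarith
    have h2 := mul_le_mul_of_nonneg_left hσ0 (mul_nonneg hη0 (by linarith : (0 : ℝ) ≤ σ))
    linarith
  have hE2 : ‖e‖ ≤ 0.021 := by
    have h0 := norm_nonneg e
    have h1 := mul_le_mul_of_nonneg_right hu1 h0
    linarith
  have hbu : |c.im| ≤ 0.023 * u := by
    have h1 : (‖e‖ + n * η) * ‖ξ‖ ≤ 0.022 * (1.001 * u) :=
      mul_le_mul (by linarith) hX (norm_nonneg _) (by norm_num)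
    linarith
  -- the real part of `ξ` is positive
  have hpos : 0 < ξ.re := by
    by_contra hneg0
    have hneg := not_lt.1 hneg0
    have hρ0 : (0 : ℝ) ≤ 1 - 2 * u := by linarith
    have hρn : ‖((1 - 2 * u : ℝ) : ℂ)‖ = 1 - 2 * u := by
      rw [Complex.norm_real, Real.norm_of_nonneg hρ0]
    have hg := hq.grow ((1 - 2 * u : ℝ) : ℂ) (by rw [hρn]; linarith)
    rw [hρn] at hg
    have hinc := StepA.incr hs hq.D0 hq.area hn2 (z := (rn n : ℂ)) (w := ((1 - 2 * u : ℝ) : ℂ))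
      hrnorm.le (by rw [hρn, hr]; linarith)
    have hd : ((1 - 2 * u : ℝ) : ℂ) - (rn n : ℂ) = ((-u : ℝ) : ℂ) := by
      rw [hr]; push_cast; ring
    have hnu : ‖((-u : ℝ) : ℂ)‖ = u := by
      rw [Complex.norm_real, norm_neg, Real.norm_of_nonneg hu0.le]
    rw [hd, hnu] at hinc
    have hinc2 : (n : ℝ) * Real.sqrt D * u = η := by
      rw [← hη]
      calc (n : ℝ) * η * u = η * (n * u) := by ring
        _ = η := by rw [hNu, mul_one]
    rw [hinc2] at hinc
    set Δ := (s ((1 - 2 * u : ℝ) : ℂ) - coeff 1 s * ((1 - 2 * u : ℝ) : ℂ)) -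
      (s (rn n : ℂ) - coeff 1 s * (rn n : ℂ)) with hΔ
    have hval : s ((1 - 2 * u : ℝ) : ℂ) = ((u : ℝ) : ℂ) + ξ + (Δ - e * ((u : ℝ) : ℂ)) := by
      rw [hΔ, he1, hr, hξ, hr]
      push_cast
      ring
    have hηu : η ≤ 0.001 * u := by
      have h4 : u * (n * η) = η := by rw [← mul_assoc, mul_comm u, hNu, one_mul]
      have h5 := mul_le_mul_of_nonneg_left hNη hu0.le
      linarith
    have h1 : ‖Δ - e * ((u : ℝ) : ℂ)‖ ≤ 0.022 * u := by
      refine (norm_sub_le _ _).trans ?_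
      rw [norm_mul, Complex.norm_real, Real.norm_of_nonneg hu0.le]
      have h6 := mul_le_mul_of_nonneg_right hE2 hu0.le
      linarith
    have hre : |ξ.re| ≤ 1.001 * u := (Complex.abs_re_le_norm _).trans hX
    have h2 : ‖((u : ℝ) : ℂ) + ξ‖ ≤ u + 0.023 * u := by
      refine (Complex.norm_le_abs_re_add_abs_im _).trans ?_
      have h3 : (((u : ℝ) : ℂ) + ξ).re = u + ξ.re := by simp
      have h4 : (((u : ℝ) : ℂ) + ξ).im = c.im := by simp [hcim]
      rw [h3, h4]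
      have h5 : |u + ξ.re| ≤ u := by
        rw [abs_le]
        rw [abs_le] at hre
        constructor <;> linarith
      linarith
    rw [hval] at hg
    have h3 := norm_add_le (((u : ℝ) : ℂ) + ξ) (Δ - e * ((u : ℝ) : ℂ))
    linarith
  -- expansion of `‖ξ‖²`
  have hexp : ‖ξ‖ ^ 2 = u ^ 2 + 2 * u * c.re + (c.re ^ 2 + c.im ^ 2) := by
    rw [← Complex.normSq_eq_norm_sq, Complex.normSq_apply, hcre, hcim]
    ring
  have hup : c.re ≤ n * D / 2 := by
    have h1 : 2 * u * c.re ≤ D := by linarith [sq_nonneg c.re, sq_nonneg c.im]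
    have h2 : c.re = n * (2 * u * c.re) / 2 := by
      have : (n : ℝ) * (2 * u * c.re) / 2 = (n * u) * c.re := by ring
      rw [this, hNu, one_mul]
    rw [h2]
    have := mul_le_mul_of_nonneg_left h1 (by positivity : (0 : ℝ) ≤ n)
    linarith
  have hlow : 0 ≤ 2 * u * c.re + (c.re ^ 2 + c.im ^ 2) := by
    have h1 := hq.grow (rn n : ℂ) (by rw [hrnorm, hr]; linarith)
    rw [hrnorm, ← hξ] at h1
    have h2 : u ≤ ‖ξ‖ := by linarith
    have h3 : u ^ 2 ≤ ‖ξ‖ ^ 2 := pow_le_pow_left₀ hu0.le h2 2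
    linarith
  have ha : |c.re| ≤ n * |c.im| ^ 2 ∨ |c.re| ≤ n * η ^ 2 / 2 := by
    rcases le_or_gt 0 c.re with h | h
    · right
      rw [abs_of_nonneg h, hηD]
      exact hup
    · left
      rw [abs_of_neg h, sq_abs]
      have h1 : -u < c.re := by linarith
      have h2 : -c.re * u ≤ c.im ^ 2 := by
        have h4 : c.re ^ 2 ≤ -c.re * u := by nlinarith
        linarith
      have h3 : -c.re = n * (-c.re * u) := by
        have : (n : ℝ) * (-c.re * u) = (n * u) * (-c.re) := by ring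
        rw [this, hNu, one_mul]
      rw [h3]
      exact mul_le_mul_of_nonneg_left h2 (by positivity)
  have hab : ‖c‖ ≤ |c.re| + |c.im| := Complex.norm_le_abs_re_add_abs_im _
  obtain ⟨r1, r2⟩ := StepA.arith hn0 hNu hσ2 hσ0 hη0 hNη (norm_nonneg ξ) hX (norm_nonneg c)
    (norm_nonneg e) hCX hT hE hb hab ha (abs_nonneg _)
  refine ⟨r1, ?_, hup⟩
  have : Real.sqrt (n * D) = η * σ := by
    rw [mul_comm, Real.sqrt_mul hq.D0]
  rw [this]
  exact r2

end Pool.Agent.Helper39.QM
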