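import Pool.Agent.Helper39.QM.St
import Pool.Agent.Helper64.C3.LowerN
import Pool.Agent.Helper64.C3.UpperN

/-!
# QM, module TLOW: sharp asymptotic lower bound for `c_n^*`
-/

set_option autoImplicit false

open Metric Set Filter Topology
open scoped ComplexConjugate

namespace Pool.Agent.Helper39.QM

open Pool.Agent.Helper64.C3

/-- `|Λ(z)| ≤ 1 + log n` on `|z| ≤ 1 - 1/n` -/
private theorem Lam_log_Tlow {x : ℝ} (hx : 1 < x) {z : ℂ} (hz : ‖z‖ = 1 - 1 / x) :
    ‖Lam z‖ ≤ 1 + Real.log x := by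
  have hx0 : 0 < x := by linarith
  have hxi : 0 < 1 / x := by positivity
  have hxi1 : 1 / x < 1 := by rw [div_lt_one hx0]; exact hx
  set r := 1 - 1 / x with hr
  have hr0 : 0 < r := by linarith
  have hr1 : r < 1 := by linarith
  have hzn : ‖z‖ < 1 := by linarith
  have hs := Real.hasSum_pow_div_log_of_abs_lt_one (x := r) (by rw [abs_of_pos hr0]; exact hr1)
  have hlog : -Real.log (1 - r) = Real.log x := by
    have : 1 - r = x⁻¹ := by rw [hr, one_div]; ring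
    rw [this, Real.log_inv, neg_neg]
  rw [hlog] at hs
  have h1 : ‖Lam z‖ ≤ ∑' k : ℕ, ‖(lamc k : ℂ) * z ^ k‖ := norm_tsum_le_tsum_norm (lam_summable hzn)
  refine h1.trans ?_
  have e : ∀ k : ℕ, ‖(lamc k : ℂ) * z ^ k‖ = lamc k * r ^ k := by
    intro k
    rw [norm_mul, Complex.norm_real, Real.norm_of_nonneg (lamc_pos k).le, norm_pow, hz]
  have hsum := lam_summable hzn
  simp_rw [e] at hsum ⊢
  rw [hsum.tsum_eq_zero_add]
  have h0 : lamc 0 * r ^ 0 = 1 := by simp [lamc]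
  rw [h0]
  have h2 : ∑' k : ℕ, lamc (k + 1) * r ^ (k + 1) ≤ ∑' k : ℕ, r ^ (k + 1) / ((k : ℝ) + 1) := by
    refine Summable.tsum_le_tsum (fun k => ?_) ((summable_nat_add_iff 1).2 hsum) hs.summable
    rw [mul_comm]
    unfold lamc
    have h3 : r ^ (k + 1) * (1 / (2 * ((k + 1 : ℕ) : ℝ) + 1)) ≤ r ^ (k + 1) * (1 / ((k : ℝ) + 1)) := by
      apply mul_le_mul_of_nonneg_left _ (by positivity)
      apply one_div_le_one_div_of_le (by positivity)
      push_cast
      have : (0 : ℝ) ≤ k := by positivity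
      linarith
    have h4 : r ^ (k + 1) * (1 / ((k : ℝ) + 1)) = r ^ (k + 1) / ((k : ℝ) + 1) := by ring
    rw [← h4]
    linarith
  rw [hs.tsum_eq] at h2
  linarith

/-- pointwise bound of the error term -/
private theorem Er_Tlow {x : ℝ} (hx : 2 ≤ x) {z : ℂ} (hz : ‖z‖ = 1 - 1 / x) :
    ‖Er (1 / (8 * x ^ 2)) z‖ ≤ 64 * x ^ 2 * (1 + Real.log x) * ‖koebe z‖ := by
  have hx0 : 0 < x := by linarith
  have hxi : 0 < 1 / x := by positivity
  have hz1 : ‖z‖ < 1 := by linarith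
  have hlog0 : 0 ≤ Real.log x := Real.log_nonneg (by linarith)
  have hLam := Lam_log_Tlow (by linarith : 1 < x) hz
  set α : ℝ := 1 / (8 * x ^ 2) with hα
  have hα0 : 0 < α := by positivity
  have hα1 : α ≤ 1 := by
    rw [hα, div_le_one (by positivity)]
    nlinarith
  set s := Real.sqrt α with hs
  have hs0 : 0 < s := Real.sqrt_pos.2 hα0
  have hs2 : s ^ 2 = α := Real.sq_sqrt hα0.le
  have hsx : s * x ≤ 1 / 2 := by
    have h1 : (s * x) ^ 2 = 1 / 8 := by
      rw [mul_pow, hs2, hα]; field_simp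
    have h2 : 0 < s * x := by positivity
    nlinarith
  obtain ⟨hrel, h1W, h2W, hWn⟩ := pick_rel hα0 hα1 hz1
  have hRne := rt_one_ne hα0 hα1 hz1
  set d := ‖1 - z‖ with hd
  have hd1 : 1 / x ≤ d := by
    have := norm_sub_norm_le (1 : ℂ) z
    rw [norm_one] at this
    linarith
  have hd0 : 0 < d := by linarith
  have hxd : 1 ≤ x * d := by
    have h1 := mul_le_mul_of_nonneg_left hd1 hx0.le
    have h2 : x * (1 / x) = 1 := by field_simp
    linarith
  -- the Koebe function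
  set k := ‖koebe z‖ with hk
  have hkd : k * d ^ 2 ≤ 1 := by
    have h1 : k * d ^ 2 = ‖z‖ := by
      rw [hk]
      unfold koebe
      rw [norm_div, norm_pow, ← hd, div_mul_cancel₀ _ (pow_ne_zero 2 hd0.ne')]
    linarith
  have hk0 : 0 ≤ k := norm_nonneg _
  have hkx : k ≤ x ^ 2 := by
    have h1 : 1 ≤ (x * d) ^ 2 := one_le_pow₀ hxd
    have h2 : k * 1 ≤ k * (x * d) ^ 2 := mul_le_mul_of_nonneg_left h1 hk0
    have h3 : k * (x * d) ^ 2 = x ^ 2 * (k * d ^ 2) := by ring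
    nlinarith [sq_nonneg x]
  -- the root
  have hu : ‖4 * (α : ℂ) * koebe z‖ ≤ 1 / 2 := by
    rw [norm_mul, norm_mul, Complex.norm_real, Real.norm_of_nonneg hα0.le]
    simp only [Complex.norm_ofNat]
    rw [← hk]
    have h1 : α * k ≤ 1 / 8 := by
      have h2 : α * k ≤ α * x ^ 2 := mul_le_mul_of_nonneg_left hkx hα0.le
      have h3 : α * x ^ 2 = 1 / 8 := by rw [hα]; field_simp
      linarith
    linarith
  have hrt2 := rt_sq α (koebe z)
  set ρ := rt α (koebe z) with hρ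
  have hρre : 0 < ρ.re := by
    have := rt_re_pos (v := α) (p := 1) hα0 hα1 hz1
    simpa [hρ] using this
  have hρn : 1 / 2 ≤ ‖ρ‖ := by
    have h1 : 1 - 1 / 2 ≤ ‖ρ ^ 2‖ := by
      rw [hrt2]
      have := norm_sub_norm_le (1 : ℂ) (-(4 * (α : ℂ) * koebe z))
      rw [norm_one, norm_neg, sub_neg_eq_add] at this
      linarith
    rw [norm_pow] at h1
    nlinarith [norm_nonneg ρ]
  have hρ1 : 1 ≤ ‖ρ + 1‖ := by
    have := Complex.re_le_norm (ρ + 1)
    rw [Complex.add_re, Complex.one_re] at this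
    linarith
  set W := M6.pick α z with hW
  have hWb : ‖W‖ ≤ 1 / 2 := by
    have h1 : W * (ρ + 1) ^ 2 = 4 * (α : ℂ) * koebe z := by
      linear_combination (-(ρ + 1)) * hrel + hrt2
    have h2 : ‖W‖ * ‖ρ + 1‖ ^ 2 ≤ 1 / 2 := by
      rw [← norm_pow, ← norm_mul, h1]
      exact hu
    have h3 : 1 ≤ ‖ρ + 1‖ ^ 2 := one_le_pow₀ hρ1
    nlinarith [norm_nonneg W]
  have hLW : ‖Lam W‖ ≤ 2 := by
    refine (norm_Lam_le hWn).trans ?_
    rw [div_le_iff₀ (by linarith)]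
    linarith
  have hLx0 : 0 ≤ 1 + Real.log x := by linarith
  set L := 1 + Real.log x with hL
  have hL1 : 1 ≤ L := by linarith
  have bU1 : ‖Uf z 1‖ ≤ 2 * d * L := by
    rw [Uf_one hz1, norm_mul, norm_mul, Complex.norm_two, ← hd]
    have := mul_le_mul_of_nonneg_left hLam hd0.le
    linarith
  have bU : ‖Uf z α‖ ≤ 6 * s := by
    have e : Uf z α = (s : ℂ) * (2 * ((1 - W) * Lam W)) := by
      unfold Uf; ring
    rw [e, norm_mul, norm_mul, norm_mul, Complex.norm_real, Real.norm_of_nonneg hs0.le,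
      Complex.norm_two]
    have h1 : ‖1 - W‖ ≤ 3 / 2 := (norm_sub_le _ _).trans (by rw [norm_one]; linarith)
    have h2 : ‖1 - W‖ * ‖Lam W‖ ≤ 3 / 2 * 2 := mul_le_mul h1 hLW (norm_nonneg _) (by norm_num)
    nlinarith
  have bS : ‖Sf z α‖ ≤ 2 * d * L + 6 * s := by
    unfold Sf
    exact (norm_sub_le _ _).trans (add_le_add bU1 bU)
  have bτ : ‖2 * (s : ℂ) / ρ‖ ≤ 4 * s := by
    rw [norm_div, norm_mul, Complex.norm_two, Complex.norm_real, Real.norm_of_nonneg hs0.le,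
      div_le_iff₀ (by linarith)]
    nlinarith
  have hu0 : 0 ≤ ‖Uf z 1‖ := norm_nonneg _
  have hv0 : 0 ≤ ‖Uf z α‖ := norm_nonneg _
  have c1 : ‖3 * koebe z ^ 3 * (Uf z α ^ 2 - 2 * Uf z 1 * Uf z α)‖
      ≤ 3 * k ^ 3 * (36 * α + 24 * (d * L * s)) := by
    rw [norm_mul, norm_mul, norm_pow]
    have d2 : ‖(3 : ℂ)‖ = 3 := by simp
    rw [d2, ← hk]
    apply mul_le_mul_of_nonneg_left _ (by positivity)
    refine (norm_sub_le _ _).trans ?_
    rw [norm_pow, norm_mul, norm_mul, Complex.norm_two]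
    have f1 : ‖Uf z α‖ ^ 2 ≤ 36 * α := by
      calc ‖Uf z α‖ ^ 2 ≤ (6 * s) ^ 2 := pow_le_pow_left₀ hv0 bU 2
        _ = 36 * α := by rw [mul_pow, hs2]; norm_num
    have f2 : ‖Uf z 1‖ * ‖Uf z α‖ ≤ (2 * d * L) * (6 * s) :=
      mul_le_mul bU1 bU hv0 (by positivity)
    linarith
  have c2 : ‖2 * koebe z ^ 3 * Sf z α * (2 * (s : ℂ) / ρ)‖
      ≤ 2 * k ^ 3 * (8 * (d * L * s) + 24 * α) := by
    rw [norm_mul, norm_mul, norm_mul, norm_pow, Complex.norm_two, ← hk]
    calc 2 * k ^ 3 * ‖Sf z α‖ * ‖2 * (s : ℂ) / ρ‖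
        ≤ 2 * k ^ 3 * (2 * d * L + 6 * s) * (4 * s) := by
          apply mul_le_mul _ bτ (norm_nonneg _) (by positivity)
          exact mul_le_mul_of_nonneg_left bS (by positivity)
      _ = 2 * k ^ 3 * (8 * (d * L * s) + 24 * s ^ 2) := by ring
      _ = _ := by rw [hs2]
  have hEr : ‖Er α z‖ ≤ 3 * k ^ 3 * (36 * α + 24 * (d * L * s))
      + 2 * k ^ 3 * (8 * (d * L * s) + 24 * α) := by
    unfold Er
    exact (norm_sub_le _ _).trans (add_le_add c1 c2)
  -- final bookkeeping: `k^2 α ≤ x^2/8`, `k^2 d s ≤ x^2/2`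
  have g1 : k ^ 2 * α ≤ x ^ 2 / 8 := by
    have h1 : k ^ 2 ≤ (x ^ 2) ^ 2 := pow_le_pow_left₀ hk0 hkx 2
    have h2 : k ^ 2 * α ≤ (x ^ 2) ^ 2 * α := mul_le_mul_of_nonneg_right h1 hα0.le
    have h3 : (x ^ 2) ^ 2 * α = x ^ 2 / 8 := by rw [hα]; field_simp
    linarith
  have g2 : k ^ 2 * d * s ≤ x ^ 2 / 2 := by
    have h1 : k ^ 2 * d ≤ x ^ 3 := by
      have h2 : k ^ 2 * d ^ 4 ≤ 1 := by
        have : k ^ 2 * d ^ 4 = (k * d ^ 2) ^ 2 := by ring
        rw [this]
        exact pow_le_one₀ (by positivity) hkd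
      have h3 : 1 ≤ (x * d) ^ 3 := one_le_pow₀ hxd
      have h4 : k ^ 2 * d * 1 ≤ k ^ 2 * d * (x * d) ^ 3 :=
        mul_le_mul_of_nonneg_left h3 (by positivity)
      have h5 : k ^ 2 * d * (x * d) ^ 3 = x ^ 3 * (k ^ 2 * d ^ 4) := by ring
      have h6 : x ^ 3 * (k ^ 2 * d ^ 4) ≤ x ^ 3 * 1 := mul_le_mul_of_nonneg_left h2 (by positivity)
      linarith
    calc k ^ 2 * d * s ≤ x ^ 3 * s := mul_le_mul_of_nonneg_right h1 hs0.le
      _ = x ^ 2 * (s * x) := by ring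
      _ ≤ x ^ 2 * (1 / 2) := mul_le_mul_of_nonneg_left hsx (by positivity)
      _ = x ^ 2 / 2 := by ring
  have g3 : 3 * k ^ 3 * (36 * α + 24 * (d * L * s)) + 2 * k ^ 3 * (8 * (d * L * s) + 24 * α)
      = k * (156 * (k ^ 2 * α) + 88 * (k ^ 2 * d * s) * L) := by ring
  rw [g3] at hEr
  refine hEr.trans ?_
  have g4 : 156 * (k ^ 2 * α) + 88 * (k ^ 2 * d * s) * L ≤ 64 * x ^ 2 * L := by
    have h1 : 88 * (k ^ 2 * d * s) * L ≤ 88 * (x ^ 2 / 2) * L := by gcongr
    have h2 : x ^ 2 * 1 ≤ x ^ 2 * L := mul_le_mul_of_nonneg_left hL1 (by positivity)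
    linarith
  calc k * (156 * (k ^ 2 * α) + 88 * (k ^ 2 * d * s) * L) ≤ k * (64 * x ^ 2 * L) :=
        mul_le_mul_of_nonneg_left g4 hk0
    _ = 64 * x ^ 2 * L * k := by ring

/-- lower bound of the main coefficient -/
private theorem mainc_Tlow {n J : ℕ} (hJ : 2 * J ≤ n) (hw : 1 ≤ (n : ℝ) - 2 * J) :
    (((n : ℝ) - 2 * J) ^ 3 - ((n : ℝ) - 2 * J)) / 6 * (Real.log (J + 1) / 2) ^ 2 ≤ mainc n := by
  set A : ℕ → ℝ := conv (fun k => (k : ℝ)) (fun k => (k : ℝ)) with hA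
  set Bc : ℕ → ℝ := conv (fun k => if k = 1 then (1 : ℝ) else 0) (conv lamc lamc) with hBc
  have hlam0 : ∀ k, 0 ≤ conv lamc lamc k :=
    conv_nonneg (fun k => (lamc_pos k).le) (fun k => (lamc_pos k).le)
  have hA0 : ∀ k, 0 ≤ A k := conv_nonneg (fun k => by positivity) (fun k => by positivity)
  have hB0 : ∀ k, 0 ≤ Bc k :=
    conv_nonneg (fun k => by split_ifs <;> norm_num) hlam0
  have h1 : ∑ s ∈ Finset.range (2 * J), A (n - (s + 1)) * Bc (s + 1) ≤ mainc n := by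
    have e : mainc n = ∑ i ∈ Finset.range (n + 1), A (n - i) * Bc i := by
      show conv A Bc n = _
      unfold conv
      rw [← Finset.Nat.sum_antidiagonal_swap]
      rw [← Finset.Nat.sum_antidiagonal_eq_sum_range_succ (fun i j : ℕ => A j * Bc i)]
      rfl
    rw [e]
    have e2 : ∑ s ∈ Finset.range (2 * J), A (n - (s + 1)) * Bc (s + 1)
        ≤ ∑ s ∈ Finset.range n, A (n - (s + 1)) * Bc (s + 1) := by
      apply Finset.sum_le_sum_of_subset_of_nonneg
      · apply Finset.range_subset_range.2; omega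
      · intro i _ _
        exact mul_nonneg (hA0 _) (hB0 _)
    refine e2.trans ?_
    rw [Finset.sum_range_succ' (fun i => A (n - i) * Bc i) n]
    have : 0 ≤ A (n - 0) * Bc 0 := mul_nonneg (hA0 _) (hB0 _)
    linarith
  refine le_trans ?_ h1
  set w : ℝ := (n : ℝ) - 2 * J with hwd
  have h2 : ∀ s ∈ Finset.range (2 * J), (w ^ 3 - w) / 6 * conv lamc lamc s
      ≤ A (n - (s + 1)) * Bc (s + 1) := by
    intro s hs
    have hs' := Finset.mem_range.1 hs
    have e1 : Bc (s + 1) = conv lamc lamc s := conv_id _ s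
    rw [e1]
    apply mul_le_mul_of_nonneg_right _ (hlam0 s)
    rw [hA, conv_koebe]
    have hle : s + 1 ≤ n := by omega
    have hcast : ((n - (s + 1) : ℕ) : ℝ) = (n : ℝ) - (s + 1) := by
      rw [Nat.cast_sub hle]; push_cast; ring
    have h3 : w ≤ ((n - (s + 1) : ℕ) : ℝ) := by
      rw [hcast, hwd]
      have h4 : s + 1 ≤ 2 * J := by omega
      have h5 : (s : ℝ) + 1 ≤ 2 * J := by exact_mod_cast h4
      linarith
    set y : ℝ := ((n - (s + 1) : ℕ) : ℝ) with hy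
    have h6 : (w - 1) * w ≤ (y - 1) * y :=
      mul_le_mul (by linarith) h3 (by linarith) (by linarith)
    have h7 : (w - 1) * w * (w + 1) ≤ (y - 1) * y * (y + 1) :=
      mul_le_mul h6 (by linarith) (by linarith)
        (mul_nonneg (by linarith) (by linarith))
    have h8 : w ^ 3 - w = (w - 1) * w * (w + 1) := by ring
    rw [h8]
    linarith
  refine le_trans ?_ (Finset.sum_le_sum h2)
  rw [← Finset.mul_sum]
  have h3 := conv_lam_sum J
  have h4 := lam_log J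
  have hlog0 : 0 ≤ Real.log ((J : ℝ) + 1) := Real.log_nonneg (by
    have : (0 : ℝ) ≤ J := by positivity
    linarith)
  have h7 : (Real.log (J + 1) / 2) ^ 2 ≤ (∑ i ∈ Finset.range J, lamc i) ^ 2 :=
    pow_le_pow_left₀ (by positivity) h4 2
  have hw3 : 0 ≤ (w ^ 3 - w) / 6 := by
    have h8 : w ^ 3 - w = (w - 1) * w * (w + 1) := by ring
    rw [h8]
    have : 0 ≤ (w - 1) * w * (w + 1) :=
      mul_nonneg (mul_nonneg (by linarith) (by linarith)) (by linarith)
    linarith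
  exact mul_le_mul_of_nonneg_left (h7.trans h3) hw3

/-- real inequality for the main term, `l = sqrt (log n)` -/
private theorem real_Tlow {n J : ℕ} {l : ℝ} (hl : 2 ≤ l) (hn : 2 ≤ n) (hln : l ^ 2 = Real.log n)
    (hJ1 : (J : ℝ) ≤ n / (4 * l)) (hJ2 : (n : ℝ) / (4 * l) < J + 1) :
    (n : ℝ) ^ 3 * (l ^ 4 - 7 * l ^ 3) / 2 ≤ 12 * mainc n := by
  have hn0 : (0 : ℝ) < n := by
    have : (2 : ℝ) ≤ n := by exact_mod_cast hn
    linarith
  have hl0 : 0 < l := by linarith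
  set x : ℝ := (n : ℝ) with hx
  have hxl : l ^ 2 ≤ x - 1 := by
    rw [hln]
    exact Real.log_le_sub_one_of_pos hn0
  have hx5 : 5 ≤ x := by nlinarith
  have hJx : (J : ℝ) * (4 * l) ≤ x := by
    rw [le_div_iff₀ (by positivity)] at hJ1
    exact hJ1
  have hJx2 : 2 * (J : ℝ) ≤ x / 4 := by
    have hJ0 : (0 : ℝ) ≤ J := by positivity
    nlinarith
  have h2J : 2 * J ≤ n := by
    have h1 : ((2 * J : ℕ) : ℝ) ≤ (n : ℝ) := by
      push_cast
      rw [← hx]
      linarith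
    exact_mod_cast h1
  have hw1 : 1 ≤ (n : ℝ) - 2 * J := by rw [← hx]; linarith
  have hm := mainc_Tlow h2J hw1
  rw [← hx] at hm hw1
  set w : ℝ := x - 2 * J with hw
  have hw3 : 0 ≤ w ^ 3 - w := by
    have h8 : w ^ 3 - w = (w - 1) * w * (w + 1) := by ring
    rw [h8]
    exact mul_nonneg (mul_nonneg (by linarith) (by linarith)) (by linarith)
  have hlog : l ^ 2 - 2 * l ≤ Real.log (J + 1) := by
    have h1 : Real.log (x / (4 * l)) ≤ Real.log (J + 1) :=
      Real.log_le_log (by positivity) hJ2.le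
    rw [Real.log_div hn0.ne' (by positivity), ← hln, Real.log_mul (by norm_num) hl0.ne'] at h1
    have h2 : Real.log 4 ≤ 1.4 := by
      rw [show (4 : ℝ) = 2 ^ 2 by norm_num, Real.log_pow]
      have := Real.log_two_lt_d9
      push_cast
      linarith
    have h3 : Real.log l ≤ l - 1 := Real.log_le_sub_one_of_pos hl0
    linarith
  have hlog0 : 0 ≤ l ^ 2 - 2 * l := by nlinarith
  have hsq : l ^ 4 - 4 * l ^ 3 ≤ Real.log (J + 1) ^ 2 := by
    have h1 : (l ^ 2 - 2 * l) ^ 2 ≤ Real.log (J + 1) ^ 2 := pow_le_pow_left₀ hlog0 hlog 2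
    nlinarith
  have hY0 : 0 ≤ Real.log (J + 1) ^ 2 := sq_nonneg _
  have e0 : 12 * ((w ^ 3 - w) / 6 * (Real.log (J + 1) / 2) ^ 2)
      = (w ^ 3 - w) * Real.log (J + 1) ^ 2 / 2 := by ring
  have hm2 : (w ^ 3 - w) * Real.log (J + 1) ^ 2 / 2 ≤ 12 * mainc n := by
    rw [← e0]
    linarith
  refine le_trans ?_ hm2
  rcases le_or_gt l 7 with h7 | h7
  · have h1 : l ^ 4 - 7 * l ^ 3 ≤ 0 := by
      have : l ^ 4 - 7 * l ^ 3 = l ^ 3 * (l - 7) := by ring
      rw [this]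
      exact mul_nonpos_of_nonneg_of_nonpos (by positivity) (by linarith)
    have h2 : x ^ 3 * (l ^ 4 - 7 * l ^ 3) ≤ 0 :=
      mul_nonpos_of_nonneg_of_nonpos (by positivity) h1
    have h3 : 0 ≤ (w ^ 3 - w) * Real.log (J + 1) ^ 2 := mul_nonneg hw3 hY0
    linarith
  · -- `w^3 - w ≥ x^3 (1 - 5/(2 l))`
    have hwl : x * (1 - 1 / (2 * l)) ≤ w := by
      rw [hw]
      have h1 : 2 * (J : ℝ) ≤ x * (1 / (2 * l)) := by
        have h2 : x * (1 / (2 * l)) = 2 * (x / (4 * l)) := by field_simp; norm_num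
        rw [h2]
        linarith
      linarith
    set t := 1 / (2 * l) with ht
    have ht0 : 0 < t := by positivity
    have htl : t * l = 1 / 2 := by rw [ht]; field_simp
    have ht1 : t ≤ 1 / 14 := by
      rw [ht]
      apply one_div_le_one_div_of_le (by norm_num)
      linarith
    have hw3' : x ^ 3 * (1 - 3 * t) ≤ w ^ 3 := by
      have h1 : (x * (1 - t)) ^ 3 ≤ w ^ 3 := pow_le_pow_left₀ (by
        apply mul_nonneg hn0.le
        linarith) hwl 3
      have h2 : 1 - 3 * t ≤ (1 - t) ^ 3 := by nlinarith [sq_nonneg t, mul_pos ht0 ht0]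
      calc x ^ 3 * (1 - 3 * t) ≤ x ^ 3 * (1 - t) ^ 3 :=
            mul_le_mul_of_nonneg_left h2 (by positivity)
        _ = (x * (1 - t)) ^ 3 := by ring
        _ ≤ w ^ 3 := h1
    have hwx : w ≤ x ^ 3 * (2 * t) := by
      have h1 : w ≤ x := by
        rw [hw]
        have : (0 : ℝ) ≤ J := by positivity
        linarith
      have h2 : 1 ≤ x ^ 2 * (2 * t) := by
        have h3 : l ≤ x ^ 2 := by nlinarith
        have h4 : l * (2 * t) ≤ x ^ 2 * (2 * t) := mul_le_mul_of_nonneg_right h3 (by positivity)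
        nlinarith
      calc w ≤ x * 1 := by linarith
        _ ≤ x * (x ^ 2 * (2 * t)) := mul_le_mul_of_nonneg_left h2 hn0.le
        _ = x ^ 3 * (2 * t) := by ring
    have hX : x ^ 3 * (1 - 5 * t) ≤ w ^ 3 - w := by
      have : x ^ 3 * (1 - 5 * t) = x ^ 3 * (1 - 3 * t) - x ^ 3 * (2 * t) := by ring
      rw [this]
      linarith
    have hY1 : 0 ≤ l ^ 4 - 4 * l ^ 3 := by
      have : l ^ 4 - 4 * l ^ 3 = l ^ 3 * (l - 4) := by ring
      rw [this]
      exact mul_nonneg (by positivity) (by linarith)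
    have hprod : x ^ 3 * (1 - 5 * t) * (l ^ 4 - 4 * l ^ 3) ≤ (w ^ 3 - w) * Real.log (J + 1) ^ 2 :=
      mul_le_mul hX hsq hY1 hw3
    have hfin : x ^ 3 * (l ^ 4 - 7 * l ^ 3) ≤ x ^ 3 * (1 - 5 * t) * (l ^ 4 - 4 * l ^ 3) := by
      rw [mul_assoc]
      apply mul_le_mul_of_nonneg_left _ (by positivity)
      have h1 : (1 - 5 * t) * (l ^ 4 - 4 * l ^ 3)
          = l ^ 4 - 4 * l ^ 3 - 5 * (t * l) * l ^ 3 + 20 * (t * l) * l ^ 2 := by ring
      rw [h1, htl]
      nlinarith [pow_pos hl0 3, pow_pos hl0 2]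
    linarith

/-- the main inequality -/
private theorem main_Tlow {n : ℕ} {l K : ℝ} (hl : 2 ≤ l) (hn : 2 ≤ n) (hln : l ^ 2 = Real.log n)
    (hK0 : 0 ≤ K)
    (hK : ∀ f : ℂ → ℂ, ClassS f → |((n : ℂ) - coeff n f).re| ≤ K * (2 - coeff 2 f).re) :
    (n : ℝ) ^ 3 * (l ^ 4 - 7 * l ^ 3) / 2 - 384 * (n : ℝ) ^ 3 * (1 + l ^ 2)
      ≤ K * (2 * l ^ 2 + 2.08) := by
  have hn2 : (2 : ℝ) ≤ n := by exact_mod_cast hn
  have hn0 : (0 : ℝ) < n := by linarith
  have hl0 : 0 < l := by linarith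
  set x : ℝ := (n : ℝ) with hx
  set α : ℝ := 1 / (8 * x ^ 2) with hα
  have hα0 : 0 < α := by positivity
  have hα1 : α < 1 := by
    rw [hα, div_lt_one (by positivity)]
    nlinarith
  have hxi : 0 < 1 / x := by positivity
  have hxi2 : 1 / x ≤ 1 / 2 := one_div_le_one_div_of_le (by norm_num) hn2
  have hr0 : 0 < 1 - 1 / x := by linarith
  have hr1 : 1 - 1 / x < 1 := by linarith
  set r := 1 - 1 / x with hr
  have hlogα : -Real.log α ≤ 2 * l ^ 2 + 2.08 := by
    have h1 : -Real.log α = Real.log 8 + 2 * Real.log x := by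
      rw [hα, one_div, Real.log_inv, neg_neg, Real.log_mul (by norm_num) (by positivity),
        Real.log_pow]
      norm_num
    have h2 : Real.log 8 ≤ 2.08 := by
      rw [show (8 : ℝ) = 2 ^ 3 by norm_num, Real.log_pow]
      have := Real.log_two_lt_d9
      push_cast
      linarith
    rw [h1, ← hln]
    linarith
  have hlogα0 : 0 ≤ -Real.log α := by
    have := Real.log_neg hα0 hα1
    linarith
  -- the three pieces
  have dM : DifferentiableOn ℂ (fun z => (koebe z * koebe z) * (z * (Lam z * Lam z))) (ball 0 1) :=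
    (M6.koebe_diff.mul M6.koebe_diff).mul (differentiableOn_id.mul (Lam_diff.mul Lam_diff))
  have dQ : DifferentiableOn ℂ (fun z => koebe z * koebe z) (ball 0 1) :=
    M6.koebe_diff.mul M6.koebe_diff
  have cont : ∀ {g : ℂ → ℂ}, DifferentiableOn ℂ g (ball 0 1) → ContinuousOn g (sphere 0 r) :=
    fun hg => hg.continuousOn.mono (fun _ hz => sphere_mem hr1 hz)
  have cM := cont dM
  have cQ := cont dQ
  have cψ := cont (psi2_diff hα0 hα1.le)
  have cM' : ContinuousOn (fun z => (12 : ℂ) * ((koebe z * koebe z) * (z * (Lam z * Lam z))))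
    (sphere 0 r) := continuousOn_const.mul cM
  have cQ' : ContinuousOn (fun z => ((-Real.log α : ℝ) : ℂ) * (koebe z * koebe z)) (sphere 0 r) :=
    continuousOn_const.mul cQ
  have hL0 : 0 ≤ 1 + Real.log x := by
    have := Real.log_nonneg (show 1 ≤ x by linarith)
    linarith
  have hmean : Real.circleAverage (fun z => 64 * x ^ 2 * (1 + Real.log x) * ‖koebe z‖) 0 r
      ≤ 64 * x ^ 2 * (1 + Real.log x) * x := by
    have h1 := mean_E one_pos lv_id (χ := 1) (by simp) hr0 hr1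
    have h2 : (fun z : ℂ => ‖(fun z => z) z / (((1 : ℝ) : ℂ) * (1 - 1 * (fun z => z) z) ^ 2)‖)
        = fun z => ‖koebe z‖ := by
      funext z
      unfold koebe
      simp
    rw [h2] at h1
    have h3 : Real.circleAverage (fun z => 64 * x ^ 2 * (1 + Real.log x) * ‖koebe z‖) 0 r
        = 64 * x ^ 2 * (1 + Real.log x) * Real.circleAverage (fun z => ‖koebe z‖) 0 r := by
      have := Real.circleAverage_fun_smul (c := (0 : ℂ)) (R := r)
        (a := 64 * x ^ 2 * (1 + Real.log x)) (f := fun z => ‖koebe z‖)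
      simpa only [smul_eq_mul] using this
    rw [h3]
    apply mul_le_mul_of_nonneg_left _ (by positivity)
    refine h1.trans ?_
    have h4 : 1 - r = 1 / x := by rw [hr]; ring
    rw [h4, one_mul, div_le_iff₀ hxi]
    have h5 : x * (1 / x) = 1 := by field_simp
    linarith
  have hEb : ‖ell n r (fun z => psi2 z α - 12 * ((koebe z * koebe z) * (z * (Lam z * Lam z)))
      - ((-Real.log α : ℝ) : ℂ) * (koebe z * koebe z))‖
      ≤ (r ^ n)⁻¹ * (64 * x ^ 2 * (1 + Real.log x) * x) := by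
    have cE : ContinuousOn (fun z => psi2 z α - 12 * ((koebe z * koebe z) * (z * (Lam z * Lam z)))
      - ((-Real.log α : ℝ) : ℂ) * (koebe z * koebe z)) (sphere 0 r) := (cψ.sub cM').sub cQ'
    have cG : ContinuousOn (fun z => 64 * x ^ 2 * (1 + Real.log x) * ‖koebe z‖) (sphere 0 r) :=
      continuousOn_const.mul (cont M6.koebe_diff).norm
    refine (norm_ell_le hr0 cE cG ?_).trans (mul_le_mul_of_nonneg_left hmean (by positivity))
    intro z hz
    have hz1 : ‖z‖ < 1 := by simpa using sphere_mem hr1 hz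
    have hzr : ‖z‖ = r := mem_sphere_zero_iff_norm.1 hz
    have e : psi2 z α - 12 * ((koebe z * koebe z) * (z * (Lam z * Lam z)))
      - ((-Real.log α : ℝ) : ℂ) * (koebe z * koebe z) = Er α z := by
      rw [psi2_split hz1]; ring
    rw [e]
    exact Er_Tlow hn2 hzr
  have e1 : ell n r (fun z => psi2 z α - 12 * ((koebe z * koebe z) * (z * (Lam z * Lam z)))
      - ((-Real.log α : ℝ) : ℂ) * (koebe z * koebe z))
      = ell n r (fun z => psi2 z α) - 12 * (mainc n : ℂ)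
        - ((-Real.log α : ℝ) : ℂ) * (conv (fun k => (k : ℝ)) (fun k => (k : ℝ)) n : ℂ) := by
    have c1 : ContinuousOn (fun z => psi2 z α - 12 * ((koebe z * koebe z) * (z * (Lam z * Lam z))))
      (sphere 0 r) := cψ.sub cM'
    rw [ell_sub hr0 c1 cQ', ell_sub hr0 cψ cM', ell_const_mul, ell_const_mul,
      ell_eq_coeff hr0 hr1 dM, ell_eq_coeff hr0 hr1 dQ, PS_main.coeff n,
      (PS_koebe.mul PS_koebe).coeff n]
  have h1 := (abs_le.1 ((Complex.abs_re_le_norm _).trans hEb)).1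
  rw [e1, Complex.sub_re, Complex.sub_re] at h1
  have e2 : ((12 : ℂ) * (mainc n : ℂ)).re = 12 * mainc n := by
    have : (12 : ℂ) * (mainc n : ℂ) = ((12 * mainc n : ℝ) : ℂ) := by push_cast; ring
    rw [this, Complex.ofReal_re]
  have e3 : (((-Real.log α : ℝ) : ℂ) * (conv (fun k => (k : ℝ)) (fun k => (k : ℝ)) n : ℂ)).re
      = -Real.log α * conv (fun k => (k : ℝ)) (fun k => (k : ℝ)) n := by
    rw [← Complex.ofReal_mul, Complex.ofReal_re]
  rw [e2, e3] at h1
  have hc0 : 0 ≤ conv (fun k => (k : ℝ)) (fun k => (k : ℝ)) n :=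
    conv_nonneg (fun k => by positivity) (fun k => by positivity) n
  have h2 : 0 ≤ -Real.log α * conv (fun k => (k : ℝ)) (fun k => (k : ℝ)) n :=
    mul_nonneg hlogα0 hc0
  have hR : (r ^ n)⁻¹ ≤ 6 := inv_pow_le (by omega)
  have h4 : (r ^ n)⁻¹ * (64 * x ^ 2 * (1 + Real.log x) * x)
      ≤ 6 * (64 * x ^ 2 * (1 + Real.log x) * x) :=
    mul_le_mul_of_nonneg_right hR (by positivity)
  have h5 := limit_ineq' hr0 hr1 hα0 hα1 hK0 hK
  have h6 : K * (-Real.log α) ≤ K * (2 * l ^ 2 + 2.08) := mul_le_mul_of_nonneg_left hlogα hK0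
  -- the main coefficient
  have hJ1 : ((⌊x / (4 * l)⌋₊ : ℕ) : ℝ) ≤ x / (4 * l) := Nat.floor_le (by positivity)
  have hJ2 : x / (4 * l) < (⌊x / (4 * l)⌋₊ : ℕ) + 1 := Nat.lt_floor_add_one _
  have h7 := real_Tlow hl hn hln hJ1 hJ2
  rw [← hx] at h7
  have h8 : 6 * (64 * x ^ 2 * (1 + Real.log x) * x) = 384 * x ^ 3 * (1 + l ^ 2) := by
    rw [hln]; ring
  linarith

theorem tlow : StTlow := by
  refine ⟨300, by norm_num, fun n K hn hK => ?_⟩
  have hn2 : (2 : ℝ) ≤ n := by exact_mod_cast hn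
  have hn0 : (0 : ℝ) < n := by linarith
  have h1 : (n : ℝ) ≤ K * 2 := by
    have := hK _ classS_id
    rw [coeff_id hn, coeff_id le_rfl] at this
    simpa using this
  have hK0 : 0 ≤ K := by linarith
  have hlog0 : 0 ≤ Real.log n := Real.log_nonneg (by linarith)
  set l := Real.sqrt (Real.log n) with hl
  have hl0 : 0 ≤ l := Real.sqrt_nonneg _
  have hln : l ^ 2 = Real.log n := Real.sq_sqrt hlog0
  rw [← hln]
  have hx3 : 0 < (n : ℝ) ^ 3 := by positivity
  rcases le_or_gt 2 l with h2 | h2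
  · have h3 := main_Tlow h2 hn hln hK0 hK
    set X := (n : ℝ) ^ 3 with hX
    by_contra hcon
    push Not at hcon
    have h4 : K * (2 * l ^ 2 + 2.08) < (X * l ^ 2 / 4 - 300 * X * l) * (2 * l ^ 2 + 2.08) :=
      mul_lt_mul_of_pos_right hcon (by positivity)
    have h5 : (X * l ^ 2 / 4 - 300 * X * l) * (2 * l ^ 2 + 2.08)
        = X * (l ^ 4 / 2 - 600 * l ^ 3 + 0.52 * l ^ 2 - 624 * l) := by ring
    have h6 : X * (l ^ 4 - 7 * l ^ 3) / 2 - 384 * X * (1 + l ^ 2)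
        = X * (l ^ 4 / 2 - 3.5 * l ^ 3 - 384 - 384 * l ^ 2) := by ring
    rw [h5] at h4
    rw [h6] at h3
    have h7 : X * (l ^ 4 / 2 - 3.5 * l ^ 3 - 384 - 384 * l ^ 2)
        < X * (l ^ 4 / 2 - 600 * l ^ 3 + 0.52 * l ^ 2 - 624 * l) := lt_of_le_of_lt h3 h4
    have h8 := lt_of_mul_lt_mul_left h7 hx3.le
    have h9 : l ^ 2 * 2 ≤ l ^ 3 := by nlinarith [sq_nonneg l]
    have h10 : 4 ≤ l ^ 2 := by nlinarith
    nlinarith
  · have h3 : (n : ℝ) ^ 3 * l ^ 2 / 4 ≤ 300 * (n : ℝ) ^ 3 * l := by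
      have h4 : l ^ 2 ≤ 2 * l := by nlinarith
      have h5 : (n : ℝ) ^ 3 * l ^ 2 ≤ (n : ℝ) ^ 3 * (2 * l) := mul_le_mul_of_nonneg_left h4 hx3.le
      have h6 : 0 ≤ (n : ℝ) ^ 3 * l := by positivity
      linarith
    linarith

end Pool.Agent.Helper39.QM
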