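import Pool.Agent.Helper39.QM.Final
import Pool.Agent.Helper39.QM.M_Area
import Pool.Agent.Helper39.QM.M_Crude
import Pool.Agent.Helper39.QM.M_Expa
import Pool.Agent.Helper39.QM.M_Four
import Pool.Agent.Helper39.QM.M_Gol
import Pool.Agent.Helper39.QM.M_Grow
import Pool.Agent.Helper39.QM.M_Kern
import Pool.Agent.Helper39.QM.M_Lowex
import Pool.Agent.Helper39.QM.M_Ltwo
import Pool.Agent.Helper39.QM.M_Max
import Pool.Agent.Helper39.QM.M_Real
import Pool.Agent.Helper39.QM.M_Slit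
import Pool.Agent.Helper39.QM.M_Step
import Pool.Agent.Helper39.QM.M_StepA
import Pool.Agent.Helper39.QM.M_Tlow

/-!
# QM: everything together
-/

set_option autoImplicit false

namespace Pool.Agent.Helper39.QM

open Pool.Agent.Helper64.C3

theorem mods : Mods where
  area := area
  grow := grow
  max := max omit_value slit
  gol := gol step
  stepA := stepA
  ltwo := ltwo
  expa := expa coef
  real := real kern four coef
  crude := crude grow

theorem T1_full :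
    (∃ C : ℝ, ∀ n : ℕ, 2 ≤ n → ∀ f : ℂ → ℂ, ClassS f →
      |(n : ℝ) - ‖coeff n f‖| ≤ C * (n : ℝ) ^ 3 * (2 - ‖coeff 2 f‖)) ∧
    (∀ n : ℕ, 2 ≤ n → ∀ K : ℝ, (∀ f : ℂ → ℂ, ClassS f →
      |(n : ℝ) - ‖coeff n f‖| ≤ K * (2 - ‖coeff 2 f‖)) → (n : ℝ) * ((n : ℝ) ^ 2 - 1) / 6 ≤ K) :=
  T1 mods lowex

theorem T2_full : ∃ C : ℝ, ∀ n : ℕ, 2 ≤ n → ∃ c : ℝ, IsLUB (ratios n) c ∧
    |c - (n : ℝ) ^ 3 * Real.log n / 4| ≤ C * (n : ℝ) ^ 3 * Real.sqrt (Real.log n) :=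
  T2 mods tlow

end Pool.Agent.Helper39.QM
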