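import Pool.Agent.Helper39.QM.Basic

/-!
# QM: the core estimates for the normalised function, Theorem T1 (upper bound)
-/

set_option autoImplicit false

open Metric Set Filter Topology
open scoped ComplexConjugate

namespace Pool.Agent.Helper39.QM

open Pool.Agent.Helper64.C3

/-- All modules used by the upper bounds. -/
structure Mods : Prop where
  area : StArea
  grow : StGrow
  max : StMax
  gol : StGol
  stepA : StA
  ltwo : StLtwo
  expa : StExpa
  real : StReal
  crude : StCrude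

theorem rh_pow {n m : ℕ} (hn : 2 ≤ n) (hm : m < n) : 1 ≤ 4 * rh n ^ (2 * m) := by
  have h2 : (2 : ℝ) ≤ n := by exact_mod_cast hn
  have hn0 : (0 : ℝ) < n := by linarith
  have hr0 : 0 < rh n := by
    unfold rh
    have : 1 / (2 * (n : ℝ)) ≤ 1 / 4 := one_div_le_one_div_of_le (by norm_num) (by linarith)
    linarith
  have hr1 : rh n ≤ 1 := by
    unfold rh
    have : 0 < 1 / (2 * (n : ℝ)) := by positivity
    linarith
  have h3 : 1 / 2 ≤ rh n ^ n := by
    have h4 := one_add_mul_le_pow (a := -(1 / (2 * (n : ℝ)))) (by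
      have : 1 / (2 * (n : ℝ)) ≤ 1 := by
        rw [div_le_one (by positivity)]; linarith
      linarith) n
    have h5 : 1 + (n : ℝ) * -(1 / (2 * (n : ℝ))) = 1 / 2 := by field_simp; norm_num
    rw [h5] at h4
    exact h4
  have h6 : rh n ^ (2 * n) ≤ rh n ^ (2 * m) := pow_le_pow_of_le_one hr0.le hr1 (by omega)
  have h7 : rh n ^ (2 * n) = (rh n ^ n) ^ 2 := by rw [← pow_mul, mul_comm]
  nlinarith

theorem core (H : Mods) {n : ℕ} (hn : 100 ≤ n) {F s : ℂ → ℂ} {D : ℝ} (hF : ClassS F)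
    (hs : IsS F s) (hD : D = 2 - ‖coeff 2 F‖)
    (hmax : ∀ z : ℂ, ‖z‖ ≤ rn n → ‖F z‖ ≤ ‖F (rn n : ℂ)‖)
    (hsmall : (n : ℝ) ^ 2 * D ≤ 1 / 1000000) :
    |(coeff n F).re - n| ≤ 8000 * (n : ℝ) ^ 3 * D ∧
    |(coeff n F).im| ≤ 32 * (n : ℝ) ^ 2 * Real.sqrt D ∧
    ‖s (rn n : ℂ) - ((1 / (n : ℝ) : ℝ) : ℂ)‖ ≤ 2 * Real.sqrt D := by
  have hn2 : 2 ≤ n := by omega
  have hnR : (100 : ℝ) ≤ n := by exact_mod_cast hn
  have hn0 : (0 : ℝ) < n := by linarith
  have hq := qdata H.area H.grow H.max H.gol hF hs hn2 hmax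
  rw [← hD] at hq
  have hD0 := hq.D0
  obtain ⟨a1, a2, a3⟩ := H.stepA n D s hq hn hsmall
  refine ⟨?_, ?_, a1⟩
  all_goals
    have hL2 := H.ltwo n D s hn2 hD0 hs.diff hs.zero hq.area a1 a2
    set Λ := ∑ m ∈ Finset.range n, ‖qq s m‖ with hΛ
    have hΛ0 : 0 ≤ Λ := Finset.sum_nonneg fun _ _ => norm_nonneg _
    have hΛ2 : Λ ^ 2 ≤ 240 * (n : ℝ) ^ 2 * D := by
      have c1 : Λ ^ 2 ≤ n * ∑ m ∈ Finset.range n, ‖qq s m‖ ^ 2 := by
        have := sq_sum_le_card_mul_sum_sq (s := Finset.range n) (f := fun m => ‖qq s m‖)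
        simpa using this
      have c2 : ∑ m ∈ Finset.range n, ‖qq s m‖ ^ 2
          ≤ 4 * ∑ m ∈ Finset.range n, ‖qq s m‖ ^ 2 * rh n ^ (2 * m) := by
        rw [Finset.mul_sum]
        apply Finset.sum_le_sum
        intro m hm
        have := rh_pow hn2 (Finset.mem_range.1 hm)
        nlinarith [sq_nonneg ‖qq s m‖, mul_le_mul_of_nonneg_left this (sq_nonneg ‖qq s m‖)]
      have c3 := hL2 n
      have c4 : (n : ℝ) * ∑ m ∈ Finset.range n, ‖qq s m‖ ^ 2 ≤ n * (4 * (60 * n * D)) :=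
        mul_le_mul_of_nonneg_left (c2.trans (by linarith)) hn0.le
      nlinarith
    have hΛs : Λ ≤ 1 / 50 := by
      have : Λ ^ 2 ≤ (1 / 50) ^ 2 := by
        refine hΛ2.trans ?_
        nlinarith
      exact (abs_le_of_sq_le_sq' this (by norm_num)).2
    have hE := H.expa F s n hF hs (by omega) (by rw [← hΛ]; linarith)
    rw [← hΛ] at hE
    have hE2 : ‖coeff n F - (n - 2 * ∑ m ∈ Finset.range n, ((n : ℂ) - m) * qq s m)‖
        ≤ 768 * (n : ℝ) ^ 3 * D := by
      refine hE.trans ?_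
      have c1 : Λ ^ 2 * (3 + 2 * Λ) / (1 - Λ) ^ 2 ≤ Λ ^ 2 * (16 / 5) := by
        rw [div_le_iff₀ (by nlinarith)]
        have c0 : 3 + 2 * Λ ≤ 16 / 5 * (1 - Λ) ^ 2 := by nlinarith
        calc Λ ^ 2 * (3 + 2 * Λ) ≤ Λ ^ 2 * (16 / 5 * (1 - Λ) ^ 2) :=
              mul_le_mul_of_nonneg_left c0 (sq_nonneg _)
          _ = _ := by ring
      have c2 : Λ ^ 2 * (16 / 5) ≤ 240 * (n : ℝ) ^ 2 * D * (16 / 5) :=
        mul_le_mul_of_nonneg_right hΛ2 (by norm_num)
      calc (n : ℝ) * (Λ ^ 2 * (3 + 2 * Λ) / (1 - Λ) ^ 2)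
          ≤ n * (240 * (n : ℝ) ^ 2 * D * (16 / 5)) :=
            mul_le_mul_of_nonneg_left (c1.trans c2) hn0.le
        _ = 768 * (n : ℝ) ^ 3 * D := by ring
    set L := ∑ m ∈ Finset.range n, ((n : ℂ) - m) * qq s m with hLdef
  · -- real part
    have hre : L.re = ∑ m ∈ Finset.range n, ((n : ℝ) - m) * (coeff m (QQ s)).re := by
      rw [hLdef, Complex.re_sum]
      apply Finset.sum_congr rfl
      intro m _
      rw [coeff_QQ hs.diff hs.zero]
      have : ((n : ℂ) - m) = (((n : ℝ) - m : ℝ) : ℂ) := by push_cast; rfl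
      rw [this, Complex.re_ofReal_mul]
    have hR := H.real n s (60 * n * D) hn2 hs.diff hs.zero hq.gol (by
      intro M
      have := hL2 M
      simpa only [coeff_QQ hs.diff hs.zero] using this)
    rw [← hre] at hR
    have hQ : (QQ s (rn n : ℂ)).re ≤ (n : ℝ) ^ 2 * D / 2 := by
      have e : QQ s (rn n : ℂ) = (n : ℝ) * (s (rn n : ℂ) - ((1 / (n : ℝ) : ℝ) : ℂ)) := by
        unfold QQ
        have e1 : (1 : ℂ) - (rn n : ℂ) = 1 / (n : ℂ) := by
          unfold rn; push_cast; ring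
        have hnC : (n : ℂ) ≠ 0 := by exact_mod_cast hn0.ne'
        rw [e1]
        push_cast
        field_simp
      rw [e, Complex.re_ofReal_mul]
      nlinarith
    have hR2 : |L.re| ≤ 3605 * (n : ℝ) ^ 3 * D := by
      refine hR.trans ?_
      have : 10 * (n : ℝ) * ((QQ s (rn n : ℂ)).re + 6 * n * (60 * n * D))
          ≤ 10 * n * ((n : ℝ) ^ 2 * D / 2 + 6 * n * (60 * n * D)) := by
        apply mul_le_mul_of_nonneg_left _ (by positivity)
        linarith
      refine this.trans (le_of_eq ?_)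
      ring
    have h1 := (Complex.abs_re_le_norm _).trans hE2
    have h2 : (coeff n F - (n - 2 * L)).re = (coeff n F).re - n + 2 * L.re := by
      simp
      ring
    rw [h2] at h1
    have h3 : (0 : ℝ) ≤ (n : ℝ) ^ 3 * D := by positivity
    rw [abs_le] at h1 hR2 ⊢
    constructor <;> nlinarith
  · -- imaginary part
    have hLn : ‖L‖ ≤ n * Λ := by
      rw [hLdef]
      refine (norm_sum_le _ _).trans ?_
      rw [hΛ, Finset.mul_sum]
      apply Finset.sum_le_sum
      intro m hm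
      have hm' : (m : ℝ) ≤ n := by exact_mod_cast (Finset.mem_range.1 hm).le
      rw [norm_mul]
      apply mul_le_mul_of_nonneg_right _ (norm_nonneg _)
      have : ((n : ℂ) - m) = (((n : ℝ) - m : ℝ) : ℂ) := by push_cast; rfl
      rw [this, Complex.norm_real, Real.norm_of_nonneg (by linarith)]
      have : (0 : ℝ) ≤ m := by positivity
      linarith
    set σ := Real.sqrt D with hσ
    have hσ0 : 0 ≤ σ := Real.sqrt_nonneg _
    have hσ2 : σ ^ 2 = D := Real.sq_sqrt hD0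
    have hΛ3 : Λ ≤ 31 / 2 * n * σ := by
      apply (abs_le_of_sq_le_sq' _ (by positivity)).2
      refine hΛ2.trans ?_
      rw [mul_pow, mul_pow, hσ2]
      nlinarith [mul_nonneg (sq_nonneg (n : ℝ)) hD0]
    have hnσ : (n : ℝ) * σ ≤ 1 / 1000 := by
      apply (abs_le_of_sq_le_sq' _ (by norm_num)).2
      rw [mul_pow, hσ2]
      norm_num
      linarith
    have h1 := (Complex.abs_im_le_norm _).trans hE2
    have h2 : (coeff n F - (n - 2 * L)).im = (coeff n F).im + 2 * L.im := by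
      simp
    rw [h2] at h1
    have h3 := Complex.abs_im_le_norm L
    have h4 : 768 * (n : ℝ) ^ 3 * D ≤ (n : ℝ) ^ 2 * σ := by
      rw [← hσ2]
      have : 768 * (n : ℝ) ^ 3 * σ ^ 2 = (n : ℝ) ^ 2 * σ * (768 * (n * σ)) := by ring
      rw [this]
      have h5 : (0 : ℝ) ≤ (n : ℝ) ^ 2 * σ := by positivity
      nlinarith
    have h6 : (n : ℝ) * Λ ≤ 31 / 2 * (n : ℝ) ^ 2 * σ := by
      calc (n : ℝ) * Λ ≤ n * (31 / 2 * n * σ) := mul_le_mul_of_nonneg_left hΛ3 hn0.le
        _ = _ := by ring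
    have h7 := h3.trans (hLn.trans h6)
    rw [abs_le] at h1 h7 ⊢
    constructor <;> nlinarith

/-- **T1, upper bound.** -/
theorem T1_upper (H : Mods) {n : ℕ} (hn : 2 ≤ n) {f : ℂ → ℂ} (hf : ClassS f) :
    |(n : ℝ) - ‖coeff n f‖| ≤ 1000000000 * (n : ℝ) ^ 3 * (2 - ‖coeff 2 f‖) := by
  have hn2 : (2 : ℝ) ≤ n := by exact_mod_cast hn
  have hn0 : (0 : ℝ) < n := by linarith
  have hb := bieb2 hf
  set D := 2 - ‖coeff 2 f‖ with hDdef
  have hD0 : 0 ≤ D := by linarith
  have hnD : 0 ≤ (n : ℝ) ^ 3 * D := by positivity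
  rcases lt_or_ge n 100 with h100 | h100
  · have h1 := theorem_Q2 hn hf
    rw [← hDdef] at h1
    have h2 : Real.log n ≤ 5 := by
      have a1 : (n : ℝ) ≤ 128 := by
        have : (n : ℝ) ≤ 100 := by exact_mod_cast h100.le
        linarith
      have a2 : Real.log n ≤ Real.log 128 := Real.log_le_log hn0 a1
      have a3 : Real.log 128 = 7 * Real.log 2 := by
        rw [show (128 : ℝ) = 2 ^ 7 by norm_num, Real.log_pow]; norm_num
      have a4 := Real.log_two_lt_d9
      linarith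
    refine h1.trans ?_
    have h3 : (n : ℝ) ^ 3 * D * Real.log n ≤ (n : ℝ) ^ 3 * D * 5 := mul_le_mul_of_nonneg_left h2 hnD
    nlinarith
  · have hc := H.crude f n hf hn
    rcases le_or_gt ((n : ℝ) ^ 2 * D) (1 / 1000000) with hsm | hbig
    · obtain ⟨u, hu, hmax⟩ := exists_max hf (rn_pos hn) (rn_lt hn)
      obtain ⟨s, hs⟩ := exists_isS hf
      have hF := classS_rot hf hu
      have hsF := isS_rot hs hu
      have hnorm : ∀ m, ‖coeff m (M6.rotf u f)‖ = ‖coeff m f‖ := by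
        intro m
        rw [coeff_rot hf hu, norm_mul, norm_mul, norm_inv, norm_pow, hu]
        simp
      obtain ⟨c1, c2, -⟩ := core H h100 (D := D) hF hsF (by rw [hnorm]) hmax hsm
      rw [← hnorm n]
      set a := coeff n (M6.rotf u f) with ha
      set σ := Real.sqrt D with hσ
      have hσ0 : 0 ≤ σ := Real.sqrt_nonneg _
      have hσ2 : σ ^ 2 = D := Real.sq_sqrt hD0
      have hsm2 : 8000 * (n : ℝ) ^ 3 * D ≤ n / 100 := by
        have : (n : ℝ) ^ 3 * D = n * ((n : ℝ) ^ 2 * D) := by ring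
        nlinarith
      have hre := abs_le.1 c1
      have hre2 : (n : ℝ) / 2 ≤ a.re := by linarith
      have hnorm2 : ‖a‖ ^ 2 = a.re ^ 2 + a.im ^ 2 := by
        rw [← Complex.normSq_eq_norm_sq, Complex.normSq_apply]; ring
      have h1 : a.re ≤ ‖a‖ := Complex.re_le_norm a
      have h2 : ‖a‖ - a.re ≤ 1024 * (n : ℝ) ^ 3 * D := by
        have h3 : (‖a‖ - a.re) * (‖a‖ + a.re) = a.im ^ 2 := by
          linear_combination hnorm2
        have h4 : (n : ℝ) ≤ ‖a‖ + a.re := by linarith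
        have h5 : a.im ^ 2 ≤ 1024 * (n : ℝ) ^ 4 * D := by
          have := sq_le_sq' (abs_le.1 c2).1 (abs_le.1 c2).2
          refine this.trans (le_of_eq ?_)
          rw [mul_pow, hσ2]; ring
        have h6 : (‖a‖ - a.re) * n ≤ (1024 * (n : ℝ) ^ 3 * D) * n := by
          calc (‖a‖ - a.re) * n ≤ (‖a‖ - a.re) * (‖a‖ + a.re) :=
                mul_le_mul_of_nonneg_left h4 (by linarith)
            _ = a.im ^ 2 := h3
            _ ≤ _ := h5
            _ = _ := by ring
        exact le_of_mul_le_mul_right h6 hn0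
      rw [abs_le]
      constructor <;> nlinarith
    · have h1 : |(n : ℝ) - ‖coeff n f‖| ≤ 6 * n := by
        rw [abs_le]
        constructor <;> linarith [norm_nonneg (coeff n f)]
      refine h1.trans ?_
      have : (n : ℝ) ^ 3 * D = n * ((n : ℝ) ^ 2 * D) := by ring
      nlinarith

end Pool.Agent.Helper39.QM
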