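import Pool.Agent.Helper39.QM.Upper2
import Pool.Agent.Helper64.C3.LowerN

/-!
# QM: the two theorems
-/

set_option autoImplicit false

open Metric Set Filter Topology
open scoped ComplexConjugate

namespace Pool.Agent.Helper39.QM

open Pool.Agent.Helper64.C3

/-- **T1.** -/
theorem T1 (H : Mods) (HL : StLowex) :
    (∃ C : ℝ, ∀ n : ℕ, 2 ≤ n → ∀ f : ℂ → ℂ, ClassS f →
      |(n : ℝ) - ‖coeff n f‖| ≤ C * (n : ℝ) ^ 3 * (2 - ‖coeff 2 f‖)) ∧
    (∀ n : ℕ, 2 ≤ n → ∀ K : ℝ, (∀ f : ℂ → ℂ, ClassS f →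
      |(n : ℝ) - ‖coeff n f‖| ≤ K * (2 - ‖coeff 2 f‖)) → (n : ℝ) * ((n : ℝ) ^ 2 - 1) / 6 ≤ K) :=
  ⟨⟨1000000000, fun _ hn _ hf => T1_upper H hn hf⟩, fun n hn K hK => HL n K hn hK⟩

/-- **T2.** `c_n^* = n³ log n / 4 + O(n³ √(log n))`. -/
theorem T2 (H : Mods) (HL : StTlow) :
    ∃ C : ℝ, ∀ n : ℕ, 2 ≤ n → ∃ c : ℝ, IsLUB (ratios n) c ∧
      |c - (n : ℝ) ^ 3 * Real.log n / 4| ≤ C * (n : ℝ) ^ 3 * Real.sqrt (Real.log n) := by
  obtain ⟨C, hC0, hC⟩ := HL
  refine ⟨max C 8000000, ?_⟩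
  intro n hn
  have hn2 : (2 : ℝ) ≤ n := by exact_mod_cast hn
  have hn0 : (0 : ℝ) < n := by linarith
  have hlg0 : 0 ≤ Real.log n := Real.log_nonneg (by linarith)
  have hsl0 : 0 ≤ Real.sqrt (Real.log n) := Real.sqrt_nonneg _
  have hre : ∀ f : ℂ → ℂ, ClassS f → 0 ≤ (2 - coeff 2 f).re := by
    intro f hf
    have h1 := bieb2 hf
    have h2 := Complex.re_le_norm (coeff 2 f)
    simp only [Complex.sub_re, Complex.re_ofNat]
    linarith
  set U := (n : ℝ) ^ 3 * Real.log n / 4 + 8000000 * (n : ℝ) ^ 3 * Real.sqrt (Real.log n) with hU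
  have hU0 : 0 ≤ U := by positivity
  have hne : (ratios n).Nonempty := by
    refine ⟨_, fun z => z, classS_id, ?_, rfl⟩
    intro h
    have h1 := h (show (1 / 2 : ℂ) ∈ ball (0 : ℂ) 1 by
      rw [mem_ball_zero_iff]; norm_num)
    unfold koebe at h1
    norm_num at h1
  have hub : U ∈ upperBounds (ratios n) := by
    rintro x ⟨f, hf, -, rfl⟩
    have h1 := T2_upper H hn hf
    rw [← hU] at h1
    rcases (hre f hf).eq_or_lt with h0 | h0
    · rw [← h0, div_zero]; exact hU0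
    · rw [div_le_iff₀ h0]; exact h1
  obtain ⟨c, hc⟩ := Real.exists_isLUB hne ⟨U, hub⟩
  refine ⟨c, hc, ?_⟩
  have hcU : c ≤ U := hc.2 hub
  have hlow : (n : ℝ) ^ 3 * Real.log n / 4 - C * (n : ℝ) ^ 3 * Real.sqrt (Real.log n) ≤ c := by
    apply hC n c hn
    intro f hf
    rcases (hre f hf).eq_or_lt with h0 | h0
    · have h1 := T2_upper H hn hf
      rw [← h0, mul_zero] at h1 ⊢
      exact h1
    · by_cases hk : EqOn f koebe (ball 0 1)
      · have e1 : coeff 2 f = coeff 2 koebe := coeff_congr hk 2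
        rw [e1, coeff_koebe] at h0
        simp at h0
      · have h1 : |((n : ℂ) - coeff n f).re| / (2 - coeff 2 f).re ∈ ratios n := ⟨f, hf, hk, rfl⟩
        have h2 := hc.1 h1
        rwa [div_le_iff₀ h0] at h2
  have hM1 : C ≤ max C 8000000 := le_max_left _ _
  have hM2 : (8000000 : ℝ) ≤ max C 8000000 := le_max_right _ _
  have hX : 0 ≤ (n : ℝ) ^ 3 * Real.sqrt (Real.log n) := by positivity
  have h1 := mul_le_mul_of_nonneg_right hM1 hX
  have h2 := mul_le_mul_of_nonneg_right hM2 hX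
  rw [abs_le]
  constructor <;> nlinarith

end Pool.Agent.Helper39.QM
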