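import Pool.Agent.Helper64.C3.Defs
import Mathlib

/-!
# QM: sharp order results for the coefficients near the Koebe function

Project statements. `ClassS`, `coeff`, `koebe` are those of `Helper64.C3`.

Notation of all proofs below: `f ∈ S`, `s(z) = √(z / f(z))`, `s(0) = 1`, `s(z) = 1 - z + ε(z)`,
`ε(z) = Σ_{j ≥ 1} e_j z^j`, `q_m = e_1 + ... + e_m`, `Q(z) = ε(z)/(1-z) = Σ q_m z^m`,
`r = 1 - 1/n`, `ρ = 1 - 1/(2n)`, `D ≥ 0` with `Σ_{j ≥ 2} (2j-1) |e_j|^2 ≤ D` (for `f ∈ S` one takes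
`D = 2 - |a_2|`).
-/

set_option autoImplicit false

open Metric Set Filter Topology
open scoped ComplexConjugate

namespace Pool.Agent.Helper39.QM

open Pool.Agent.Helper64.C3

/-- `s = √(z / f)` -/
structure IsS (f s : ℂ → ℂ) : Prop where
  diff : DifferentiableOn ℂ s (ball 0 1)
  zero : s 0 = 1
  eq : ∀ z ∈ ball (0 : ℂ) 1, f z * s z ^ 2 = z

/-- The coefficients `e_j` of `ε = s - 1 + z` (`e_0 = 0`). -/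
noncomputable def ee (s : ℂ → ℂ) (j : ℕ) : ℂ :=
  if j = 0 then 0 else if j = 1 then 1 + coeff 1 s else coeff j s

/-- `q_m = e_0 + e_1 + ... + e_m`. -/
noncomputable def qq (s : ℂ → ℂ) (m : ℕ) : ℂ := ∑ j ∈ Finset.range (m + 1), ee s j

/-- `Q = ε / (1 - z) = s / (1 - z) - 1`. -/
noncomputable def QQ (s : ℂ → ℂ) (z : ℂ) : ℂ := s z / (1 - z) - 1

/-- `r = 1 - 1/n` -/
noncomputable def rn (n : ℕ) : ℝ := 1 - 1 / (n : ℝ)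

/-- `ρ = 1 - 1/(2n)` -/
noncomputable def rh (n : ℕ) : ℝ := 1 - 1 / (2 * (n : ℝ))

/-- `x = r / ρ = (2n-2)/(2n-1)` -/
noncomputable def xn (n : ℕ) : ℝ := (2 * (n : ℝ) - 2) / (2 * (n : ℝ) - 1)

/-- `G(t) = (1+|t|²)/(1-|t|²)` -/
noncomputable def GG (t : ℂ) : ℝ := (1 + ‖t‖ ^ 2) / (1 - ‖t‖ ^ 2)

/-! ## Module AREA

Area theorem for the odd square root transform. For `w ≠ 0` in the disc put `G(w) = s(w²)/w`; then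
`G(w)² f(w²) = 1`, so `G` is injective on the punctured disc (as in the end of the proof of
`Helper80.Bieb.bieberbach`, where `InjOn (FF β T)` is proved), and `G(w) = 1/w + σ_1 w + σ_2 w³ + ...`
with `σ_j = coeff j s`. Take over `Helper80/Bieb/{Mean,AreaLower,AreaUpper,Area,Main}`: they prove
`‖b‖ ≤ 1` for `FF b T (z) = 1/z + b z + z² T(z)`; only the lower bound of the circle mean has to be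
improved. For `e` holomorphic with `e 0 = 0` and its Taylor polynomial `p` of degree `< K`
(coefficients `p_k`, `1 ≤ k < K`),
`circleAverage |-z⁻² + b + e(z)|² ≥ r⁻⁴ + |b|² + Σ_{1≤k<K} |p_k|² r^{2k}`:
with `X = -z⁻² + b + e`, `Y = -z⁻² + b + p`, use `|X|² ≥ |Y|² + 2 Re((X - Y) conj Y)`; on `|z| = r` one
has `conj Y = -z²/r⁴ + conj b + Σ conj(p_k) r^{2k} z^{-k}` and `X - Y = e - p` is `z^K ·` holomorphic,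
so the cross term is the real part of a holomorphic function vanishing at `0` and its mean is `0`;
the mean of `|Y|²` is `r⁻⁴ + |b|² + Σ |p_k|² r^{2k}` (the cross terms with `z⁻²` also vanish since `p`
and `b` carry exponents `≥ 0`). (Alternatively use Parseval `Helper64.C3.ub_parseval` for
`z² X(z)`.) Here `b = σ_1`, `p_{2j-2} = (2j-1) σ_j` (derivative of `σ_j z^{2j-1}`), other `p_k = 0`.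
Integrating over the ring `ρ < |z| < s` as in `AreaLower.area_lower` gives
`(1/ρ² - 1/s²) + Σ_{j≤N} (2j-1)|σ_j|² (s^{4j-2} - ρ^{4j-2}) ≤ (1/ρ + 2ρ²M)²`, and `ρ → 0`, `s → 1` (as in
`area_main`) give the claim. -/
def StArea : Prop := ∀ f s : ℂ → ℂ, ClassS f → IsS f s →
  ∀ N : ℕ, ∑ j ∈ Finset.Icc 1 N, (2 * (j : ℝ) - 1) * ‖coeff j s‖ ^ 2 ≤ 1

/-! ## Module GROW

Koebe growth theorem (upper bound). From `Helper64.C3`: for `R < 1` and `M` large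
`h(z) = f(Rz)/M` is an injective `SelfMap` with `deriv h 0 = R/M`. Use `exists_chain` (with `t → 1`, i.e.
`q = 2√t/(1+t) → 1`) and `KChain.lv` with `Cg → 1` (there `(1+(1-q)²)^m ≤ Cg p₀`; `q^m p₀ = R/M` gives
`m(1-q) ≤ log(M/R)`, hence `m (1-q)² → 0`): `‖h z‖/(1-‖h z‖)² ≤ Cg (R/M) ‖z‖/(1-‖z‖)²`, so
`‖f(Rz)‖ (1-‖z‖)² ≤ Cg R ‖z‖`. Let `Cg → 1`, then `R → 1`. -/
def StGrow : Prop := ∀ f : ℂ → ℂ, ClassS f → ∀ z : ℂ, ‖z‖ < 1 → ‖f z‖ * (1 - ‖z‖) ^ 2 ≤ ‖z‖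

/-! ## Module SLIT

`StOmit`: if `c ≠ 0` is omitted by `f ∈ S`, then `g = f/(1 - f/c) = c f/(c - f) ∈ S` has second
coefficient `a_2 + 1/c`, and `Helper80.Bieb.bieberbach` gives `|a_2 + 1/c| ≤ 2`.

`StSlit`: put `ρ = |z|`, `q = 4ρ/(1+ρ)² ∈ (0,1)`, `χ` with `|χ| = 1`, `z = -ρ χ`. The Pick map
`P = M6.pick q` (`M6 = Helper33.C3M6`, `koebe (P w) = q koebe w`, `P w = q w + (2q-2q²) w² + ...`, see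
`jet_pick`) omits `-ρ` because `koebe(-ρ) = -q/4` and `koebe` omits `-1/4` on the disc.
`F = rotf χ f`, `F(w) = χ⁻¹ f(χ w)` is in `S` (`classS_rot`) with `a_2(F) = χ a_2` and
`F(-ρ) = χ⁻¹ f(z)`. `g = F ∘ P / q ∈ S` has second coefficient `q χ a_2 + 2(1-q)` and omits `F(-ρ)/q`
(injectivity of `F`). `StOmit` gives `|q χ/f(z) + q χ a_2 + 2(1-q)| ≤ 2`, so
`q |1/f(z) + a_2| ≤ 2 + 2(1-q) = 4 - 2q` and `4/q - 2 = (1+ρ)²/ρ - 2 = ρ + 1/ρ`. -/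
def StOmit : Prop := ∀ f : ℂ → ℂ, ClassS f → ∀ c : ℂ, c ≠ 0 →
  (∀ z ∈ ball (0 : ℂ) 1, f z ≠ c) → ‖c⁻¹ + coeff 2 f‖ ≤ 2

def StSlit : Prop := ∀ f : ℂ → ℂ, ClassS f → ∀ z : ℂ, z ≠ 0 → ‖z‖ < 1 →
  ‖(f z)⁻¹ + coeff 2 f‖ ≤ ‖z‖ + ‖z‖⁻¹

/-! ## Module MAX (from OMIT and SLIT)

Let `|f(r)| = max_{|z| ≤ r} |f|`. First part: put `v = a_2/|a_2|` (`v = 1` if `a_2 = 0`),
`W = (r + 1/r - |a_2|) v`; `W ≠ 0` since `|a_2| ≤ 2 < r + 1/r`. `|W + a_2| = r + 1/r > 2`, so by `StOmit`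
(with `c = 1/W`) `1/W = f(z_1)` for some `z_1` in the disc, `z_1 ≠ 0`; `StSlit` gives
`r + 1/r ≤ |z_1| + 1/|z_1|`, so `|z_1| ≤ r` (`t + 1/t` is strictly decreasing on `(0,1]`), and the
maximum property gives `1/|W| ≤ |f(r)|`. Since `|s(r)|² |f(r)| = r`:
`|s(r)|² ≤ r |W| = 1 + r² - r |a_2| = (1-r)² + r (2-|a_2|)`.
Second part: `θ ↦ |s(r e^{iθ})|² = r/|f(r e^{iθ})|` has a minimum at `θ = 0`; its derivative there is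
`2 Re(conj(s) s' i r) = -2 r Im(s' conj s)`. -/
def StMax : Prop := ∀ (f s : ℂ → ℂ) (r : ℝ), ClassS f → IsS f s → 0 < r → r < 1 →
  (∀ z : ℂ, ‖z‖ ≤ r → ‖f z‖ ≤ ‖f (r : ℂ)‖) →
  ‖s (r : ℂ)‖ ^ 2 ≤ (1 - r) ^ 2 + r * (2 - ‖coeff 2 f‖) ∧
  (deriv s (r : ℂ) * conj (s (r : ℂ))).im = 0

/-! ## Module STEP (pure inequality)

Put `δ = 1-q`, `x = χ a²`, `y = χ b²` (`|x| = |a|² ≤ ρ`, `|y| ≤ ρ`), `A = 1/(1-ρ) ≥ 1`. `|1-qx| ≥ 1/A`.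
`α² = 1 - δ(1+x)/(1-qx)`; `Re α > 0` gives `|α+1| ≥ 1`, `|α-1| ≤ 2Aδ`, same for `β`; for `δ₀` small `Re α ≥ 3/4`.
`α² - β² = -δ(1+q)(x-y)/((1-qx)(1-qy))`, so with `κ = 2abδχ(1+q)/((α+β)(1-qx)(1-qy))` and
`γ = α + δχ(1+q) b(a-b)/((α+β)(1-qx)(1-qy))` one has (for all `a, b`)
`aα + bβ = (a+b) γ` and `(aα - bβ) = (a-b)(γ - κ)`. [Check: `(aα-bβ)(a+b) - (aα+bβ)(a-b) = 2ab(α-β)` and
`α-β = -δχ(1+q)(a-b)(a+b)/((α+β)(1-qx)(1-qy))`.] So (the factor `|(a+b)(a-b)|²` is common) it is enough: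
`|γ-κ|² G(aα) G(bβ) ≤ (1+Cδ²) |γ|² G(a) G(b)`. `|γ - 1| ≤ C₁ δ`, `|γ| ≥ 1/2`. Put `X = |a|/|1-qx|`,
`Y = |b|/|1-qy|` (`≤ A`): `|κ|/|γ| ≤ 2δXY(1+C₂δ)`, hence `|γ-κ|² ≤ |γ|² (1+2δXY(1+C₂δ))²`.
With `m = |α|²`, `m² = |q-x|²/|1-qx|²`: `1-m² = (1-q²)(1-|x|²)/|1-qx|²` exactly, `0 ≤ m ≤ 1`, so
`1-m ≥ (1-m²)/2 = δ(1-δ/2)(1-|x|²)/|1-qx|²` and `1-m ≤ 1-m² ≤ 2A²δ`. With `t = |a|² = |x|`:
`G(aα)/G(a) = 1 - 2t(1-m)/((1-tm)(1+t))` exactly, and `1/(1-tm) ≥ (1/(1-t)) (1 - (1-m)/(1-t))`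
(from `1-tm ≤ (1-t) + (1-m)`), so `G(aα) ≤ G(a) (1 - 2δX²(1-C₃δ))`; the same for `b`. Finally
`(1+2δXY(1+C₂δ))² (1-2δX²(1-C₃δ)) (1-2δY²(1-C₃δ)) ≤ exp(4δXY - 2δX² - 2δY² + C₄δ²) ≤ exp(C₄δ²) ≤ 1+2C₄δ²`. -/
def StStep : Prop := ∀ ρ : ℝ, 0 < ρ → ρ < 1 → ∃ C δ₀ : ℝ, 0 < C ∧ 0 < δ₀ ∧ δ₀ < 1 ∧
  ∀ (q : ℝ) (χ a b α β : ℂ), 1 - δ₀ ≤ q → q < 1 → ‖χ‖ = 1 → ‖a‖ ^ 2 ≤ ρ → ‖b‖ ^ 2 ≤ ρ →
    α ^ 2 = (q - χ * a ^ 2) / (1 - q * χ * a ^ 2) → 0 < α.re →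
    β ^ 2 = (q - χ * b ^ 2) / (1 - q * χ * b ^ 2) → 0 < β.re →
    ‖(a * α - b * β) * (a + b)‖ ^ 2 * (GG (a * α) * GG (b * β))
      ≤ (1 + C * (1 - q) ^ 2) * (‖(a * α + b * β) * (a - b)‖ ^ 2 * (GG a * GG b))

/-! ## Module GOL (from STEP)

Goluzin type inequality for the odd square root transform. If `w² = v²` the left side is `0`; let
`w² ≠ v²`, `ρ < 1` with `|w|², |v|² ≤ ρ`. Fix `R < 1`, `M > 0` with `h(z) = f(Rz)/M` an injective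
`SelfMap`, `deriv h 0 = R/M`. For `t → 1` take the Koebe chain `exists_chain`: `q = 2√t/(1+t)`,
`H_{i+1}(z) = H_i(z) (q - χ_i H_i(z))/(1 - q χ_i H_i(z))`, `H_m = h` on the disc, `t ≤ p₀ ≤ 1`,
`q^m p₀ = R/M`, so `m(1-q) ≤ log(M/R)` and `m(1-q)² → 0` as `t → 1`. On `K = closedBall 0 ρ` define
continuous `η_i` with `η_i(z)² = dslope H_i 0 z` (`= H_i(z)/z`): `η_0` the principal root (`H_0(z)/z → 1`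
uniformly on `K` as `t → 1`: `near_id` gives `|H_0(z) - z| ≤ 3(1-p₀)/(1-|z|)`, and the Schwarz lemma for
`dslope`, or see the proof of `near_id`, gives `|dslope H_0 0 z - p₀| ≤ 2(1-p₀)/(1-|z|)`), and
`η_{i+1} = η_i ·` principal root of `(q-χ_iH_i)/(1-qχ_iH_i)` (`= 1 - O(1-q)`, real part positive).
`(η_m(z) s(Rz))² = R/M` on `K`, so `η_m(z) s(Rz) = κ` is constant on the preconnected `K`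
(`IsPreconnected.eq_or_eq_neg_of_sq_eq`). Put `a_i = w η_i(w²)`, `b_i = v η_i(v²)`: `a_i² = H_i(w²)`,
`b_i² = H_i(v²)`, `a_i² ≠ b_i²` by injectivity, `|a_i|² ≤ ρ` by Schwarz. `StStep` along the chain and
division by the non-zero `|a_i+b_i|²`, `|a_i-b_i|²` give by induction
`|a_m-b_m|² |a_0+b_0|² GG a_m GG b_m ≤ (1+C(1-q)²)^m |a_m+b_m|² |a_0-b_0|² GG a_0 GG b_0`,
and `a_m ∓ b_m = κ (w s(Rv²) ∓ v s(Rw²))/(s(Rw²) s(Rv²))`, `GG ≥ 1`. Let `t → 1` (`a_0 → w`, `b_0 → v`),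
then `R → 1`. -/
def StGol : Prop := ∀ f s : ℂ → ℂ, ClassS f → IsS f s → ∀ w v : ℂ, ‖w‖ < 1 → ‖v‖ < 1 →
  ‖(w * s (v ^ 2) - v * s (w ^ 2)) * (w + v)‖ ^ 2
    ≤ ‖(w * s (v ^ 2) + v * s (w ^ 2)) * (w - v)‖ ^ 2 * (GG w * GG v)

/-! ## The data of the normalised function -/

/-- Everything used about `s` in the modules A, LTWO, REAL below. -/
structure QData (n : ℕ) (D : ℝ) (s : ℂ → ℂ) : Prop where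
  diff : DifferentiableOn ℂ s (ball 0 1)
  zero : s 0 = 1
  D0 : 0 ≤ D
  area : ∀ N : ℕ, ∑ j ∈ Finset.Icc 2 N, (2 * (j : ℝ) - 1) * ‖coeff j s‖ ^ 2 ≤ D
  grow : ∀ z : ℂ, ‖z‖ < 1 → 1 - ‖z‖ ≤ ‖s z‖
  max : ‖s (rn n : ℂ)‖ ^ 2 ≤ (1 / (n : ℝ)) ^ 2 + D
  stat : (deriv s (rn n : ℂ) * conj (s (rn n : ℂ))).im = 0
  gol : ∀ w : ℂ, ‖w‖ < 1 →
    ‖(w * s (conj w ^ 2) - conj w * s (w ^ 2)) * (w + conj w)‖ * (1 - ‖w‖ ^ 2)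
      ≤ ‖(w * s (conj w ^ 2) + conj w * s (w ^ 2)) * (w - conj w)‖ * (1 + ‖w‖ ^ 2)

/-! ## Module STEPA

`n ≥ 100`, `η = n√D ≤ 1/1000` (from `n² D ≤ 10⁻⁶`), `r = 1-1/n`, `ξ = s(r)`, `c = ξ - 1/n = ε(r)`,
`T(z) = Σ_{j≥2} e_j z^j`, so `ε(z) = e_1 z + T(z)`. By Cauchy-Schwarz with the weights `2j-1` (finite sums
and a limit, or `tsum`):
`|T(r)| ≤ √(Dn/3)` (`Σ_{j≥2} r^{2j}/(2j-1) ≤ n/3`), and for `0 ≤ t ≤ r`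
`|T'(t)| ≤ n√D` (`j²/(2j-1) ≤ 2j/3` and `Σ_{j≥1} j r^{2j-2} = 1/(1-r²)² ≤ n²`).
`|ξ| ≤ √(1/n²+D) ≤ 1.001/n`, `|c| ≤ 2.001/n`, `r|e_1| ≤ |c| + √(Dn/3)`, so `|e_1| ≤ 0.021`,
`|ε'(r)| ≤ |e_1| + n√D ≤ 0.022`. Stationarity, `s' = -1 + ε'`: `Im ξ = -Im(ε'(r) conj ξ)`, so
`|Im ξ| ≤ |ε'(r)| |ξ| ≤ 0.023/n`.
`Re ξ > 0`: otherwise with `ρ' = 1-2/n`: `s(ρ') = 2/n + ε(ρ') = 1/n + ξ + (ε(ρ')-ε(r))`,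
`|ε(ρ')-ε(r)| ≤ |e_1|/n + √D ≤ 0.023/n` (mean value, `r-ρ' = 1/n`), `Re ξ ∈ [-1.001/n, 0]`, so
`|s(ρ')| ≤ 1.001/n + 0.023/n + 0.023/n < 2/n`, against `grow`.
Then: `max` says `2 Re c/n + |c|² ≤ D` (`|ξ|² = |1/n + c|²`), `grow` at `r` says `2 Re c/n + |c|² ≥ 0`. So
`Re c ≤ nD/2`, `Re c ≥ -n|c|²/2`. If `Re c < 0` then `|Re c| < 1/n` (as `Re ξ > 0`), so
`|Re c| ≤ (n/2)|Re c|² + (n/2)|Im c|² ≤ |Re c|/2 + (n/2)|Im c|²`, `|Re c| ≤ n|Im c|² ≤ 0.023|Im c|`.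
`|Im c| = |Im ξ| ≤ (|e_1| + n√D)(1.001/n)` with `|e_1| ≤ (|c|+√(Dn/3))/r`:
`|Im c| ≤ 0.011|c| + 1.2√D`. Hence `|c| ≤ |Re c| + |Im c| ≤ 1.03|Im c| + 0.001√D` and `|c| ≤ 2√D`; and
`|e_1| ≤ (2√D + √(Dn/3))/r ≤ √(nD)` (`n ≥ 100`). -/
def StA : Prop := ∀ (n : ℕ) (D : ℝ) (s : ℂ → ℂ), QData n D s → 100 ≤ n →
  (n : ℝ) ^ 2 * D ≤ 1 / 1000000 →
  ‖s (rn n : ℂ) - ((1 / (n : ℝ) : ℝ) : ℂ)‖ ≤ 2 * Real.sqrt D ∧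
  ‖ee s 1‖ ≤ Real.sqrt (n * D) ∧
  (s (rn n : ℂ) - ((1 / (n : ℝ) : ℝ) : ℂ)).re ≤ n * D / 2

/-! ## Module LTWO

`c = Σ_{j≥1} e_j r^j` (`= s(r) - 1/n`), so for `1 ≤ m ≤ J` and `c_J = Σ_{j≤J} e_j r^j → c`:
`q_m = c_J + e_1(1-r) + Σ_{2≤j≤m} e_j(1-r^j) - Σ_{m<j≤J} e_j r^j`, hence
`|q_m|² ≤ 4(|c_J|² + |e_1|²/n² + A_m² + B_m²)`. `(1-r^j)² ≤ 1-r^j ≤ j/n`, so by Cauchy-Schwarz with weights
`2j-1`: `A_m² ≤ D Σ_{2≤j≤m} (j/n)/(2j-1) ≤ D m/n`, and `B_m² ≤ D Σ_{m<j≤J} r^{2j}/(2j-1)`.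
`Σ_{m≥1} ρ^{2m} ≤ 1/(1-ρ) = 2n`, `Σ m ρ^{2m} ≤ 1/(1-ρ)² = 4n²`,
`Σ_{1≤m≤M} Σ_{m<j≤J} r^{2j}/(2j-1) ≤ Σ_j r^{2j} (j-1)/(2j-1) ≤ ½ Σ r^{2j} ≤ n/2`. With `|c|² ≤ 4D`,
`|e_1|² ≤ nD`: the sum is `≤ 4(2n·4D + 2n·D/n + 4nD + nD/2) ≤ 60 n D`. -/
def StLtwo : Prop := ∀ (n : ℕ) (D : ℝ) (s : ℂ → ℂ), 2 ≤ n → 0 ≤ D →
  DifferentiableOn ℂ s (ball 0 1) → s 0 = 1 →
  (∀ N : ℕ, ∑ j ∈ Finset.Icc 2 N, (2 * (j : ℝ) - 1) * ‖coeff j s‖ ^ 2 ≤ D) →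
  ‖s (rn n : ℂ) - ((1 / (n : ℝ) : ℝ) : ℂ)‖ ≤ 2 * Real.sqrt D →
  ‖ee s 1‖ ≤ Real.sqrt (n * D) →
  ∀ M : ℕ, ∑ m ∈ Finset.range M, ‖qq s m‖ ^ 2 * rh n ^ (2 * m) ≤ 60 * n * D

/-! ## Module EXPA

`f = koebe · (1+Q)⁻²` on the disc, `Q = s/(1-z) - 1`, `coeff m Q = q_m` (`coeff` of a product:
`iteratedDeriv_mul`, i.e. `coeff n (F*G) = Σ_{i ≤ n} coeff i F · coeff (n-i) G`). With the truncated norm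
`N(F) = Σ_{j<n} |coeff j F|` (submultiplicative), `Λ = N(Q) < 1`, `V = (1+Q)⁻¹`: `V = 1 - QV` so
`N(V) ≤ 1/(1-Λ)`; `(1+Q)⁻² = 1 - 2Q + R`, `R = Q²(3+2Q)V²`, `N(R) ≤ Λ²(3+2Λ)/(1-Λ)²`;
`coeff n (koebe·F) = Σ_{m<n} (n-m) coeff m F`. -/
def StExpa : Prop := ∀ (f s : ℂ → ℂ) (n : ℕ), ClassS f → IsS f s → 1 ≤ n →
  ∑ m ∈ Finset.range n, ‖qq s m‖ < 1 →
  ‖coeff n f - (n - 2 * ∑ m ∈ Finset.range n, ((n : ℂ) - m) * qq s m)‖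
    ≤ n * ((∑ m ∈ Finset.range n, ‖qq s m‖) ^ 2 * (3 + 2 * ∑ m ∈ Finset.range n, ‖qq s m‖)
        / (1 - ∑ m ∈ Finset.range n, ‖qq s m‖) ^ 2)

/-! ## Module KERN

`k(τ) = Σ_{m<n} b_m sin mτ`, `b_m = (n-m)ρ^{-m}`, `b_n = b_{n+1} = 0` (only for the second differences, i.e.
`c_N = b_{N-1} - 2b_N + b_{N+1}` for `N < n`, `c_n = b_{n-1}`); `b_m = Σ_{N>m} (N-m) c_N`, so
`k = Σ_{N=1}^{n} c_N k_N`, `k_N(τ) = Σ_{m<N} (N-m) sin mτ = (N sin τ - sin Nτ)/(4 sin²(τ/2))`.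
For `N < n`: `c_N = ρ^{-N}[(n-N)(1-ρ)²/ρ - (1-ρ)(1+ρ)/ρ]`, `|c_N| ≤ ρ^{-n}/n ≤ 2/n`
(`ρ^{-n} ≤ 2` by Bernoulli), `0 ≤ c_n ≤ 2`. For `0 < τ < π`: `0 ≤ k_N ≤ N sin τ/(2 sin²(τ/2))`
(`|sin Nτ| ≤ N sin τ`) and `|k_N| ≤ Σ (N-m) m sin τ ≤ N n² sin τ/6` (`N ≤ n`). With `Y = sin²(τ/2)`,
`1 - 2x cos τ + x² = (1-x)² + 4xY ≤ 1/n² + 4Y` (`1-x = 1/(2n-1)`), `x ≥ 2/3`:
`min(1/(2Y), n²/6)(1/n²+4Y) ≤ 13/6`, so `|k_N| ≤ N (13/4) P(τ)`, `P(τ) = x sin τ/(1-2x cos τ+x²)`, and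
`|k| ≤ ((2/n) Σ_{N<n} N + 2n)(13/4) P ≤ 10 n P`. -/
def StKern : Prop := ∀ (n : ℕ) (τ : ℝ), 2 ≤ n → 0 < τ → τ < Real.pi →
  |∑ m ∈ Finset.range n, ((n : ℝ) - m) * (rh n ^ m)⁻¹ * Real.sin (m * τ)|
    ≤ 10 * n * (xn n * Real.sin τ / (1 - 2 * xn n * Real.cos τ + xn n ^ 2))

/-! ## Module FOUR -/

/-- `(Q(z) + Q(z̄))/2` at `z = ρ e^{iτ}` -/
noncomputable def Pm (Q : ℂ → ℂ) (ρ τ : ℝ) : ℂ := (Q (circleMap 0 ρ τ) + Q (circleMap 0 ρ (-τ))) / 2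

/-- `(Q(z) - Q(z̄))/(2i)` at `z = ρ e^{iτ}`: `Σ q_m ρ^m sin mτ` -/
noncomputable def Zm (Q : ℂ → ℂ) (ρ τ : ℝ) : ℂ :=
  (Q (circleMap 0 ρ τ) - Q (circleMap 0 ρ (-τ))) / (2 * Complex.I)

/-- (a) orthogonality of `sin mτ` on `(0, π)`; (b) with `Σ_{m≥1} x^m sin mτ = x sin τ/(1-2x cos τ+x²)`
(interchange by absolute convergence, or `hasSum_integral_of_summable...`); (c) Parseval,
`∫_0^π (|Pm|²+|Zm|²) = ½ ∫_{-π}^{π} |Q(ρe^{iτ})|² dτ = π Σ |q_m|² ρ^{2m}` (`Helper64.C3.ub_parseval` in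
`Helper96/C3UB.lean`). -/
def StFour : Prop := ∀ (Q : ℂ → ℂ) (ρ : ℝ), DifferentiableOn ℂ Q (ball 0 1) → 0 < ρ → ρ < 1 →
  (Continuous fun τ => Pm Q ρ τ) ∧ (Continuous fun τ => Zm Q ρ τ) ∧
  (∀ m : ℕ, 1 ≤ m → ∫ τ in (0 : ℝ)..Real.pi, (Zm Q ρ τ).re * Real.sin (m * τ)
      = Real.pi / 2 * ((coeff m Q).re * ρ ^ m)) ∧
  (∀ x : ℝ, 0 < x → x < 1 → ∫ τ in (0 : ℝ)..Real.pi,
      (Zm Q ρ τ).re * (x * Real.sin τ / (1 - 2 * x * Real.cos τ + x ^ 2))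
      = Real.pi / 2 * (Q ((x * ρ : ℝ) : ℂ) - Q 0).re) ∧
  (∀ B : ℝ, (∀ M : ℕ, ∑ m ∈ Finset.range M, ‖coeff m Q‖ ^ 2 * ρ ^ (2 * m) ≤ B) →
      ∫ τ in (0 : ℝ)..Real.pi, (‖Pm Q ρ τ‖ ^ 2 + ‖Zm Q ρ τ‖ ^ 2) ≤ Real.pi * B)

/-! ## Module REAL (from KERN and FOUR)

`Q = QQ s`, `ρ = rh n`, `x = xn n`, `xρ = rn n = r`. For `0 < τ < π` put `θ = τ/2`, `w = √ρ e^{iθ}`,
`α = (1-ρ)cos θ`, `β = (1+ρ) sin θ`. `s(z) = (1-z)(1+Q(z))`, `w̄(1-w²) = √ρ(α-iβ)`, so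
`w̄ s(w²) + w s(w̄²) = 2√ρ(α(1+P)+βZ)`, `w̄ s(w²) - w s(w̄²) = 2i√ρ(αZ - β(1+P))` with `P = Pm Q ρ τ`,
`Z = Zm Q ρ τ`. `gol` says `|αZ - β(1+P)| α ≤ |α(1+P)+βZ| β`; squared:
`Re(conj(1+P) Z) ≥ -((β²-α²)/(2αβ))|Z|²`, so `B = Re Z ≥ -e`, `e = |P||Z| + (β/(2α))|Z|²`, and
`|B| ≤ B + 2e`. Kernel `Px = x sin τ/(1-2x cos τ+x²)`: `0 ≤ Px ≤ 1/(2(1-x)) ≤ n`,
`Px β/(2α) ≤ (1+ρ)/(4(1-ρ)) ≤ n` (`1-2x cos τ+x² = (1-x)²+4x sin²θ`). With `L = Σ_{m<n} (n-m) Re q_m`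
(`q_m = coeff m Q`, `q_0 = 0`), by (a) `(π/2) L = ∫_0^π B k`, `k` the kernel of `StKern`, so
`(π/2)|L| ≤ 10n ∫ |B| Px ≤ 10n(∫ B Px + 2∫ e Px) ≤ 10n((π/2) Re Q(r) + 2n(3/2)∫(|P|²+|Z|²))
≤ 10n((π/2) Re Q(r) + 3nπ B')`, `B'` a bound of the partial sums of `Σ|q_m|²ρ^{2m}`. -/
def StReal : Prop := ∀ (n : ℕ) (s : ℂ → ℂ) (B' : ℝ), 2 ≤ n →
  DifferentiableOn ℂ s (ball 0 1) → s 0 = 1 →
  (∀ w : ℂ, ‖w‖ < 1 →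
    ‖(w * s (conj w ^ 2) - conj w * s (w ^ 2)) * (w + conj w)‖ * (1 - ‖w‖ ^ 2)
      ≤ ‖(w * s (conj w ^ 2) + conj w * s (w ^ 2)) * (w - conj w)‖ * (1 + ‖w‖ ^ 2)) →
  (∀ M : ℕ, ∑ m ∈ Finset.range M, ‖coeff m (QQ s)‖ ^ 2 * rh n ^ (2 * m) ≤ B') →
  |∑ m ∈ Finset.range n, ((n : ℝ) - m) * (coeff m (QQ s)).re|
    ≤ 10 * n * ((QQ s (rn n : ℂ)).re + 6 * n * B')

/-! ## Module COEF

`QQ s` is holomorphic, `coeff m (QQ s) = qq s m`, `QQ s 0 = 0`; products. -/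
def StCoef : Prop :=
  (∀ (F G : ℂ → ℂ) (n : ℕ), DifferentiableOn ℂ F (ball 0 1) → DifferentiableOn ℂ G (ball 0 1) →
    coeff n (fun z => F z * G z) = ∑ i ∈ Finset.range (n + 1), coeff i F * coeff (n - i) G) ∧
  (∀ (s : ℂ → ℂ), DifferentiableOn ℂ s (ball 0 1) → s 0 = 1 →
    ∀ m : ℕ, coeff m (QQ s) = qq s m)

/-! ## Module LOWEX (lower bound for the modulus problem)

`f_t = koebe/(1 + t koebe) = z/((1-z)²+tz)`, `0 < t < 4`, is in `S` (`koebe` is injective and omits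
`-1/t < -1/4`... for `0 < t ≤ 4`, `-1/t ∈ (-∞,-1/4]` is omitted); `f_t = koebe - t koebe² + t² koebe² f_t`,
so `coeff n f_t = n - t n(n²-1)/6 + t² coeff n (koebe² f_t)`, and the last coefficient is bounded for
`0 < t ≤ 1` (on `|z| = 1/2`: `|koebe| ≤ 2`, `|f_t| = |z|/|(1-z)²+tz|`, `Nn_lower` in `Helper64/C3/Growth`
with `4·(t/4)` gives `|(1-z)²+tz| ≥ (1-|z|)²`); `coeff 2 f_t = 2 - t`. The coefficients are real, positive for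
small `t`, so `K t ≥ n - |coeff n f_t| = t n(n²-1)/6 - O(t²)`; let `t → 0`. (`conv_koebe` in
`Helper64/C3/Lam`: the coefficients of `koebe²`.) -/
def StLowex : Prop := ∀ (n : ℕ) (K : ℝ), 2 ≤ n →
  (∀ f : ℂ → ℂ, ClassS f → |(n : ℝ) - ‖coeff n f‖| ≤ K * (2 - ‖coeff 2 f‖)) →
  (n : ℝ) * ((n : ℝ) ^ 2 - 1) / 6 ≤ K

/-! ## Module TLOW (sharp asymptotic lower bound for `c_n^*`)

`Helper64.C3.limit_ineq'` with `r = 1-1/n`, `α = 1/(8n²)`, and `psi2_split`: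
`psi2 = 12 K² z Lam² + (-log α) K² + Er α` (`K = koebe`). On `|z| = r`: `|4αK| ≤ 1/2`, so
`|rt α K| ≥ 1/2`, `Re rt > 0`, `W = pick α z = (rt-1)/(rt+1)`, `|W| ≤ 1/2`, `|Lam W| ≤ 2`,
`|Uf z α| ≤ 6√α`, `|Lam z| ≤ Σ r^k/(2k+1) ≤ 1 + log n`, `|Uf z 1| = 2|1-z||Lam z|`, so
`|Er α z| ≤ C |K|³ (α + √α |1-z| (1+log n))`; the circle mean of `|1-z|⁻⁴` is
`Σ (k+1)² r^{2k} ≤ 2/(1-r)³ = 2n³`, hence those of `|1-z|⁻⁵`, `|1-z|⁻⁶` are `≤ 2n⁴`, `≤ 2n⁵`, and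
`|ell n r (Er α)| ≤ 6 · mean ≤ C n³ (1 + log n)`. Main term: `12 mainc n`, `mainc` = convolution of
`K²` (coefficients `(i³-i)/6`) with `z Lam²`; `Σ_{j≤J} (Lam²)_j ≥ (Σ_{a≤J/2} 1/(2a+1))² ≥ (½ log(J/2))²`
(`lam_log`, `conv_lam_sum`), so for `J = ⌊n/√(log n)⌋`:
`12 mainc n ≥ 12 ((n-1-J)³-(n-1-J))/6 · ¼ log²(J/2) ≥ (n³/2)(log²n - C (log n)^{3/2})`. Altogether
`K (2 log n + log 8) ≥ (n³/2)(log² n - C (log n)^{3/2})`. (For small `n` the left side is `≤ 0` for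
large `C`, and `K ≥ n/2 ≥ 0` from `f(z) = z`.) -/
def StTlow : Prop := ∃ C : ℝ, 0 ≤ C ∧ ∀ (n : ℕ) (K : ℝ), 2 ≤ n →
  (∀ f : ℂ → ℂ, ClassS f → |((n : ℂ) - coeff n f).re| ≤ K * (2 - coeff 2 f).re) →
  (n : ℝ) ^ 3 * Real.log n / 4 - C * (n : ℝ) ^ 3 * Real.sqrt (Real.log n) ≤ K

/-! ## Module CRUDE

Crude coefficient bound `|a_n| ≤ C n` (e.g. `r^{-n}` times the mean `mean_bound` of
`Helper96/C3UB.lean` with `C = 1` from `StGrow`, `r = 1-1/n`; `inv_pow_le`). -/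
def StCrude : Prop := ∀ (f : ℂ → ℂ) (n : ℕ), ClassS f → 2 ≤ n → ‖coeff n f‖ ≤ 6 * n

end Pool.Agent.Helper39.QM
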