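import Pool.Agent.Helper39.QM.Core

/-!
# QM: Theorem T2 (upper bound)
-/

set_option autoImplicit false

open Metric Set Filter Topology
open scoped ComplexConjugate

namespace Pool.Agent.Helper39.QM

open Pool.Agent.Helper64.C3

/-- `|1 - u^k| ≤ k |1 - u|` on the unit circle -/
theorem norm_one_sub_pow_le {u : ℂ} (hu : ‖u‖ = 1) (k : ℕ) : ‖1 - u ^ k‖ ≤ k * ‖1 - u‖ := by
  induction k with
  | zero => simp
  | succ k ih =>
    have e : 1 - u ^ (k + 1) = (1 - u ^ k) + u ^ k * (1 - u) := by ring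
    rw [e]
    refine (norm_add_le _ _).trans ?_
    rw [norm_mul, norm_pow, hu, one_pow, one_mul]
    push_cast
    linarith

/-- the logarithmic sum -/
theorem log_sum_le {n : ℕ} (hn : 2 ≤ n) (N : ℕ) :
    ∑ j ∈ Finset.Icc 1 N, rn n ^ (2 * j) / (2 * (j : ℝ) - 1) ≤ Real.log (2 * n) / 2 := by
  have hr0 := rn_pos hn
  have hr1 := rn_lt hn
  have hn2 : (2 : ℝ) ≤ n := by exact_mod_cast hn
  have hn0 : (0 : ℝ) < n := by linarith
  have h := Real.hasSum_log_sub_log_of_abs_lt_one (x := rn n) (by rw [abs_of_pos hr0]; exact hr1)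
  have h1 : ∑ k ∈ Finset.range N, (2 : ℝ) * (1 / (2 * (k : ℝ) + 1)) * rn n ^ (2 * k + 1)
      ≤ Real.log (1 + rn n) - Real.log (1 - rn n) := by
    apply sum_le_hasSum _ _ h
    intro k _
    positivity
  have h2 : ∀ M : ℕ, 2 * ∑ j ∈ Finset.Icc 1 M, rn n ^ (2 * j) / (2 * (j : ℝ) - 1)
      ≤ ∑ k ∈ Finset.range M, (2 : ℝ) * (1 / (2 * (k : ℝ) + 1)) * rn n ^ (2 * k + 1) := by
    intro M
    induction M with
    | zero => simp
    | succ M ih =>
      rw [Finset.sum_Icc_succ_top (by omega), Finset.sum_range_succ]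
      have h3 : rn n ^ (2 * (M + 1)) / (2 * ((M + 1 : ℕ) : ℝ) - 1)
          ≤ (1 / (2 * (M : ℝ) + 1)) * rn n ^ (2 * M + 1) := by
        have e1 : 2 * ((M + 1 : ℕ) : ℝ) - 1 = 2 * (M : ℝ) + 1 := by push_cast; ring
        have e2 : rn n ^ (2 * (M + 1)) = rn n ^ (2 * M + 1) * rn n := by
          rw [show 2 * (M + 1) = 2 * M + 1 + 1 by ring, pow_succ]
        rw [e1, e2, one_div, inv_mul_eq_div]
        apply div_le_div_of_nonneg_right _ (by positivity)
        have := pow_nonneg hr0.le (2 * M + 1)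
        nlinarith
      linarith
  have h3 : Real.log (1 + rn n) - Real.log (1 - rn n) ≤ Real.log (2 * n) := by
    have e1 : 1 - rn n = 1 / (n : ℝ) := by unfold rn; ring
    rw [← Real.log_div (by linarith) (by linarith), e1]
    apply Real.log_le_log
    · positivity
    · rw [div_div_eq_mul_div, div_one]
      apply mul_le_mul_of_nonneg_right _ hn0.le
      linarith
  have h4 := (h2 N).trans (h1.trans h3)
  linarith

/-- the size of `ε` on the circle `|z| = r` -/
theorem eps_bound (HA : StArea) {f s : ℂ → ℂ} (hf : ClassS f) (hs : IsS f s) {n : ℕ} (hn : 2 ≤ n)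
    {z : ℂ} (hz : ‖z‖ = rn n) :
    ‖s z - 1 + z‖ ≤ Real.sqrt ((2 - coeff 2 f).re) * Real.sqrt (Real.log (2 * n) / 2) := by
  have hr0 := rn_pos hn
  have hr1 := rn_lt hn
  set DR := (2 - coeff 2 f).re with hDR
  set L := Real.log (2 * n) / 2 with hL
  have hsum := hasSum_ee hs.diff hs.zero (z := z) (by rw [hz]; exact hr1)
  have hpart : ∀ N : ℕ, ‖∑ j ∈ Finset.range N, ee s j * z ^ j‖ ≤ Real.sqrt DR * Real.sqrt L := by
    intro N
    have e0 : ee s 0 = 0 := by simp [ee]
    have h1 : ‖∑ j ∈ Finset.range N, ee s j * z ^ j‖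
        ≤ ∑ j ∈ Finset.Icc 1 (N + 1), ‖ee s j‖ * rn n ^ j := by
      refine (norm_sum_le _ _).trans ?_
      have h2 : ∑ j ∈ Finset.range N, ‖ee s j * z ^ j‖
          = ∑ j ∈ (Finset.range N).filter (fun j => 1 ≤ j), ‖ee s j * z ^ j‖ := by
        symm
        apply Finset.sum_filter_of_ne
        intro j _ hne
        by_contra hj
        have : j = 0 := by omega
        rw [this, e0] at hne
        simp at hne
      rw [h2]
      have h3 : ∀ j, ‖ee s j * z ^ j‖ = ‖ee s j‖ * rn n ^ j := by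
        intro j; rw [norm_mul, norm_pow, hz]
      simp only [h3]
      apply Finset.sum_le_sum_of_subset_of_nonneg
      · intro j hj
        rw [Finset.mem_filter, Finset.mem_range] at hj
        rw [Finset.mem_Icc]
        omega
      · intro j _ _
        positivity
    refine h1.trans ?_
    have h4 : ∑ j ∈ Finset.Icc 1 (N + 1), ‖ee s j‖ * rn n ^ j
        = ∑ j ∈ Finset.Icc 1 (N + 1), (Real.sqrt (2 * (j : ℝ) - 1) * ‖ee s j‖)
          * (rn n ^ j / Real.sqrt (2 * (j : ℝ) - 1)) := by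
      apply Finset.sum_congr rfl
      intro j hj
      have hj1 : (1 : ℝ) ≤ j := by exact_mod_cast (Finset.mem_Icc.1 hj).1
      have : 0 < Real.sqrt (2 * (j : ℝ) - 1) := Real.sqrt_pos.2 (by linarith)
      field_simp
    rw [h4]
    refine (Real.sum_mul_le_sqrt_mul_sqrt _ _ _).trans ?_
    apply mul_le_mul _ _ (Real.sqrt_nonneg _) (Real.sqrt_nonneg _)
    · apply Real.sqrt_le_sqrt
      refine le_trans (le_of_eq ?_) (area_ee HA hf hs (N := N + 1) (by omega))
      apply Finset.sum_congr rfl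
      intro j hj
      have hj1 : (1 : ℝ) ≤ j := by exact_mod_cast (Finset.mem_Icc.1 hj).1
      rw [mul_pow, Real.sq_sqrt (by linarith)]
    · apply Real.sqrt_le_sqrt
      refine le_trans (le_of_eq ?_) (log_sum_le hn (N + 1))
      apply Finset.sum_congr rfl
      intro j hj
      have hj1 : (1 : ℝ) ≤ j := by exact_mod_cast (Finset.mem_Icc.1 hj).1
      rw [div_pow, Real.sq_sqrt (by linarith), ← pow_mul, mul_comm j 2]
  exact le_of_tendsto' (hsum.tendsto_sum_nat.norm) hpart

/-- **T2, upper bound.** -/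
theorem T2_upper (H : Mods) {n : ℕ} (hn : 2 ≤ n) {f : ℂ → ℂ} (hf : ClassS f) :
    |((n : ℂ) - coeff n f).re| ≤ ((n : ℝ) ^ 3 * Real.log n / 4
      + 8000000 * (n : ℝ) ^ 3 * Real.sqrt (Real.log n)) * (2 - coeff 2 f).re := by
  have hn2 : (2 : ℝ) ≤ n := by exact_mod_cast hn
  have hn0 : (0 : ℝ) < n := by linarith
  have hb := bieb2 hf
  have hre2 : (coeff 2 f).re ≤ ‖coeff 2 f‖ := Complex.re_le_norm _
  set DR := (2 - coeff 2 f).re with hDRdef
  have hDR : DR = 2 - (coeff 2 f).re := by rw [hDRdef]; simp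
  set D := 2 - ‖coeff 2 f‖ with hDdef
  have hD0 : 0 ≤ D := by linarith
  have hDDR : D ≤ DR := by linarith
  have hDR0 : 0 ≤ DR := hD0.trans hDDR
  have hnD : 0 ≤ (n : ℝ) ^ 3 * DR := by positivity
  set lg := Real.log n with hlg
  have hlg0 : 0 ≤ lg := Real.log_nonneg (by linarith)
  have hsl0 : 0 ≤ Real.sqrt lg := Real.sqrt_nonneg _
  have hsl2 : Real.sqrt lg ^ 2 = lg := Real.sq_sqrt hlg0
  rcases lt_or_ge n 100 with h100 | h100
  · have h1 := theorem_U hn hf
    rw [← hDRdef, ← hlg] at h1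
    have h2 : lg ≤ 9 := by
      have a1 : (n : ℝ) ≤ 128 := by
        have : (n : ℝ) ≤ 100 := by exact_mod_cast h100.le
        linarith
      have a2 : Real.log n ≤ Real.log 128 := Real.log_le_log hn0 a1
      have a3 : Real.log 128 = 7 * Real.log 2 := by
        rw [show (128 : ℝ) = 2 ^ 7 by norm_num, Real.log_pow]; norm_num
      have a4 := Real.log_two_lt_d9
      linarith
    have h3 : lg ≤ 3 * Real.sqrt lg := by
      have : Real.sqrt lg ≤ 3 := by
        rw [Real.sqrt_le_left (by norm_num)]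
        norm_num; exact h2
      nlinarith
    have h4 : (n : ℝ) ^ 3 * DR * lg ≤ (n : ℝ) ^ 3 * DR * (3 * Real.sqrt lg) :=
      mul_le_mul_of_nonneg_left h3 hnD
    have h5 : 0 ≤ (n : ℝ) ^ 3 * DR * lg := mul_nonneg hnD hlg0
    have h6 : 0 ≤ (n : ℝ) ^ 3 * DR * Real.sqrt lg := mul_nonneg hnD hsl0
    refine h1.trans ?_
    have e1 : 20000 * (n : ℝ) ^ 3 * lg * DR = 20000 * ((n : ℝ) ^ 3 * DR * lg) := by ring
    have e2 : ((n : ℝ) ^ 3 * lg / 4 + 8000000 * (n : ℝ) ^ 3 * Real.sqrt lg) * DR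
        = ((n : ℝ) ^ 3 * DR * lg) / 4 + 8000000 * ((n : ℝ) ^ 3 * DR * Real.sqrt lg) := by ring
    rw [e1, e2]
    linarith
  · have hnR : (100 : ℝ) ≤ n := by exact_mod_cast h100
    have hlg1 : 1 ≤ lg := by
      rw [hlg, Real.le_log_iff_exp_le hn0]
      have := Real.exp_one_lt_d9
      linarith
    have hsl1 : 1 ≤ Real.sqrt lg := by
      rw [Real.one_le_sqrt]; exact hlg1
    have hc := H.crude f n hf hn
    rcases le_or_gt ((n : ℝ) ^ 2 * DR) (1 / 1000000) with hsm | hbig
    · obtain ⟨u, hu, hmax⟩ := exists_max hf (rn_pos hn) (rn_lt hn)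
      have hu0 : u ≠ 0 := by
        intro h; rw [h, norm_zero] at hu; exact zero_ne_one hu
      obtain ⟨s, hs⟩ := exists_isS hf
      have hF := classS_rot hf hu
      have hsF := isS_rot hs hu
      have hnorm : ∀ m, ‖coeff m (M6.rotf u f)‖ = ‖coeff m f‖ := by
        intro m
        rw [coeff_rot hf hu, norm_mul, norm_mul, norm_inv, norm_pow, hu]
        simp
      have hsmD : (n : ℝ) ^ 2 * D ≤ 1 / 1000000 :=
        (mul_le_mul_of_nonneg_left hDDR (by positivity)).trans hsm
      obtain ⟨c1, c2, c3⟩ := core H h100 (D := D) hF hsF (by rw [hnorm]) hmax hsmD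
      set a := coeff n (M6.rotf u f) with ha
      set σ := Real.sqrt DR with hσ
      have hσ0 : 0 ≤ σ := Real.sqrt_nonneg _
      have hσ2 : σ ^ 2 = DR := Real.sq_sqrt hDR0
      have hσD : Real.sqrt D ≤ σ := Real.sqrt_le_sqrt hDDR
      set L := Real.log (2 * n) / 2 with hLdef
      have hL : L = (Real.log 2 + lg) / 2 := by
        rw [hLdef, Real.log_mul (by norm_num) hn0.ne']
      have hl2 := Real.log_two_lt_d9
      have hl2' := Real.log_two_gt_d9
      have hL0 : 0 ≤ L := by rw [hL]; linarith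
      have hLlg : L ≤ lg := by rw [hL]; linarith
      have hsL : Real.sqrt L ≤ Real.sqrt lg := Real.sqrt_le_sqrt hLlg
      have hsL0 : 0 ≤ Real.sqrt L := Real.sqrt_nonneg _
      have hsL2 : Real.sqrt L ^ 2 = L := Real.sq_sqrt hL0
      -- the rotation angle
      have hz : ‖u * (rn n : ℂ)‖ = rn n := by
        rw [norm_mul, hu, one_mul, Complex.norm_real, Real.norm_of_nonneg (rn_pos hn).le]
      have heps := eps_bound H.area hf hs hn hz
      rw [← hDRdef, ← hσ, ← hLdef] at heps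
      set A := rn n * ‖1 - u‖ with hA
      have hA1 : A ≤ σ * (2 + Real.sqrt L) := by
        have e : (rn n : ℂ) * (1 - u) = (s (u * (rn n : ℂ)) - ((1 / (n : ℝ) : ℝ) : ℂ))
            - (s (u * (rn n : ℂ)) - 1 + u * (rn n : ℂ)) := by
          unfold rn; push_cast; ring
        have e2 : A = ‖(rn n : ℂ) * (1 - u)‖ := by
          rw [norm_mul, Complex.norm_real, Real.norm_of_nonneg (rn_pos hn).le]
        rw [e2, e]
        refine (norm_sub_le _ _).trans ?_
        have c3' : ‖s (u * (rn n : ℂ)) - ((1 / (n : ℝ) : ℝ) : ℂ)‖ ≤ 2 * Real.sqrt D := c3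
        nlinarith
      have hA0 : 0 ≤ A := by
        rw [hA]
        exact mul_nonneg (rn_pos hn).le (norm_nonneg _)
      have hnA : ((n : ℝ) - 1) * ‖1 - u‖ = n * A := by
        rw [hA]
        unfold rn
        field_simp
      -- the rotation back
      set v := (u ^ (n - 1))⁻¹ with hv
      have hvn : ‖v‖ = 1 := by rw [hv, norm_inv, norm_pow, hu]; simp
      have hav : coeff n f = v * a := by
        rw [ha, coeff_rot hf hu, hv]
        have : u ^ n = u * u ^ (n - 1) := by
          rw [← pow_succ']; congr 1; omega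
        rw [this]
        field_simp
      have h1v : ‖1 - v‖ ≤ n * A := by
        have e : ‖1 - v‖ = ‖1 - u ^ (n - 1)‖ := by
          have hun : u ^ (n - 1) ≠ 0 := pow_ne_zero _ hu0
          have e1 : 1 - v = -(v * (1 - u ^ (n - 1))) := by
            rw [hv]; field_simp; ring
          rw [e1, norm_neg, norm_mul, hvn, one_mul]
        rw [e, ← hnA]
        have := norm_one_sub_pow_le hu (n - 1)
        rw [Nat.cast_sub (by omega : 1 ≤ n)] at this
        simpa using this
      have hvre : 1 - v.re = ‖1 - v‖ ^ 2 / 2 := by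
        have e1 : ‖v‖ ^ 2 = v.re ^ 2 + v.im ^ 2 := by
          rw [← Complex.normSq_eq_norm_sq, Complex.normSq_apply]; ring
        have e2 : ‖1 - v‖ ^ 2 = (1 - v.re) ^ 2 + v.im ^ 2 := by
          rw [← Complex.normSq_eq_norm_sq, Complex.normSq_apply]; simp; ring
        rw [hvn] at e1
        rw [e2]; linarith
      have hvim : |v.im| ≤ ‖1 - v‖ := by
        have := Complex.abs_im_le_norm (1 - v)
        simpa using this
      have hvr : |v.re| ≤ 1 := by
        have := Complex.abs_re_le_norm v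
        rwa [hvn] at this
      have hmain : ((n : ℂ) - coeff n f).re
          = n * (1 - v.re) + v.re * (n - a.re) + v.im * a.im := by
        rw [hav]; simp; ring
      rw [hmain]
      have t1 : |(n : ℝ) * (1 - v.re)| ≤ (n : ℝ) ^ 3 * DR * ((2 + Real.sqrt L) ^ 2 / 2) := by
        rw [hvre, abs_of_nonneg (by positivity)]
        have h1 : ‖1 - v‖ ^ 2 ≤ (n * (σ * (2 + Real.sqrt L))) ^ 2 := by
          apply pow_le_pow_left₀ (norm_nonneg _)
          exact h1v.trans (mul_le_mul_of_nonneg_left hA1 hn0.le)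
        have h2 : (n : ℝ) * (‖1 - v‖ ^ 2 / 2) ≤ n * ((n * (σ * (2 + Real.sqrt L))) ^ 2 / 2) := by
          apply mul_le_mul_of_nonneg_left _ hn0.le
          linarith
        refine h2.trans (le_of_eq ?_)
        rw [← hσ2]; ring
      have t2 : |v.re * (n - a.re)| ≤ 8000 * (n : ℝ) ^ 3 * DR := by
        rw [abs_mul]
        have h1 : |(n : ℝ) - a.re| ≤ 8000 * (n : ℝ) ^ 3 * D := by rw [abs_sub_comm]; exact c1
        have h2 : 8000 * (n : ℝ) ^ 3 * D ≤ 8000 * (n : ℝ) ^ 3 * DR :=
          mul_le_mul_of_nonneg_left hDDR (by positivity)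
        calc |v.re| * |(n : ℝ) - a.re| ≤ 1 * (8000 * (n : ℝ) ^ 3 * DR) :=
              mul_le_mul hvr (h1.trans h2) (abs_nonneg _) zero_le_one
          _ = _ := one_mul _
      have t3 : |v.im * a.im| ≤ 32 * (n : ℝ) ^ 3 * DR * (2 + Real.sqrt L) := by
        rw [abs_mul]
        have h1 : |a.im| ≤ 32 * (n : ℝ) ^ 2 * σ :=
          c2.trans (mul_le_mul_of_nonneg_left hσD (by positivity))
        have h2 : |v.im| ≤ n * (σ * (2 + Real.sqrt L)) :=
          hvim.trans (h1v.trans (mul_le_mul_of_nonneg_left hA1 hn0.le))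
        refine (mul_le_mul h2 h1 (abs_nonneg _) (by positivity)).trans (le_of_eq ?_)
        rw [← hσ2]; ring
      have t4 := abs_add_three ((n : ℝ) * (1 - v.re)) (v.re * (n - a.re)) (v.im * a.im)
      refine t4.trans ?_
      have t5 : (2 + Real.sqrt L) ^ 2 / 2 + 8000 + 32 * (2 + Real.sqrt L)
          ≤ lg / 4 + 8000000 * Real.sqrt lg := by
        have e1 : (2 + Real.sqrt L) ^ 2 / 2 = 2 + 2 * Real.sqrt L + L / 2 := by
          rw [add_sq, hsL2]; ring
        rw [e1]
        linarith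
      calc |(n : ℝ) * (1 - v.re)| + |v.re * (n - a.re)| + |v.im * a.im|
          ≤ (n : ℝ) ^ 3 * DR * ((2 + Real.sqrt L) ^ 2 / 2) + 8000 * (n : ℝ) ^ 3 * DR
            + 32 * (n : ℝ) ^ 3 * DR * (2 + Real.sqrt L) := add_le_add (add_le_add t1 t2) t3
        _ = (n : ℝ) ^ 3 * DR * ((2 + Real.sqrt L) ^ 2 / 2 + 8000 + 32 * (2 + Real.sqrt L)) := by
            ring
        _ ≤ (n : ℝ) ^ 3 * DR * (lg / 4 + 8000000 * Real.sqrt lg) :=
            mul_le_mul_of_nonneg_left t5 hnD
        _ = _ := by ring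
    · have h1 : |((n : ℂ) - coeff n f).re| ≤ 7 * n := by
        refine (Complex.abs_re_le_norm _).trans ?_
        refine (norm_sub_le _ _).trans ?_
        rw [Complex.norm_natCast]
        linarith
      refine h1.trans ?_
      have h2 : (7 : ℝ) * n ≤ 7000000 * ((n : ℝ) ^ 3 * DR) := by
        have : (n : ℝ) ^ 3 * DR = n * ((n : ℝ) ^ 2 * DR) := by ring
        nlinarith
      have h3 : (n : ℝ) ^ 3 * DR ≤ (n : ℝ) ^ 3 * DR * Real.sqrt lg := by nlinarith
      have h4 : 0 ≤ (n : ℝ) ^ 3 * DR * lg := by positivity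
      nlinarith

end Pool.Agent.Helper39.QM
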